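import Pool.Agent.Work.MP_d5b3be_an.BN.Stmts2

/-!
# Block BN, item INE: solutions of different classes are not related
-/

set_option autoImplicit false

namespace Pool.Agent.Work.MP_d5b3be_an.BN

open MeasureTheory Filter Set
open scoped ENNReal Topology ContDiff

theorem INE_anti (hR : ROT) (m : ℕ) (t σ : ℝ) (u v : E3 → ℝ) (hv : Anti m v)
    (huv : u =ᵐ[volume] fun x => σ * v (rot t x)) : Anti m u := by
  obtain ⟨-, hadd, -, -, -, -, hmp, -, -⟩ := hR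
  have hqt := (hmp t).quasiMeasurePreserving
  have hqm := (hmp (Real.pi / m)).quasiMeasurePreserving
  have h1 : (fun x => u (rot (Real.pi / m) x)) =ᵐ[volume]
      fun x => σ * v (rot t (rot (Real.pi / m) x)) := hqm.ae_eq_comp huv
  have h2 : (fun x => v (rot (Real.pi / m) (rot t x))) =ᵐ[volume] fun x => -v (rot t x) :=
    hqt.ae_eq_comp hv
  have h3 : ∀ᵐ x ∂(volume : Measure E3), u (rot (Real.pi / m) x) = -u x := by
    filter_upwards [h1, h2, huv] with x e1 e2 e3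
    rw [e1, e3, hadd t, add_comm t, ← hadd (Real.pi / m), e2, mul_neg]
  exact h3

theorem INE_core (hLC : LCM) (hP : PRL) (hLO : LOW) (Ω : Set E3) (n m : ℕ) (lam R : ℝ)
    (u : E3 → ℝ) (hΩ : RI Ω) (hn : 1 ≤ n) (hnm : n < m) (hR : 0 < R)
    (hb : ∀ x ∈ Ω, x 0 ^ 2 + x 1 ^ 2 ≤ R ^ 2) (hlam : 0 < lam) (hle : lam * R ^ 2 ≤ (n : ℝ) ^ 2)
    (hs : IsSol Ω lam u) (hN : 64 * N6 u ^ 2 < (n : ℝ) ^ 2) (hA : Anti n u) : ¬ Anti m u := by
  intro hA'
  obtain ⟨h0, h6, g, hg, he⟩ := hs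
  obtain ⟨L, hL, hAL⟩ := hLC n m u hn hnm h0 hA hA'
  have hL1 : 1 ≤ L := by omega
  have h1 : HC (TestN Ω L) u g := hP Ω L u g hΩ hL1 hg hAL
  have hn0 : (0 : ℝ) ≤ (n : ℝ) := Nat.cast_nonneg n
  have hL' : 3 * (n : ℝ) ≤ (L : ℝ) := by exact_mod_cast hL
  have hLL : 9 * (n : ℝ) ^ 2 ≤ (L : ℝ) ^ 2 := by nlinarith
  have h2 := hLO Ω L lam R u g hL1 hR hb hlam (by nlinarith) h1 h6 h0 he
  have hn1 : (1 : ℝ) ≤ (n : ℝ) := by exact_mod_cast hn
  nlinarith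

theorem prfINE (hR : ROT) (hLC : LCM) (hP : PRL) (hLO : LOW) : INE := by
  intro Ω n m lam R t u v hΩ hn hnm hR0 hb hlam hle hs hN hA hAv
  have hcore := INE_core hLC hP hLO Ω n m lam R u hΩ hn hnm hR0 hb hlam hle hs hN hA
  refine ⟨fun h => hcore ?_, fun h => hcore ?_⟩
  · refine INE_anti hR m t 1 u v hAv ?_
    filter_upwards [h] with x hx
    rw [hx, one_mul]
  · refine INE_anti hR m t (-1) u v hAv ?_
    filter_upwards [h] with x hx
    rw [hx, neg_one_mul]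

end Pool.Agent.Work.MP_d5b3be_an.BN
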