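import Pool.Agent.Work.MP_d5b3be_an.BN.Stmts2

/-! Block BN, item LCM: two signs. -/

set_option autoImplicit false

namespace Pool.Agent.Work.MP_d5b3be_an.BN

open MeasureTheory Filter Set
open scoped ENNReal Topology ContDiff

/-- `u` is multiplied by `e` under the rotation by `t` -/
def LCM_P (u : E3 → ℝ) (t e : ℝ) : Prop := (fun x => u (rot t x)) =ᵐ[volume] fun x => e * u x

theorem LCM_zero (hR : ROT) (u : E3 → ℝ) : LCM_P u 0 1 := by
  unfold LCM_P
  refine Eventually.of_forall fun x => ?_
  show u (rot 0 x) = 1 * u x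
  rw [hR.1 x, one_mul]

theorem LCM_add (hR : ROT) {u : E3 → ℝ} {s t e d : ℝ} (h1 : LCM_P u s e) (h2 : LCM_P u t d) :
    LCM_P u (s + t) (e * d) := by
  obtain ⟨-, hadd, -, -, -, -, hmp, -, -⟩ := hR
  have h3 := (hmp t).quasiMeasurePreserving.ae_eq_comp h1
  unfold LCM_P at h2 ⊢
  filter_upwards [h3, h2] with x hx1 hx2
  have hx1' : u (rot s (rot t x)) = e * u (rot t x) := hx1
  rw [hadd s t x] at hx1'
  have hx2' : u (rot t x) = d * u x := hx2
  show u (rot (s + t) x) = e * d * u x
  rw [hx1', hx2']
  ring

theorem LCM_neg (hR : ROT) {u : E3 → ℝ} {t e : ℝ} (he : e * e = 1) (h : LCM_P u t e) :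
    LCM_P u (-t) e := by
  obtain ⟨h0, hadd, -, -, -, -, hmp, -, -⟩ := hR
  have h3 := (hmp (-t)).quasiMeasurePreserving.ae_eq_comp h
  unfold LCM_P
  filter_upwards [h3] with x hx
  have hx' : u (rot t (rot (-t) x)) = e * u (rot (-t) x) := hx
  rw [hadd, add_neg_cancel, h0] at hx'
  show u (rot (-t) x) = e * u x
  rw [hx', ← mul_assoc, he, one_mul]

theorem LCM_nat (hR : ROT) {u : E3 → ℝ} {t : ℝ} (h : LCM_P u t (-1)) (k : ℕ) :
    LCM_P u (k * t) ((-1) ^ k) := by
  induction k with
  | zero => simpa using LCM_zero hR u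
  | succ k ih =>
    have := LCM_add hR ih h
    rw [pow_succ]
    have e : ((k + 1 : ℕ) : ℝ) * t = k * t + t := by push_cast; ring
    rw [e]
    exact this

theorem LCM_even (hR : ROT) {u : E3 → ℝ} {t : ℝ} (h : LCM_P u t (-1)) (k : ℤ) :
    (Even k → LCM_P u (k * t) 1) ∧ (Odd k → LCM_P u (k * t) (-1)) := by
  rcases Int.eq_nat_or_neg k with ⟨j, rfl | rfl⟩
  · constructor
    · intro hk
      have hj : Even j := by exact_mod_cast hk
      have := LCM_nat hR h j
      rw [hj.neg_one_pow] at this
      simpa using this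
    · intro hk
      have hj : Odd j := by exact_mod_cast hk
      have := LCM_nat hR h j
      rw [hj.neg_one_pow] at this
      simpa using this
  · constructor
    · intro hk
      have hj : Even j := by exact_mod_cast (even_neg.1 hk)
      have := LCM_nat hR h j
      rw [hj.neg_one_pow] at this
      have h2 := LCM_neg hR (by norm_num) this
      have e : ((-(j : ℤ) : ℤ) : ℝ) * t = -((j : ℝ) * t) := by push_cast; ring
      rw [e]; exact h2
    · intro hk
      have hj : Odd j := by exact_mod_cast (odd_neg.1 hk)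
      have := LCM_nat hR h j
      rw [hj.neg_one_pow] at this
      have h2 := LCM_neg hR (by norm_num) this
      have e : ((-(j : ℤ) : ℤ) : ℝ) * t = -((j : ℝ) * t) := by push_cast; ring
      rw [e]; exact h2

theorem LCM_contra {u : E3 → ℝ} {t : ℝ} (hu : ¬ (u =ᵐ[volume] fun _ => 0)) (h1 : LCM_P u t 1)
    (h2 : LCM_P u t (-1)) : False := by
  apply hu
  unfold LCM_P at h1 h2
  filter_upwards [h1, h2] with x hx1 hx2
  linarith

theorem LCM_anti {n : ℕ} {u : E3 → ℝ} : Anti n u ↔ LCM_P u (Real.pi / n) (-1) := by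
  unfold Anti LCM_P
  simp only [neg_mul, one_mul]

theorem prfLCM (hR : ROT) : LCM := by
  intro n m u hn hnm hu hn1 hm1
  rw [LCM_anti] at hn1 hm1
  have hn0 : 0 < n := hn
  have hm0 : 0 < m := by omega
  have hg0 : 0 < Nat.gcd n m := Nat.gcd_pos_of_pos_left m hn0
  obtain ⟨n', m', hcop, hn', hm'⟩ := Nat.exists_coprime n m
  set g := Nat.gcd n m with hg
  have hn'0 : 0 < n' := by
    rcases Nat.eq_zero_or_pos n' with h | h
    · rw [h] at hn'; omega
    · exact h
  have hm'0 : 0 < m' := by
    rcases Nat.eq_zero_or_pos m' with h | h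
    · rw [h] at hm'; omega
    · exact h
  have hlt : n' < m' := by
    have : n' * g < m' * g := by rw [← hn', ← hm']; exact hnm
    exact lt_of_mul_lt_mul_right this (Nat.zero_le _)
  have hnr : (n : ℝ) = n' * g := by exact_mod_cast hn'
  have hmr : (m : ℝ) = m' * g := by exact_mod_cast hm'
  have hgr : (0 : ℝ) < g := by exact_mod_cast hg0
  have hn'r : (0 : ℝ) < n' := by exact_mod_cast hn'0
  have hm'r : (0 : ℝ) < m' := by exact_mod_cast hm'0
  refine ⟨n * m', ?_, ?_⟩
  · -- m' ≥ 3
    have h3 : 3 ≤ m' := by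
      by_contra hcon
      have hm2 : m' = 2 := by omega
      have hn1' : n' = 1 := by omega
      have e : ((2 : ℤ) : ℝ) * (Real.pi / m) = Real.pi / n := by
        rw [hnr, hmr, hm2, hn1']
        push_cast
        field_simp
      have h2 := (LCM_even hR hm1 2).1 (by decide)
      rw [e] at h2
      exact LCM_contra hu h2 hn1
    calc 3 * n ≤ m' * n := Nat.mul_le_mul_right n h3
      _ = n * m' := Nat.mul_comm _ _
  · rw [LCM_anti]
    have hbez : (m' : ℤ) * Nat.gcdA m' n' + (n' : ℤ) * Nat.gcdB m' n' = 1 := by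
      have := Nat.gcd_eq_gcd_ab m' n'
      rw [Nat.Coprime.gcd_eq_one hcop.symm] at this
      push_cast at this
      linarith
    set a := Nat.gcdA m' n'
    set b := Nat.gcdB m' n'
    have hbezr : (m' : ℝ) * a + n' * b = 1 := by exact_mod_cast hbez
    have e : Real.pi / ((n * m' : ℕ) : ℝ) = (a : ℝ) * (Real.pi / n) + (b : ℝ) * (Real.pi / m) := by
      push_cast
      rw [hmr, hnr]
      field_simp
      linarith
    have hL : ((m' : ℤ) : ℝ) * (Real.pi / ((n * m' : ℕ) : ℝ)) = Real.pi / n := by
      push_cast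
      rw [hnr]
      field_simp
    have ha := LCM_even hR hn1 a
    have hb := LCM_even hR hm1 b
    -- even case impossible
    have hkey : ¬ LCM_P u (Real.pi / ((n * m' : ℕ) : ℝ)) 1 := by
      intro h
      have h2 : ∀ k : ℕ, LCM_P u (k * (Real.pi / ((n * m' : ℕ) : ℝ))) 1 := by
        intro k
        induction k with
        | zero => simpa using LCM_zero hR u
        | succ k ih =>
          have := LCM_add hR ih h
          rw [mul_one] at this
          have e : ((k + 1 : ℕ) : ℝ) * (Real.pi / ((n * m' : ℕ) : ℝ)) =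
            k * (Real.pi / ((n * m' : ℕ) : ℝ)) + (Real.pi / ((n * m' : ℕ) : ℝ)) := by
              push_cast; ring
          rw [e]
          exact this
      have h3 := h2 m'
      have hL' : (m' : ℝ) * (Real.pi / ((n * m' : ℕ) : ℝ)) = Real.pi / n := by
        rw [← hL]; push_cast; ring
      rw [hL'] at h3
      exact LCM_contra hu h3 hn1
    rcases Int.even_or_odd a with hae | hao
    · rcases Int.even_or_odd b with hbe | hbo
      · exfalso
        apply hkey
        have := LCM_add hR (ha.1 hae) (hb.1 hbe)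
        rw [← e, one_mul] at this
        exact this
      · have := LCM_add hR (ha.1 hae) (hb.2 hbo)
        rw [← e, one_mul] at this
        exact this
    · rcases Int.even_or_odd b with hbe | hbo
      · have := LCM_add hR (ha.2 hao) (hb.1 hbe)
        rw [← e, mul_one] at this
        exact this
      · exfalso
        apply hkey
        have := LCM_add hR (ha.2 hao) (hb.2 hbo)
        rw [← e] at this
        norm_num at this
        push_cast
        exact this

end Pool.Agent.Work.MP_d5b3be_an.BN
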