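import Pool.Agent.Work.MP_d5b3be_an.BN.Stmts4

/-!
# Block BN: item NB2
-/

set_option autoImplicit false

namespace Pool.Agent.Work.MP_d5b3be_an.BN

open MeasureTheory Filter Set
open scoped ENNReal Topology ContDiff

theorem NB2_inv (x c : ℝ) (_hx0 : 0 ≤ x) (hx : x ≤ 1 / 10 ^ 60) (hc : 0 ≤ c) :
    c / (1 - x) ^ 2 ≤ (1 + 4 / 10 ^ 60) * c := by
  have h1 : 0 < 1 - x := by norm_num at *; linarith
  rw [div_le_iff₀ (by positivity)]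
  have h2 : 1 - 2 / 10 ^ 60 ≤ (1 - x) ^ 2 := by
    have : (1 - x) ^ 2 = 1 - 2 * x + x ^ 2 := by ring
    rw [this]
    have h3 : 0 ≤ x ^ 2 := by positivity
    norm_num at *
    linarith
  calc c ≤ (1 + 4 / 10 ^ 60) * c * (1 - 2 / 10 ^ 60) := by
        have h4 : (1 + 4 / 10 ^ 60) * c * (1 - 2 / 10 ^ 60) =
            ((1 + 4 / 10 ^ 60) * (1 - 2 / 10 ^ 60)) * c := by ring
        rw [h4]
        have h5 : (1 : ℝ) ≤ (1 + 4 / 10 ^ 60) * (1 - 2 / 10 ^ 60) := by norm_num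
        nlinarith
    _ ≤ (1 + 4 / 10 ^ 60) * c * (1 - x) ^ 2 :=
        mul_le_mul_of_nonneg_left h2 (by positivity)

/-- the numerical part -/
theorem NB2_main (R H T A V lam ρ n : ℝ) (hR : 0 < R) (hH : 0 < H) (hT : 0 < T) (hTH : T ≤ H)
    (hn : 2 ≤ n) (hHR : H ≤ R / 10 ^ 110) (hRn : R ≤ 10 ^ 15 * n * H) (hnR : n * H ≤ 10 ^ 14 * R)
    (hV : 0 < V) (hA : A = Real.pi / H) (hV4 : V ≤ 4 * A ^ 2 + 4 * (n / R) ^ 2) (hρ : 0 < ρ)
    (hρR : ρ < R) (hF : (Real.pi / T) ^ 2 + (n / ρ) ^ 2 ≤ (1 + 1 / 10 ^ 61) * V)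
    (hlam : (1 - 1 / n) ^ 2 * V ≤ lam) :
    10 ^ 10 * H ≤ ρ / 10 ^ 70 ∧
    4096 * Real.pi ^ 2 * ((Real.pi / (2 * (10 ^ 10 * H))) ^ 2 +
      (Real.pi / (2 * ((1 - 1 / 10 ^ 60) * (T / 2)))) ^ 2 +
      n ^ 2 / ((ρ - 10 ^ 10 * H) - 10 ^ 10 * H) ^ 2 - lam) ^ 3 *
      ((ρ - 10 ^ 10 * H) * (10 ^ 10 * H) * ((1 - 1 / 10 ^ 60) * (T / 2))) ^ 2 < n ^ 2 := by
  have hpi := Real.pi_pos
  have hpi3 : 3 < Real.pi := Real.pi_gt_three
  have hpi4 : Real.pi < 3.15 := Real.pi_lt_d2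
  have hA0 : 0 < A := by rw [hA]; positivity
  have hAH : A * H = Real.pi := by rw [hA]; field_simp
  have hn0 : 0 < n := by linarith
  have h1 : n / R ≤ 10 ^ 14 * A / 3 := by
    rw [div_le_iff₀ hR]
    refine le_of_mul_le_mul_right ?_ hH
    have e : 10 ^ 14 * A / 3 * R * H = 10 ^ 14 * R * ((A * H) / 3) := by ring
    rw [e, hAH]
    have : 10 ^ 14 * R * 1 ≤ 10 ^ 14 * R * (Real.pi / 3) :=
      mul_le_mul_of_nonneg_left (by linarith) (by positivity)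
    linarith
  have h2 : V ≤ 5 * 10 ^ 27 * A ^ 2 := by
    have h3 : (n / R) ^ 2 ≤ (10 ^ 14 * A / 3) ^ 2 := pow_le_pow_left₀ (by positivity) h1 2
    have h4 : (10 ^ 14 * A / 3) ^ 2 = 10 ^ 28 / 9 * A ^ 2 := by ring
    rw [h4] at h3
    have h5 : 0 < A ^ 2 := by positivity
    norm_num at *
    linarith
  have h3 : n / ρ ≤ 10 ^ 14 * A := by
    refine (pow_le_pow_iff_left₀ (by positivity) (by positivity) two_ne_zero).1 ?_
    have h4 : 0 ≤ (Real.pi / T) ^ 2 := by positivity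
    have h5 : (10 ^ 14 * A) ^ 2 = 10 ^ 28 * A ^ 2 := by ring
    rw [h5]
    norm_num at *
    linarith
  have h4 : n * H ≤ 4 * 10 ^ 14 * ρ := by
    have e : n * H = n / ρ * (ρ * H) := by field_simp
    rw [e]
    calc n / ρ * (ρ * H) ≤ 10 ^ 14 * A * (ρ * H) :=
          mul_le_mul_of_nonneg_right h3 (by positivity)
      _ = 10 ^ 14 * ρ * (A * H) := by ring
      _ = 10 ^ 14 * ρ * Real.pi := by rw [hAH]
      _ ≤ 10 ^ 14 * ρ * 4 := mul_le_mul_of_nonneg_left (by linarith) (by positivity)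
      _ = _ := by ring
  have h5 : R ≤ 10 ^ 30 * ρ := by
    have : 10 ^ 15 * n * H = 10 ^ 15 * (n * H) := by ring
    rw [this] at hRn
    norm_num at *
    linarith
  have h6 : 10 ^ 10 * H ≤ ρ / 10 ^ 70 := by
    norm_num at *
    linarith
  refine ⟨h6, ?_⟩
  obtain ⟨x, hx_def⟩ : ∃ x : ℝ, x = 2 * (10 ^ 10 * H) / ρ := ⟨_, rfl⟩
  have hx0 : 0 ≤ x := by rw [hx_def]; positivity
  have hx : x ≤ 1 / 10 ^ 60 := by
    rw [hx_def, div_le_iff₀ hρ]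
    norm_num at *
    linarith
  have e1 : (Real.pi / (2 * (10 ^ 10 * H))) ^ 2 = A ^ 2 / (4 * 10 ^ 20) := by
    rw [hA]; field_simp; norm_num
  have e2 : (Real.pi / (2 * ((1 - 1 / 10 ^ 60) * (T / 2)))) ^ 2 =
      (Real.pi / T) ^ 2 / (1 - 1 / 10 ^ 60) ^ 2 := by
    rw [← div_pow]
    congr 1
    rw [div_div]
    congr 1
    ring
  have e3 : n ^ 2 / ((ρ - 10 ^ 10 * H) - 10 ^ 10 * H) ^ 2 = (n / ρ) ^ 2 / (1 - x) ^ 2 := by
    rw [← div_pow, ← div_pow, div_div]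
    congr 2
    rw [hx_def]
    field_simp
    ring
  have i2 := NB2_inv (1 / 10 ^ 60) ((Real.pi / T) ^ 2) (by positivity) le_rfl (by positivity)
  have i3 := NB2_inv x ((n / ρ) ^ 2) hx0 hx (by positivity)
  have h7 : 1 / n ≤ 1 / 10 ^ 95 := by
    rw [div_le_div_iff₀ hn0 (by positivity)]
    have h8 : R ≤ n * (10 ^ 15 * (R / 10 ^ 110)) := by
      calc R ≤ 10 ^ 15 * n * H := hRn
        _ ≤ 10 ^ 15 * n * (R / 10 ^ 110) := mul_le_mul_of_nonneg_left hHR (by positivity)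
        _ = _ := by ring
    have h9 : n * (10 ^ 15 * (R / 10 ^ 110)) = (n / 10 ^ 95) * R := by ring
    rw [h9] at h8
    have h10 : 1 ≤ n / 10 ^ 95 := by
      by_contra hc
      have := mul_lt_mul_of_pos_right (not_le.1 hc) hR
      linarith
    rw [le_div_iff₀ (by positivity)] at h10
    linarith
  have h8 : (1 - 2 / 10 ^ 95) * V ≤ lam := by
    refine le_trans ?_ hlam
    apply mul_le_mul_of_nonneg_right _ hV.le
    have h9 : 0 ≤ (1 / n) ^ 2 := by positivity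
    have h10 : (1 - 1 / n) ^ 2 = 1 - 2 * (1 / n) + (1 / n) ^ 2 := by ring
    rw [h10]
    have h11 : (2 : ℝ) / 10 ^ 95 = 2 * (1 / 10 ^ 95) := by ring
    rw [h11]
    linarith
  have hX : (Real.pi / (2 * (10 ^ 10 * H))) ^ 2 +
      (Real.pi / (2 * ((1 - 1 / 10 ^ 60) * (T / 2)))) ^ 2 +
      n ^ 2 / ((ρ - 10 ^ 10 * H) - 10 ^ 10 * H) ^ 2 - lam ≤ 26 / 10 ^ 22 * A ^ 2 := by
    rw [e1, e2, e3]
    have h9 : (Real.pi / T) ^ 2 / (1 - 1 / 10 ^ 60) ^ 2 + (n / ρ) ^ 2 / (1 - x) ^ 2 ≤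
        (1 + 4 / 10 ^ 60) * ((1 + 1 / 10 ^ 61) * V) := by
      calc _ ≤ (1 + 4 / 10 ^ 60) * (Real.pi / T) ^ 2 + (1 + 4 / 10 ^ 60) * (n / ρ) ^ 2 :=
            add_le_add i2 i3
        _ = (1 + 4 / 10 ^ 60) * ((Real.pi / T) ^ 2 + (n / ρ) ^ 2) := by ring
        _ ≤ _ := mul_le_mul_of_nonneg_left hF (by positivity)
    have h10 : (1 + 4 / 10 ^ 60) * ((1 + 1 / 10 ^ 61) * V) ≤ (1 + 5 / 10 ^ 60) * V := by
      have : (1 + 4 / 10 ^ 60) * ((1 + 1 / 10 ^ 61) * V) =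
        ((1 + 4 / 10 ^ 60) * (1 + 1 / 10 ^ 61)) * V := by ring
      rw [this]
      apply mul_le_mul_of_nonneg_right _ hV.le
      norm_num
    have h11 : A ^ 2 / (4 * 10 ^ 20) = 25 / 10 ^ 22 * A ^ 2 := by ring
    rw [h11]
    have h12 : (1 + 5 / 10 ^ 60) * V - (1 - 2 / 10 ^ 95) * V ≤ 6 / 10 ^ 60 * V := by
      have : (1 + 5 / 10 ^ 60) * V - (1 - 2 / 10 ^ 95) * V =
        (5 / 10 ^ 60 + 2 / 10 ^ 95) * V := by ring
      rw [this]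
      apply mul_le_mul_of_nonneg_right _ hV.le
      norm_num
    have h13 : 6 / 10 ^ 60 * V ≤ 6 / 10 ^ 60 * (5 * 10 ^ 27 * A ^ 2) :=
      mul_le_mul_of_nonneg_left h2 (by positivity)
    have h14 : 6 / 10 ^ 60 * (5 * 10 ^ 27 * A ^ 2) ≤ 1 / 10 ^ 22 * A ^ 2 := by
      have : 6 / 10 ^ 60 * (5 * 10 ^ 27 * A ^ 2) = (6 / 10 ^ 60 * (5 * 10 ^ 27)) * A ^ 2 := by
        ring
      rw [this]
      apply mul_le_mul_of_nonneg_right _ (by positivity)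
      norm_num
    have h15 : 26 / 10 ^ 22 * A ^ 2 = 25 / 10 ^ 22 * A ^ 2 + 1 / 10 ^ 22 * A ^ 2 := by ring
    rw [h15]
    linarith
  have hX3 : ((Real.pi / (2 * (10 ^ 10 * H))) ^ 2 +
      (Real.pi / (2 * ((1 - 1 / 10 ^ 60) * (T / 2)))) ^ 2 +
      n ^ 2 / ((ρ - 10 ^ 10 * H) - 10 ^ 10 * H) ^ 2 - lam) ^ 3 ≤ (26 / 10 ^ 22 * A ^ 2) ^ 3 :=
    (Odd.pow_le_pow (by decide : Odd 3)).2 hX
  have hY : ((ρ - 10 ^ 10 * H) * (10 ^ 10 * H) * ((1 - 1 / 10 ^ 60) * (T / 2))) ^ 2 ≤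
      10 ^ 20 / 4 * R ^ 2 * H ^ 4 := by
    have k0 : 0 ≤ ρ - 10 ^ 10 * H := by norm_num at *; linarith
    have k1 : ρ - 10 ^ 10 * H ≤ R := by
      have : 0 < 10 ^ 10 * H := by positivity
      linarith
    have k2 : (1 - 1 / 10 ^ 60) * (T / 2) ≤ H / 2 := by
      calc (1 - 1 / 10 ^ 60) * (T / 2) ≤ 1 * (T / 2) :=
            mul_le_mul_of_nonneg_right (by norm_num) (by positivity)
        _ ≤ H / 2 := by linarith
    have k3 : 0 ≤ (1 - 1 / 10 ^ 60) * (T / 2) := mul_nonneg (by norm_num) (by positivity)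
    have k4 : (ρ - 10 ^ 10 * H) * (10 ^ 10 * H) * ((1 - 1 / 10 ^ 60) * (T / 2)) ≤
        R * (10 ^ 10 * H) * (H / 2) := by
      apply mul_le_mul _ k2 k3 (by positivity)
      exact mul_le_mul_of_nonneg_right k1 (by positivity)
    have k5 : 0 ≤ (ρ - 10 ^ 10 * H) * (10 ^ 10 * H) * ((1 - 1 / 10 ^ 60) * (T / 2)) :=
      mul_nonneg (mul_nonneg k0 (by positivity)) k3
    calc _ ≤ (R * (10 ^ 10 * H) * (H / 2)) ^ 2 := pow_le_pow_left₀ k5 k4 2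
      _ = _ := by ring
  have hpi6 : Real.pi ^ 8 ≤ 3.15 ^ 8 := pow_le_pow_left₀ hpi.le hpi4.le 8
  have hRH : (A * R) ^ 2 ≤ (Real.pi * (10 ^ 15 * n)) ^ 2 := by
    apply pow_le_pow_left₀ (by positivity)
    calc A * R ≤ A * (10 ^ 15 * n * H) := mul_le_mul_of_nonneg_left hRn hA0.le
      _ = (A * H) * (10 ^ 15 * n) := by ring
      _ = _ := by rw [hAH]
  calc _ ≤ 4096 * Real.pi ^ 2 * (26 / 10 ^ 22 * A ^ 2) ^ 3 *
        ((ρ - 10 ^ 10 * H) * (10 ^ 10 * H) * ((1 - 1 / 10 ^ 60) * (T / 2))) ^ 2 := by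
        apply mul_le_mul_of_nonneg_right _ (by positivity)
        exact mul_le_mul_of_nonneg_left hX3 (by positivity)
    _ ≤ 4096 * Real.pi ^ 2 * (26 / 10 ^ 22 * A ^ 2) ^ 3 * (10 ^ 20 / 4 * R ^ 2 * H ^ 4) :=
        mul_le_mul_of_nonneg_left hY (by positivity)
    _ = 1024 * (26 / 10 ^ 22) ^ 3 * 10 ^ 20 * Real.pi ^ 2 * (A * H) ^ 4 * (A * R) ^ 2 := by
        ring
    _ = 1024 * (26 / 10 ^ 22) ^ 3 * 10 ^ 20 * Real.pi ^ 6 * (A * R) ^ 2 := by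
        rw [hAH]; ring
    _ ≤ 1024 * (26 / 10 ^ 22) ^ 3 * 10 ^ 20 * Real.pi ^ 6 * (Real.pi * (10 ^ 15 * n)) ^ 2 :=
        mul_le_mul_of_nonneg_left hRH (by positivity)
    _ = 1024 * (26 / 10 ^ 22) ^ 3 * 10 ^ 20 * Real.pi ^ 8 * (10 ^ 15 * n) ^ 2 := by ring
    _ ≤ 1024 * (26 / 10 ^ 22) ^ 3 * 10 ^ 20 * 3.15 ^ 8 * (10 ^ 15 * n) ^ 2 := by
        apply mul_le_mul_of_nonneg_right _ (by positivity)
        exact mul_le_mul_of_nonneg_left hpi6 (by positivity)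
    _ < n ^ 2 := by
        have h15 : (0 : ℝ) < n ^ 2 := by positivity
        rw [mul_pow]
        norm_num
        nlinarith

theorem prfNB2 (hBXC : BXC) : NB2 := by
  intro Ω R a b zm zp n lam V ρs hS hn hHR hRn hnR hV hV4 hρ0 hρR hF hlam
  have hR : 0 < R := hS.1
  have hab : a < b := hS.2.1
  obtain ⟨hz1, hz2, hz3⟩ := hS.2.2.2.1 ρs hρ0 hρR
  have hH : 0 < b - a := by linarith
  have hT : 0 < zp ρs - zm ρs := by
    have h1 : ρs / R < 1 := (div_lt_one hR).2 hρR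
    have h2 : 0 < (1 - ρs / R) * (b - a) := mul_pos (by linarith) hH
    linarith
  have hTH : zp ρs - zm ρs ≤ b - a := by linarith
  have hn2 : (2 : ℝ) ≤ n := by exact_mod_cast hn
  obtain ⟨h1, h2⟩ := NB2_main R (b - a) (zp ρs - zm ρs) (Real.pi / (b - a)) V lam ρs n hR hH hT
    hTH hn2 hHR hRn hnR hV rfl hV4 hρ0 hρR hF hlam
  have hδ : 0 < 10 ^ 10 * (b - a) := by positivity
  have hη : 0 < (1 - 1 / 10 ^ 60) * ((zp ρs - zm ρs) / 2) :=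
    mul_pos (by norm_num) (by positivity)
  have hη2 : (1 - 1 / 10 ^ 60) * ((zp ρs - zm ρs) / 2) < (zp ρs - zm ρs) / 2 := by
    calc _ < 1 * ((zp ρs - zm ρs) / 2) := mul_lt_mul_of_pos_right (by norm_num) (by positivity)
      _ = _ := one_mul _
  refine ⟨ρs - 10 ^ 10 * (b - a), (zp ρs + zm ρs) / 2, 10 ^ 10 * (b - a),
    (1 - 1 / 10 ^ 60) * ((zp ρs - zm ρs) / 2), ⟨hδ, ?_, hη, ?_⟩, ?_⟩
  · norm_num at *
    linarith
  · exact h2
  · refine hBXC Ω R a b zm zp ρs _ _ _ hS hδ ?_ hρR ?_ ?_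
    · norm_num at *
      linarith
    · linarith
    · linarith

end Pool.Agent.Work.MP_d5b3be_an.BN
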