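import Pool.Agent.Work.MP_d5b3be_an.BN.Stmts4

/-!
# Block BN, item NB3: boxes for large n
-/

set_option autoImplicit false

namespace Pool.Agent.Work.MP_d5b3be_an.BN

open MeasureTheory Filter Set

theorem NB3_box {ρ z δ η : ℝ} (h : δ ≤ η) : boxS ρ z δ δ ⊆ boxS ρ z η η :=
  fun _ hx => ⟨hx.1.trans h, hx.2.trans h⟩

theorem prfNB3 (hRNC : RNC) (hNT1 : NT1) : NB3 := by
  intro Ω R a b zm zp n lam hSec hn hab hbig hlam
  have hR : 0 < R := hSec.1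
  have hab0 : 0 < b - a := sub_pos.mpr hSec.2.1
  have hn1 : 1 ≤ n := by omega
  have hN0 : (0 : ℝ) < (n : ℝ) := by exact_mod_cast hn1
  have habR : b - a ≤ R := by
    refine hab.trans ?_
    exact div_le_self hR.le (one_le_pow₀ (by norm_num))
  obtain ⟨ρ1, z1, h1, h2, h3, h4⟩ := hRNC Ω R a b zm zp hSec
  rw [min_eq_right habR] at h1 h2 h4
  have hη0 : 0 < 1 / 10 ^ 9 * (b - a) := by positivity
  have hnbig : (10 : ℝ) ^ 14 ≤ (n : ℝ) := by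
    have e1 : (10 : ℝ) ^ 14 * R ≤ (n : ℝ) * R :=
      hbig.trans (mul_le_mul_of_nonneg_left habR hN0.le)
    exact le_of_mul_le_mul_right e1 hR
  have hnη : 10 ^ 4 * R ≤ (n : ℝ) * (1 / 10 ^ 9 * (b - a)) := by
    have e1 : (n : ℝ) * (1 / 10 ^ 9 * (b - a)) = 1 / 10 ^ 9 * ((n : ℝ) * (b - a)) := by ring
    rw [e1]
    have e2 : 1 / 10 ^ 9 * (10 ^ 14 * R) ≤ 1 / 10 ^ 9 * ((n : ℝ) * (b - a)) :=
      mul_le_mul_of_nonneg_left hbig (by norm_num)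
    refine le_trans ?_ e2
    norm_num
    linarith
  have hlam2 : (1 - 1 / 10 ^ 8) * (n : ℝ) ^ 2 ≤ lam * R ^ 2 := by
    have e1 : (1 - 1 / (n : ℝ)) ^ 2 * ((n : ℝ) / R) ^ 2 * R ^ 2 ≤ lam * R ^ 2 :=
      mul_le_mul_of_nonneg_right hlam (by positivity)
    have e2 : (1 - 1 / (n : ℝ)) ^ 2 * ((n : ℝ) / R) ^ 2 * R ^ 2 = ((n : ℝ) - 1) ^ 2 := by
      field_simp
    rw [e2] at e1
    refine le_trans ?_ e1
    nlinarith
  refine ⟨ρ1, z1, 10 ^ 4 * R / n, 10 ^ 4 * R / n,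
    hNT1 n R lam (1 / 10 ^ 9 * (b - a)) ρ1 hR hn1 hη0 h1 h2 h3 hlam2 hnη, ?_⟩
  refine (NB3_box ?_).trans h4
  rw [div_le_iff₀ hN0]
  linarith

end Pool.Agent.Work.MP_d5b3be_an.BN
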