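import Pool.Agent.Work.MP_d5b3be_an.BN.Stmts4

/-!
# Block BN: item SL3
-/

set_option autoImplicit false

namespace Pool.Agent.Work.MP_d5b3be_an.BN

open MeasureTheory Filter Set
open scoped ENNReal Topology ContDiff

/-- the lower bound of the energy at the distance `ρ` -/
noncomputable def SL3_F (zm zp : ℝ → ℝ) (n : ℕ) (ρ : ℝ) : ℝ :=
  (Real.pi / (zp ρ - zm ρ)) ^ 2 + ((n : ℝ) / ρ) ^ 2

/-- its infimum -/
noncomputable def SL3_V (zm zp : ℝ → ℝ) (R : ℝ) (n : ℕ) : ℝ :=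
  sInf (SL3_F zm zp n '' Ioo 0 R)

theorem SL3_bdd (zm zp : ℝ → ℝ) (R : ℝ) (n : ℕ) : BddBelow (SL3_F zm zp n '' Ioo 0 R) := by
  refine ⟨0, ?_⟩
  rintro y ⟨ρ, _, rfl⟩
  unfold SL3_F
  positivity

theorem SL3_ne (zm zp : ℝ → ℝ) (R : ℝ) (hR : 0 < R) (n : ℕ) :
    (SL3_F zm zp n '' Ioo 0 R).Nonempty :=
  ⟨_, R / 2, ⟨by linarith, by linarith⟩, rfl⟩

theorem SL3_le (zm zp : ℝ → ℝ) (R : ℝ) (n : ℕ) (ρ : ℝ) (h0 : 0 < ρ) (h1 : ρ < R) :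
    SL3_V zm zp R n ≤ SL3_F zm zp n ρ :=
  csInf_le (SL3_bdd zm zp R n) ⟨ρ, ⟨h0, h1⟩, rfl⟩

theorem SL3_ge (zm zp : ℝ → ℝ) (R : ℝ) (hR : 0 < R) (n : ℕ) :
    ((n : ℝ) / R) ^ 2 ≤ SL3_V zm zp R n := by
  refine le_csInf (SL3_ne zm zp R hR n) ?_
  rintro y ⟨ρ, ⟨h0, h1⟩, rfl⟩
  unfold SL3_F
  have h2 : (n : ℝ) / R ≤ n / ρ := div_le_div_of_nonneg_left (Nat.cast_nonneg n) h0 h1.le
  have h3 : ((n : ℝ) / R) ^ 2 ≤ (n / ρ) ^ 2 := pow_le_pow_left₀ (by positivity) h2 2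
  have h4 : 0 ≤ (Real.pi / (zp ρ - zm ρ)) ^ 2 := by positivity
  linarith

theorem SL3_step (zm zp : ℝ → ℝ) (R : ℝ) (hR : 0 < R) (n : ℕ) :
    (1 - 1 / ((n + 1 : ℕ) : ℝ)) ^ 2 * SL3_V zm zp R (n + 1) ≤ SL3_V zm zp R n := by
  refine le_csInf (SL3_ne zm zp R hR n) ?_
  rintro y ⟨ρ, ⟨h0, h1⟩, rfl⟩
  have hn : (0 : ℝ) < ((n + 1 : ℕ) : ℝ) := by exact_mod_cast Nat.succ_pos n
  have h2 := SL3_le zm zp R (n + 1) ρ h0 h1
  refine le_trans (mul_le_mul_of_nonneg_left h2 (by positivity)) ?_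
  unfold SL3_F
  have h3 : (1 - 1 / ((n + 1 : ℕ) : ℝ)) * (((n + 1 : ℕ) : ℝ) / ρ) = (n : ℝ) / ρ := by
    have : (((n + 1 : ℕ) : ℝ)) = (n : ℝ) + 1 := by push_cast; ring
    rw [this]
    rw [this] at hn
    field_simp
    ring
  have h4 : (1 - 1 / ((n + 1 : ℕ) : ℝ)) ^ 2 ≤ 1 := by
    have h5 : 1 / ((n + 1 : ℕ) : ℝ) ≤ 1 := by
      rw [div_le_one hn]
      exact_mod_cast Nat.succ_le_succ (Nat.zero_le n)
    have h6 : 0 ≤ 1 / ((n + 1 : ℕ) : ℝ) := by positivity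
    exact pow_le_one₀ (by linarith) (by linarith)
  rw [mul_add, ← mul_pow (1 - 1 / ((n + 1 : ℕ) : ℝ)) (((n + 1 : ℕ) : ℝ) / ρ) 2, h3]
  have h7 : (1 - 1 / ((n + 1 : ℕ) : ℝ)) ^ 2 * (Real.pi / (zp ρ - zm ρ)) ^ 2 ≤
      1 * (Real.pi / (zp ρ - zm ρ)) ^ 2 := mul_le_mul_of_nonneg_right h4 (by positivity)
  linarith

theorem SL3_ex (zm zp : ℝ → ℝ) (R lam : ℝ) (hR : 0 < R) :
    ∃ n : ℕ, 1 ≤ n ∧ lam < SL3_V zm zp R n := by
  obtain ⟨m, hm⟩ := exists_nat_gt (|lam| * R ^ 2 + 1)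
  refine ⟨m + 1, Nat.succ_le_succ (Nat.zero_le m), ?_⟩
  refine lt_of_lt_of_le ?_ (SL3_ge zm zp R hR (m + 1))
  have h1 : |lam| * R ^ 2 + 1 < ((m + 1 : ℕ) : ℝ) := by
    push_cast
    linarith
  have h2 : 0 ≤ |lam| * R ^ 2 := by positivity
  have h3 : |lam| * R ^ 2 < ((m + 1 : ℕ) : ℝ) ^ 2 := by
    nlinarith
  rw [div_pow, lt_div_iff₀ (by positivity)]
  have h4 : lam * R ^ 2 ≤ |lam| * R ^ 2 :=
    mul_le_mul_of_nonneg_right (le_abs_self lam) (by positivity)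
  linarith

theorem SL3_up (zm zp : ℝ → ℝ) (R a b : ℝ) (n : ℕ) (hR : 0 < R) (hab : a < b)
    (h : (1 - (R / 2) / R) * (b - a) ≤ zp (R / 2) - zm (R / 2)) :
    SL3_V zm zp R n ≤ 4 * (Real.pi / (b - a)) ^ 2 + 4 * ((n : ℝ) / R) ^ 2 := by
  refine le_trans (SL3_le zm zp R n (R / 2) (by linarith) (by linarith)) ?_
  unfold SL3_F
  have h1 : (R / 2) / R = 1 / 2 := by field_simp
  rw [h1] at h
  have h2 : 0 < b - a := by linarith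
  have h3 : (b - a) / 2 ≤ zp (R / 2) - zm (R / 2) := by linarith
  have h4 : Real.pi / (zp (R / 2) - zm (R / 2)) ≤ Real.pi / ((b - a) / 2) :=
    div_le_div_of_nonneg_left Real.pi_pos.le (by linarith) h3
  have h5 : 0 ≤ Real.pi / (zp (R / 2) - zm (R / 2)) :=
    div_nonneg Real.pi_pos.le (by linarith)
  have h6 : (Real.pi / (zp (R / 2) - zm (R / 2))) ^ 2 ≤ (Real.pi / ((b - a) / 2)) ^ 2 :=
    pow_le_pow_left₀ h5 h4 2
  have h7 : (Real.pi / ((b - a) / 2)) ^ 2 = 4 * (Real.pi / (b - a)) ^ 2 := by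
    field_simp
    norm_num
  have h8 : ((n : ℝ) / (R / 2)) ^ 2 = 4 * ((n : ℝ) / R) ^ 2 := by
    field_simp
    norm_num
  rw [h8]
  rw [h7] at h6
  linarith

theorem prfSL3 (h1 : NB1) (h2 : NB2) (h3 : NB3) : SL3 := by
  classical
  intro Ω R a b zm zp lam hS hHR hlam
  have hR : 0 < R := hS.1
  have hab : a < b := hS.2.1
  have hH : 0 < b - a := by linarith
  have hex := SL3_ex zm zp R lam hR
  obtain ⟨n, hn_def⟩ : ∃ n : ℕ, n = Nat.find hex := ⟨_, rfl⟩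
  have hn := Nat.find_spec hex
  rw [← hn_def] at hn
  obtain ⟨hn1, hn2⟩ := hn
  refine ⟨n, SL3_V zm zp R n, hn1, hn2, fun ρ h0 h4 => SL3_le zm zp R n ρ h0 h4, ?_⟩
  by_cases hc1 : 10 ^ 15 * (n : ℝ) * (b - a) ≤ R
  · exact h1 Ω R a b zm zp n lam hS hn1 hc1 hlam
  have hc1' : R ≤ 10 ^ 15 * (n : ℝ) * (b - a) := (not_le.1 hc1).le
  have hn3 : 2 ≤ n := by
    by_contra hc
    have hn4 : n = 1 := by omega
    apply hc1
    rw [hn4]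
    norm_num at *
    linarith
  have hprev : SL3_V zm zp R (n - 1) ≤ lam := by
    by_contra hc
    have h5 := Nat.find_min hex (m := n - 1) (by omega)
    exact h5 ⟨by omega, not_le.1 hc⟩
  have hst := SL3_step zm zp R hR (n - 1)
  have hn5 : n - 1 + 1 = n := by omega
  rw [hn5] at hst
  have hlam2 : (1 - 1 / (n : ℝ)) ^ 2 * SL3_V zm zp R n ≤ lam := le_trans hst hprev
  by_cases hc2 : (n : ℝ) * (b - a) ≤ 10 ^ 14 * R
  · have hnpos : (0 : ℝ) < n := by exact_mod_cast (by omega : 0 < n)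
    have hV : 0 < SL3_V zm zp R n :=
      lt_of_lt_of_le (by positivity) (SL3_ge zm zp R hR n)
    have hlt : SL3_V zm zp R n < (1 + 1 / 10 ^ 61) * SL3_V zm zp R n := by
      have h6 : (1 + 1 / 10 ^ 61) * SL3_V zm zp R n =
          SL3_V zm zp R n + 1 / 10 ^ 61 * SL3_V zm zp R n := by ring
      rw [h6]
      have h7 : 0 < 1 / 10 ^ 61 * SL3_V zm zp R n := by positivity
      linarith
    obtain ⟨y, ⟨ρs, ⟨hρ0, hρR⟩, rfl⟩, hy⟩ :=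
      exists_lt_of_csInf_lt (SL3_ne zm zp R hR n) (show sInf (SL3_F zm zp n '' Ioo 0 R) < _ from hlt)
    exact h2 Ω R a b zm zp n lam (SL3_V zm zp R n) ρs hS hn3 hHR hc1' hc2 hV
      (SL3_up zm zp R a b n hR hab ((hS.2.2.2.1 (R / 2) (by linarith) (by linarith)).2.2))
      hρ0 hρR hy.le hlam2
  · refine h3 Ω R a b zm zp n lam hS hn3 hHR (not_le.1 hc2).le ?_
    exact le_trans (mul_le_mul_of_nonneg_left (SL3_ge zm zp R hR n) (by positivity)) hlam2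

end Pool.Agent.Work.MP_d5b3be_an.BN
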