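import Pool.Agent.Work.MP_d5b3be_an.BN.Asm2
import Pool.Agent.Work.MP_d5b3be_an.BN.LCM
import Pool.Agent.Work.MP_d5b3be_an.BN.INE
import Pool.Agent.Work.MP_d5b3be_an.BN.NB2
import Pool.Agent.Work.MP_d5b3be_an.BN.NB3
import Pool.Agent.Work.MP_d5b3be_an.BN.SL3

/-!
# Block BN: flat convex bodies, the number of families

For a flat convex body of revolution and every `lam ≥ (1-κ)(π/H)²` we use the classes of `J` numbers `n`
with different powers of `2`, `J ≥ (1/4) log(R/H)`. A function which changes sign under the rotations by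
`π/n` and `π/m` vanishes if `n` and `m` are divisible by different powers of `2`.
-/

set_option autoImplicit false

namespace Pool.Agent.Work.MP_d5b3be_an.BN

open MeasureTheory Filter Set
open scoped ENNReal Topology ContDiff

/-- different powers of two -/
theorem Asm3_two (hR : ROT) (u : E3 → ℝ) (hu : ¬ (u =ᵐ[volume] fun _ => 0)) (a b p q : ℕ)
    (hab : a < b) (hp : Odd p) (hq : Odd q) (h1 : Anti (2 ^ a * p) u) (h2 : Anti (2 ^ b * q) u) :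
    False := by
  rw [LCM_anti] at h1 h2
  have hp0 : (p : ℝ) ≠ 0 := by
    have : p ≠ 0 := by
      rintro rfl
      exact absurd hp (by decide)
    exact_mod_cast this
  have hq0 : (q : ℝ) ≠ 0 := by
    have : q ≠ 0 := by
      rintro rfl
      exact absurd hq (by decide)
    exact_mod_cast this
  have e1 := (LCM_even hR h1 (p : ℤ)).2 (by exact_mod_cast hp)
  have hev : Even ((q * 2 ^ (b - a) : ℕ) : ℤ) := by
    have h3 : Even (q * 2 ^ (b - a)) := by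
      apply Even.mul_left
      exact (Nat.even_pow.2 ⟨by decide, by omega⟩)
    exact_mod_cast h3
  have e2 := (LCM_even hR h2 ((q * 2 ^ (b - a) : ℕ) : ℤ)).1 hev
  have h2a : (2 : ℝ) ^ b = 2 ^ a * 2 ^ (b - a) := by
    rw [← pow_add]
    congr 1
    omega
  have f1 : ((p : ℤ) : ℝ) * (Real.pi / ((2 ^ a * p : ℕ) : ℝ)) = Real.pi / 2 ^ a := by
    push_cast
    field_simp
  have f2 : (((q * 2 ^ (b - a) : ℕ) : ℤ) : ℝ) * (Real.pi / ((2 ^ b * q : ℕ) : ℝ)) =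
      Real.pi / 2 ^ a := by
    push_cast
    rw [h2a]
    field_simp
  rw [f1] at e1
  rw [f2] at e2
  exact LCM_contra hu e2 e1

/-- a number with a given power of two in a short interval -/
theorem Asm3_num (n0 j : ℕ) : ∃ n p : ℕ, n0 ≤ n ∧ n < n0 + 2 ^ (j + 1) ∧ Odd p ∧ n = 2 ^ j * p := by
  obtain ⟨q, hq⟩ : ∃ q, q = 2 ^ (j + 1) := ⟨_, rfl⟩
  obtain ⟨s, hs⟩ : ∃ s, s = 2 ^ j := ⟨_, rfl⟩
  have hqs : q = 2 * s := by rw [hq, hs, pow_succ]; ring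
  have hs0 : 0 < s := by rw [hs]; positivity
  have hdiv := Nat.div_add_mod n0 q
  have hmod := Nat.mod_lt n0 (show 0 < q by omega)
  rw [← hq, ← hs]
  rcases le_or_gt (n0 % q) s with h | h
  · refine ⟨q * (n0 / q) + s, 2 * (n0 / q) + 1, by omega, by omega, ⟨n0 / q, rfl⟩, ?_⟩
    rw [hqs]
    ring
  · refine ⟨q * (n0 / q) + q + s, 2 * (n0 / q + 1) + 1, by omega, by omega, ⟨n0 / q + 1, rfl⟩, ?_⟩
    rw [hqs]
    ring

theorem Asm3_mono (zm zp : ℝ → ℝ) (R : ℝ) (hR : 0 < R) (m n : ℕ) (hmn : m ≤ n) :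
    SL3_V zm zp R m ≤ SL3_V zm zp R n := by
  refine le_csInf (SL3_ne zm zp R hR n) ?_
  rintro y ⟨ρ, ⟨h0, h1⟩, rfl⟩
  refine (SL3_le zm zp R m ρ h0 h1).trans ?_
  unfold SL3_F
  have h2 : (m : ℝ) ≤ n := by exact_mod_cast hmn
  have h3 : (m : ℝ) / ρ ≤ n / ρ := div_le_div_of_nonneg_right h2 h0.le
  have h4 : ((m : ℝ) / ρ) ^ 2 ≤ (n / ρ) ^ 2 := pow_le_pow_left₀ (by positivity) h3 2
  linarith

theorem Asm3_scale (zm zp : ℝ → ℝ) (R : ℝ) (hR : 0 < R) (m n : ℕ) (hm : 1 ≤ m) (hmn : m ≤ n) :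
    SL3_V zm zp R n ≤ ((n : ℝ) / m) ^ 2 * SL3_V zm zp R m := by
  have hm0 : (0 : ℝ) < m := by exact_mod_cast hm
  have hmn' : (m : ℝ) ≤ n := by exact_mod_cast hmn
  have hn0 : (0 : ℝ) < n := lt_of_lt_of_le hm0 hmn'
  have h1 : (1 : ℝ) ≤ (n : ℝ) / m := by rw [le_div_iff₀ hm0]; linarith
  have h2 : (1 : ℝ) ≤ ((n : ℝ) / m) ^ 2 := one_le_pow₀ h1
  have h3 : SL3_V zm zp R n / ((n : ℝ) / m) ^ 2 ≤ SL3_V zm zp R m := by
    refine le_csInf (SL3_ne zm zp R hR m) ?_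
    rintro y ⟨ρ, ⟨h0, h4⟩, rfl⟩
    rw [div_le_iff₀ (by positivity)]
    refine (SL3_le zm zp R n ρ h0 h4).trans ?_
    unfold SL3_F
    have h5 : ((m : ℝ) / ρ) ^ 2 * ((n : ℝ) / m) ^ 2 = (n / ρ) ^ 2 := by
      rw [← mul_pow]
      congr 1
      field_simp
    have h6 : 0 ≤ (Real.pi / (zp ρ - zm ρ)) ^ 2 := by positivity
    rw [add_mul, h5]
    nlinarith
  rw [div_le_iff₀ (by positivity)] at h3
  linarith

/-- the numerical part of NB2, with a weaker lower bound of `lam` -/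
theorem Asm3_main (R H T A V lam ρ n : ℝ) (hR : 0 < R) (hH : 0 < H) (hT : 0 < T) (hTH : T ≤ H)
    (hn : 2 ≤ n) (hHR : H ≤ R / 10 ^ 110) (hRn : R ≤ 10 ^ 15 * n * H) (hnR : n * H ≤ 10 ^ 14 * R)
    (hV : 0 < V) (hA : A = Real.pi / H) (hV4 : V ≤ 4 * A ^ 2 + 4 * (n / R) ^ 2) (hρ : 0 < ρ)
    (hρR : ρ < R) (hF : (Real.pi / T) ^ 2 + (n / ρ) ^ 2 ≤ (1 + 1 / 10 ^ 61) * V)
    (hlam : (1 - 1 / 10 ^ 60) * V ≤ lam) :
    10 ^ 10 * H ≤ ρ / 10 ^ 70 ∧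
    4096 * Real.pi ^ 2 * ((Real.pi / (2 * (10 ^ 10 * H))) ^ 2 +
      (Real.pi / (2 * ((1 - 1 / 10 ^ 60) * (T / 2)))) ^ 2 +
      n ^ 2 / ((ρ - 10 ^ 10 * H) - 10 ^ 10 * H) ^ 2 - lam) ^ 3 *
      ((ρ - 10 ^ 10 * H) * (10 ^ 10 * H) * ((1 - 1 / 10 ^ 60) * (T / 2))) ^ 2 < n ^ 2 := by
  have hpi := Real.pi_pos
  have hpi3 : 3 < Real.pi := Real.pi_gt_three
  have hpi4 : Real.pi < 3.15 := Real.pi_lt_d2
  have hA0 : 0 < A := by rw [hA]; positivity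
  have hAH : A * H = Real.pi := by rw [hA]; field_simp
  have hn0 : 0 < n := by linarith
  have h1 : n / R ≤ 10 ^ 14 * A / 3 := by
    rw [div_le_iff₀ hR]
    refine le_of_mul_le_mul_right ?_ hH
    have e : 10 ^ 14 * A / 3 * R * H = 10 ^ 14 * R * ((A * H) / 3) := by ring
    rw [e, hAH]
    have : 10 ^ 14 * R * 1 ≤ 10 ^ 14 * R * (Real.pi / 3) :=
      mul_le_mul_of_nonneg_left (by linarith) (by positivity)
    linarith
  have h2 : V ≤ 5 * 10 ^ 27 * A ^ 2 := by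
    have h3 : (n / R) ^ 2 ≤ (10 ^ 14 * A / 3) ^ 2 := pow_le_pow_left₀ (by positivity) h1 2
    have h4 : (10 ^ 14 * A / 3) ^ 2 = 10 ^ 28 / 9 * A ^ 2 := by ring
    rw [h4] at h3
    have h5 : 0 < A ^ 2 := by positivity
    norm_num at *
    linarith
  have h3 : n / ρ ≤ 10 ^ 14 * A := by
    refine (pow_le_pow_iff_left₀ (by positivity) (by positivity) two_ne_zero).1 ?_
    have h4 : 0 ≤ (Real.pi / T) ^ 2 := by positivity
    have h5 : (10 ^ 14 * A) ^ 2 = 10 ^ 28 * A ^ 2 := by ring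
    rw [h5]
    norm_num at *
    linarith
  have h4 : n * H ≤ 4 * 10 ^ 14 * ρ := by
    have e : n * H = n / ρ * (ρ * H) := by field_simp
    rw [e]
    calc n / ρ * (ρ * H) ≤ 10 ^ 14 * A * (ρ * H) :=
          mul_le_mul_of_nonneg_right h3 (by positivity)
      _ = 10 ^ 14 * ρ * (A * H) := by ring
      _ = 10 ^ 14 * ρ * Real.pi := by rw [hAH]
      _ ≤ 10 ^ 14 * ρ * 4 := mul_le_mul_of_nonneg_left (by linarith) (by positivity)
      _ = _ := by ring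
  have h5 : R ≤ 10 ^ 30 * ρ := by
    have : 10 ^ 15 * n * H = 10 ^ 15 * (n * H) := by ring
    rw [this] at hRn
    norm_num at *
    linarith
  have h6 : 10 ^ 10 * H ≤ ρ / 10 ^ 70 := by
    norm_num at *
    linarith
  refine ⟨h6, ?_⟩
  obtain ⟨x, hx_def⟩ : ∃ x : ℝ, x = 2 * (10 ^ 10 * H) / ρ := ⟨_, rfl⟩
  have hx0 : 0 ≤ x := by rw [hx_def]; positivity
  have hx : x ≤ 1 / 10 ^ 60 := by
    rw [hx_def, div_le_iff₀ hρ]
    norm_num at *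
    linarith
  have e1 : (Real.pi / (2 * (10 ^ 10 * H))) ^ 2 = A ^ 2 / (4 * 10 ^ 20) := by
    rw [hA]; field_simp; norm_num
  have e2 : (Real.pi / (2 * ((1 - 1 / 10 ^ 60) * (T / 2)))) ^ 2 =
      (Real.pi / T) ^ 2 / (1 - 1 / 10 ^ 60) ^ 2 := by
    rw [← div_pow]
    congr 1
    rw [div_div]
    congr 1
    ring
  have e3 : n ^ 2 / ((ρ - 10 ^ 10 * H) - 10 ^ 10 * H) ^ 2 = (n / ρ) ^ 2 / (1 - x) ^ 2 := by
    rw [← div_pow, ← div_pow, div_div]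
    congr 2
    rw [hx_def]
    field_simp
    ring
  have i2 := NB2_inv (1 / 10 ^ 60) ((Real.pi / T) ^ 2) (by positivity) le_rfl (by positivity)
  have i3 := NB2_inv x ((n / ρ) ^ 2) hx0 hx (by positivity)
  have hX : (Real.pi / (2 * (10 ^ 10 * H))) ^ 2 +
      (Real.pi / (2 * ((1 - 1 / 10 ^ 60) * (T / 2)))) ^ 2 +
      n ^ 2 / ((ρ - 10 ^ 10 * H) - 10 ^ 10 * H) ^ 2 - lam ≤ 26 / 10 ^ 22 * A ^ 2 := by
    rw [e1, e2, e3]
    have h9 : (Real.pi / T) ^ 2 / (1 - 1 / 10 ^ 60) ^ 2 + (n / ρ) ^ 2 / (1 - x) ^ 2 ≤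
        (1 + 4 / 10 ^ 60) * ((1 + 1 / 10 ^ 61) * V) := by
      calc _ ≤ (1 + 4 / 10 ^ 60) * (Real.pi / T) ^ 2 + (1 + 4 / 10 ^ 60) * (n / ρ) ^ 2 :=
            add_le_add i2 i3
        _ = (1 + 4 / 10 ^ 60) * ((Real.pi / T) ^ 2 + (n / ρ) ^ 2) := by ring
        _ ≤ _ := mul_le_mul_of_nonneg_left hF (by positivity)
    have h10 : (1 + 4 / 10 ^ 60) * ((1 + 1 / 10 ^ 61) * V) ≤ (1 + 5 / 10 ^ 60) * V := by
      have : (1 + 4 / 10 ^ 60) * ((1 + 1 / 10 ^ 61) * V) =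
        ((1 + 4 / 10 ^ 60) * (1 + 1 / 10 ^ 61)) * V := by ring
      rw [this]
      apply mul_le_mul_of_nonneg_right _ hV.le
      norm_num
    have h11 : A ^ 2 / (4 * 10 ^ 20) = 25 / 10 ^ 22 * A ^ 2 := by ring
    rw [h11]
    have h12 : (1 + 5 / 10 ^ 60) * V - (1 - 1 / 10 ^ 60) * V ≤ 6 / 10 ^ 60 * V := by
      have : (1 + 5 / 10 ^ 60) * V - (1 - 1 / 10 ^ 60) * V =
        (5 / 10 ^ 60 + 1 / 10 ^ 60) * V := by ring
      rw [this]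
      apply mul_le_mul_of_nonneg_right _ hV.le
      norm_num
    have h13 : 6 / 10 ^ 60 * V ≤ 6 / 10 ^ 60 * (5 * 10 ^ 27 * A ^ 2) :=
      mul_le_mul_of_nonneg_left h2 (by positivity)
    have h14 : 6 / 10 ^ 60 * (5 * 10 ^ 27 * A ^ 2) ≤ 1 / 10 ^ 22 * A ^ 2 := by
      have : 6 / 10 ^ 60 * (5 * 10 ^ 27 * A ^ 2) = (6 / 10 ^ 60 * (5 * 10 ^ 27)) * A ^ 2 := by
        ring
      rw [this]
      apply mul_le_mul_of_nonneg_right _ (by positivity)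
      norm_num
    have h15 : 26 / 10 ^ 22 * A ^ 2 = 25 / 10 ^ 22 * A ^ 2 + 1 / 10 ^ 22 * A ^ 2 := by ring
    rw [h15]
    linarith
  have hX3 : ((Real.pi / (2 * (10 ^ 10 * H))) ^ 2 +
      (Real.pi / (2 * ((1 - 1 / 10 ^ 60) * (T / 2)))) ^ 2 +
      n ^ 2 / ((ρ - 10 ^ 10 * H) - 10 ^ 10 * H) ^ 2 - lam) ^ 3 ≤ (26 / 10 ^ 22 * A ^ 2) ^ 3 :=
    (Odd.pow_le_pow (by decide : Odd 3)).2 hX
  have hY : ((ρ - 10 ^ 10 * H) * (10 ^ 10 * H) * ((1 - 1 / 10 ^ 60) * (T / 2))) ^ 2 ≤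
      10 ^ 20 / 4 * R ^ 2 * H ^ 4 := by
    have k0 : 0 ≤ ρ - 10 ^ 10 * H := by norm_num at *; linarith
    have k1 : ρ - 10 ^ 10 * H ≤ R := by
      have : 0 < 10 ^ 10 * H := by positivity
      linarith
    have k2 : (1 - 1 / 10 ^ 60) * (T / 2) ≤ H / 2 := by
      calc (1 - 1 / 10 ^ 60) * (T / 2) ≤ 1 * (T / 2) :=
            mul_le_mul_of_nonneg_right (by norm_num) (by positivity)
        _ ≤ H / 2 := by linarith
    have k3 : 0 ≤ (1 - 1 / 10 ^ 60) * (T / 2) := mul_nonneg (by norm_num) (by positivity)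
    have k4 : (ρ - 10 ^ 10 * H) * (10 ^ 10 * H) * ((1 - 1 / 10 ^ 60) * (T / 2)) ≤
        R * (10 ^ 10 * H) * (H / 2) := by
      apply mul_le_mul _ k2 k3 (by positivity)
      exact mul_le_mul_of_nonneg_right k1 (by positivity)
    have k5 : 0 ≤ (ρ - 10 ^ 10 * H) * (10 ^ 10 * H) * ((1 - 1 / 10 ^ 60) * (T / 2)) :=
      mul_nonneg (mul_nonneg k0 (by positivity)) k3
    calc _ ≤ (R * (10 ^ 10 * H) * (H / 2)) ^ 2 := pow_le_pow_left₀ k5 k4 2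
      _ = _ := by ring
  have hpi6 : Real.pi ^ 8 ≤ 3.15 ^ 8 := pow_le_pow_left₀ hpi.le hpi4.le 8
  have hRH : (A * R) ^ 2 ≤ (Real.pi * (10 ^ 15 * n)) ^ 2 := by
    apply pow_le_pow_left₀ (by positivity)
    calc A * R ≤ A * (10 ^ 15 * n * H) := mul_le_mul_of_nonneg_left hRn hA0.le
      _ = (A * H) * (10 ^ 15 * n) := by ring
      _ = _ := by rw [hAH]
  calc _ ≤ 4096 * Real.pi ^ 2 * (26 / 10 ^ 22 * A ^ 2) ^ 3 *
        ((ρ - 10 ^ 10 * H) * (10 ^ 10 * H) * ((1 - 1 / 10 ^ 60) * (T / 2))) ^ 2 := by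
        apply mul_le_mul_of_nonneg_right _ (by positivity)
        exact mul_le_mul_of_nonneg_left hX3 (by positivity)
    _ ≤ 4096 * Real.pi ^ 2 * (26 / 10 ^ 22 * A ^ 2) ^ 3 * (10 ^ 20 / 4 * R ^ 2 * H ^ 4) :=
        mul_le_mul_of_nonneg_left hY (by positivity)
    _ = 1024 * (26 / 10 ^ 22) ^ 3 * 10 ^ 20 * Real.pi ^ 2 * (A * H) ^ 4 * (A * R) ^ 2 := by
        ring
    _ = 1024 * (26 / 10 ^ 22) ^ 3 * 10 ^ 20 * Real.pi ^ 6 * (A * R) ^ 2 := by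
        rw [hAH]; ring
    _ ≤ 1024 * (26 / 10 ^ 22) ^ 3 * 10 ^ 20 * Real.pi ^ 6 * (Real.pi * (10 ^ 15 * n)) ^ 2 :=
        mul_le_mul_of_nonneg_left hRH (by positivity)
    _ = 1024 * (26 / 10 ^ 22) ^ 3 * 10 ^ 20 * Real.pi ^ 8 * (10 ^ 15 * n) ^ 2 := by ring
    _ ≤ 1024 * (26 / 10 ^ 22) ^ 3 * 10 ^ 20 * 3.15 ^ 8 * (10 ^ 15 * n) ^ 2 := by
        apply mul_le_mul_of_nonneg_right _ (by positivity)
        exact mul_le_mul_of_nonneg_left hpi6 (by positivity)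
    _ < n ^ 2 := by
        have h15 : (0 : ℝ) < n ^ 2 := by positivity
        rw [mul_pow]
        norm_num
        nlinarith

/-- NB2 with a weaker lower bound of `lam` -/
theorem Asm3_NB2 (hBXC : BXC) (Ω : Set E3) (R a b : ℝ) (zm zp : ℝ → ℝ) (n : ℕ) (lam V ρs : ℝ)
    (hS : Sec Ω R a b zm zp) (hn : 2 ≤ n) (hHR : b - a ≤ R / 10 ^ 110)
    (hRn : R ≤ 10 ^ 15 * n * (b - a)) (hnR : n * (b - a) ≤ 10 ^ 14 * R) (hV : 0 < V)
    (hV4 : V ≤ 4 * (Real.pi / (b - a)) ^ 2 + 4 * ((n : ℝ) / R) ^ 2) (hρ0 : 0 < ρs) (hρR : ρs < R)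
    (hF : (Real.pi / (zp ρs - zm ρs)) ^ 2 + ((n : ℝ) / ρs) ^ 2 ≤ (1 + 1 / 10 ^ 61) * V)
    (hlam : (1 - 1 / 10 ^ 60) * V ≤ lam) : BX Ω n lam := by
  have hR : 0 < R := hS.1
  have hab : a < b := hS.2.1
  obtain ⟨hz1, hz2, hz3⟩ := hS.2.2.2.1 ρs hρ0 hρR
  have hH : 0 < b - a := by linarith
  have hT : 0 < zp ρs - zm ρs := by
    have h1 : ρs / R < 1 := (div_lt_one hR).2 hρR
    have h2 : 0 < (1 - ρs / R) * (b - a) := mul_pos (by linarith) hH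
    linarith
  have hTH : zp ρs - zm ρs ≤ b - a := by linarith
  have hn2 : (2 : ℝ) ≤ n := by exact_mod_cast hn
  obtain ⟨h1, h2⟩ := Asm3_main R (b - a) (zp ρs - zm ρs) (Real.pi / (b - a)) V lam ρs n hR hH hT
    hTH hn2 hHR hRn hnR hV rfl hV4 hρ0 hρR hF hlam
  have hδ : 0 < 10 ^ 10 * (b - a) := by positivity
  have hη : 0 < (1 - 1 / 10 ^ 60) * ((zp ρs - zm ρs) / 2) :=
    mul_pos (by norm_num) (by positivity)
  have hη2 : (1 - 1 / 10 ^ 60) * ((zp ρs - zm ρs) / 2) < (zp ρs - zm ρs) / 2 := by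
    calc _ < 1 * ((zp ρs - zm ρs) / 2) := mul_lt_mul_of_pos_right (by norm_num) (by positivity)
      _ = _ := one_mul _
  refine ⟨ρs - 10 ^ 10 * (b - a), (zp ρs + zm ρs) / 2, 10 ^ 10 * (b - a),
    (1 - 1 / 10 ^ 60) * ((zp ρs - zm ρs) / 2), ⟨hδ, ?_, hη, ?_⟩, ?_⟩
  · norm_num at *
    linarith
  · exact h2
  · refine hBXC Ω R a b zm zp ρs _ _ _ hS hδ ?_ hρR ?_ ?_
    · norm_num at *
      linarith
    · linarith
    · linarith

/-- NB3 with a weaker lower bound of `lam` -/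
theorem Asm3_NB3 (hRNC : RNC) (hNT1 : NT1) (Ω : Set E3) (R a b : ℝ) (zm zp : ℝ → ℝ) (n : ℕ)
    (lam : ℝ) (hSec : Sec Ω R a b zm zp) (hn : 2 ≤ n) (hab : b - a ≤ R / 10 ^ 110)
    (hbig : 10 ^ 14 * R ≤ n * (b - a)) (hlam : (1 - 1 / 10 ^ 60) * ((n : ℝ) / R) ^ 2 ≤ lam) :
    BX Ω n lam := by
  have hR : 0 < R := hSec.1
  have hab0 : 0 < b - a := sub_pos.mpr hSec.2.1
  have hn1 : 1 ≤ n := by omega
  have hN0 : (0 : ℝ) < (n : ℝ) := by exact_mod_cast hn1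
  have habR : b - a ≤ R := by
    refine hab.trans ?_
    exact div_le_self hR.le (one_le_pow₀ (by norm_num))
  obtain ⟨ρ1, z1, h1, h2, h3, h4⟩ := hRNC Ω R a b zm zp hSec
  rw [min_eq_right habR] at h1 h2 h4
  have hη0 : 0 < 1 / 10 ^ 9 * (b - a) := by positivity
  have hnη : 10 ^ 4 * R ≤ (n : ℝ) * (1 / 10 ^ 9 * (b - a)) := by
    have e1 : (n : ℝ) * (1 / 10 ^ 9 * (b - a)) = 1 / 10 ^ 9 * ((n : ℝ) * (b - a)) := by ring
    rw [e1]
    have e2 : 1 / 10 ^ 9 * (10 ^ 14 * R) ≤ 1 / 10 ^ 9 * ((n : ℝ) * (b - a)) :=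
      mul_le_mul_of_nonneg_left hbig (by norm_num)
    refine le_trans ?_ e2
    norm_num
    linarith
  have hlam2 : (1 - 1 / 10 ^ 8) * (n : ℝ) ^ 2 ≤ lam * R ^ 2 := by
    have e1 : (1 - 1 / 10 ^ 60) * ((n : ℝ) / R) ^ 2 * R ^ 2 ≤ lam * R ^ 2 :=
      mul_le_mul_of_nonneg_right hlam (by positivity)
    have e2 : (1 - 1 / 10 ^ 60) * ((n : ℝ) / R) ^ 2 * R ^ 2 = (1 - 1 / 10 ^ 60) * (n : ℝ) ^ 2 := by
      field_simp
    rw [e2] at e1
    refine le_trans ?_ e1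
    apply mul_le_mul_of_nonneg_right _ (by positivity)
    norm_num
  refine ⟨ρ1, z1, 10 ^ 4 * R / n, 10 ^ 4 * R / n,
    hNT1 n R lam (1 / 10 ^ 9 * (b - a)) ρ1 hR hn1 hη0 h1 h2 h3 hlam2 hnη, ?_⟩
  refine (NB3_box ?_).trans h4
  rw [div_le_iff₀ hN0]
  linarith

/-- one number `n` a little above the least possible one -/
theorem Asm3_one (hBXC : BXC) (hRNC : RNC) (hNT1 : NT1) (h1 : NB1) (Ω : Set E3) (R a b : ℝ)
    (zm zp : ℝ → ℝ) (n : ℕ) (lam : ℝ) (hS : Sec Ω R a b zm zp) (hn3 : 2 ≤ n)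
    (hHR : b - a ≤ R / 10 ^ 110) (hlam : (1 - 1 / 10 ^ 110) * (Real.pi / (b - a)) ^ 2 ≤ lam)
    (hlam2 : (1 - 1 / 10 ^ 60) * SL3_V zm zp R n ≤ lam) : BX Ω n lam := by
  have hR : 0 < R := hS.1
  have hab : a < b := hS.2.1
  have hH : 0 < b - a := by linarith
  by_cases hc1 : 10 ^ 15 * (n : ℝ) * (b - a) ≤ R
  · exact h1 Ω R a b zm zp n lam hS (by omega) hc1 hlam
  have hc1' : R ≤ 10 ^ 15 * (n : ℝ) * (b - a) := (not_le.1 hc1).le
  by_cases hc2 : (n : ℝ) * (b - a) ≤ 10 ^ 14 * R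
  · have hnpos : (0 : ℝ) < n := by exact_mod_cast (by omega : 0 < n)
    have hV : 0 < SL3_V zm zp R n :=
      lt_of_lt_of_le (by positivity) (SL3_ge zm zp R hR n)
    have hlt : SL3_V zm zp R n < (1 + 1 / 10 ^ 61) * SL3_V zm zp R n := by
      have h6 : (1 + 1 / 10 ^ 61) * SL3_V zm zp R n =
          SL3_V zm zp R n + 1 / 10 ^ 61 * SL3_V zm zp R n := by ring
      rw [h6]
      have h7 : 0 < 1 / 10 ^ 61 * SL3_V zm zp R n := by positivity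
      linarith
    obtain ⟨y, ⟨ρs, ⟨hρ0, hρR⟩, rfl⟩, hy⟩ :=
      exists_lt_of_csInf_lt (SL3_ne zm zp R hR n) (show sInf (SL3_F zm zp n '' Ioo 0 R) < _ from hlt)
    exact Asm3_NB2 hBXC Ω R a b zm zp n lam (SL3_V zm zp R n) ρs hS hn3 hHR hc1' hc2 hV
      (SL3_up zm zp R a b n hR hab ((hS.2.2.2.1 (R / 2) (by linarith) (by linarith)).2.2))
      hρ0 hρR hy.le hlam2
  · refine Asm3_NB3 hRNC hNT1 Ω R a b zm zp n lam hS hn3 hHR (not_le.1 hc2).le ?_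
    exact le_trans (mul_le_mul_of_nonneg_left (SL3_ge zm zp R hR n) (by norm_num)) hlam2

/-- the numbers -/
theorem Asm3_J (Q : ℝ) (hQ : 10 ^ 250 ≤ Q) : ∃ J : ℕ, 1 / 4 * Real.log Q ≤ J ∧ (4 : ℝ) ^ J * 4 ^ J ≤ Q ∧
    (10 : ℝ) ^ 62 ≤ 2 ^ J := by
  obtain ⟨J, hJ1, hJ2⟩ := exists_nat_pow_near (x := Q) (y := (16 : ℝ))
    (le_trans (one_le_pow₀ (by norm_num)) hQ) (by norm_num)
  have h4 : (4 : ℝ) ^ J * 4 ^ J = 16 ^ J := by
    rw [← mul_pow]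
    norm_num
  have h2 : (16 : ℝ) ^ J = (2 ^ J) ^ 4 := by
    rw [← pow_mul, mul_comm J 4, pow_mul]
    norm_num
  have h5 : ((10 : ℝ) ^ 62) ^ 4 ≤ (2 ^ J) ^ 4 := by
    rw [← h2]
    have h6 : (10 : ℝ) ^ 250 < 16 ^ J * 16 := by
      rw [← pow_succ]
      linarith
    have h7 : ((10 : ℝ) ^ 62) ^ 4 * 16 ≤ 10 ^ 250 := by norm_num
    nlinarith
  have h8 : (10 : ℝ) ^ 62 ≤ 2 ^ J := (pow_le_pow_iff_left₀ (by positivity) (by positivity)
    (by norm_num)).1 h5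
  have hJ3 : 3 ≤ J := by
    by_contra hc
    have h9 : J ≤ 2 := by omega
    have h10 : (2 : ℝ) ^ J ≤ 2 ^ 2 := pow_le_pow_right₀ (by norm_num) h9
    have h11 : (2 : ℝ) ^ 2 < 10 ^ 62 := by norm_num
    linarith
  refine ⟨J, ?_, by rw [h4]; exact hJ1, h8⟩
  have hQ0 : 0 < Q := lt_of_lt_of_le (by positivity) hQ
  have h12 : Real.log Q ≤ ((J + 1 : ℕ) : ℝ) * Real.log 16 := by
    rw [← Real.log_pow]
    exact Real.log_le_log hQ0 hJ2.le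
  have h13 : Real.log 16 = 4 * Real.log 2 := by
    rw [show (16 : ℝ) = 2 ^ 4 by norm_num, Real.log_pow]
    norm_num
  have h14 : Real.log 2 < 0.6931471808 := Real.log_two_lt_d9
  rw [h13] at h12
  push_cast at h12
  have hJ4 : (3 : ℝ) ≤ J := by exact_mod_cast hJ3
  nlinarith

/-- the choice of the numbers `n` -/
theorem Asm3_SL (hBXC : BXC) (hRNC : RNC) (hNT1 : NT1) (h1 : NB1) (Ω : Set E3) (R a b : ℝ)
    (zm zp : ℝ → ℝ) (lam : ℝ) (hS : Sec Ω R a b zm zp) (hHR : b - a ≤ 1 / 10 ^ 250 * R)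
    (hlam : (1 - 1 / 10 ^ 250) * (Real.pi / (b - a)) ^ 2 ≤ lam) :
    ∃ J : ℕ, 1 / 4 * Real.log (R / (b - a)) ≤ J ∧ ∀ j, j < J → ∃ (n p : ℕ) (V : ℝ), Odd p ∧
      n = 2 ^ j * p ∧ 1 ≤ n ∧ lam < V ∧
      (∀ ρ, 0 < ρ → ρ < R → V ≤ (Real.pi / (zp ρ - zm ρ)) ^ 2 + ((n : ℝ) / ρ) ^ 2) ∧
      BX Ω n lam := by
  classical
  have hR : 0 < R := hS.1
  have hab : a < b := hS.2.1
  have hH : 0 < b - a := by linarith
  have hQ : 10 ^ 250 ≤ R / (b - a) := by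
    rw [le_div_iff₀ hH]
    have := mul_le_mul_of_nonneg_left hHR (show (0 : ℝ) ≤ 10 ^ 250 by positivity)
    have e : (10 : ℝ) ^ 250 * (1 / 10 ^ 250 * R) = R := by field_simp
    linarith
  obtain ⟨J, hJ1, hJ2, hJ3⟩ := Asm3_J _ hQ
  rw [le_div_iff₀ hH] at hJ2
  refine ⟨J, hJ1, fun j hj => ?_⟩
  have hHR' : b - a ≤ R / 10 ^ 110 := by
    have e5 : R / 10 ^ 110 = 1 / 10 ^ 110 * R := by ring
    rw [e5]
    refine hHR.trans (mul_le_mul_of_nonneg_right ?_ hR.le)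
    exact one_div_le_one_div_of_le (by positivity) (pow_le_pow_right₀ (by norm_num) (by norm_num))
  have hlam' : (1 - 1 / 10 ^ 110) * (Real.pi / (b - a)) ^ 2 ≤ lam := by
    refine le_trans ?_ hlam
    apply mul_le_mul_of_nonneg_right _ (by positivity)
    have h2 : (1 : ℝ) / 10 ^ 250 ≤ 1 / 10 ^ 110 := by
      apply one_div_le_one_div_of_le (by positivity)
      exact pow_le_pow_right₀ (by norm_num) (by norm_num)
    linarith
  have hex := SL3_ex zm zp R lam hR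
  obtain ⟨n0, hn_def⟩ : ∃ n : ℕ, n = Nat.find hex := ⟨_, rfl⟩
  have hn := Nat.find_spec hex
  rw [← hn_def] at hn
  obtain ⟨hn1, hn2⟩ := hn
  obtain ⟨n, p, e1, e2, e3, e4⟩ := Asm3_num n0 j
  have hnJ : n < n0 + 2 ^ J := by
    have : 2 ^ (j + 1) ≤ 2 ^ J := Nat.pow_le_pow_right (by norm_num) hj
    omega
  refine ⟨n, p, SL3_V zm zp R n, e3, e4, by omega,
    lt_of_lt_of_le hn2 (Asm3_mono zm zp R hR n0 n e1),
    fun ρ h0 h4 => SL3_le zm zp R n ρ h0 h4, ?_⟩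
  have h22 : (4 : ℝ) ^ J = 2 ^ J * 2 ^ J := by
    rw [← mul_pow]
    norm_num
  have hnJ' : (n : ℝ) < n0 + 2 ^ J := by exact_mod_cast hnJ
  rcases le_or_gt n0 (4 ^ J) with hc | hc
  · -- small numbers
    have hc' : (n0 : ℝ) ≤ 4 ^ J := by exact_mod_cast hc
    refine h1 Ω R a b zm zp n lam hS (by omega) ?_ hlam'
    refine le_trans ?_ hJ2
    apply mul_le_mul_of_nonneg_right _ hH.le
    have h5 : (n : ℝ) ≤ 2 * 4 ^ J := by
      have : (2 : ℝ) ^ J ≤ 4 ^ J := pow_le_pow_left₀ (by norm_num) (by norm_num) J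
      linarith
    have h6 : 2 * 10 ^ 15 ≤ (4 : ℝ) ^ J := by
      rw [h22]
      have h7 : (10 : ℝ) ^ 62 * 10 ^ 62 ≤ 2 ^ J * 2 ^ J := by gcongr
      refine le_trans ?_ h7
      norm_num
    have h8 : (0 : ℝ) < 4 ^ J := by positivity
    nlinarith
  · -- large numbers
    have hc' : (4 : ℝ) ^ J + 1 ≤ n0 := by exact_mod_cast hc
    have hn3 : 2 ≤ n0 := by
      have : 1 ≤ 4 ^ J := Nat.one_le_pow _ _ (by norm_num)
      omega
    have hprev : SL3_V zm zp R (n0 - 1) ≤ lam := by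
      by_contra hc
      have h5 := Nat.find_min hex (m := n0 - 1) (by omega)
      exact h5 ⟨by omega, not_le.1 hc⟩
    have hst := Asm3_scale zm zp R hR (n0 - 1) n (by omega) (by omega)
    have hx : ((n0 - 1 : ℕ) : ℝ) = n0 - 1 := by
      rw [Nat.cast_sub (by omega)]
      norm_num
    rw [hx] at hst
    obtain ⟨x, hx1⟩ : ∃ x : ℝ, x = n0 - 1 := ⟨_, rfl⟩
    rw [← hx1] at hst
    have hx2 : (4 : ℝ) ^ J ≤ x := by rw [hx1]; linarith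
    have hx0 : 0 < x := lt_of_lt_of_le (by positivity) hx2
    have h6 : (n : ℝ) ≤ (1 + 1 / 10 ^ 61) * x := by
      have h7 : (n : ℝ) ≤ x + 1 + 2 ^ J := by rw [hx1]; linarith
      have h8 : (1 : ℝ) ≤ 2 ^ J := one_le_pow₀ (by norm_num)
      have h9 : 2 * 2 ^ J ≤ 1 / 10 ^ 61 * x := by
        have h10 : 2 * (2 : ℝ) ^ J ≤ 1 / 10 ^ 61 * 4 ^ J := by
          rw [h22]
          have h11 : (2 : ℝ) ≤ 1 / 10 ^ 61 * 2 ^ J := by
            have h12 : 1 / 10 ^ 61 * (10 : ℝ) ^ 62 ≤ 1 / 10 ^ 61 * 2 ^ J :=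
              mul_le_mul_of_nonneg_left hJ3 (by positivity)
            refine le_trans ?_ h12
            norm_num
          have h13 := mul_le_mul_of_nonneg_right h11 (show (0 : ℝ) ≤ 2 ^ J by positivity)
          linarith
        refine h10.trans ?_
        exact mul_le_mul_of_nonneg_left hx2 (by positivity)
      linarith
    have h7 : (n : ℝ) / x ≤ 1 + 1 / 10 ^ 61 := by
      rw [div_le_iff₀ hx0]
      exact h6
    have h8 : ((n : ℝ) / x) ^ 2 ≤ (1 + 1 / 10 ^ 61) ^ 2 := pow_le_pow_left₀ (by positivity) h7 2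
    have hlam0 : 0 ≤ lam := by
      refine le_trans ?_ hlam'
      have : (0 : ℝ) ≤ 1 - 1 / 10 ^ 110 := by norm_num
      positivity
    have h9 : SL3_V zm zp R n ≤ (1 + 1 / 10 ^ 61) ^ 2 * lam := by
      calc SL3_V zm zp R n ≤ ((n : ℝ) / x) ^ 2 * SL3_V zm zp R (n0 - 1) := hst
        _ ≤ ((n : ℝ) / x) ^ 2 * lam := mul_le_mul_of_nonneg_left hprev (by positivity)
        _ ≤ _ := mul_le_mul_of_nonneg_right h8 hlam0
    refine Asm3_one hBXC hRNC hNT1 h1 Ω R a b zm zp n lam hS (by omega) hHR' hlam' ?_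
    calc (1 - 1 / 10 ^ 60) * SL3_V zm zp R n ≤
          (1 - 1 / 10 ^ 60) * ((1 + 1 / 10 ^ 61) ^ 2 * lam) :=
          mul_le_mul_of_nonneg_left h9 (by norm_num)
      _ = ((1 - 1 / 10 ^ 60) * (1 + 1 / 10 ^ 61) ^ 2) * lam := by ring
      _ ≤ 1 * lam := mul_le_mul_of_nonneg_right (by norm_num) hlam0
      _ = lam := one_mul _

/-- flat convex bodies of revolution: many families -/
theorem Asm3_B (h1 : ROT) (h2 : CRI) (h3 : CLB) (h5 : ROS) (h6 : DIS) (h8 : SEC) (hBXC : BXC)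
    (hRNC : RNC) (hNT1 : NT1) (hNB1 : NB1) (hE : EG2) (hN : NZT) :
    ∃ κ c : ℝ, 0 < κ ∧ κ < 1 ∧ 0 < c ∧ ∀ (Ω : Set E3) (R a b : ℝ), IsOpen Ω → Ω.Nonempty →
      Bornology.IsBounded Ω → Convex ℝ Ω → RI Ω → IsLUB (rr '' Ω) R →
      IsGLB ((fun x : E3 => x 2) '' Ω) a → IsLUB ((fun x : E3 => x 2) '' Ω) b → b - a ≤ κ * R →
      (Real.pi / (b - a)) ^ 2 ≤ lam1 Ω ∧
      ∀ lam : ℝ, (1 - κ) * (Real.pi / (b - a)) ^ 2 ≤ lam →
        Fam Ω lam (c * Real.log (R / (b - a))) := by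
  refine ⟨1 / 10 ^ 250, 1 / 4, by positivity, by norm_num, by norm_num, ?_⟩
  intro Ω R a b ho hne hb hcx hr hR ha hb' hκ
  obtain ⟨zm, zp, hS⟩ := h8 Ω R a b ho hne hb hcx hr hR ha hb'
  have hR0 : 0 < R := hS.1
  have hab : a < b := hS.2.1
  have hH : 0 < b - a := by linarith
  have hΩ := Asm2_sec Ω R a b zm zp hS
  have hev := Asm2_lam1 hE hN Ω R a b ho hne hR0 hab hΩ
  have hRp : 0 < (Real.pi / (2 * R)) ^ 2 := by
    have : 0 < Real.pi := Real.pi_pos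
    positivity
  refine ⟨by linarith, fun lam hl => ?_⟩
  have hlam : 0 < lam := by
    have hp : 0 < Real.pi := Real.pi_pos
    have h14 : 0 < (Real.pi / (b - a)) ^ 2 := by positivity
    have h15 : (0 : ℝ) < 1 - 1 / 10 ^ 250 := by norm_num
    have : 0 < (1 - 1 / 10 ^ 250) * (Real.pi / (b - a)) ^ 2 := mul_pos h15 h14
    linarith
  obtain ⟨J, hJ, hj⟩ := Asm3_SL hBXC hRNC hNT1 hNB1 Ω R a b zm zp lam hS hκ hl
  have key : ∀ i : Fin J, ∃ (n p : ℕ) (u : E3 → ℝ), Odd p ∧ n = 2 ^ (i : ℕ) * p ∧ 1 ≤ n ∧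
      IsSol Ω lam u ∧ Anti n u := by
    intro i
    obtain ⟨n, p, V, e1, e2, e3, e4, e5, ρ0, z0, δ, η, e6, e7⟩ := hj i i.isLt
    obtain ⟨u, hu1, hu2, hu3⟩ := h2 Ω n V lam ρ0 z0 δ η hb hr e3 hlam e4
      (fun φ hφ => h3 Ω R a b zm zp n V φ hS e3 e5 hφ) e6 e7
    exact ⟨n, p, u, e1, e2, e3, hu1, hu3⟩
  choose n p u hp hnp hn hu hA using key
  have main : ∀ i i' : Fin J, i ≠ i' → ∀ t σ : ℝ, (σ = 1 ∨ σ = -1) →
      ¬ (u i =ᵐ[volume] fun x => σ * u i' (rot t x)) := by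
    intro i i' hii t σ hσ h
    have h9 := INE_anti h1 (n i') t σ (u i) (u i') (hA i') h
    have h10 := hA i
    rw [hnp i'] at h9
    rw [hnp i] at h10
    have hne : (i : ℕ) ≠ i' := fun h => hii (Fin.ext h)
    rcases lt_or_gt_of_ne hne with hlt | hgt
    · exact Asm3_two h1 (u i) (hu i).1 i i' (p i) (p i') hlt (hp i) (hp i') h10 h9
    · exact Asm3_two h1 (u i) (hu i).1 i' i (p i') (p i) hgt (hp i') (hp i) h9 h10
  refine ⟨J, fun i j x => u i (rot (Real.pi / (n i * 2 ^ j)) x), hJ, ?_, ?_, ?_⟩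
  · intro i j
    exact h5 Ω lam _ _ hr (hu i)
  · intro i j j' hjj
    exact h6 (n i) _ (hn i) (hu i).1 (hA i) j j' hjj
  · intro i i' hii j j' t
    constructor
    · intro h
      have h11 := Asm_move h1 _ _ _ _ _ h
      refine main i i' hii (Real.pi / (n i' * 2 ^ j') + t - Real.pi / (n i * 2 ^ j)) 1
        (Or.inl rfl) ?_
      filter_upwards [h11] with x hx
      rw [hx, one_mul]
    · intro h
      have h11 := Asm_move' h1 _ _ _ _ _ h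
      refine main i i' hii (Real.pi / (n i' * 2 ^ j') + t - Real.pi / (n i * 2 ^ j)) (-1)
        (Or.inr rfl) ?_
      filter_upwards [h11] with x hx
      rw [hx, neg_one_mul]

end Pool.Agent.Work.MP_d5b3be_an.BN
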