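import Pool.Agent.Work.MP_d5b3be_an.BN.Stmts

set_option autoImplicit false

namespace Pool.Agent.Work.MP_d5b3be_an.BN

open MeasureTheory Filter Set
open scoped ENNReal Topology ContDiff

theorem ANG_pd_cont (i : Fin 3) {φ : E3 → ℝ} (hφ : ContDiff ℝ ((⊤ : ℕ∞) : WithTop ℕ∞) φ) :
    Continuous (pd i φ) := by
  unfold pd
  have h1 : Continuous (fderiv ℝ φ) := hφ.continuous_fderiv (by simp)
  exact h1.clm_apply continuous_const

theorem ANG_cyl_cont (z : ℝ) : Continuous (fun p : ℝ × ℝ => cyl p.2 p.1 z) := by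
  unfold cyl
  refine continuous_pi fun i => ?_
  fin_cases i
  · simp
    fun_prop
  · simp
    fun_prop
  · simp
    fun_prop

theorem ANG_one {g1 g2 : ℝ → ℝ} (h1 : Continuous g1) (h2 : Continuous g2) (n1 : ∀ t, 0 ≤ g1 t)
    (n2 : ∀ t, 0 ≤ g2 t)
    (h : ∫ t in (-Real.pi)..Real.pi, g1 t ≤ ∫ t in (-Real.pi)..Real.pi, g2 t) :
    ∫⁻ t in Ioo (-Real.pi) Real.pi, ENNReal.ofReal (g1 t) ≤
      ∫⁻ t in Ioo (-Real.pi) Real.pi, ENNReal.ofReal (g2 t) := by
  have key : ∀ g : ℝ → ℝ, Continuous g → (∀ t, 0 ≤ g t) →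
      ∫⁻ t in Ioo (-Real.pi) Real.pi, ENNReal.ofReal (g t) =
        ENNReal.ofReal (∫ t in (-Real.pi)..Real.pi, g t) := by
    intro g hg hn
    have hle : -Real.pi ≤ Real.pi := by linarith [Real.pi_pos]
    rw [intervalIntegral.integral_of_le hle, integral_Ioc_eq_integral_Ioo]
    rw [ofReal_integral_eq_lintegral_ofReal]
    · exact (hg.integrableOn_Icc).mono_set Ioo_subset_Icc_self
    · exact Eventually.of_forall hn
  rw [key g1 h1 n1, key g2 h2 n2]
  exact ENNReal.ofReal_le_ofReal h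

theorem prfANG (hROT : ROT) (hCYD : CYD) (hCYI : CYI) (hWAP : WAP) : ANG := by
  intro Ω n φ hn hφN
  obtain ⟨⟨hφ, -, -⟩, hanti⟩ := hφN
  have hpc : ∀ i, Continuous (pd i φ) := fun i => ANG_pd_cont i hφ
  have hφc : Continuous φ := hφ.continuous
  have hm2 : Measurable fun x : E3 => ENNReal.ofReal (pd 2 φ x ^ 2) :=
    ((hpc 2).measurable.pow_const 2).ennreal_ofReal
  have hm01 : Measurable fun x : E3 => ENNReal.ofReal (pd 0 φ x ^ 2 + pd 1 φ x ^ 2) :=
    (((hpc 0).measurable.pow_const 2).add ((hpc 1).measurable.pow_const 2)).ennreal_ofReal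
  have hm1 : Measurable fun x : E3 =>
      ENNReal.ofReal ((n : ℝ) ^ 2 / (x 0 ^ 2 + x 1 ^ 2) * φ x ^ 2) := by
    refine Measurable.ennreal_ofReal ?_
    refine Measurable.mul ?_ (hφc.measurable.pow_const 2)
    refine Measurable.div measurable_const ?_
    exact ((measurable_pi_apply 0).pow_const 2).add ((measurable_pi_apply 1).pow_const 2)
  have hsplit : ∫⁻ x, ENNReal.ofReal (∑ i, pd i φ x ^ 2) =
      (∫⁻ x, ENNReal.ofReal (pd 0 φ x ^ 2 + pd 1 φ x ^ 2)) +
        ∫⁻ x, ENNReal.ofReal (pd 2 φ x ^ 2) := by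
    rw [← lintegral_add_left hm01]
    refine lintegral_congr fun x => ?_
    rw [← ENNReal.ofReal_add (by positivity) (by positivity), Fin.sum_univ_three]
  rw [hsplit]
  refine add_le_add ?_ le_rfl
  rw [hCYI _ hm1, hCYI _ hm01]
  refine lintegral_mono fun z => ?_
  have hcm := (ANG_cyl_cont z).measurable
  have hms : Measurable fun p : ℝ × ℝ => ENNReal.ofReal p.2 := measurable_snd.ennreal_ofReal
  have sw : ∀ f : E3 → ℝ≥0∞, Measurable f →
      ∫⁻ t in Ioo (-Real.pi) Real.pi, ∫⁻ r in Ioi (0 : ℝ), ENNReal.ofReal r * f (cyl r t z) =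
        ∫⁻ r in Ioi (0 : ℝ), ∫⁻ t in Ioo (-Real.pi) Real.pi,
          ENNReal.ofReal r * f (cyl r t z) := fun f hf =>
    lintegral_lintegral_swap (hms.mul (hf.comp hcm)).aemeasurable
  rw [sw _ hm1, sw _ hm01]
  refine setLIntegral_mono' measurableSet_Ioi fun r hr => ?_
  have hr0 : (0 : ℝ) < r := hr
  have hrn : r ≠ 0 := hr0.ne'
  -- the function on the circle
  have hfc : ContDiff ℝ ((⊤ : ℕ∞) : WithTop ℕ∞) (fun s => φ (cyl r s z)) :=
    (hCYD φ hφ r 0 z).2.2.2.2.1
  have hder : ∀ t, deriv (fun s => φ (cyl r s z)) t =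
      r * (-Real.sin t * pd 0 φ (cyl r t z) + Real.cos t * pd 1 φ (cyl r t z)) := fun t =>
    ((hCYD φ hφ r t z).2.1).deriv
  have hap : ∀ t, φ (cyl r (t + Real.pi / n) z) = -φ (cyl r t z) := by
    intro t
    rw [← hROT.2.2.2.2.2.2.2.2 (Real.pi / n) r t z]
    exact hanti _
  have hW := hWAP (fun s => φ (cyl r s z)) n hn (hfc.of_le (by simp)) hap
  have hcy : Continuous fun t : ℝ => cyl r t z :=
    (ANG_cyl_cont z).comp (continuous_id.prodMk continuous_const)
  have hc1 : Continuous fun t : ℝ => (n : ℝ) ^ 2 / r * φ (cyl r t z) ^ 2 :=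
    continuous_const.mul ((hφc.comp hcy).pow 2)
  have hc2 : Continuous fun t : ℝ => 1 / r * deriv (fun s => φ (cyl r s z)) t ^ 2 :=
    continuous_const.mul ((hfc.continuous_deriv (by simp)).pow 2)
  have hone := ANG_one hc1 hc2 (fun t => by positivity) (fun t => by positivity) (by
    rw [intervalIntegral.integral_const_mul, intervalIntegral.integral_const_mul]
    have h3 : (n : ℝ) ^ 2 / r * ∫ t in (-Real.pi)..Real.pi, φ (cyl r t z) ^ 2 =
        1 / r * ((n : ℝ) ^ 2 * ∫ t in (-Real.pi)..Real.pi, φ (cyl r t z) ^ 2) := by ring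
    rw [h3]
    exact mul_le_mul_of_nonneg_left hW (by positivity))
  calc ∫⁻ t in Ioo (-Real.pi) Real.pi, ENNReal.ofReal r *
        ENNReal.ofReal ((n : ℝ) ^ 2 / (cyl r t z 0 ^ 2 + cyl r t z 1 ^ 2) * φ (cyl r t z) ^ 2)
      = ∫⁻ t in Ioo (-Real.pi) Real.pi, ENNReal.ofReal ((n : ℝ) ^ 2 / r * φ (cyl r t z) ^ 2) := by
        refine lintegral_congr fun t => ?_
        rw [← ENNReal.ofReal_mul hr0.le]
        congr 1
        have h4 : cyl r t z 0 ^ 2 + cyl r t z 1 ^ 2 = r ^ 2 := by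
          have h5 : cyl r t z 0 = r * Real.cos t := rfl
          have h6 : cyl r t z 1 = r * Real.sin t := rfl
          rw [h5, h6]
          have h7 := Real.sin_sq_add_cos_sq t
          nlinarith [h7]
        rw [h4]
        field_simp
    _ ≤ ∫⁻ t in Ioo (-Real.pi) Real.pi,
        ENNReal.ofReal (1 / r * deriv (fun s => φ (cyl r s z)) t ^ 2) := hone
    _ ≤ ∫⁻ t in Ioo (-Real.pi) Real.pi, ENNReal.ofReal r *
        ENNReal.ofReal (pd 0 φ (cyl r t z) ^ 2 + pd 1 φ (cyl r t z) ^ 2) := by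
        refine lintegral_mono fun t => ?_
        rw [← ENNReal.ofReal_mul hr0.le]
        refine ENNReal.ofReal_le_ofReal ?_
        rw [hder t]
        set a := pd 0 φ (cyl r t z)
        set b := pd 1 φ (cyl r t z)
        have h8 : 1 / r * (r * (-Real.sin t * a + Real.cos t * b)) ^ 2 =
            r * (-Real.sin t * a + Real.cos t * b) ^ 2 := by
          field_simp
        rw [h8]
        refine mul_le_mul_of_nonneg_left ?_ hr0.le
        have h7 := Real.sin_sq_add_cos_sq t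
        have h9 : a ^ 2 + b ^ 2 - (-Real.sin t * a + Real.cos t * b) ^ 2 =
            (Real.cos t * a + Real.sin t * b) ^ 2 := by
          linear_combination (-(a ^ 2 + b ^ 2)) * h7
        nlinarith [sq_nonneg (Real.cos t * a + Real.sin t * b)]

end Pool.Agent.Work.MP_d5b3be_an.BN
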