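import Pool.Agent.Work.MP_d5b3be_an.BN.Stmts2

/-!
# Block BN, item HCE: the inequalities extend to the closure
-/

set_option autoImplicit false

namespace Pool.Agent.Work.MP_d5b3be_an.BN

open MeasureTheory Filter Set
open scoped ENNReal Topology ContDiff

theorem HCE_pd_memLp {T : (E3 → ℝ) → Prop} (hT : Cl T) {φ : E3 → ℝ} (h : T φ) (i : Fin 3) :
    MemLp (pd i φ) 2 volume := by
  obtain ⟨h1, h2⟩ := hT.1 φ h
  have hc : Continuous (pd i φ) := by
    have := h1.continuous_fderiv (by simp)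
    exact this.clm_apply continuous_const
  exact hc.memLp_of_hasCompactSupport (h2.fderiv_apply (𝕜 := ℝ) _)

theorem HCE_memLp {T : (E3 → ℝ) → Prop} (hT : Cl T) {φ : E3 → ℝ} (h : T φ) (p : ℝ≥0∞) :
    MemLp φ p volume := by
  obtain ⟨h1, h2⟩ := hT.1 φ h
  exact h1.continuous.memLp_of_hasCompactSupport h2

theorem HCE_DD {g : Fin 3 → E3 → ℝ} (hg : ∀ i, MemLp (g i) 2 volume) :
    DD g = ∑ i, ∫ x, g i x ^ 2 := by
  unfold DD
  exact integral_finset_sum _ fun i _ => (hg i).integrable_sq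

theorem prfHCE (hHS6 : HS6) (hLCV : LCV) (hL6C : L6C) : HCE := by
  intro T c u g hT hc hin hu
  obtain ⟨hu2, hg2, φ, hφ, hc1, hc2⟩ := hu
  obtain ⟨hu6, hcv6⟩ := hHS6 T c u g φ hT hc hin hu2 hg2 hφ hc1 hc2
  have hN : Tendsto (fun k => N6 (φ k)) atTop (𝓝 (N6 u)) :=
    (hL6C φ u (fun k => HCE_memLp hT (hφ k) 6) hu6 hcv6).1
  have hQ : Tendsto (fun k => Q2 (φ k)) atTop (𝓝 (Q2 u)) :=
    (hLCV φ u (fun k => HCE_memLp hT (hφ k) 2) hu2 hc1).1
  have hD : Tendsto (fun k => DD (gr (φ k))) atTop (𝓝 (DD g)) := by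
    have h1 : ∀ k, DD (gr (φ k)) = ∑ i, ∫ x, gr (φ k) i x ^ 2 := fun k =>
      HCE_DD fun i => HCE_pd_memLp hT (hφ k) i
    simp_rw [h1, HCE_DD hg2]
    exact tendsto_finset_sum _ fun i _ =>
      (hLCV (fun k => pd i (φ k)) (g i) (fun k => HCE_pd_memLp hT (hφ k) i) (hg2 i) (hc2 i)).1
  refine ⟨hu6, ?_, ?_, ?_⟩
  · exact le_of_tendsto_of_tendsto' (hN.const_mul c) (hD.pow 3) fun k => hin _ (hφ k)
  · intro V hV
    exact le_of_tendsto_of_tendsto' (hQ.const_mul V) hD fun k => hV _ (hφ k)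
  · intro m lam h
    refine le_of_tendsto_of_tendsto' (hN.const_mul m) ?_ fun k => h _ (hφ k)
    exact ((hD.sub (hQ.const_mul lam)).pow 3)

end Pool.Agent.Work.MP_d5b3be_an.BN
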