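import Pool.Agent.Work.MP_d5b3be_an.BN.Stmts3

/-!
# Block BN, part 4: flat convex bodies of revolution, the whole range (statements)

THEOREM. There is `κ > 0` such that for every open convex body of revolution `Ω` with radius `R` and
height `H = b - a ≤ κ R` and EVERY `lam ≥ (1-κ)(π/H)²` there are infinitely many solutions
(`lam1 Ω > (π/H)²`). The vertical sections of `Ω` at the distance `ρ` from the axis are the intervals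
`(zm ρ, zp ρ)`, decreasing in `ρ`. The class `n` has the lower bound
`V_n = inf ((π/(zp ρ - zm ρ))² + (n/ρ)²)`.
-/

set_option autoImplicit false

namespace Pool.Agent.Work.MP_d5b3be_an.BN

open MeasureTheory Filter Set
open scoped ENNReal Topology ContDiff

/-- the distance from the axis -/
noncomputable def rr (x : E3) : ℝ := Real.sqrt (x 0 ^ 2 + x 1 ^ 2)

/-- the sections of a convex body of revolution -/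
def Sec (Ω : Set E3) (R a b : ℝ) (zm zp : ℝ → ℝ) : Prop :=
  0 < R ∧ a < b ∧ (∀ x ∈ Ω, rr x < R ∧ a < x 2 ∧ x 2 < b) ∧
    (∀ ρ, 0 < ρ → ρ < R → a ≤ zm ρ ∧ zp ρ ≤ b ∧ (1 - ρ / R) * (b - a) ≤ zp ρ - zm ρ) ∧
    (∀ ρ ρ', 0 < ρ → ρ ≤ ρ' → ρ' < R → zm ρ ≤ zm ρ' ∧ zp ρ' ≤ zp ρ) ∧
    ∀ x : E3, 0 < rr x → rr x < R → (x ∈ Ω ↔ zm (rr x) < x 2 ∧ x 2 < zp (rr x))

/-- a box for `n` and `lam` in `Ω` -/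
def BX (Ω : Set E3) (n : ℕ) (lam : ℝ) : Prop :=
  ∃ ρ0 z0 δ η : ℝ, BC n lam ρ0 δ η ∧ boxS ρ0 z0 δ η ⊆ Ω

/-- SEC (MEDIUM): the sections. `zm ρ`, `zp ρ` are the infimum and supremum of the `z` with
`(ρ, 0, z) ∈ Ω`. The set of these `z` is open, convex and bounded, and not empty for `0 < ρ < R`: take `p ∈ Ω` with
`rr p > ρ`; by the rotation by `π` and convexity the segment from `p` to its image contains points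
with every distance `≤ rr p` from the axis, at the height `p₂`; rotate. `Ω` is rotation invariant, so
`x ∈ Ω` iff `(rr x, 0, x₂) ∈ Ω` (for `rr x > 0`). Monotone: if `(ρ', 0, z) ∈ Ω`, `0 < ρ ≤ ρ'`, then `(-ρ', 0, z) ∈ Ω`, so
`(ρ, 0, z) ∈ Ω`. Length: for `p ∈ Ω` with `rr p > ρ`, `q, q' ∈ Ω`: the axis points `(0, 0, q₂)`, `(0, 0, q'₂)`
are in `Ω` (rotation by `π`, convexity), so with `s = ρ/rr p` the points `(ρ, 0, s p₂ + (1-s) q₂)`,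
`(ρ, 0, s p₂ + (1-s) q'₂)` are in `Ω`; so the length is `≥ (1 - s)(q₂ - q'₂)`; let `rr p → R`, `q₂ → b`,
`q'₂ → a`. Strict bounds `rr x < R`, `a < x₂ < b` on `Ω` because `Ω` is open. -/
def SEC : Prop :=
  ∀ (Ω : Set E3) (R a b : ℝ), IsOpen Ω → Ω.Nonempty → Bornology.IsBounded Ω → Convex ℝ Ω →
    RI Ω → IsLUB (rr '' Ω) R → IsGLB ((fun x : E3 => x 2) '' Ω) a →
    IsLUB ((fun x : E3 => x 2) '' Ω) b → ∃ zm zp : ℝ → ℝ, Sec Ω R a b zm zp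

/-- BXC (EASY): boxes in the body: for `|rr x - (ρo - δ)| ≤ δ` we have `0 < rr x ≤ ρo`, so the section at
`rr x` contains the section at `ρo`. -/
def BXC : Prop :=
  ∀ (Ω : Set E3) (R a b : ℝ) (zm zp : ℝ → ℝ) (ρo z0 δ η : ℝ), Sec Ω R a b zm zp → 0 < δ →
    2 * δ < ρo → ρo < R → zm ρo < z0 - η → z0 + η < zp ρo → boxS (ρo - δ) z0 δ η ⊆ Ω

/-- CLB (MEDIUM, from FU3, WTI, ANG; model `EZL.lean`, `VN2.lean`): the lower bound of the class. For fixed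
`x₀, x₁` with `ρ = sqrt(x₀² + x₁²) ∈ (0, R)` the function `φ(x₀, x₁, ·)` vanishes outside `(zm ρ, zp ρ)`, so
by WTI `∫ (pd 2 φ)² dx₂ ≥ (π/(zp ρ - zm ρ))² ∫ φ² dx₂ ≥ (V - (n/ρ)²) ∫ φ² dx₂`. So
`∫⁻ (V - n²/ρ²) φ² ≤ ∫⁻ (pd 2 φ)²` (FU3), and ANG. -/
def CLB : Prop :=
  ∀ (Ω : Set E3) (R a b : ℝ) (zm zp : ℝ → ℝ) (n : ℕ) (V : ℝ) (φ : E3 → ℝ), Sec Ω R a b zm zp →
    1 ≤ n → (∀ ρ, 0 < ρ → ρ < R → V ≤ (Real.pi / (zp ρ - zm ρ)) ^ 2 + ((n : ℝ) / ρ) ^ 2) →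
    TestN Ω n φ → V * Q2 φ ≤ DD (gr φ)

/-- RNC (EASY-MEDIUM, from BXC): the ring: `ρo = (1 - 4·10⁻⁹) R`, `η = 10⁻⁹ min R (b-a)`, `ρ1 = ρo - η`,
`z1` the middle of the section at `ρo`, whose length is `≥ 4·10⁻⁹ (b-a)`. -/
def RNC : Prop :=
  ∀ (Ω : Set E3) (R a b : ℝ) (zm zp : ℝ → ℝ), Sec Ω R a b zm zp → ∃ ρ1 z1 : ℝ,
    1 / 10 ^ 9 * min R (b - a) < ρ1 ∧
    (1 - 1 / 10 ^ 8) * R ≤ ρ1 - 1 / 10 ^ 9 * min R (b - a) ∧ ρ1 ≤ R ∧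
    boxS ρ1 z1 (1 / 10 ^ 9 * min R (b - a)) (1 / 10 ^ 9 * min R (b - a)) ⊆ Ω

/-- NB1 (EASY-MEDIUM, from BXC; model `NU1.lean`): small `n`. `H = b - a`, `A = π/H`. `ρ0 = 10⁵ n H`,
`δ = 10⁵ H/2`, `ρo = ρ0 + δ ≤ 1.5·10⁵ n H ≤ 1.5·10⁻¹⁰ R`, `T = zp ρo - zm ρo ≥ (1 - 1.5·10⁻¹⁰) H`, `T ≤ H`,
`η = (1 - 10⁻¹¹) T/2`, `z0` the middle of the section. `(π/2δ)² = 10⁻¹⁰ A²`,
`(π/2η)² ≤ (1 + 3.3·10⁻¹⁰) A²`, `n²/(ρ0-δ)² ≤ 4/(10¹⁰ H²) ≤ 4.1·10⁻¹¹ A²`, so `Eb - lam ≤ 4.8·10⁻¹⁰ A²`;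
`(ρ0 δ η)² ≤ 6.25·10¹⁸ n² H⁶`, `A⁶ H⁶ = π⁶ ≤ 962`: left side `≤ 0.03 n²`. -/
def NB1 : Prop :=
  ∀ (Ω : Set E3) (R a b : ℝ) (zm zp : ℝ → ℝ) (n : ℕ) (lam : ℝ), Sec Ω R a b zm zp → 1 ≤ n →
    10 ^ 15 * n * (b - a) ≤ R → (1 - 1 / 10 ^ 110) * (Real.pi / (b - a)) ^ 2 ≤ lam → BX Ω n lam

/-- NB2 (MEDIUM, from BXC; model `NU2.lean`): intermediate `n`. `H = b - a`, `A = π/H`, `δ = 10¹⁰ H`, `ρo = ρs`,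
`ρ0 = ρs - δ`, `T = zp ρs - zm ρs ≤ H`, `η = (1 - 10⁻⁶⁰) T/2`, `z0` the middle of the section. `n/R ≤ 10¹⁴/H`, so
`V ≤ 4A² + 4(n/R)² ≤ 5·10²⁷ A²`; `(n/ρs)² ≤ 2V` gives `ρs ≥ n H/10¹⁵ ≥ R/10³⁰`, `δ/ρs ≤ 10⁻⁷⁰`.
`Eb ≤ 2.5·10⁻²¹ A² + V (1 + 10⁻⁶¹)(1 + 4·10⁻⁶⁰)`, `lam ≥ V - 2V/n`, `2/n ≤ 2·10¹⁵ H/R ≤ 2·10⁻⁹⁵`: so
`Eb - lam ≤ 2.6·10⁻²¹ A²`. `(ρ0 δ η)² ≤ 0.25·10²⁰ R² H⁴`, `A⁶ R² H⁴ = π⁶ (R/H)²`, `R/H ≤ 10¹⁵ n`: left side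
`≤ 10⁻⁴ n²`. -/
def NB2 : Prop :=
  ∀ (Ω : Set E3) (R a b : ℝ) (zm zp : ℝ → ℝ) (n : ℕ) (lam V ρs : ℝ), Sec Ω R a b zm zp → 2 ≤ n →
    b - a ≤ R / 10 ^ 110 → R ≤ 10 ^ 15 * n * (b - a) → n * (b - a) ≤ 10 ^ 14 * R → 0 < V →
    V ≤ 4 * (Real.pi / (b - a)) ^ 2 + 4 * ((n : ℝ) / R) ^ 2 → 0 < ρs → ρs < R →
    (Real.pi / (zp ρs - zm ρs)) ^ 2 + ((n : ℝ) / ρs) ^ 2 ≤ (1 + 1 / 10 ^ 61) * V →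
    (1 - 1 / (n : ℝ)) ^ 2 * V ≤ lam → BX Ω n lam

/-- NB3 (EASY, from RNC, NT1): large `n`: the ring of RNC (`min R (b-a) = b - a`, `η = 10⁻⁹ (b-a)`), the box
`boxS ρ1 z1 δ δ`, `δ = 10⁴ R/n ≤ η`, NT1; `(1 - 1/n)² ≥ 1 - 2/n ≥ 1 - 10⁻⁸` as `n ≥ 10¹⁴ R/(b-a) ≥ 10¹²⁴`. -/
def NB3 : Prop :=
  ∀ (Ω : Set E3) (R a b : ℝ) (zm zp : ℝ → ℝ) (n : ℕ) (lam : ℝ), Sec Ω R a b zm zp → 2 ≤ n →
    b - a ≤ R / 10 ^ 110 → 10 ^ 14 * R ≤ n * (b - a) →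
    (1 - 1 / (n : ℝ)) ^ 2 * ((n : ℝ) / R) ^ 2 ≤ lam → BX Ω n lam

/-- SL3 (EASY-MEDIUM, from NB1, NB2, NB3): the choice of `n`. `F_n(ρ) = (π/(zp ρ - zm ρ))² + (n/ρ)²`,
`V_n = inf F_n` over `0 < ρ < R` (`sInf` of the image). `V_n ≥ (n/R)²`, `V_n ≥ (π/(b-a))²` (`zp ρ - zm ρ ≤ b - a`), so
there is a least `n ≥ 1` with `lam < V_n`; `V = V_n`. If `n ≥ 2` then `lam ≥ V_(n-1) ≥ (1 - 1/n)² V_n`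
(`F_(n-1) ≥ (1 - 1/n)² F_n`) and `lam ≥ (π/(b-a))²`. `V_n ≤ F_n(R/2) ≤ 4 (π/(b-a))² + 4 (n/R)²`
(`zp - zm ≥ (b-a)/2` at `R/2`). `ρs` with `F_n(ρs) < (1 + 10⁻⁶¹) V_n`. Cases `10¹⁵ n (b-a) ≤ R`: NB1;
`n (b-a) ≤ 10¹⁴ R`: NB2; otherwise NB3. For `n = 1` the first case holds. -/
def SL3 : Prop :=
  ∀ (Ω : Set E3) (R a b : ℝ) (zm zp : ℝ → ℝ) (lam : ℝ), Sec Ω R a b zm zp →
    b - a ≤ R / 10 ^ 110 → (1 - 1 / 10 ^ 110) * (Real.pi / (b - a)) ^ 2 ≤ lam →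
    ∃ (n : ℕ) (V : ℝ), 1 ≤ n ∧ lam < V ∧
      (∀ ρ, 0 < ρ → ρ < R → V ≤ (Real.pi / (zp ρ - zm ρ)) ^ 2 + ((n : ℝ) / ρ) ^ 2) ∧ BX Ω n lam

end Pool.Agent.Work.MP_d5b3be_an.BN
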