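import Pool.Agent.Work.MP_d5b3be_an.BN.Asm
import Pool.Agent.Work.MP_d5b3be_an.BN.Stmts4

/-!
# Block BN: assembly of the results on convex bodies of revolution
-/

set_option autoImplicit false

namespace Pool.Agent.Work.MP_d5b3be_an.BN

open MeasureTheory Filter Set
open scoped ENNReal Topology ContDiff

theorem Fam_mono (Ω : Set E3) (lam X Y : ℝ) (h : Y ≤ X) (hF : Fam Ω lam X) : Fam Ω lam Y := by
  obtain ⟨N, U, h1, h2⟩ := hF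
  exact ⟨N, U, h.trans h1, h2⟩

/-- radius, lowest and highest points of a bounded set -/
theorem Asm2_dim (Ω : Set E3) (hne : Ω.Nonempty) (hb : Bornology.IsBounded Ω) :
    ∃ R a b : ℝ, IsLUB (rr '' Ω) R ∧ IsGLB ((fun x : E3 => x 2) '' Ω) a ∧
      IsLUB ((fun x : E3 => x 2) '' Ω) b := by
  obtain ⟨M, hM⟩ := hb.exists_norm_le
  have hc : ∀ x ∈ Ω, ∀ i, |x i| ≤ M := fun x hx i => by
    have := norm_le_pi_norm x i
    rw [Real.norm_eq_abs] at this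
    exact this.trans (hM x hx)
  have h1 : BddAbove (rr '' Ω) := by
    refine ⟨Real.sqrt (M ^ 2 + M ^ 2), ?_⟩
    rintro y ⟨x, hx, rfl⟩
    apply Real.sqrt_le_sqrt
    have h0 := hc x hx 0
    have h1 := hc x hx 1
    have e0 : x 0 ^ 2 ≤ M ^ 2 := sq_le_sq' (abs_le.1 h0).1 (abs_le.1 h0).2
    have e1 : x 1 ^ 2 ≤ M ^ 2 := sq_le_sq' (abs_le.1 h1).1 (abs_le.1 h1).2
    linarith
  have h2 : BddBelow ((fun x : E3 => x 2) '' Ω) := by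
    refine ⟨-M, ?_⟩
    rintro y ⟨x, hx, rfl⟩
    exact (abs_le.1 (hc x hx 2)).1
  have h3 : BddAbove ((fun x : E3 => x 2) '' Ω) := by
    refine ⟨M, ?_⟩
    rintro y ⟨x, hx, rfl⟩
    exact (abs_le.1 (hc x hx 2)).2
  exact ⟨_, _, _, isLUB_csSup (hne.image _) h1, isGLB_csInf (hne.image _) h2,
    isLUB_csSup (hne.image _) h3⟩

/-- the first eigenvalue of a subset of a cylinder -/
theorem Asm2_lam1 (hE : EG2) (hN : NZT) (Ω : Set E3) (R a b : ℝ) (ho : IsOpen Ω)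
    (hne : Ω.Nonempty) (hR : 0 < R) (hab : a < b)
    (hΩ : ∀ x ∈ Ω, x 0 ^ 2 + x 1 ^ 2 ≤ R ^ 2 ∧ a ≤ x 2 ∧ x 2 ≤ b) :
    (Real.pi / (2 * R)) ^ 2 + (Real.pi / (b - a)) ^ 2 ≤ lam1 Ω := by
  obtain ⟨φ, hφ, hφ0⟩ := hN Ω ho hne
  refine le_csInf ⟨_, φ, hφ, hφ0, rfl⟩ ?_
  rintro q ⟨ψ, hψ, hψ0, rfl⟩
  rw [le_div_iff₀ hψ0]
  exact hE Ω R a b ψ hR hab hΩ hψ

theorem Asm2_sec (Ω : Set E3) (R a b : ℝ) (zm zp : ℝ → ℝ) (h : Sec Ω R a b zm zp) :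
    ∀ x ∈ Ω, x 0 ^ 2 + x 1 ^ 2 ≤ R ^ 2 ∧ a ≤ x 2 ∧ x 2 ≤ b := by
  intro x hx
  obtain ⟨h1, h2, h3⟩ := h.2.2.1 x hx
  refine ⟨?_, h2.le, h3.le⟩
  have h4 : 0 ≤ x 0 ^ 2 + x 1 ^ 2 := by positivity
  calc x 0 ^ 2 + x 1 ^ 2 = (rr x) ^ 2 := by
        unfold rr
        rw [Real.sq_sqrt h4]
    _ ≤ R ^ 2 := pow_le_pow_left₀ (Real.sqrt_nonneg _) h1.le 2

/-- all convex bodies of revolution, uniformly -/
theorem Asm2_C (h1 : ROT) (h2 : CRI) (h3 : VN1) (h4 : NT1) (h5 : ROS) (h6 : DIS) (h7 : INE)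
    (h8 : SEC) (h9 : RNC) (hE : EG2) (hN : NZT) :
    ∃ C c : ℝ, 0 < C ∧ 0 < c ∧ ∀ Ω : Set E3, IsOpen Ω → Ω.Nonempty → Bornology.IsBounded Ω →
      Convex ℝ Ω → RI Ω → ∀ lam : ℝ, C * lam1 Ω ≤ lam → Fam Ω lam (c * Real.sqrt (lam / lam1 Ω)) := by
  refine ⟨10 ^ 36, 1 / 10 ^ 9, by positivity, by positivity, ?_⟩
  intro Ω ho hne hb hcx hr lam hl
  obtain ⟨R, a, b, hR, ha, hb'⟩ := Asm2_dim Ω hne hb
  obtain ⟨zm, zp, hS⟩ := h8 Ω R a b ho hne hb hcx hr hR ha hb'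
  have hR0 : 0 < R := hS.1
  have hab : a < b := hS.2.1
  have hH : 0 < b - a := by linarith
  have hΩ := Asm2_sec Ω R a b zm zp hS
  obtain ⟨ρ1, z1, e1, e2, e3, e4⟩ := h9 Ω R a b zm zp hS
  have hev := Asm2_lam1 hE hN Ω R a b ho hne hR0 hab hΩ
  set m := min R (b - a) with hm
  have hm0 : 0 < m := lt_min hR0 hH
  have hpi : (3 : ℝ) < Real.pi := Real.pi_gt_three
  have hA : 1 / R ^ 2 ≤ (Real.pi / (2 * R)) ^ 2 := by
    rw [div_pow, mul_pow, div_le_div_iff₀ (by positivity) (by positivity)]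
    have : (2 : ℝ) ^ 2 ≤ Real.pi ^ 2 := pow_le_pow_left₀ (by norm_num) (by linarith) 2
    have hR2 : 0 < R ^ 2 := by positivity
    nlinarith
  have hB : 1 / (b - a) ^ 2 ≤ (Real.pi / (b - a)) ^ 2 := by
    rw [div_pow]
    have : (1 : ℝ) ≤ Real.pi ^ 2 := by nlinarith
    gcongr
  have hm1 : 1 / m ^ 2 ≤ lam1 Ω := by
    have hA0 : 0 < 1 / R ^ 2 := by positivity
    have hB0 : 0 < 1 / (b - a) ^ 2 := by positivity
    rcases min_choice R (b - a) with h14 | h14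
    · rw [hm, h14]
      linarith
    · rw [hm, h14]
      linarith
  have hl1 : 0 < lam1 Ω := lt_of_lt_of_le (by positivity) hm1
  have hR1 : 1 ≤ R * Real.sqrt (lam1 Ω) := by
    have h15 : 1 / R ^ 2 ≤ lam1 Ω := by
      have hB0 : 0 < 1 / (b - a) ^ 2 := by positivity
      linarith
    have h16 : 1 / R ≤ Real.sqrt (lam1 Ω) := by
      apply Real.le_sqrt_of_sq_le
      rw [div_pow, one_pow]
      exact h15
    rw [div_le_iff₀ hR0] at h16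
    linarith
  have hlam : 10 ^ 18 / (1 / 10 ^ 9 * m) ^ 2 ≤ lam := by
    have h17 : 10 ^ 18 / (1 / 10 ^ 9 * m) ^ 2 = 10 ^ 36 * (1 / m ^ 2) := by
      field_simp
    rw [h17]
    exact (mul_le_mul_of_nonneg_left hm1 (by positivity)).trans hl
  have hlam0 : 0 < lam := lt_of_lt_of_le (by positivity) hl
  have hF := Asm_ring h1 h2 h3 h4 h5 h6 h7 Ω R ρ1 z1 (1 / 10 ^ 9 * m) lam hb hr
    (fun x hx => (hΩ x hx).1) (by positivity) e1 e2 e3 e4 hlam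
  refine Fam_mono Ω lam _ _ ?_ hF
  rw [Real.sqrt_div hlam0.le]
  have hs : 0 < Real.sqrt (lam1 Ω) := Real.sqrt_pos.2 hl1
  have h18 : Real.sqrt lam / Real.sqrt (lam1 Ω) ≤ R * Real.sqrt lam := by
    rw [div_le_iff₀ hs]
    have h19 : 0 ≤ Real.sqrt lam := Real.sqrt_nonneg _
    nlinarith
  calc 1 / 10 ^ 9 * (Real.sqrt lam / Real.sqrt (lam1 Ω)) ≤ 1 / 10 ^ 9 * (R * Real.sqrt lam) :=
        mul_le_mul_of_nonneg_left h18 (by positivity)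
    _ = 1 / 10 ^ 9 * R * Real.sqrt lam := by ring

/-- flat convex bodies of revolution -/
theorem Asm2_B (h2 : CRI) (h3 : CLB) (h5 : ROS) (h6 : DIS) (h8 : SEC) (h9 : SL3) (hE : EG2)
    (hN : NZT) :
    ∃ κ : ℝ, 0 < κ ∧ κ < 1 ∧ ∀ (Ω : Set E3) (R a b : ℝ), IsOpen Ω → Ω.Nonempty →
      Bornology.IsBounded Ω → Convex ℝ Ω → RI Ω → IsLUB (rr '' Ω) R →
      IsGLB ((fun x : E3 => x 2) '' Ω) a → IsLUB ((fun x : E3 => x 2) '' Ω) b → b - a ≤ κ * R →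
      (Real.pi / (b - a)) ^ 2 ≤ lam1 Ω ∧
      ∀ lam : ℝ, (1 - κ) * (Real.pi / (b - a)) ^ 2 ≤ lam →
        ∃ U : ℕ → E3 → ℝ, (∀ j, IsSol Ω lam (U j)) ∧ ∀ i j, i ≠ j → ¬ (U i =ᵐ[volume] U j) := by
  refine ⟨1 / 10 ^ 110, by positivity, by norm_num, ?_⟩
  intro Ω R a b ho hne hb hcx hr hR ha hb' hκ
  obtain ⟨zm, zp, hS⟩ := h8 Ω R a b ho hne hb hcx hr hR ha hb'
  have hR0 : 0 < R := hS.1
  have hab : a < b := hS.2.1
  have hH : 0 < b - a := by linarith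
  have hΩ := Asm2_sec Ω R a b zm zp hS
  have hev := Asm2_lam1 hE hN Ω R a b ho hne hR0 hab hΩ
  have hRp : 0 < (Real.pi / (2 * R)) ^ 2 := by
    have : 0 < Real.pi := Real.pi_pos
    positivity
  refine ⟨by linarith, fun lam hl => ?_⟩
  have hκ' : b - a ≤ R / 10 ^ 110 := by
    rw [div_eq_mul_one_div, mul_comm]
    exact hκ
  have hlam : 0 < lam := by
    have hp : 0 < Real.pi := Real.pi_pos
    have h14 : 0 < (Real.pi / (b - a)) ^ 2 := by positivity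
    have h15 : (0 : ℝ) < 1 - 1 / 10 ^ 110 := by norm_num
    have : 0 < (1 - 1 / 10 ^ 110) * (Real.pi / (b - a)) ^ 2 := mul_pos h15 h14
    linarith
  obtain ⟨n, V, hn, hlt, hV, ρ0, z0, δ, η, hBC, hbox⟩ := h9 Ω R a b zm zp lam hS hκ' hl
  obtain ⟨u, hu1, hu2, hu3⟩ := h2 Ω n V lam ρ0 z0 δ η hb hr hn hlam hlt
    (fun φ hφ => h3 Ω R a b zm zp n V φ hS hn hV hφ) hBC hbox
  refine ⟨fun j x => u (rot (Real.pi / (n * 2 ^ j)) x), fun j => h5 Ω lam _ u hr hu1, ?_⟩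
  intro i j hij
  exact h6 n u hn hu1.1 hu3 i j hij

end Pool.Agent.Work.MP_d5b3be_an.BN
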