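import Pool.Agent.Work.MP_d5b3be_an.BN.Stmts

/-!
# TFC: the test function
-/

set_option autoImplicit false

namespace Pool.Agent.Work.MP_d5b3be_an.BN

open MeasureTheory Filter Set
open scoped ENNReal Topology ContDiff

/-- continuity: a small `ε` keeps the strict inequality -/
lemma TFC_eps (A E K lam P N : ℝ) (h : A * (E - lam) ^ 3 * P ^ 2 < N) :
    ∃ ε : ℝ, 0 < ε ∧ A * (E + ε * K - lam) ^ 3 * P ^ 2 < N := by
  have hc : Continuous (fun ε : ℝ => A * (E + ε * K - lam) ^ 3 * P ^ 2) := by fun_prop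
  have h0 : Tendsto (fun ε : ℝ => A * (E + ε * K - lam) ^ 3 * P ^ 2) (𝓝[>] 0)
      (𝓝 (A * (E + 0 * K - lam) ^ 3 * P ^ 2)) := (hc.tendsto 0).mono_left nhdsWithin_le_nhds
  have h1 : A * (E + 0 * K - lam) ^ 3 * P ^ 2 < N := by
    rw [zero_mul, add_zero]; exact h
  have h2 := h0.eventually (gt_mem_nhds h1)
  have h3 : ∀ᶠ ε : ℝ in 𝓝[>] 0, 0 < ε := self_mem_nhdsWithin
  obtain ⟨ε, he, he'⟩ := (h2.and h3).exists
  exact ⟨ε, he', he⟩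

/-- the algebra of the estimate of the energy -/
lemma TFC_energy (P δ η m I J ε : ℝ) (hP : 0 < P) (hδ : 0 < δ) (hη : 0 < η) (hI : 0 < I)
    (hJ : J ≤ ((Real.pi / 2) ^ 2 + ε) * I) :
    Real.pi * P * (I * J / δ ^ 2 + I * J / η ^ 2 + m * I ^ 2) ≤
      ((Real.pi / (2 * δ)) ^ 2 + (Real.pi / (2 * η)) ^ 2 + m + ε * (1 / δ ^ 2 + 1 / η ^ 2)) *
        (Real.pi * P * I ^ 2) := by
  have hpi := Real.pi_pos
  have h1 : I * J ≤ ((Real.pi / 2) ^ 2 + ε) * I ^ 2 := by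
    have := mul_le_mul_of_nonneg_left hJ hI.le
    nlinarith
  have h2 : I * J / δ ^ 2 ≤ ((Real.pi / 2) ^ 2 + ε) * I ^ 2 / δ ^ 2 :=
    div_le_div_of_nonneg_right h1 (by positivity)
  have h3 : I * J / η ^ 2 ≤ ((Real.pi / 2) ^ 2 + ε) * I ^ 2 / η ^ 2 :=
    div_le_div_of_nonneg_right h1 (by positivity)
  have h4 : Real.pi * P * (I * J / δ ^ 2 + I * J / η ^ 2 + m * I ^ 2) ≤
      Real.pi * P * (((Real.pi / 2) ^ 2 + ε) * I ^ 2 / δ ^ 2 +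
        ((Real.pi / 2) ^ 2 + ε) * I ^ 2 / η ^ 2 + m * I ^ 2) := by
    apply mul_le_mul_of_nonneg_left _ (by positivity)
    linarith
  refine h4.trans (le_of_eq ?_)
  field_simp
  ring

theorem prfTFC (hBMP : BMP) (hBXF : BXF) (hBXI : BXI) (hBXV : BXV) (hHOL : HOL) : TFC := by
  intro Ω n lam ρ0 z0 δ η hn hBC hbox
  obtain ⟨hδ, hδρ, hη, hlt⟩ := hBC
  have hρ : 0 < ρ0 := hδ.trans hδρ
  have hpi := Real.pi_pos
  set P : ℝ := ρ0 * δ * η with hP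
  have hP0 : 0 < P := by positivity
  obtain ⟨ε, hε, hlt'⟩ := TFC_eps (4096 * Real.pi ^ 2) (Eb n ρ0 δ η) (1 / δ ^ 2 + 1 / η ^ 2) lam P
    ((n : ℝ) ^ 2) hlt
  obtain ⟨ζ, hζ, hI, hJ⟩ := hBMP ε hε
  obtain ⟨hT, hout, -⟩ := hBXF Ω n ζ ρ0 z0 δ η hn hζ hδ hδρ hη hbox
  obtain ⟨hQ, hD⟩ := hBXI n ζ ρ0 z0 δ η hn hζ hδ hδρ hη
  obtain ⟨hSm, hSv⟩ := hBXV ρ0 z0 δ η hδ hδρ hη
  set φ := bxf n ζ ρ0 z0 δ η with hφ
  set I : ℝ := ∫ x, ζ x ^ 2 with hIdef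
  set J : ℝ := ∫ x, deriv ζ x ^ 2 with hJdef
  have hQ' : Q2 φ = Real.pi * P * I ^ 2 := by rw [hQ, hP]; ring
  have hQ0 : 0 < Q2 φ := by rw [hQ']; positivity
  have hN : Q2 φ ^ 3 ≤ (8 * Real.pi * ρ0 * δ * η) ^ 2 * N6 φ :=
    hHOL φ (boxS ρ0 z0 δ η) (8 * Real.pi * ρ0 * δ * η) hT.1.1.continuous hT.1.2.1 hSm hout
      (by positivity) hSv
  have hv : (8 * Real.pi * ρ0 * δ * η) ^ 2 = 64 * Real.pi ^ 2 * P ^ 2 := by rw [hP]; ring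
  rw [hv] at hN
  have hN0 : 0 < N6 φ := by
    by_contra hcon
    push Not at hcon
    have h1 : 0 < Q2 φ ^ 3 := by positivity
    have h2 : 64 * Real.pi ^ 2 * P ^ 2 * N6 φ ≤ 0 :=
      mul_nonpos_of_nonneg_of_nonpos (by positivity) hcon
    linarith
  refine ⟨φ, hT, hN0, ?_⟩
  have hE := TFC_energy P δ η ((n : ℝ) ^ 2 / (ρ0 - δ) ^ 2) I J ε hP0 hδ hη hI hJ
  have hD' : DD (gr φ) ≤ (Eb n ρ0 δ η + ε * (1 / δ ^ 2 + 1 / η ^ 2)) * Q2 φ := by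
    have h1 : DD (gr φ) ≤ Real.pi * P * (I * J / δ ^ 2 + I * J / η ^ 2 +
        (n : ℝ) ^ 2 / (ρ0 - δ) ^ 2 * I ^ 2) := by
      refine hD.trans (le_of_eq ?_)
      rw [hP]; ring
    rw [hQ']
    unfold Eb
    exact h1.trans hE
  set X : ℝ := Eb n ρ0 δ η + ε * (1 / δ ^ 2 + 1 / η ^ 2) - lam with hX
  have hXQ : DD (gr φ) - lam * Q2 φ ≤ X * Q2 φ := by
    rw [hX]; linarith
  have hcube : (DD (gr φ) - lam * Q2 φ) ^ 3 ≤ (X * Q2 φ) ^ 3 :=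
    (Odd.strictMono_pow (by decide : Odd 3)).monotone hXQ
  have hn0 : (0 : ℝ) < (n : ℝ) ^ 2 := by
    have : (0 : ℝ) < n := by exact_mod_cast hn
    positivity
  have hnN : 0 < (n : ℝ) ^ 2 * N6 φ := mul_pos hn0 hN0
  rcases le_or_gt X 0 with hX0 | hX0
  · have h1 : (X * Q2 φ) ^ 3 ≤ 0 := by
      have h2 : X * Q2 φ ≤ 0 := mul_nonpos_of_nonpos_of_nonneg hX0 hQ0.le
      exact Odd.pow_nonpos (by decide) h2
    linarith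
  · calc 64 * (DD (gr φ) - lam * Q2 φ) ^ 3 ≤ 64 * (X * Q2 φ) ^ 3 := by linarith
      _ = 64 * X ^ 3 * Q2 φ ^ 3 := by ring
      _ ≤ 64 * X ^ 3 * (64 * Real.pi ^ 2 * P ^ 2 * N6 φ) :=
          mul_le_mul_of_nonneg_left hN (by positivity)
      _ = (4096 * Real.pi ^ 2 * X ^ 3 * P ^ 2) * N6 φ := by ring
      _ < (n : ℝ) ^ 2 * N6 φ := mul_lt_mul_of_pos_right hlt' hN0

end Pool.Agent.Work.MP_d5b3be_an.BN
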