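import Pool.Agent.Work.MP_d5b3be_an.BN.Stmts2

/-!
# Block BN, item BLZ: the Brezis-Lieb lemma for the exponent six

Pointwise: for `η > 0` there is `K`, and for `M ≥ 1` there is `K'`, such that
`|(a+b)⁶ - a⁶ - b⁶| ≤ K a⁶ 1_{|a| > M} + η (a² + b⁶) + K' b²`.
-/

set_option autoImplicit false

namespace Pool.Agent.Work.MP_d5b3be_an.BN

open MeasureTheory Filter Set
open scoped ENNReal Topology ContDiff

/-- the sixth power, cut off below `M` -/
noncomputable def BLZ_f (M t : ℝ) : ℝ := if |t| ≤ M then 0 else t ^ 6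

theorem BLZ_mix (A B : ℝ) (hA : 0 ≤ A) (hB : 0 ≤ B) :
    6 * (A ^ 5 * B) + 15 * (A ^ 4 * B ^ 2) + 20 * (A ^ 3 * B ^ 3) + 15 * (A ^ 2 * B ^ 4) +
      6 * (A * B ^ 5) ≤ 31 * (A ^ 5 * B + A * B ^ 5) := by
  have hAB : 0 ≤ A * B := mul_nonneg hA hB
  have h1 : 0 ≤ A * B * (A ^ 2 - B ^ 2) ^ 2 := mul_nonneg hAB (sq_nonneg _)
  have h2 : 0 ≤ A * B * ((A - B) ^ 2 * (A ^ 2 + A * B + B ^ 2)) := by positivity
  nlinarith

theorem BLZ_abs (a b : ℝ) :
    |(a + b) ^ 6 - a ^ 6 - b ^ 6| ≤ 31 * (|a| ^ 5 * |b| + |a| * |b| ^ 5) := by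
  have e : (a + b) ^ 6 - a ^ 6 - b ^ 6 = 6 * (a ^ 5 * b) + 15 * (a ^ 4 * b ^ 2) +
      20 * (a ^ 3 * b ^ 3) + 15 * (a ^ 2 * b ^ 4) + 6 * (a * b ^ 5) := by ring
  rw [e]
  have m := BLZ_mix |a| |b| (abs_nonneg a) (abs_nonneg b)
  have l1 := le_abs_self (a ^ 5 * b)
  have l2 := le_abs_self (a ^ 4 * b ^ 2)
  have l3 := le_abs_self (a ^ 3 * b ^ 3)
  have l4 := le_abs_self (a ^ 2 * b ^ 4)
  have l5 := le_abs_self (a * b ^ 5)
  have k1 := neg_abs_le (a ^ 5 * b)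
  have k2 := neg_abs_le (a ^ 4 * b ^ 2)
  have k3 := neg_abs_le (a ^ 3 * b ^ 3)
  have k4 := neg_abs_le (a ^ 2 * b ^ 4)
  have k5 := neg_abs_le (a * b ^ 5)
  rw [abs_mul, abs_pow] at l1 k1
  rw [abs_mul, abs_pow, abs_pow] at l2 k2 l3 k3 l4 k4
  rw [abs_mul, abs_pow] at l5 k5
  exact abs_le.2 ⟨by linarith, by linarith⟩

theorem BLZ_big (A B L : ℝ) (hA : 0 ≤ A) (hB : 0 ≤ B) (hL : 1 ≤ L) :
    A ^ 5 * B + A * B ^ 5 ≤ 2 * L ^ 5 * A ^ 6 + 2 / L * B ^ 6 := by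
  have hL0 : 0 < L := by linarith
  have hLL : L ≤ L ^ 5 := by
    calc L = L ^ 1 := (pow_one L).symm
      _ ≤ L ^ 5 := pow_le_pow_right₀ hL (by norm_num)
  have hp : 0 ≤ 2 / L * B ^ 6 := by positivity
  rcases le_or_gt B (L * A) with h | h
  · have h1 : A ^ 5 * B ≤ L ^ 5 * A ^ 6 := by
      calc A ^ 5 * B ≤ A ^ 5 * (L * A) := mul_le_mul_of_nonneg_left h (by positivity)
        _ = L * A ^ 6 := by ring
        _ ≤ L ^ 5 * A ^ 6 := mul_le_mul_of_nonneg_right hLL (by positivity)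
    have h2 : A * B ^ 5 ≤ L ^ 5 * A ^ 6 := by
      calc A * B ^ 5 ≤ A * (L * A) ^ 5 :=
            mul_le_mul_of_nonneg_left (pow_le_pow_left₀ hB h 5) hA
        _ = L ^ 5 * A ^ 6 := by ring
    linarith
  · have hAB : A ≤ B / L := by
      rw [le_div_iff₀ hL0]
      linarith
    have hBL : B / L ≤ B := div_le_self hB hL
    have hAB' : A ≤ B := hAB.trans hBL
    have h2 : A * B ^ 5 ≤ 1 / L * B ^ 6 := by
      calc A * B ^ 5 ≤ B / L * B ^ 5 := mul_le_mul_of_nonneg_right hAB (by positivity)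
        _ = 1 / L * B ^ 6 := by ring
    have h1 : A ^ 5 * B ≤ 1 / L * B ^ 6 := by
      calc A ^ 5 * B = A * (A ^ 4 * B) := by ring
        _ ≤ A * (B ^ 4 * B) :=
            mul_le_mul_of_nonneg_left
              (mul_le_mul_of_nonneg_right (pow_le_pow_left₀ hA hAB' 4) hB) hA
        _ = A * B ^ 5 := by ring
        _ ≤ 1 / L * B ^ 6 := h2
    have h3 : 0 ≤ 2 * L ^ 5 * A ^ 6 := by positivity
    have h4 : 2 / L * B ^ 6 = 1 / L * B ^ 6 + 1 / L * B ^ 6 := by ring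
    linarith

theorem BLZ_small (A B M ε : ℝ) (hA : 0 ≤ A) (hB : 0 ≤ B) (hM : A ≤ M) (hε : 0 < ε) :
    A ^ 5 * B + A * B ^ 5 ≤ ε * A ^ 2 + ε * B ^ 6 + (M ^ 8 / (4 * ε) + M ^ 4 / ε ^ 3) * B ^ 2 := by
  have hM0 : 0 ≤ M := hA.trans hM
  have h1 : A ^ 5 * B ≤ ε * A ^ 2 + M ^ 8 / (4 * ε) * B ^ 2 := by
    have h2 : A ^ 5 * B ≤ M ^ 4 * (A * B) := by
      calc A ^ 5 * B = A ^ 4 * (A * B) := by ring
        _ ≤ M ^ 4 * (A * B) :=
            mul_le_mul_of_nonneg_right (pow_le_pow_left₀ hA hM 4) (mul_nonneg hA hB)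
    have h3 : M ^ 4 * (A * B) ≤ ε * A ^ 2 + M ^ 8 / (4 * ε) * B ^ 2 := by
      have h4 : ε * A ^ 2 + M ^ 8 / (4 * ε) * B ^ 2 - M ^ 4 * (A * B) =
          (2 * ε * A - M ^ 4 * B) ^ 2 / (4 * ε) := by
        field_simp
        ring
      have h5 : 0 ≤ (2 * ε * A - M ^ 4 * B) ^ 2 / (4 * ε) := by positivity
      linarith
    linarith
  have h6 : A * B ^ 5 ≤ ε * B ^ 6 + M ^ 4 / ε ^ 3 * B ^ 2 := by
    have h7 : A * B ^ 5 ≤ M * B ^ 5 := mul_le_mul_of_nonneg_right hM (by positivity)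
    rcases le_or_gt (M / ε) B with h | h
    · have h8 : M ≤ ε * B := by
        rw [div_le_iff₀ hε] at h
        linarith
      have h9 : M * B ^ 5 ≤ ε * B ^ 6 := by
        calc M * B ^ 5 ≤ ε * B * B ^ 5 := mul_le_mul_of_nonneg_right h8 (by positivity)
          _ = ε * B ^ 6 := by ring
      have : 0 ≤ M ^ 4 / ε ^ 3 * B ^ 2 := by positivity
      linarith
    · have h9 : M * B ^ 5 ≤ M ^ 4 / ε ^ 3 * B ^ 2 := by
        calc M * B ^ 5 = M * B ^ 3 * B ^ 2 := by ring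
          _ ≤ M * (M / ε) ^ 3 * B ^ 2 :=
              mul_le_mul_of_nonneg_right
                (mul_le_mul_of_nonneg_left (pow_le_pow_left₀ hB h.le 3) hM0) (by positivity)
          _ = M ^ 4 / ε ^ 3 * B ^ 2 := by
              field_simp
      have : 0 ≤ ε * B ^ 6 := by positivity
      linarith
  linarith

theorem BLZ_f_nonneg (M t : ℝ) : 0 ≤ BLZ_f M t := by
  unfold BLZ_f
  split_ifs
  · exact le_rfl
  · positivity

theorem BLZ_f_le (M t : ℝ) : BLZ_f M t ≤ t ^ 6 := by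
  unfold BLZ_f
  split_ifs
  · positivity
  · exact le_rfl

theorem BLZ_f_meas (M : ℝ) : Measurable (BLZ_f M) := by
  unfold BLZ_f
  apply Measurable.ite
  · exact measurableSet_le (by fun_prop) (by fun_prop)
  · exact measurable_const
  · fun_prop

/-- the pointwise inequality -/
theorem BLZ_point (η : ℝ) (hη : 0 < η) : ∃ K : ℝ, 0 ≤ K ∧ ∀ M : ℝ, 0 ≤ M → ∃ K' : ℝ, 0 ≤ K' ∧
    ∀ a b : ℝ, |(a + b) ^ 6 - a ^ 6 - b ^ 6| ≤
      K * BLZ_f M a + η * (a ^ 2 + b ^ 6) + K' * b ^ 2 := by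
  set L : ℝ := max 1 (62 / η) with hLdef
  have hL1 : 1 ≤ L := le_max_left _ _
  have hL2 : 62 / η ≤ L := le_max_right _ _
  have hL0 : 0 < L := by linarith
  refine ⟨62 * L ^ 5, by positivity, fun M hM => ?_⟩
  set ε : ℝ := η / 31 with hε
  have hε0 : 0 < ε := by positivity
  refine ⟨31 * (M ^ 8 / (4 * ε) + M ^ 4 / ε ^ 3), by positivity, fun a b => ?_⟩
  have h0 := BLZ_abs a b
  have hb6 : |b| ^ 6 = b ^ 6 := by
    have : Even 6 := by decide
    exact this.pow_abs b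
  have ha6 : |a| ^ 6 = a ^ 6 := by
    have : Even 6 := by decide
    exact this.pow_abs a
  have ha2 : |a| ^ 2 = a ^ 2 := sq_abs a
  have hb2 : |b| ^ 2 = b ^ 2 := sq_abs b
  by_cases h : |a| ≤ M
  · have h1 := BLZ_small |a| |b| M ε (abs_nonneg a) (abs_nonneg b) h hε0
    rw [ha2, hb2, hb6] at h1
    have e : BLZ_f M a = 0 := by
      unfold BLZ_f
      rw [if_pos h]
    rw [e]
    have e2 : η = 31 * ε := by
      rw [hε]
      ring
    rw [e2]
    linarith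
  · have h1 := BLZ_big |a| |b| L (abs_nonneg a) (abs_nonneg b) hL1
    rw [ha6, hb6] at h1
    have e : BLZ_f M a = a ^ 6 := by
      unfold BLZ_f
      rw [if_neg h]
    rw [e]
    have h2 : 62 / L ≤ η := by
      rw [div_le_iff₀ hL0]
      rw [div_le_iff₀ hη] at hL2
      linarith
    have h3 : 31 * (2 / L * b ^ 6) ≤ η * b ^ 6 := by
      calc 31 * (2 / L * b ^ 6) = 62 / L * b ^ 6 := by ring
        _ ≤ η * b ^ 6 := mul_le_mul_of_nonneg_right h2 (by positivity)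
    have h4 : 0 ≤ η * a ^ 2 := by positivity
    have h5 : 0 ≤ 31 * (M ^ 8 / (4 * ε) + M ^ 4 / ε ^ 3) * b ^ 2 := by positivity
    linarith

theorem BLZ_int6 {f : E3 → ℝ} (hf : MemLp f 6 volume) : Integrable (fun x => f x ^ 6) := by
  have h : MemLp f ((6 : ℕ) : ℝ≥0∞) volume := by
    have e : ((6 : ℕ) : ℝ≥0∞) = 6 := by norm_num
    rw [e]
    exact hf
  refine (h.integrable_norm_pow (by norm_num)).congr (ae_of_all _ fun x => ?_)
  have : Even 6 := by decide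
  simp only [Real.norm_eq_abs]
  exact this.pow_abs (f x)

theorem BLZ_int2 {f : E3 → ℝ} (hf : MemLp f 2 volume) : Integrable (fun x => f x ^ 2) :=
  hf.integrable_sq

theorem BLZ_intf {f : E3 → ℝ} (hf : MemLp f 6 volume) (M : ℝ) :
    Integrable (fun x => BLZ_f M (f x)) := by
  refine (BLZ_int6 hf).mono' ?_ (ae_of_all _ fun x => ?_)
  · exact ((BLZ_f_meas M).comp_aemeasurable hf.1.aemeasurable).aestronglyMeasurable
  · rw [Real.norm_eq_abs, abs_of_nonneg (BLZ_f_nonneg M _)]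
    exact BLZ_f_le M _

theorem BLZ_lim {f : E3 → ℝ} (hf : MemLp f 6 volume) :
    Tendsto (fun n : ℕ => ∫ x, BLZ_f n (f x)) atTop (𝓝 0) := by
  have h := tendsto_integral_of_dominated_convergence (μ := (volume : Measure E3))
    (F := fun (n : ℕ) x => BLZ_f n (f x)) (f := fun _ => (0 : ℝ)) (fun x => f x ^ 6)
    (fun n => ((BLZ_f_meas n).comp_aemeasurable hf.1.aemeasurable).aestronglyMeasurable)
    (BLZ_int6 hf)
    (fun n => ae_of_all _ fun x => by
      rw [Real.norm_eq_abs, abs_of_nonneg (BLZ_f_nonneg _ _)]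
      exact BLZ_f_le _ _)
    (ae_of_all _ fun x => by
      apply tendsto_const_nhds.congr'
      obtain ⟨n, hn⟩ := exists_nat_ge |f x|
      filter_upwards [eventually_ge_atTop n] with m hm
      have : |f x| ≤ m := hn.trans (by exact_mod_cast hm)
      unfold BLZ_f
      rw [if_pos this])
  simpa using h

theorem prfBLZ : BLZ := by
  intro u v C hu2 hu6 hv2 hv6 hC hlim
  have hC0 : 0 ≤ C := le_trans (integral_nonneg fun x => by positivity) (hC 0)
  have hU : 0 ≤ ∫ x, u x ^ 2 := integral_nonneg fun x => sq_nonneg _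
  rw [Metric.tendsto_atTop]
  intro δ hδ
  set U := ∫ x, u x ^ 2 with hUdef
  set η : ℝ := δ / (4 * (U + C + 1)) with hηdef
  have hη : 0 < η := by positivity
  obtain ⟨K, hK, hM⟩ := BLZ_point η hη
  -- choose the level
  have hl : Tendsto (fun n : ℕ => K * ∫ x, BLZ_f n (u x)) atTop (𝓝 (K * 0)) :=
    (BLZ_lim hu6).const_mul K
  rw [mul_zero] at hl
  obtain ⟨n, hn⟩ := (hl.eventually (gt_mem_nhds (show (0 : ℝ) < δ / 4 by positivity))).exists
  obtain ⟨K', hK', hpt⟩ := hM n (Nat.cast_nonneg n)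
  have hl2 : Tendsto (fun k => K' * ∫ x, v k x ^ 2) atTop (𝓝 (K' * 0)) := hlim.const_mul K'
  rw [mul_zero] at hl2
  obtain ⟨N, hN⟩ := (eventually_atTop.1
    (hl2.eventually (gt_mem_nhds (show (0 : ℝ) < δ / 4 by positivity))))
  refine ⟨N, fun k hk => ?_⟩
  have hk' := hN k hk
  have i1 : Integrable (fun x => (u x + v k x) ^ 6) := BLZ_int6 (hu6.add (hv6 k))
  have i2 : Integrable (fun x => u x ^ 6) := BLZ_int6 hu6
  have i3 : Integrable (fun x => v k x ^ 6) := BLZ_int6 (hv6 k)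
  have i4 : Integrable (fun x => u x ^ 2) := BLZ_int2 hu2
  have i5 : Integrable (fun x => v k x ^ 2) := BLZ_int2 (hv2 k)
  have i6 : Integrable (fun x => BLZ_f n (u x)) := BLZ_intf hu6 n
  have j1 : Integrable (fun x => (u x + v k x) ^ 6 - u x ^ 6) := i1.sub i2
  have j2 : Integrable (fun x => K * BLZ_f n (u x)) := i6.const_mul K
  have j3 : Integrable (fun x => u x ^ 2 + v k x ^ 6) := i4.add i3
  have j4 : Integrable (fun x => η * (u x ^ 2 + v k x ^ 6)) := j3.const_mul η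
  have j5 : Integrable (fun x => K * BLZ_f n (u x) + η * (u x ^ 2 + v k x ^ 6)) := j2.add j4
  have j6 : Integrable (fun x => K' * v k x ^ 2) := i5.const_mul K'
  have e1 : (∫ x, (u x + v k x) ^ 6) - (∫ x, v k x ^ 6) - ∫ x, u x ^ 6 =
      ∫ x, ((u x + v k x) ^ 6 - u x ^ 6 - v k x ^ 6) := by
    rw [integral_sub j1 i3, integral_sub i1 i2]
    ring
  have e2 : |∫ x, ((u x + v k x) ^ 6 - u x ^ 6 - v k x ^ 6)| ≤
      ∫ x, (K * BLZ_f n (u x) + η * (u x ^ 2 + v k x ^ 6) + K' * v k x ^ 2) := by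
    rw [← Real.norm_eq_abs]
    refine (norm_integral_le_integral_norm _).trans ?_
    refine integral_mono (j1.sub i3).norm (j5.add j6) fun x => ?_
    exact hpt (u x) (v k x)
  have e3 : ∫ x, (K * BLZ_f n (u x) + η * (u x ^ 2 + v k x ^ 6) + K' * v k x ^ 2) =
      K * (∫ x, BLZ_f n (u x)) + η * (U + ∫ x, v k x ^ 6) + K' * ∫ x, v k x ^ 2 := by
    rw [integral_add j5 j6, integral_add j2 j4, integral_const_mul,
      integral_const_mul, integral_const_mul, integral_add i4 i3]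
  have e4 : η * (U + ∫ x, v k x ^ 6) ≤ δ / 4 := by
    calc η * (U + ∫ x, v k x ^ 6) ≤ η * (U + C + 1) := by
          apply mul_le_mul_of_nonneg_left _ hη.le
          linarith [hC k]
      _ = δ / 4 := by
          rw [hηdef]
          field_simp
  rw [Real.dist_eq, e1]
  calc _ ≤ _ := e2
    _ = _ := e3
    _ < δ := by linarith

end Pool.Agent.Work.MP_d5b3be_an.BN
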