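import Pool.Agent.Work.MP_d5b3be_an.BN.Stmts

/-! # Block BN, item BMP: nearly optimal bumps -/

set_option autoImplicit false

namespace Pool.Agent.Work.MP_d5b3be_an.BN

open MeasureTheory Filter Set
open scoped ENNReal Topology ContDiff

/-- the argument of the cut off -/
noncomputable def BMP_u (d x : ℝ) : ℝ := (1 - x ^ 2) / d - 1

/-- the bump -/
noncomputable def BMP_z (d x : ℝ) : ℝ :=
  Real.cos (Real.pi / 2 * x) * Real.smoothTransition (BMP_u d x)

/-- its derivative -/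
noncomputable def BMP_dz (d x : ℝ) : ℝ :=
  -Real.sin (Real.pi / 2 * x) * (Real.pi / 2) * Real.smoothTransition (BMP_u d x) +
    Real.cos (Real.pi / 2 * x) * (deriv Real.smoothTransition (BMP_u d x) * (-(2 * x) / d))

theorem BMP_cdS : ContDiff ℝ ((⊤ : ℕ∞) : WithTop ℕ∞) Real.smoothTransition :=
  Real.smoothTransition.contDiff

theorem BMP_diffS : Differentiable ℝ Real.smoothTransition :=
  BMP_cdS.differentiable (by simp)

theorem BMP_contdS : Continuous (deriv Real.smoothTransition) :=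
  BMP_cdS.continuous_deriv (by simp)

theorem BMP_dS_neg {y : ℝ} (hy : y < 0) : deriv Real.smoothTransition y = 0 := by
  have h : Real.smoothTransition =ᶠ[𝓝 y] fun _ => (0 : ℝ) := by
    filter_upwards [Iio_mem_nhds hy] with z hz
    exact Real.smoothTransition.zero_of_nonpos (le_of_lt hz)
  rw [h.deriv_eq]
  exact deriv_const _ _

theorem BMP_dS_big {y : ℝ} (hy : 1 < y) : deriv Real.smoothTransition y = 0 := by
  have h : Real.smoothTransition =ᶠ[𝓝 y] fun _ => (1 : ℝ) := by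
    filter_upwards [Ioi_mem_nhds hy] with z hz
    exact Real.smoothTransition.one_of_one_le (le_of_lt hz)
  rw [h.deriv_eq]
  exact deriv_const _ _

theorem BMP_bound : ∃ M : ℝ, 0 ≤ M ∧ ∀ y, |deriv Real.smoothTransition y| ≤ M := by
  obtain ⟨M, hM⟩ := (isCompact_Icc (a := (0 : ℝ)) (b := 1)).exists_bound_of_continuousOn
    BMP_contdS.continuousOn
  have hM0 : 0 ≤ M := (norm_nonneg _).trans (hM 0 ⟨le_rfl, zero_le_one⟩)
  refine ⟨M, hM0, fun y => ?_⟩
  by_cases h0 : y < 0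
  · rw [BMP_dS_neg h0, abs_zero]; exact hM0
  by_cases h1 : 1 < y
  · rw [BMP_dS_big h1, abs_zero]; exact hM0
  exact hM y ⟨not_lt.mp h0, not_lt.mp h1⟩

theorem BMP_hasDeriv (d x : ℝ) : HasDerivAt (BMP_z d) (BMP_dz d x) x := by
  have h1 : HasDerivAt (fun x : ℝ => Real.cos (Real.pi / 2 * x))
      (-Real.sin (Real.pi / 2 * x) * (Real.pi / 2)) x := by
    have h := (hasDerivAt_id x).const_mul (Real.pi / 2)
    simpa using h.cos
  have h2 : HasDerivAt (BMP_u d) (-(2 * x) / d) x := by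
    have h : HasDerivAt (fun x : ℝ => (1 - x ^ 2) / d - 1) (-(2 * x) / d) x := by
      have h3 := (((hasDerivAt_pow 2 x).const_sub 1).div_const d).sub_const 1
      simpa using h3
    exact h
  have h3 : HasDerivAt (fun x => Real.smoothTransition (BMP_u d x))
      (deriv Real.smoothTransition (BMP_u d x) * (-(2 * x) / d)) x :=
    (BMP_diffS (BMP_u d x)).hasDerivAt.comp x h2
  exact h1.mul h3

theorem BMP_cont (d : ℝ) : Continuous (BMP_z d) :=
  continuous_iff_continuousAt.mpr fun x => (BMP_hasDeriv d x).continuousAt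

theorem BMP_contu (d : ℝ) : Continuous (BMP_u d) := by
  unfold BMP_u
  fun_prop

theorem BMP_contd (d : ℝ) : Continuous (BMP_dz d) := by
  unfold BMP_dz
  have h1 := BMP_contdS.comp (BMP_contu d)
  have h2 := BMP_cdS.continuous.comp (BMP_contu d)
  simp only [Function.comp_def] at h1 h2
  fun_prop

/-- outside of `(-1, 1)` -/
theorem BMP_out {d x : ℝ} (hd : 0 < d) (hx : x ∉ Ioo (-1 : ℝ) 1) : BMP_z d x = 0 ∧ BMP_dz d x = 0 := by
  have hx2 : 1 - x ^ 2 ≤ 0 := by
    by_contra hcon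
    apply hx
    have : x ^ 2 < 1 := by linarith
    exact abs_lt.mp ((sq_lt_one_iff_abs_lt_one x).mp this)
  have hu : BMP_u d x < 0 := by
    have : (1 - x ^ 2) / d ≤ 0 := div_nonpos_of_nonpos_of_nonneg hx2 hd.le
    unfold BMP_u
    linarith
  unfold BMP_z BMP_dz
  rw [BMP_dS_neg hu, Real.smoothTransition.zero_of_nonpos hu.le]
  simp

theorem BMP_z_bound (d x : ℝ) : |BMP_z d x| ≤ 1 := by
  unfold BMP_z
  rw [abs_mul]
  have h1 := Real.abs_cos_le_one (Real.pi / 2 * x)
  have h2 : |Real.smoothTransition (BMP_u d x)| ≤ 1 := by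
    rw [abs_of_nonneg (Real.smoothTransition.nonneg _)]
    exact Real.smoothTransition.le_one _
  calc _ ≤ 1 * 1 := mul_le_mul h1 h2 (abs_nonneg _) zero_le_one
    _ = 1 := one_mul 1

theorem BMP_cos_bound {x : ℝ} (hx : |x| ≤ 1) :
    |Real.cos (Real.pi / 2 * x)| ≤ Real.pi / 2 * (1 - x ^ 2) := by
  have hpi := Real.pi_pos
  have h1 : Real.cos (Real.pi / 2 * x) = Real.sin (Real.pi / 2 * (1 - |x|)) := by
    rw [← Real.cos_abs, abs_mul, abs_of_pos (by positivity : (0 : ℝ) < Real.pi / 2),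
      ← Real.sin_pi_div_two_sub]
    congr 1
    ring
  have h0 : 0 ≤ Real.pi / 2 * (1 - |x|) := mul_nonneg (by positivity) (by linarith)
  have h2 : 0 ≤ Real.sin (Real.pi / 2 * (1 - |x|)) :=
    Real.sin_nonneg_of_nonneg_of_le_pi h0 (by nlinarith [abs_nonneg x])
  rw [h1, abs_of_nonneg h2]
  calc Real.sin (Real.pi / 2 * (1 - |x|)) ≤ Real.pi / 2 * (1 - |x|) := Real.sin_le h0
    _ ≤ Real.pi / 2 * (1 - x ^ 2) := by
        apply mul_le_mul_of_nonneg_left _ (by positivity)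
        have : x ^ 2 ≤ |x| := by
          rw [← sq_abs]
          nlinarith [abs_nonneg x]
        linarith

theorem BMP_dz_bound {M : ℝ} (hM0 : 0 ≤ M) (hM : ∀ y, |deriv Real.smoothTransition y| ≤ M)
    {d : ℝ} (hd : 0 < d) (x : ℝ) : |BMP_dz d x| ≤ Real.pi / 2 + 2 * Real.pi * M := by
  have hpi := Real.pi_pos
  by_cases hx : x ∈ Ioo (-1 : ℝ) 1
  swap
  · rw [(BMP_out hd hx).2, abs_zero]
    positivity
  have hx1 : |x| < 1 := abs_lt.mpr hx
  have hA : |-Real.sin (Real.pi / 2 * x) * (Real.pi / 2) *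
      Real.smoothTransition (BMP_u d x)| ≤ Real.pi / 2 := by
    rw [abs_mul, abs_mul, abs_neg, abs_of_pos (by positivity : (0 : ℝ) < Real.pi / 2),
      abs_of_nonneg (Real.smoothTransition.nonneg _)]
    have h1 := Real.abs_sin_le_one (Real.pi / 2 * x)
    have h2 := Real.smoothTransition.le_one (BMP_u d x)
    have h3 := Real.smoothTransition.nonneg (BMP_u d x)
    calc |Real.sin (Real.pi / 2 * x)| * (Real.pi / 2) * Real.smoothTransition (BMP_u d x)
        ≤ 1 * (Real.pi / 2) * 1 := by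
          apply mul_le_mul _ h2 h3 (by positivity)
          exact mul_le_mul_of_nonneg_right h1 (by positivity)
      _ = Real.pi / 2 := by ring
  have hB : |Real.cos (Real.pi / 2 * x) *
      (deriv Real.smoothTransition (BMP_u d x) * (-(2 * x) / d))| ≤ 2 * Real.pi * M := by
    by_cases hu : 1 < BMP_u d x
    · rw [BMP_dS_big hu]
      simp only [zero_mul, mul_zero, abs_zero]
      positivity
    have hu2 : 1 - x ^ 2 ≤ 2 * d := by
      unfold BMP_u at hu
      have h4 : (1 - x ^ 2) / d ≤ 2 := by linarith [not_lt.mp hu]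
      rwa [div_le_iff₀ hd] at h4
    have hcos := BMP_cos_bound hx1.le
    have hc2 : |Real.cos (Real.pi / 2 * x)| ≤ Real.pi * d := by nlinarith
    rw [abs_mul, abs_mul, abs_div, abs_neg, abs_mul, abs_of_pos hd, abs_two]
    have h5 : 2 * |x| / d ≤ 2 / d := by
      apply div_le_div_of_nonneg_right _ hd.le
      linarith
    calc |Real.cos (Real.pi / 2 * x)| * (|deriv Real.smoothTransition (BMP_u d x)| * (2 * |x| / d))
        ≤ (Real.pi * d) * (M * (2 / d)) := by
          apply mul_le_mul hc2 _ (by positivity) (by positivity)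
          exact mul_le_mul (hM _) h5 (by positivity) hM0
      _ = 2 * Real.pi * M := by field_simp
  calc |BMP_dz d x| ≤ _ := abs_add_le _ _
    _ ≤ _ := add_le_add hA hB

theorem BMP_contDiff (d : ℝ) : ContDiff ℝ ((⊤ : ℕ∞) : WithTop ℕ∞) (BMP_z d) := by
  have h1 : ContDiff ℝ ((⊤ : ℕ∞) : WithTop ℕ∞) (BMP_u d) := by
    unfold BMP_u
    fun_prop
  have h2 : ContDiff ℝ ((⊤ : ℕ∞) : WithTop ℕ∞) (fun x : ℝ => Real.cos (Real.pi / 2 * x)) := by
    fun_prop
  exact h2.mul (BMP_cdS.comp h1)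

theorem BMP_bmp {d : ℝ} (hd : 0 < d) : Bmp (BMP_z d) := by
  refine ⟨BMP_contDiff d, ?_, fun x => ?_⟩
  · have hcl : IsClosed {x : ℝ | d ≤ 1 - x ^ 2} :=
      isClosed_le continuous_const (by fun_prop)
    have hsub : Function.support (BMP_z d) ⊆ {x : ℝ | d ≤ 1 - x ^ 2} := by
      intro x hx
      by_contra hcon
      apply hx
      have hlt : 1 - x ^ 2 < d := not_le.mp hcon
      have hu : BMP_u d x ≤ 0 := by
        unfold BMP_u
        have : (1 - x ^ 2) / d ≤ 1 := by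
          rw [div_le_iff₀ hd]
          linarith
        linarith
      unfold BMP_z
      rw [Real.smoothTransition.zero_of_nonpos hu, mul_zero]
    have h2 := closure_minimal hsub hcl
    intro x hx
    have h3 : d ≤ 1 - x ^ 2 := h2 hx
    have h4 : x ^ 2 < 1 := by linarith
    exact abs_lt.mp ((sq_lt_one_iff_abs_lt_one x).mp h4)
  · unfold BMP_z BMP_u
    rw [mul_neg, Real.cos_neg, neg_sq]

/-- eventually the cut off is `1` -/
theorem BMP_ev {x : ℝ} (hx : x ∈ Ioo (-1 : ℝ) 1) :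
    ∀ᶠ k : ℕ in atTop, BMP_z (1 / ((k : ℝ) + 1)) x = Real.cos (Real.pi / 2 * x) ∧
      BMP_dz (1 / ((k : ℝ) + 1)) x = -Real.sin (Real.pi / 2 * x) * (Real.pi / 2) := by
  have hx2 : 0 < 1 - x ^ 2 := by
    have := (sq_lt_one_iff_abs_lt_one x).mpr (abs_lt.mpr hx)
    linarith
  have ht : Tendsto (fun k : ℕ => (1 - x ^ 2) * ((k : ℝ) + 1)) atTop atTop :=
    (tendsto_natCast_atTop_atTop.atTop_add tendsto_const_nhds).const_mul_atTop hx2
  filter_upwards [ht.eventually_gt_atTop 2] with k hk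
  have hu : 1 < BMP_u (1 / ((k : ℝ) + 1)) x := by
    unfold BMP_u
    have : (1 - x ^ 2) / (1 / ((k : ℝ) + 1)) = (1 - x ^ 2) * ((k : ℝ) + 1) := by
      rw [div_div_eq_mul_div, div_one]
    rw [this]
    linarith
  unfold BMP_z BMP_dz
  rw [BMP_dS_big hu, Real.smoothTransition.one_of_one_le hu.le]
  simp

theorem BMP_int_indicator (f : ℝ → ℝ) :
    ∫ x, (Ioo (-1 : ℝ) 1).indicator f x = ∫ x in (-1 : ℝ)..1, f x := by
  rw [integral_indicator measurableSet_Ioo, ← integral_Ioc_eq_integral_Ioo,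
    intervalIntegral.integral_of_le (by norm_num)]

theorem BMP_int_cos : ∫ x in (-1 : ℝ)..1, Real.cos (Real.pi / 2 * x) ^ 2 = 1 := by
  have hpi := Real.pi_pos
  rw [intervalIntegral.integral_comp_mul_left (fun y => Real.cos y ^ 2)
    (by positivity : Real.pi / 2 ≠ 0), integral_cos_sq]
  simp only [mul_one, mul_neg, Real.cos_neg, Real.cos_pi_div_two, smul_eq_mul]
  field_simp
  ring

theorem BMP_int_sin : ∫ x in (-1 : ℝ)..1, (-Real.sin (Real.pi / 2 * x) * (Real.pi / 2)) ^ 2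
    = (Real.pi / 2) ^ 2 := by
  have hpi := Real.pi_pos
  have h1 : ∀ x : ℝ, (-Real.sin (Real.pi / 2 * x) * (Real.pi / 2)) ^ 2
      = (Real.pi / 2) ^ 2 * Real.sin (Real.pi / 2 * x) ^ 2 := fun x => by ring
  simp only [h1]
  rw [intervalIntegral.integral_const_mul,
    intervalIntegral.integral_comp_mul_left (fun y => Real.sin y ^ 2)
    (by positivity : Real.pi / 2 ≠ 0), integral_sin_sq]
  simp only [mul_one, mul_neg, Real.cos_neg, Real.cos_pi_div_two, smul_eq_mul]
  field_simp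
  ring

theorem BMP_lim (F : ℕ → ℝ → ℝ) (f : ℝ → ℝ) (K : ℝ) (hF : ∀ k, Continuous (F k))
    (hb : ∀ k x, |F k x| ≤ K) (hout : ∀ k x, x ∉ Ioo (-1 : ℝ) 1 → F k x = 0)
    (hev : ∀ x ∈ Ioo (-1 : ℝ) 1, ∀ᶠ k in atTop, F k x = f x) :
    Tendsto (fun k => ∫ x, F k x ^ 2) atTop (𝓝 (∫ x in (-1 : ℝ)..1, f x ^ 2)) := by
  have hK : 0 ≤ K := (abs_nonneg _).trans (hb 0 0)
  rw [← BMP_int_indicator]
  apply tendsto_integral_of_dominated_convergence
    ((Icc (-1 : ℝ) 1).indicator fun _ => K ^ 2)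
  · intro k
    exact ((hF k).pow 2).aestronglyMeasurable
  · rw [integrable_indicator_iff measurableSet_Icc]
    exact continuous_const.integrableOn_Icc
  · intro k
    filter_upwards with x
    by_cases hx : x ∈ Ioo (-1 : ℝ) 1
    · rw [indicator_of_mem (Ioo_subset_Icc_self hx), Real.norm_eq_abs, abs_pow]
      exact pow_le_pow_left₀ (abs_nonneg _) (hb k x) 2
    · rw [hout k x hx]
      simp only [ne_eq, OfNat.ofNat_ne_zero, not_false_eq_true, zero_pow, norm_zero]
      exact indicator_nonneg (fun _ _ => by positivity) x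
  · filter_upwards with x
    by_cases hx : x ∈ Ioo (-1 : ℝ) 1
    · rw [indicator_of_mem hx]
      apply tendsto_const_nhds.congr'
      filter_upwards [hev x hx] with k hk
      rw [hk]
    · rw [indicator_of_notMem hx]
      simp only [hout _ x hx]
      simp

theorem prfBMP : BMP := by
  intro ε hε
  obtain ⟨M, hM0, hM⟩ := BMP_bound
  have hd : ∀ k : ℕ, (0 : ℝ) < 1 / ((k : ℝ) + 1) := fun k => by positivity
  have h1 : Tendsto (fun k : ℕ => ∫ x, BMP_z (1 / ((k : ℝ) + 1)) x ^ 2) atTop (𝓝 1) := by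
    have := BMP_lim (fun k : ℕ => BMP_z (1 / ((k : ℝ) + 1))) (fun x => Real.cos (Real.pi / 2 * x)) 1
      (fun k => BMP_cont _) (fun k x => BMP_z_bound _ x) (fun k x hx => (BMP_out (hd k) hx).1)
      (fun x hx => (BMP_ev hx).mono fun k hk => hk.1)
    rwa [BMP_int_cos] at this
  have h2 : Tendsto (fun k : ℕ => ∫ x, BMP_dz (1 / ((k : ℝ) + 1)) x ^ 2) atTop
      (𝓝 ((Real.pi / 2) ^ 2)) := by
    have := BMP_lim (fun k : ℕ => BMP_dz (1 / ((k : ℝ) + 1)))
      (fun x => -Real.sin (Real.pi / 2 * x) * (Real.pi / 2)) (Real.pi / 2 + 2 * Real.pi * M)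
      (fun k => BMP_contd _) (fun k x => BMP_dz_bound hM0 hM (hd k) x)
      (fun k x hx => (BMP_out (hd k) hx).2)
      (fun x hx => (BMP_ev hx).mono fun k hk => hk.2)
    rwa [BMP_int_sin] at this
  have h3 : Tendsto (fun k : ℕ => ((Real.pi / 2) ^ 2 + ε) *
      ∫ x, BMP_z (1 / ((k : ℝ) + 1)) x ^ 2) atTop (𝓝 (((Real.pi / 2) ^ 2 + ε) * 1)) :=
    h1.const_mul _
  have h4 := h2.eventually_lt h3 (by linarith)
  have h5 := h1.eventually (lt_mem_nhds (zero_lt_one (α := ℝ)))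
  obtain ⟨k, hk4, hk5⟩ := (h4.and h5).exists
  refine ⟨BMP_z (1 / ((k : ℝ) + 1)), BMP_bmp (hd k), hk5, ?_⟩
  have h6 : deriv (BMP_z (1 / ((k : ℝ) + 1))) = BMP_dz (1 / ((k : ℝ) + 1)) :=
    funext fun x => (BMP_hasDeriv _ x).deriv
  rw [h6]
  exact hk4.le

end Pool.Agent.Work.MP_d5b3be_an.BN
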