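import Pool.Agent.Work.MP_d5b3be_an.BN.Stmts4

/-!
# Block BN, item BXC: boxes in the body
-/

set_option autoImplicit false

namespace Pool.Agent.Work.MP_d5b3be_an.BN

open MeasureTheory Filter Set
open scoped ENNReal Topology ContDiff

theorem prfBXC : BXC := by
  intro Ω R a b zm zp ρo z0 δ η hS hδ h1 h2 h3 h4 x hx
  obtain ⟨-, -, -, -, hmono, hmem⟩ := hS
  obtain ⟨hx1, hx2⟩ := hx
  change |rr x - (ρo - δ)| ≤ δ at hx1
  rw [abs_le] at hx1 hx2
  have hpos : 0 < rr x := by linarith [hx1.1]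
  have hle : rr x ≤ ρo := by linarith [hx1.2]
  obtain ⟨hm1, hm2⟩ := hmono (rr x) ρo hpos hle h2
  refine (hmem x hpos (lt_of_le_of_lt hle h2)).2 ⟨?_, ?_⟩
  · linarith [hx2.1]
  · linarith [hx2.2]

end Pool.Agent.Work.MP_d5b3be_an.BN
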