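import Pool.Agent.Work.MP_d5b3be_an.BN.Stmts2

/-!
# Block BN, item BXE: boxes in the ellipsoid
-/

set_option autoImplicit false

namespace Pool.Agent.Work.MP_d5b3be_an.BN

open MeasureTheory Filter Set
open scoped ENNReal Topology ContDiff

theorem prfBXE : BXE := by
  intro R h ρ0 δ η hR hh hδ hδρ hη hlt x hx
  obtain ⟨h1, h2⟩ := hx
  have hs0 : 0 ≤ x 0 ^ 2 + x 1 ^ 2 := by positivity
  have h3 : Real.sqrt (x 0 ^ 2 + x 1 ^ 2) ≤ ρ0 + δ := by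
    have := (abs_le.1 h1).2
    linarith
  have h4 : x 0 ^ 2 + x 1 ^ 2 ≤ (ρ0 + δ) ^ 2 := by
    have h5 := Real.sq_sqrt hs0
    have h6 := Real.sqrt_nonneg (x 0 ^ 2 + x 1 ^ 2)
    nlinarith
  have h7 : x 2 ^ 2 ≤ η ^ 2 := by
    rw [sub_zero] at h2
    have := abs_le.1 h2
    nlinarith
  have hR2 : 0 < R ^ 2 := by positivity
  have hh2 : 0 < h ^ 2 := by positivity
  have h8 : (x 0 ^ 2 + x 1 ^ 2) / R ^ 2 ≤ (ρ0 + δ) ^ 2 / R ^ 2 :=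
    div_le_div_of_nonneg_right h4 hR2.le
  have h9 : x 2 ^ 2 / h ^ 2 ≤ η ^ 2 / h ^ 2 := div_le_div_of_nonneg_right h7 hh2.le
  change (x 0 ^ 2 + x 1 ^ 2) / R ^ 2 + x 2 ^ 2 / h ^ 2 < 1
  linarith

end Pool.Agent.Work.MP_d5b3be_an.BN
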