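import Pool.Agent.Work.MP_d5b3be_an.BN.Stmts

set_option autoImplicit false

namespace Pool.Agent.Work.MP_d5b3be_an.BN

open MeasureTheory Filter Set
open scoped ENNReal Topology ContDiff

theorem BXF_zeta {ζ : ℝ → ℝ} (h : Bmp ζ) {y : ℝ} (hy : ζ y ≠ 0) : |y| < 1 := by
  have h1 : y ∈ tsupport ζ := subset_closure hy
  have h2 := h.2.1 h1
  rw [abs_lt]
  exact ⟨h2.1, h2.2⟩

theorem BXF_out {n : ℕ} {ζ : ℝ → ℝ} {ρ0 z0 δ η : ℝ} (h : Bmp ζ) (hδ : 0 < δ) (hη : 0 < η)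
    (x : E3) (hx : x ∉ boxS ρ0 z0 δ η) : bxf n ζ ρ0 z0 δ η x = 0 := by
  by_contra h0
  apply hx
  unfold bxf at h0
  have h1 := left_ne_zero_of_mul h0
  have h2 := BXF_zeta h (left_ne_zero_of_mul h1)
  have h3 := BXF_zeta h (right_ne_zero_of_mul h1)
  rw [abs_div, abs_of_pos hδ, div_lt_one hδ] at h2
  rw [abs_div, abs_of_pos hη, div_lt_one hη] at h3
  exact ⟨h2.le, h3.le⟩

theorem BXF_s_cont : Continuous fun x : E3 => Real.sqrt (x 0 ^ 2 + x 1 ^ 2) := by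
  fun_prop

/-- the closed set which contains the support -/
def BXF_K (ζ : ℝ → ℝ) (ρ0 z0 δ η : ℝ) : Set E3 :=
  {x | (Real.sqrt (x 0 ^ 2 + x 1 ^ 2) - ρ0) / δ ∈ tsupport ζ ∧ (x 2 - z0) / η ∈ tsupport ζ}

theorem BXF_K_closed (ζ : ℝ → ℝ) (ρ0 z0 δ η : ℝ) : IsClosed (BXF_K ζ ρ0 z0 δ η) := by
  have h1 : Continuous fun x : E3 => (Real.sqrt (x 0 ^ 2 + x 1 ^ 2) - ρ0) / δ :=
    (BXF_s_cont.sub continuous_const).div_const _
  have h2 : Continuous fun x : E3 => (x 2 - z0) / η :=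
    ((continuous_apply 2).sub continuous_const).div_const _
  exact ((isClosed_tsupport ζ).preimage h1).inter ((isClosed_tsupport ζ).preimage h2)

theorem BXF_K_box {ζ : ℝ → ℝ} {ρ0 z0 δ η : ℝ} (h : Bmp ζ) (hδ : 0 < δ) (hη : 0 < η) :
    BXF_K ζ ρ0 z0 δ η ⊆ boxS ρ0 z0 δ η := by
  rintro x ⟨h1, h2⟩
  have h3 := h.2.1 h1
  have h4 := h.2.1 h2
  have h5 : |(Real.sqrt (x 0 ^ 2 + x 1 ^ 2) - ρ0) / δ| < 1 := abs_lt.2 h3
  have h6 : |(x 2 - z0) / η| < 1 := abs_lt.2 h4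
  rw [abs_div, abs_of_pos hδ, div_lt_one hδ] at h5
  rw [abs_div, abs_of_pos hη, div_lt_one hη] at h6
  exact ⟨h5.le, h6.le⟩

theorem BXF_supp (n : ℕ) (ζ : ℝ → ℝ) (ρ0 z0 δ η : ℝ) :
    tsupport (bxf n ζ ρ0 z0 δ η) ⊆ BXF_K ζ ρ0 z0 δ η := by
  apply closure_minimal _ (BXF_K_closed ζ ρ0 z0 δ η)
  intro x hx
  rw [Function.mem_support] at hx
  unfold bxf at hx
  have h1 := left_ne_zero_of_mul hx
  exact ⟨subset_closure (left_ne_zero_of_mul h1), subset_closure (right_ne_zero_of_mul h1)⟩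

theorem BXF_box_closed (ρ0 z0 δ η : ℝ) : IsClosed (boxS ρ0 z0 δ η) := by
  have h1 : Continuous fun x : E3 => |Real.sqrt (x 0 ^ 2 + x 1 ^ 2) - ρ0| :=
    (BXF_s_cont.sub continuous_const).abs
  have h2 : Continuous fun x : E3 => |x 2 - z0| :=
    ((continuous_apply 2).sub continuous_const).abs
  exact (isClosed_le h1 continuous_const).inter (isClosed_le h2 continuous_const)

theorem BXF_box_compact (ρ0 z0 δ η : ℝ) : IsCompact (boxS ρ0 z0 δ η) := by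
  apply Metric.isCompact_of_isClosed_isBounded (BXF_box_closed ρ0 z0 δ η)
  rw [Metric.isBounded_iff_subset_closedBall 0]
  refine ⟨|ρ0| + |δ| + |z0| + |η|, ?_⟩
  rintro x ⟨h1, h2⟩
  rw [mem_closedBall_zero_iff, pi_norm_le_iff_of_nonneg (by positivity)]
  have h3 : Real.sqrt (x 0 ^ 2 + x 1 ^ 2) ≤ |ρ0| + |δ| := by
    have := le_abs_self ρ0
    have := le_abs_self δ
    have := (abs_le.1 h1).2
    linarith
  have h4 : |x 2| ≤ |z0| + |η| := by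
    have h5 : |x 2| ≤ |x 2 - z0| + |z0| := by
      have := abs_add_le (x 2 - z0) z0
      rwa [sub_add_cancel] at this
    have := le_abs_self η
    linarith
  have h6 : |x 0| ≤ Real.sqrt (x 0 ^ 2 + x 1 ^ 2) := by
    apply Real.abs_le_sqrt
    nlinarith [sq_nonneg (x 1)]
  have h7 : |x 1| ≤ Real.sqrt (x 0 ^ 2 + x 1 ^ 2) := by
    apply Real.abs_le_sqrt
    nlinarith [sq_nonneg (x 0)]
  have h8 := abs_nonneg ρ0
  have h9 := abs_nonneg δ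
  have h10 := abs_nonneg z0
  have h11 := abs_nonneg η
  intro i
  rw [Real.norm_eq_abs]
  fin_cases i
  · change |x 0| ≤ _
    linarith
  · change |x 1| ≤ _
    linarith
  · change |x 2| ≤ _
    linarith

theorem BXF_smoothAt {n : ℕ} {ζ : ℝ → ℝ} {ρ0 z0 δ η : ℝ} (h : Bmp ζ) (x : E3)
    (hx : x 0 ^ 2 + x 1 ^ 2 ≠ 0) :
    ContDiffAt ℝ ((⊤ : ℕ∞) : WithTop ℕ∞) (bxf n ζ ρ0 z0 δ η) x := by
  have p0 : ContDiffAt ℝ ((⊤ : ℕ∞) : WithTop ℕ∞) (fun x : E3 => x 0) x :=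
    (contDiff_apply ℝ ℝ (0 : Fin 3)).contDiffAt
  have p1 : ContDiffAt ℝ ((⊤ : ℕ∞) : WithTop ℕ∞) (fun x : E3 => x 1) x :=
    (contDiff_apply ℝ ℝ (1 : Fin 3)).contDiffAt
  have p2 : ContDiffAt ℝ ((⊤ : ℕ∞) : WithTop ℕ∞) (fun x : E3 => x 2) x :=
    (contDiff_apply ℝ ℝ (2 : Fin 3)).contDiffAt
  have ps : ContDiffAt ℝ ((⊤ : ℕ∞) : WithTop ℕ∞)
      (fun x : E3 => Real.sqrt (x 0 ^ 2 + x 1 ^ 2)) x :=
    ((p0.pow 2).add (p1.pow 2)).sqrt hx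
  have hs : Real.sqrt (x 0 ^ 2 + x 1 ^ 2) ^ n ≠ 0 := by
    apply pow_ne_zero
    rw [Real.sqrt_ne_zero']
    exact lt_of_le_of_ne (by positivity) (Ne.symm hx)
  have hc : ∀ i : Fin 3, ContDiffAt ℝ ((⊤ : ℕ∞) : WithTop ℕ∞) (fun x : E3 => (x i : ℂ)) x :=
    fun i => (Complex.ofRealCLM.contDiff.comp (contDiff_apply ℝ ℝ i)).contDiffAt
  have hz : ContDiffAt ℝ ((⊤ : ℕ∞) : WithTop ℕ∞)
      (fun x : E3 => (((x 0 : ℂ) + (x 1 : ℂ) * Complex.I) ^ n).im) x := by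
    have h1 : ContDiffAt ℝ ((⊤ : ℕ∞) : WithTop ℕ∞)
        (fun x : E3 => ((x 0 : ℂ) + (x 1 : ℂ) * Complex.I) ^ n) x :=
      ((hc 0).add ((hc 1).mul contDiffAt_const)).pow n
    exact Complex.imCLM.contDiff.contDiffAt.comp x h1
  have e1 : ContDiffAt ℝ ((⊤ : ℕ∞) : WithTop ℕ∞)
      (fun x : E3 => ζ ((Real.sqrt (x 0 ^ 2 + x 1 ^ 2) - ρ0) / δ)) x :=
    h.1.contDiffAt.comp x ((ps.sub contDiffAt_const).div_const δ)
  have e2 : ContDiffAt ℝ ((⊤ : ℕ∞) : WithTop ℕ∞)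
      (fun x : E3 => ζ ((x 2 - z0) / η)) x :=
    h.1.contDiffAt.comp x ((p2.sub contDiffAt_const).div_const η)
  exact (e1.mul e2).mul (hz.div (ps.pow n) hs)

theorem BXF_smooth {n : ℕ} {ζ : ℝ → ℝ} {ρ0 z0 δ η : ℝ} (h : Bmp ζ) (hδ : 0 < δ) (hδρ : δ < ρ0)
    (hη : 0 < η) : ContDiff ℝ ((⊤ : ℕ∞) : WithTop ℕ∞) (bxf n ζ ρ0 z0 δ η) := by
  rw [contDiff_iff_contDiffAt]
  intro x
  by_cases hx : x 0 ^ 2 + x 1 ^ 2 = 0
  · have h1 : x ∉ BXF_K ζ ρ0 z0 δ η := by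
      intro h2
      have h3 := (BXF_K_box h hδ hη h2).1
      rw [hx, Real.sqrt_zero] at h3
      have h4 := (abs_le.1 h3).1
      linarith
    have h5 : (BXF_K ζ ρ0 z0 δ η)ᶜ ∈ 𝓝 x := (BXF_K_closed ζ ρ0 z0 δ η).isOpen_compl.mem_nhds h1
    have h6 : bxf n ζ ρ0 z0 δ η =ᶠ[𝓝 x] fun _ => 0 := by
      filter_upwards [h5] with y hy
      by_contra h7
      exact hy (BXF_supp n ζ ρ0 z0 δ η (subset_closure h7))
    exact (contDiffAt_const (c := (0 : ℝ))).congr_of_eventuallyEq h6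
  · exact BXF_smoothAt h x hx

theorem BXF_sign {n : ℕ} (hn : 1 ≤ n) (ζ : ℝ → ℝ) (ρ0 z0 δ η : ℝ) (x : E3) :
    bxf n ζ ρ0 z0 δ η (rot (Real.pi / n) x) = -bxf n ζ ρ0 z0 δ η x := by
  set t : ℝ := Real.pi / n with ht
  have hn0 : (n : ℝ) ≠ 0 := by positivity
  have h0 : rot t x 0 = Real.cos t * x 0 - Real.sin t * x 1 := by simp [rot]
  have h1 : rot t x 1 = Real.sin t * x 0 + Real.cos t * x 1 := by simp [rot]
  have h2 : rot t x 2 = x 2 := by simp [rot]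
  have hs : rot t x 0 ^ 2 + rot t x 1 ^ 2 = x 0 ^ 2 + x 1 ^ 2 := by
    rw [h0, h1]
    have := Real.sin_sq_add_cos_sq t
    calc (Real.cos t * x 0 - Real.sin t * x 1) ^ 2 + (Real.sin t * x 0 + Real.cos t * x 1) ^ 2
        = (Real.sin t ^ 2 + Real.cos t ^ 2) * (x 0 ^ 2 + x 1 ^ 2) := by ring
      _ = x 0 ^ 2 + x 1 ^ 2 := by rw [this, one_mul]
  have hc : ((rot t x 0 : ℂ) + (rot t x 1 : ℂ) * Complex.I) =
      (Complex.cos t + Complex.sin t * Complex.I) * ((x 0 : ℂ) + (x 1 : ℂ) * Complex.I) := by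
    rw [h0, h1]
    push_cast
    have hI : Complex.I * Complex.I = -1 := Complex.I_mul_I
    linear_combination (-(Complex.sin t * x 1)) * hI
  have hp : ((rot t x 0 : ℂ) + (rot t x 1 : ℂ) * Complex.I) ^ n =
      -(((x 0 : ℂ) + (x 1 : ℂ) * Complex.I) ^ n) := by
    rw [hc, mul_pow, Complex.cos_add_sin_mul_I_pow]
    have h3 : (n : ℂ) * (t : ℂ) = (Real.pi : ℂ) := by
      have hnC : (n : ℂ) ≠ 0 := by exact_mod_cast hn0
      rw [ht]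
      push_cast
      field_simp
    rw [h3, Complex.cos_pi, Complex.sin_pi]
    ring
  unfold bxf
  rw [hs, h2, hp, Complex.neg_im]
  ring

theorem BXF_formula (n : ℕ) (ζ : ℝ → ℝ) (ρ0 z0 δ η r t z : ℝ) (hr : 0 < r) :
    bxf n ζ ρ0 z0 δ η (cyl r t z) =
      ζ ((r - ρ0) / δ) * ζ ((z - z0) / η) * Real.sin (n * t) := by
  have h0 : cyl r t z 0 = r * Real.cos t := by simp [cyl]
  have h1 : cyl r t z 1 = r * Real.sin t := by simp [cyl]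
  have h2 : cyl r t z 2 = z := by simp [cyl]
  have hs : Real.sqrt (cyl r t z 0 ^ 2 + cyl r t z 1 ^ 2) = r := by
    have h3 : cyl r t z 0 ^ 2 + cyl r t z 1 ^ 2 = r ^ 2 := by
      rw [h0, h1]
      have := Real.sin_sq_add_cos_sq t
      calc (r * Real.cos t) ^ 2 + (r * Real.sin t) ^ 2
          = r ^ 2 * (Real.sin t ^ 2 + Real.cos t ^ 2) := by ring
        _ = r ^ 2 := by rw [this, mul_one]
    rw [h3, Real.sqrt_sq hr.le]
  have hc : ((cyl r t z 0 : ℂ) + (cyl r t z 1 : ℂ) * Complex.I) =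
      (r : ℂ) * (Complex.cos t + Complex.sin t * Complex.I) := by
    rw [h0, h1]
    push_cast
    ring
  have hp : (((cyl r t z 0 : ℂ) + (cyl r t z 1 : ℂ) * Complex.I) ^ n).im =
      r ^ n * Real.sin (n * t) := by
    rw [hc, mul_pow, Complex.cos_add_sin_mul_I_pow]
    have h4 : (r : ℂ) ^ n * (Complex.cos (n * t) + Complex.sin (n * t) * Complex.I) =
        ((r ^ n * Real.cos (n * t) : ℝ) : ℂ) + ((r ^ n * Real.sin (n * t) : ℝ) : ℂ) * Complex.I := by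
      push_cast
      ring
    rw [h4]
    simp only [Complex.add_im, Complex.ofReal_im, Complex.mul_im, Complex.ofReal_re,
      Complex.I_im, Complex.I_re]
    ring
  unfold bxf
  rw [hs, h2, hp]
  have hr0 : r ^ n ≠ 0 := pow_ne_zero _ hr.ne'
  rw [mul_div_cancel_left₀ _ hr0]

theorem prfBXF : BXF := by
  intro Ω n ζ ρ0 z0 δ η hn h hδ hδρ hη hΩ
  refine ⟨⟨⟨BXF_smooth h hδ hδρ hη, ?_, ?_⟩, BXF_sign hn ζ ρ0 z0 δ η⟩, BXF_out h hδ hη,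
    fun r t z hr => BXF_formula n ζ ρ0 z0 δ η r t z hr⟩
  · exact HasCompactSupport.intro (BXF_box_compact ρ0 z0 δ η) (BXF_out h hδ hη)
  · exact (BXF_supp n ζ ρ0 z0 δ η).trans ((BXF_K_box h hδ hη).trans hΩ)

end Pool.Agent.Work.MP_d5b3be_an.BN
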