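import Pool.Agent.Work.MP_d5b3be_an.BN.Stmts

/-!
# Block BN, item BXI: the integrals of the box function
-/

set_option autoImplicit false

namespace Pool.Agent.Work.MP_d5b3be_an.BN

open MeasureTheory Filter Set
open scoped ENNReal Topology ContDiff

/-- profile functions: continuous, nonnegative, even, vanishing outside `(-1, 1)` -/
structure BXI_P (g : ℝ → ℝ) : Prop where
  cont : Continuous g
  nn : ∀ x, 0 ≤ g x
  even : ∀ x, g (-x) = g x
  van : ∀ x, 1 ≤ |x| → g x = 0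

theorem BXI_cs {g : ℝ → ℝ} (h : BXI_P g) : HasCompactSupport g := by
  refine HasCompactSupport.intro (isCompact_Icc (a := (-1 : ℝ)) (b := 1)) (fun x hx => h.van x ?_)
  by_contra hc
  push Not at hc
  exact hx ⟨(abs_lt.1 hc).1.le, (abs_lt.1 hc).2.le⟩

theorem BXI_int {g : ℝ → ℝ} (h : BXI_P g) : Integrable g :=
  h.cont.integrable_of_hasCompactSupport (BXI_cs h)

theorem BXI_shift (g : ℝ → ℝ) (a c : ℝ) (hc : 0 < c) :
    ∫ x, g ((x - a) / c) = c * ∫ x, g x := by
  rw [integral_sub_right_eq_self (fun x => g (x / c)) a, Measure.integral_comp_div,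
    abs_of_pos hc, smul_eq_mul]

theorem BXI_z {g : ℝ → ℝ} (h : BXI_P g) (a c : ℝ) (hc : 0 < c) :
    ∫⁻ x, ENNReal.ofReal (g ((x - a) / c)) = ENNReal.ofReal (c * ∫ x, g x) := by
  rw [← BXI_shift g a c hc, ofReal_integral_eq_lintegral_ofReal]
  · exact ((BXI_int h).comp_div hc.ne').comp_sub_right a
  · exact ae_of_all _ fun x => h.nn _

theorem BXI_odd {g : ℝ → ℝ} (h : BXI_P g) : ∫ x, x * g x = 0 := by
  have h1 : ∫ x, x * g x = - ∫ x, x * g x := by
    calc ∫ x, x * g x = ∫ x, (-x) * g (-x) := (integral_neg_eq_self (fun x => x * g x) volume).symm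
      _ = ∫ x, -(x * g x) := by
          congr 1
          funext x
          rw [h.even]
          ring
      _ = - ∫ x, x * g x := integral_neg _
  linarith

theorem BXI_int2 {g : ℝ → ℝ} (h : BXI_P g) : Integrable (fun x => x * g x) :=
  (continuous_id.mul h.cont).integrable_of_hasCompactSupport ((BXI_cs h).mul_left)

theorem BXI_r {g : ℝ → ℝ} (h : BXI_P g) (ρ0 δ : ℝ) (hδ : 0 < δ) (hρ : δ < ρ0) :
    ∫⁻ r in Ioi (0 : ℝ), ENNReal.ofReal (r * g ((r - ρ0) / δ)) =
      ENNReal.ofReal (ρ0 * δ * ∫ x, g x) := by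
  have hz : ∀ r : ℝ, r ≤ 0 → g ((r - ρ0) / δ) = 0 := by
    intro r hr
    apply h.van
    rw [abs_div, abs_of_pos hδ, le_div_iff₀ hδ, abs_of_nonpos (by linarith)]
    linarith
  have hpos : ∀ r : ℝ, 0 ≤ r * g ((r - ρ0) / δ) := by
    intro r
    rcases le_or_gt r 0 with hr | hr
    · rw [hz r hr, mul_zero]
    · exact mul_nonneg hr.le (h.nn _)
  have e1 : ∫⁻ r in Ioi (0 : ℝ), ENNReal.ofReal (r * g ((r - ρ0) / δ)) =
      ∫⁻ r, ENNReal.ofReal (r * g ((r - ρ0) / δ)) := by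
    rw [← lintegral_indicator measurableSet_Ioi]
    apply lintegral_congr
    intro r
    by_cases hr : r ∈ Ioi (0 : ℝ)
    · rw [indicator_of_mem hr]
    · rw [indicator_of_notMem hr, hz r (not_lt.1 hr), mul_zero, ENNReal.ofReal_zero]
  have hG : ∀ r : ℝ, r * g ((r - ρ0) / δ) =
      (fun s => ρ0 * g s + δ * (s * g s)) ((r - ρ0) / δ) := by
    intro r
    have : δ * ((r - ρ0) / δ) = r - ρ0 := by field_simp
    simp only
    rw [← mul_assoc, this]
    ring
  have hGi : Integrable (fun s => ρ0 * g s + δ * (s * g s)) :=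
    ((BXI_int h).const_mul ρ0).add ((BXI_int2 h).const_mul δ)
  have e2 : ∫ r, r * g ((r - ρ0) / δ) = ρ0 * δ * ∫ x, g x := by
    have e3 : ∫ r, r * g ((r - ρ0) / δ) =
        ∫ r, (fun s => ρ0 * g s + δ * (s * g s)) ((r - ρ0) / δ) :=
      integral_congr_ae (ae_of_all _ hG)
    have e4 := BXI_shift (fun s => ρ0 * g s + δ * (s * g s)) ρ0 δ hδ
    refine (e3.trans e4).trans ?_
    rw [integral_add ((BXI_int h).const_mul ρ0) ((BXI_int2 h).const_mul δ),
      integral_const_mul, integral_const_mul, BXI_odd h]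
    ring
  rw [e1, ← e2, ofReal_integral_eq_lintegral_ofReal]
  · have := ((hGi.comp_div hδ.ne').comp_sub_right ρ0)
    refine this.congr (ae_of_all _ fun r => ?_)
    exact (hG r).symm
  · exact ae_of_all _ hpos

theorem BXI_sin (n : ℕ) (hn : 1 ≤ n) :
    ∫⁻ t in Ioo (-Real.pi) Real.pi, ENNReal.ofReal (Real.sin (n * t) ^ 2) =
      ENNReal.ofReal Real.pi := by
  have hn' : (n : ℝ) ≠ 0 := by
    have : (0 : ℝ) < n := by exact_mod_cast hn
    exact this.ne'
  have e : ∫ t in (-Real.pi)..Real.pi, Real.sin (n * t) ^ 2 = Real.pi := by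
    rw [intervalIntegral.integral_comp_mul_left (fun x => Real.sin x ^ 2) hn', integral_sin_sq]
    have h1 : Real.sin ((n : ℝ) * Real.pi) = 0 := Real.sin_nat_mul_pi n
    have h2 : Real.sin ((n : ℝ) * -Real.pi) = 0 := by
      rw [mul_neg, Real.sin_neg, h1, neg_zero]
    rw [h1, h2, smul_eq_mul]
    field_simp
    ring
  rw [restrict_Ioo_eq_restrict_Ioc]
  have hc : Continuous (fun t : ℝ => Real.sin (n * t) ^ 2) := by fun_prop
  have hi : IntegrableOn _ (Ioc (-Real.pi) Real.pi) volume := hc.integrableOn_Ioc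
  have e' : ∫ t in Ioc (-Real.pi) Real.pi, Real.sin (n * t) ^ 2 = Real.pi := by
    rw [← intervalIntegral.integral_of_le (by linarith [Real.pi_pos])]
    exact e
  rw [← ofReal_integral_eq_lintegral_ofReal hi (ae_of_all _ fun t => sq_nonneg _), e']

theorem BXI_cos (n : ℕ) (hn : 1 ≤ n) :
    ∫⁻ t in Ioo (-Real.pi) Real.pi, ENNReal.ofReal (Real.cos (n * t) ^ 2) =
      ENNReal.ofReal Real.pi := by
  have hn' : (n : ℝ) ≠ 0 := by
    have : (0 : ℝ) < n := by exact_mod_cast hn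
    exact this.ne'
  have e : ∫ t in (-Real.pi)..Real.pi, Real.cos (n * t) ^ 2 = Real.pi := by
    rw [intervalIntegral.integral_comp_mul_left (fun x => Real.cos x ^ 2) hn', integral_cos_sq]
    have h1 : Real.sin ((n : ℝ) * Real.pi) = 0 := Real.sin_nat_mul_pi n
    have h2 : Real.sin ((n : ℝ) * -Real.pi) = 0 := by
      rw [mul_neg, Real.sin_neg, h1, neg_zero]
    rw [h1, h2, smul_eq_mul]
    field_simp
    ring
  rw [restrict_Ioo_eq_restrict_Ioc]
  have hc : Continuous (fun t : ℝ => Real.cos (n * t) ^ 2) := by fun_prop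
  have hi : IntegrableOn _ (Ioc (-Real.pi) Real.pi) volume := hc.integrableOn_Ioc
  have e' : ∫ t in Ioc (-Real.pi) Real.pi, Real.cos (n * t) ^ 2 = Real.pi := by
    rw [← intervalIntegral.integral_of_le (by linarith [Real.pi_pos])]
    exact e
  rw [← ofReal_integral_eq_lintegral_ofReal hi (ae_of_all _ fun t => sq_nonneg _), e']

/-- one product term -/
noncomputable def BXI_T (k : ℝ) (g s f : ℝ → ℝ) (ρ0 z0 δ η : ℝ) (r t z : ℝ) : ℝ :=
  k * (g ((z - z0) / η) * (s t * (r * f ((r - ρ0) / δ))))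

theorem BXI_meas (k : ℝ) {g s f : ℝ → ℝ} (hg : BXI_P g) (hs : Continuous s) (hf : BXI_P f)
    (ρ0 z0 δ η : ℝ) : Continuous (fun p : ℝ × ℝ × ℝ => BXI_T k g s f ρ0 z0 δ η p.2.2 p.2.1 p.1) := by
  unfold BXI_T
  have h1 : Continuous (fun p : ℝ × ℝ × ℝ => g ((p.1 - z0) / η)) :=
    hg.cont.comp (by fun_prop)
  have h2 : Continuous (fun p : ℝ × ℝ × ℝ => f ((p.2.2 - ρ0) / δ)) :=
    hf.cont.comp (by fun_prop)
  have h3 : Continuous (fun p : ℝ × ℝ × ℝ => s p.2.1) := hs.comp (by fun_prop)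
  exact continuous_const.mul (h1.mul (h3.mul ((continuous_snd.snd).mul h2)))

theorem BXI_term (k : ℝ) (hk : 0 ≤ k) {g s f : ℝ → ℝ} (hg : BXI_P g) (hs : Continuous s)
    (hs0 : ∀ t, 0 ≤ s t)
    (hs1 : ∫⁻ t in Ioo (-Real.pi) Real.pi, ENNReal.ofReal (s t) = ENNReal.ofReal Real.pi)
    (hf : BXI_P f) (ρ0 z0 δ η : ℝ) (hδ : 0 < δ) (hρ : δ < ρ0) (hη : 0 < η) :
    ∫⁻ z : ℝ, ∫⁻ t in Ioo (-Real.pi) Real.pi, ∫⁻ r in Ioi (0 : ℝ),
      ENNReal.ofReal (BXI_T k g s f ρ0 z0 δ η r t z) =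
    ENNReal.ofReal (k * (Real.pi * ρ0 * δ * η * ((∫ x, g x) * ∫ x, f x))) := by
  unfold BXI_T
  simp_rw [ENNReal.ofReal_mul hk, ENNReal.ofReal_mul (hg.nn _), ENNReal.ofReal_mul (hs0 _)]
  have m1 : Measurable (fun r : ℝ => ENNReal.ofReal (r * f ((r - ρ0) / δ))) := by
    apply ENNReal.measurable_ofReal.comp
    exact (continuous_id.mul (hf.cont.comp (by fun_prop))).measurable
  have m2 : Measurable (fun t : ℝ => ENNReal.ofReal (s t)) :=
    ENNReal.measurable_ofReal.comp hs.measurable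
  have m3 : Measurable (fun z : ℝ => ENNReal.ofReal (g ((z - z0) / η))) := by
    apply ENNReal.measurable_ofReal.comp
    exact (hg.cont.comp (by fun_prop)).measurable
  have e1 : ∀ z t : ℝ, ∫⁻ r in Ioi (0 : ℝ), ENNReal.ofReal k * (ENNReal.ofReal (g ((z - z0) / η)) *
      (ENNReal.ofReal (s t) * ENNReal.ofReal (r * f ((r - ρ0) / δ)))) =
      ENNReal.ofReal k * (ENNReal.ofReal (g ((z - z0) / η)) *
      (ENNReal.ofReal (s t) * ENNReal.ofReal (ρ0 * δ * ∫ x, f x))) := by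
    intro z t
    rw [lintegral_const_mul _ ((m1.const_mul _).const_mul _), lintegral_const_mul _ (m1.const_mul _),
      lintegral_const_mul _ m1, BXI_r hf ρ0 δ hδ hρ]
  simp_rw [e1]
  have e2 : ∀ z : ℝ, ∫⁻ t in Ioo (-Real.pi) Real.pi, ENNReal.ofReal k *
      (ENNReal.ofReal (g ((z - z0) / η)) *
      (ENNReal.ofReal (s t) * ENNReal.ofReal (ρ0 * δ * ∫ x, f x))) =
      ENNReal.ofReal k * (ENNReal.ofReal (g ((z - z0) / η)) *
      (ENNReal.ofReal Real.pi * ENNReal.ofReal (ρ0 * δ * ∫ x, f x))) := by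
    intro z
    rw [lintegral_const_mul _ ((m2.mul_const _).const_mul _), lintegral_const_mul _ (m2.mul_const _),
      lintegral_mul_const _ m2, hs1]
  simp_rw [e2]
  rw [lintegral_const_mul _ (m3.mul_const _), lintegral_mul_const _ m3, BXI_z hg z0 η hη]
  have i1 : 0 ≤ ∫ x, g x := integral_nonneg hg.nn
  rw [← ENNReal.ofReal_mul Real.pi_pos.le,
    ← ENNReal.ofReal_mul (mul_nonneg hη.le i1)]
  congr 2
  ring

/-- the profile of the square of a bump -/
theorem BXI_P0 {ζ : ℝ → ℝ} (h : Bmp ζ) : BXI_P (fun x => ζ x ^ 2) := by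
  obtain ⟨h1, h2, h3⟩ := h
  refine ⟨h1.continuous.pow 2, fun x => sq_nonneg _, fun x => by simp only [h3 x], fun x hx => ?_⟩
  have : x ∉ tsupport ζ := fun hm => by
    have := h2 hm
    exact absurd (abs_lt.2 this) (not_lt.2 hx)
  rw [image_eq_zero_of_notMem_tsupport this]
  ring

/-- the profile of the square of the derivative of a bump -/
theorem BXI_P1 {ζ : ℝ → ℝ} (h : Bmp ζ) : BXI_P (fun x => deriv ζ x ^ 2) := by
  obtain ⟨h1, h2, h3⟩ := h
  refine ⟨(h1.continuous_deriv (by simp)).pow 2, fun x => sq_nonneg _, fun x => ?_, fun x hx => ?_⟩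
  · have e : deriv ζ (-x) = - deriv ζ x := by
      have e1 : (fun y => ζ (-y)) = ζ := funext h3
      have e2 : deriv (fun y => ζ (-y)) x = -deriv ζ (-x) := deriv_comp_neg ζ x
      rw [e1] at e2
      rw [e2, neg_neg]
    rw [e]
    ring
  · have : x ∉ tsupport ζ := fun hm => by
      have := h2 hm
      exact absurd (abs_lt.2 this) (not_lt.2 hx)
    have h5 : deriv ζ x = 0 := by
      by_contra hne
      exact this (support_deriv_subset hne)
    rw [h5]
    ring

theorem BXI_cylc : Continuous (fun p : ℝ × ℝ × ℝ => cyl p.2.2 p.2.1 p.1) := by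
  unfold cyl
  apply continuous_pi
  intro i
  fin_cases i
  · simp
    fun_prop
  · simp
    fun_prop
  · simp
    fun_prop

theorem prfBXI (hF : BXF) (hD : CYD) (hI : CYI) : BXI := by
  intro n ζ ρ0 z0 δ η hn hζ hδ hρ hη
  obtain ⟨hT, _, hform⟩ := hF univ n ζ ρ0 z0 δ η hn hζ hδ hρ hη (subset_univ _)
  obtain ⟨⟨hsm, hcs, _⟩, _⟩ := hT
  set φ := bxf n ζ ρ0 z0 δ η with hφ
  have P0 := BXI_P0 hζ
  have P1 := BXI_P1 hζ
  have hζ1 := hζ.1
  have ζd : Differentiable ℝ ζ := hζ1.differentiable (by simp)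
  have hρδ : 0 < ρ0 - δ := by linarith
  constructor
  · -- the integral of the square
    have hcont : Continuous (fun x => φ x ^ 2) := hsm.continuous.pow 2
    unfold Q2
    rw [integral_eq_lintegral_of_nonneg_ae (ae_of_all _ fun x => sq_nonneg _)
      hcont.aestronglyMeasurable]
    rw [hI (fun x => ENNReal.ofReal (φ x ^ 2)) (ENNReal.measurable_ofReal.comp hcont.measurable)]
    have e : ∫⁻ z : ℝ, ∫⁻ t in Ioo (-Real.pi) Real.pi, ∫⁻ r in Ioi (0 : ℝ),
        ENNReal.ofReal r * ENNReal.ofReal (φ (cyl r t z) ^ 2) =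
        ∫⁻ z : ℝ, ∫⁻ t in Ioo (-Real.pi) Real.pi, ∫⁻ r in Ioi (0 : ℝ),
        ENNReal.ofReal (BXI_T 1 (fun x => ζ x ^ 2) (fun t => Real.sin (n * t) ^ 2)
          (fun x => ζ x ^ 2) ρ0 z0 δ η r t z) := by
      refine lintegral_congr fun z => lintegral_congr fun t => ?_
      refine setLIntegral_congr_fun measurableSet_Ioi fun r hr => ?_
      have hr' : 0 < r := hr
      rw [← ENNReal.ofReal_mul hr'.le, hform r t z hr']
      unfold BXI_T
      congr 1
      ring
    rw [e, BXI_term 1 zero_le_one P0 (by fun_prop) (fun t => sq_nonneg _) (BXI_sin n hn) P0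
      ρ0 z0 δ η hδ hρ hη, ENNReal.toReal_ofReal]
    · ring
    · have : 0 ≤ ∫ x, ζ x ^ 2 := integral_nonneg P0.nn
      have := Real.pi_pos
      have : 0 < ρ0 := by linarith
      positivity
  · -- the gradient
    have hpd : ∀ i, Continuous (pd i φ) := by
      intro i
      unfold pd
      exact (hsm.continuous_fderiv (by simp)).clm_apply continuous_const
    have hcont : Continuous (fun x => ∑ i, gr φ i x ^ 2) := by
      apply continuous_finsetSum
      intro i _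
      exact (hpd i).pow 2
    unfold DD
    rw [integral_eq_lintegral_of_nonneg_ae
      (ae_of_all _ fun x => Finset.sum_nonneg fun i _ => sq_nonneg _)
      hcont.aestronglyMeasurable]
    rw [hI (fun x => ENNReal.ofReal (∑ i, gr φ i x ^ 2))
      (ENNReal.measurable_ofReal.comp hcont.measurable)]
    have key : ∀ r t z : ℝ, 0 < r → r * ∑ i, gr φ i (cyl r t z) ^ 2 ≤
        BXI_T (1 / δ ^ 2) (fun x => ζ x ^ 2) (fun t => Real.sin (n * t) ^ 2)
          (fun x => deriv ζ x ^ 2) ρ0 z0 δ η r t z +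
        (BXI_T (1 / η ^ 2) (fun x => deriv ζ x ^ 2) (fun t => Real.sin (n * t) ^ 2)
          (fun x => ζ x ^ 2) ρ0 z0 δ η r t z +
        BXI_T ((n : ℝ) ^ 2 / (ρ0 - δ) ^ 2) (fun x => ζ x ^ 2) (fun t => Real.cos (n * t) ^ 2)
          (fun x => ζ x ^ 2) ρ0 z0 δ η r t z) := by
      intro r t z hr
      obtain ⟨d1, d2, d3, -, -, -⟩ := hD φ hsm r t z
      have f1 : HasDerivAt (fun s => φ (cyl s t z))
          (deriv ζ ((r - ρ0) / δ) / δ * ζ ((z - z0) / η) * Real.sin (n * t)) r := by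
        have g1 : HasDerivAt (fun s => (s - ρ0) / δ) (1 / δ) r :=
          ((hasDerivAt_id r).sub_const ρ0).div_const δ
        have g2 : HasDerivAt (fun s => ζ ((s - ρ0) / δ)) (deriv ζ ((r - ρ0) / δ) * (1 / δ)) r :=
          HasDerivAt.comp r (ζd _).hasDerivAt g1
        have g3 := (g2.mul_const (ζ ((z - z0) / η))).mul_const (Real.sin (n * t))
        have g4 : (fun s => φ (cyl s t z)) =ᶠ[𝓝 r]
            fun s => ζ ((s - ρ0) / δ) * ζ ((z - z0) / η) * Real.sin (n * t) := by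
          filter_upwards [Ioi_mem_nhds hr] with s hs
          exact hform s t z hs
        refine (g3.congr_of_eventuallyEq g4).congr_deriv ?_
        ring
      have f2 : HasDerivAt (fun s => φ (cyl r s z))
          (ζ ((r - ρ0) / δ) * ζ ((z - z0) / η) * (n * Real.cos (n * t))) t := by
        have g1 : HasDerivAt (fun s : ℝ => (n : ℝ) * s) ((n : ℝ) * 1) t :=
          (hasDerivAt_id t).const_mul (n : ℝ)
        have g2 := g1.sin
        have g3 := g2.const_mul (ζ ((r - ρ0) / δ) * ζ ((z - z0) / η))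
        have g4 : (fun s => φ (cyl r s z)) =
            fun s => ζ ((r - ρ0) / δ) * ζ ((z - z0) / η) * Real.sin (n * s) := by
          funext s
          exact hform r s z hr
        rw [g4]
        refine g3.congr_deriv ?_
        ring
      have f3 : HasDerivAt (fun s => φ (cyl r t s))
          (ζ ((r - ρ0) / δ) * (deriv ζ ((z - z0) / η) / η) * Real.sin (n * t)) z := by
        have g1 : HasDerivAt (fun s => (s - z0) / η) (1 / η) z :=
          ((hasDerivAt_id z).sub_const z0).div_const η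
        have g2 : HasDerivAt (fun s => ζ ((s - z0) / η)) (deriv ζ ((z - z0) / η) * (1 / η)) z :=
          HasDerivAt.comp z (ζd _).hasDerivAt g1
        have g3 := (g2.const_mul (ζ ((r - ρ0) / δ))).mul_const (Real.sin (n * t))
        have g4 : (fun s => φ (cyl r t s)) =
            fun s => ζ ((r - ρ0) / δ) * ζ ((s - z0) / η) * Real.sin (n * t) := by
          funext s
          exact hform r t s hr
        rw [g4]
        refine g3.congr_deriv ?_
        ring
      have q1 := d1.unique f1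
      have q2 := d2.unique f2
      have q3 := d3.unique f3
      have hsum : ∑ i, gr φ i (cyl r t z) ^ 2 = pd 0 φ (cyl r t z) ^ 2 + pd 1 φ (cyl r t z) ^ 2 +
          pd 2 φ (cyl r t z) ^ 2 := by
        rw [Fin.sum_univ_three]
        rfl
      rw [hsum]
      have hrot : pd 0 φ (cyl r t z) ^ 2 + pd 1 φ (cyl r t z) ^ 2 =
          (Real.cos t * pd 0 φ (cyl r t z) + Real.sin t * pd 1 φ (cyl r t z)) ^ 2 +
          (-Real.sin t * pd 0 φ (cyl r t z) + Real.cos t * pd 1 φ (cyl r t z)) ^ 2 := by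
        have := Real.sin_sq_add_cos_sq t
        linear_combination (-(pd 0 φ (cyl r t z) ^ 2 + pd 1 φ (cyl r t z) ^ 2)) * this
      have q2' : -Real.sin t * pd 0 φ (cyl r t z) + Real.cos t * pd 1 φ (cyl r t z) =
          ζ ((r - ρ0) / δ) * ζ ((z - z0) / η) * (n * Real.cos (n * t)) / r := by
        rw [eq_div_iff hr.ne', ← q2]
        ring
      have hT : (ζ ((r - ρ0) / δ) * ζ ((z - z0) / η) * (n * Real.cos (n * t)) / r) ^ 2 ≤
          (n : ℝ) ^ 2 / (ρ0 - δ) ^ 2 * (ζ ((z - z0) / η) ^ 2 * (Real.cos (n * t) ^ 2 *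
            ζ ((r - ρ0) / δ) ^ 2)) := by
        rcases lt_or_ge r (ρ0 - δ) with hlt | hge
        · have : ζ ((r - ρ0) / δ) ^ 2 = 0 := P0.van _ (by
            rw [abs_div, abs_of_pos hδ, le_div_iff₀ hδ, abs_of_nonpos (by linarith)]
            linarith)
          have h0 : ζ ((r - ρ0) / δ) = 0 := by
            exact pow_eq_zero_iff (two_ne_zero) |>.1 this
          rw [h0]
          simp
        · have h1 : (ζ ((r - ρ0) / δ) * ζ ((z - z0) / η) * (n * Real.cos (n * t)) / r) ^ 2 =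
              (n : ℝ) ^ 2 / r ^ 2 * (ζ ((z - z0) / η) ^ 2 * (Real.cos (n * t) ^ 2 *
            ζ ((r - ρ0) / δ) ^ 2)) := by
            field_simp
          rw [h1]
          apply mul_le_mul_of_nonneg_right _ (by positivity)
          apply div_le_div_of_nonneg_left (by positivity) (by positivity)
          exact pow_le_pow_left₀ hρδ.le hge 2
      rw [hrot, q1, q2', q3]
      unfold BXI_T
      have hfin := mul_le_mul_of_nonneg_left hT hr.le
      have e1 : r * ((deriv ζ ((r - ρ0) / δ) / δ * ζ ((z - z0) / η) * Real.sin (n * t)) ^ 2 +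
          (ζ ((r - ρ0) / δ) * ζ ((z - z0) / η) * (n * Real.cos (n * t)) / r) ^ 2 +
          (ζ ((r - ρ0) / δ) * (deriv ζ ((z - z0) / η) / η) * Real.sin (n * t)) ^ 2) =
          1 / δ ^ 2 * (ζ ((z - z0) / η) ^ 2 * (Real.sin (n * t) ^ 2 *
            (r * deriv ζ ((r - ρ0) / δ) ^ 2))) +
          (1 / η ^ 2 * (deriv ζ ((z - z0) / η) ^ 2 * (Real.sin (n * t) ^ 2 *
            (r * ζ ((r - ρ0) / δ) ^ 2))) +
          r * (ζ ((r - ρ0) / δ) * ζ ((z - z0) / η) * (n * Real.cos (n * t)) / r) ^ 2) := by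
        ring
      rw [e1]
      have e2 : r * ((n : ℝ) ^ 2 / (ρ0 - δ) ^ 2 * (ζ ((z - z0) / η) ^ 2 * (Real.cos (n * t) ^ 2 *
            ζ ((r - ρ0) / δ) ^ 2))) = (n : ℝ) ^ 2 / (ρ0 - δ) ^ 2 * (ζ ((z - z0) / η) ^ 2 *
            (Real.cos (n * t) ^ 2 * (r * ζ ((r - ρ0) / δ) ^ 2))) := by
        ring
      rw [e2] at hfin
      linarith
    have i0 : 0 ≤ ∫ x, ζ x ^ 2 := integral_nonneg P0.nn
    have i1 : 0 ≤ ∫ x, deriv ζ x ^ 2 := integral_nonneg P1.nn
    have hpi := Real.pi_pos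
    have hρ0 : 0 < ρ0 := by linarith
    -- the three terms
    have c1 := BXI_term (1 / δ ^ 2) (by positivity) P0
      (s := fun t => Real.sin (n * t) ^ 2) (by fun_prop)
      (fun t => sq_nonneg _) (BXI_sin n hn) P1 ρ0 z0 δ η hδ hρ hη
    have c2 := BXI_term (1 / η ^ 2) (by positivity) P1
      (s := fun t => Real.sin (n * t) ^ 2) (by fun_prop)
      (fun t => sq_nonneg _) (BXI_sin n hn) P0 ρ0 z0 δ η hδ hρ hη
    have c3 := BXI_term ((n : ℝ) ^ 2 / (ρ0 - δ) ^ 2) (by positivity) P0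
      (s := fun t => Real.cos (n * t) ^ 2) (by fun_prop)
      (fun t => sq_nonneg _) (BXI_cos n hn) P0 ρ0 z0 δ η hδ hρ hη
    have m : ∀ (k : ℝ) {g s f : ℝ → ℝ}, BXI_P g → Continuous s → BXI_P f →
        Measurable (fun p : ℝ × ℝ × ℝ =>
          ENNReal.ofReal (BXI_T k g s f ρ0 z0 δ η p.2.2 p.2.1 p.1)) := by
      intro k g s f hg hs hf
      exact ENNReal.measurable_ofReal.comp (BXI_meas k hg hs hf ρ0 z0 δ η).measurable
    have add3 : ∀ (F1 F2 : ℝ → ℝ → ℝ → ℝ≥0∞),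
        Measurable (fun p : ℝ × ℝ × ℝ => F1 p.2.2 p.2.1 p.1) →
        ∫⁻ z : ℝ, ∫⁻ t in Ioo (-Real.pi) Real.pi, ∫⁻ r in Ioi (0 : ℝ), (F1 r t z + F2 r t z) =
        (∫⁻ z : ℝ, ∫⁻ t in Ioo (-Real.pi) Real.pi, ∫⁻ r in Ioi (0 : ℝ), F1 r t z) +
        ∫⁻ z : ℝ, ∫⁻ t in Ioo (-Real.pi) Real.pi, ∫⁻ r in Ioi (0 : ℝ), F2 r t z := by
      intro F1 F2 hm
      have a1 : ∀ z t : ℝ, ∫⁻ r in Ioi (0 : ℝ), (F1 r t z + F2 r t z) =
          (∫⁻ r in Ioi (0 : ℝ), F1 r t z) + ∫⁻ r in Ioi (0 : ℝ), F2 r t z := by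
        intro z t
        apply lintegral_add_left
        exact hm.comp (measurable_const.prodMk (measurable_const.prodMk measurable_id))
      simp_rw [a1]
      have m1 : Measurable (fun p : ℝ × ℝ => ∫⁻ r in Ioi (0 : ℝ), F1 r p.2 p.1) := by
        have hq : Measurable (fun q : (ℝ × ℝ) × ℝ => F1 q.2 q.1.2 q.1.1) :=
          hm.comp (measurable_fst.fst.prodMk (measurable_fst.snd.prodMk measurable_snd))
        exact hq.lintegral_prod_right'
      have a2 : ∀ z : ℝ, ∫⁻ t in Ioo (-Real.pi) Real.pi, ((∫⁻ r in Ioi (0 : ℝ), F1 r t z) +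
          ∫⁻ r in Ioi (0 : ℝ), F2 r t z) =
          (∫⁻ t in Ioo (-Real.pi) Real.pi, ∫⁻ r in Ioi (0 : ℝ), F1 r t z) +
          ∫⁻ t in Ioo (-Real.pi) Real.pi, ∫⁻ r in Ioi (0 : ℝ), F2 r t z := by
        intro z
        apply lintegral_add_left
        exact m1.comp (measurable_const.prodMk measurable_id)
      simp_rw [a2]
      apply lintegral_add_left
      exact m1.lintegral_prod_right'
    have step : ∫⁻ z : ℝ, ∫⁻ t in Ioo (-Real.pi) Real.pi, ∫⁻ r in Ioi (0 : ℝ),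
        ENNReal.ofReal r * ENNReal.ofReal (∑ i, gr φ i (cyl r t z) ^ 2) ≤
        ∫⁻ z : ℝ, ∫⁻ t in Ioo (-Real.pi) Real.pi, ∫⁻ r in Ioi (0 : ℝ),
        (ENNReal.ofReal (BXI_T (1 / δ ^ 2) (fun x => ζ x ^ 2) (fun t => Real.sin (n * t) ^ 2)
          (fun x => deriv ζ x ^ 2) ρ0 z0 δ η r t z) +
        (ENNReal.ofReal (BXI_T (1 / η ^ 2) (fun x => deriv ζ x ^ 2)
          (fun t => Real.sin (n * t) ^ 2) (fun x => ζ x ^ 2) ρ0 z0 δ η r t z) +
        ENNReal.ofReal (BXI_T ((n : ℝ) ^ 2 / (ρ0 - δ) ^ 2) (fun x => ζ x ^ 2)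
          (fun t => Real.cos (n * t) ^ 2) (fun x => ζ x ^ 2) ρ0 z0 δ η r t z))) := by
      refine lintegral_mono fun z => lintegral_mono fun t => ?_
      refine setLIntegral_mono' measurableSet_Ioi fun r hr => ?_
      have hr' : 0 < r := hr
      rw [← ENNReal.ofReal_mul hr'.le]
      refine (ENNReal.ofReal_le_ofReal (key r t z hr')).trans ?_
      refine ENNReal.ofReal_add_le.trans ?_
      gcongr
      exact ENNReal.ofReal_add_le
    have tot : ∫⁻ z : ℝ, ∫⁻ t in Ioo (-Real.pi) Real.pi, ∫⁻ r in Ioi (0 : ℝ),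
        ENNReal.ofReal r * ENNReal.ofReal (∑ i, gr φ i (cyl r t z) ^ 2) ≤
        ENNReal.ofReal (Real.pi * ρ0 * δ * η *
      ((∫ x, ζ x ^ 2) * (∫ x, deriv ζ x ^ 2) / δ ^ 2 + (∫ x, ζ x ^ 2) * (∫ x, deriv ζ x ^ 2) / η ^ 2 +
        (n : ℝ) ^ 2 / (ρ0 - δ) ^ 2 * (∫ x, ζ x ^ 2) ^ 2)) := by
      refine step.trans ?_
      rw [add3 _ _ (m _ P0 (by fun_prop) P1), add3 _ _ (m _ P1 (by fun_prop) P0), c1, c2, c3]
      rw [← ENNReal.ofReal_add (by positivity) (by positivity),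
        ← ENNReal.ofReal_add (by positivity) (by positivity)]
      apply le_of_eq
      congr 1
      ring
    calc _ ≤ (ENNReal.ofReal (Real.pi * ρ0 * δ * η *
      ((∫ x, ζ x ^ 2) * (∫ x, deriv ζ x ^ 2) / δ ^ 2 + (∫ x, ζ x ^ 2) * (∫ x, deriv ζ x ^ 2) / η ^ 2 +
        (n : ℝ) ^ 2 / (ρ0 - δ) ^ 2 * (∫ x, ζ x ^ 2) ^ 2))).toReal :=
          ENNReal.toReal_mono ENNReal.ofReal_ne_top tot
      _ = _ := ENNReal.toReal_ofReal (by positivity)

end Pool.Agent.Work.MP_d5b3be_an.BN
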