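import Pool.Agent.Work.MP_d5b3be_an.BN.Stmts

/-!
# BXV: the volume of the box
-/

set_option autoImplicit false

namespace Pool.Agent.Work.MP_d5b3be_an.BN

open MeasureTheory Filter Set
open scoped ENNReal Topology ContDiff

theorem BXV_meas (ρ0 z0 δ η : ℝ) : MeasurableSet (boxS ρ0 z0 δ η) := by
  have h1 : MeasurableSet {x : E3 | |Real.sqrt (x 0 ^ 2 + x 1 ^ 2) - ρ0| ≤ δ} := by
    apply IsClosed.measurableSet
    exact isClosed_le (by fun_prop) continuous_const
  have h2 : MeasurableSet {x : E3 | |x 2 - z0| ≤ η} := by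
    apply IsClosed.measurableSet
    exact isClosed_le (by fun_prop) continuous_const
  exact h1.inter h2

theorem BXV_sqrt (r t z : ℝ) (hr : 0 < r) :
    Real.sqrt ((cyl r t z) 0 ^ 2 + (cyl r t z) 1 ^ 2) = r := by
  have h : (cyl r t z) 0 ^ 2 + (cyl r t z) 1 ^ 2 = r ^ 2 := by
    simp only [cyl, Matrix.cons_val_zero, Matrix.cons_val_one]
    have := Real.sin_sq_add_cos_sq t
    nlinarith [this]
  rw [h, Real.sqrt_sq hr.le]

theorem BXV_inner (ρ0 δ : ℝ) (hδ : 0 < δ) (hρ : δ < ρ0) :
    ∫⁻ r in Icc (ρ0 - δ) (ρ0 + δ), ENNReal.ofReal r = ENNReal.ofReal (2 * ρ0 * δ) := by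
  rw [← ofReal_integral_eq_lintegral_ofReal]
  · congr 1
    rw [integral_Icc_eq_integral_Ioc, ← intervalIntegral.integral_of_le (by linarith), integral_id]
    ring
  · exact (continuous_id.integrableOn_Icc)
  · rw [Filter.EventuallyLE, ae_restrict_iff' measurableSet_Icc]
    refine Filter.Eventually.of_forall fun r hr => ?_
    have := hr.1
    simp only [Pi.zero_apply]
    linarith

theorem prfBXV (hC : CYI) : BXV := by
  intro ρ0 z0 δ η hδ hρ hη
  refine ⟨BXV_meas ρ0 z0 δ η, ?_⟩
  set f : E3 → ℝ≥0∞ := (boxS ρ0 z0 δ η).indicator (fun _ => 1) with hf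
  have hfm : Measurable f := measurable_const.indicator (BXV_meas ρ0 z0 δ η)
  have e0 : volume (boxS ρ0 z0 δ η) = ∫⁻ x, f x := by
    rw [hf, lintegral_indicator (BXV_meas ρ0 z0 δ η)]
    simp
  rw [e0, hC f hfm]
  have hin : ∀ t z : ℝ, ∫⁻ r in Ioi (0 : ℝ), ENNReal.ofReal r * f (cyl r t z) ≤
      (Icc (z0 - η) (z0 + η)).indicator (fun _ => ENNReal.ofReal (2 * ρ0 * δ)) z := by
    intro t z
    by_cases hz : z ∈ Icc (z0 - η) (z0 + η)
    · rw [Set.indicator_of_mem hz, ← BXV_inner ρ0 δ hδ hρ]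
      have : ∀ r ∈ Ioi (0 : ℝ), ENNReal.ofReal r * f (cyl r t z) ≤
          (Icc (ρ0 - δ) (ρ0 + δ)).indicator (fun r => ENNReal.ofReal r) r := by
        intro r hr
        by_cases hb : cyl r t z ∈ boxS ρ0 z0 δ η
        · have h1 := hb.1
          rw [BXV_sqrt r t z hr, abs_le] at h1
          have hr2 : r ∈ Icc (ρ0 - δ) (ρ0 + δ) := ⟨by linarith [h1.1], by linarith [h1.2]⟩
          rw [Set.indicator_of_mem hr2, hf, Set.indicator_of_mem hb, mul_one]
        · rw [hf, Set.indicator_of_notMem hb, mul_zero]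
          exact zero_le
      calc ∫⁻ r in Ioi (0 : ℝ), ENNReal.ofReal r * f (cyl r t z)
          ≤ ∫⁻ r in Ioi (0 : ℝ), (Icc (ρ0 - δ) (ρ0 + δ)).indicator (fun r => ENNReal.ofReal r) r :=
            setLIntegral_mono' measurableSet_Ioi this
        _ ≤ ∫⁻ r, (Icc (ρ0 - δ) (ρ0 + δ)).indicator (fun r => ENNReal.ofReal r) r :=
            setLIntegral_le_lintegral _ _
        _ = ∫⁻ r in Icc (ρ0 - δ) (ρ0 + δ), ENNReal.ofReal r :=
            lintegral_indicator measurableSet_Icc _
    · rw [Set.indicator_of_notMem hz]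
      have : ∀ r : ℝ, ENNReal.ofReal r * f (cyl r t z) = 0 := by
        intro r
        have hb : cyl r t z ∉ boxS ρ0 z0 δ η := by
          intro hb
          have h2 := hb.2
          have e2 : (cyl r t z) 2 = z := by simp [cyl]
          rw [e2, abs_le] at h2
          exact hz ⟨by linarith [h2.1], by linarith [h2.2]⟩
        rw [hf, Set.indicator_of_notMem hb, mul_zero]
      simp [this]
  calc ∫⁻ z : ℝ, ∫⁻ t in Ioo (-Real.pi) Real.pi, ∫⁻ r in Ioi (0 : ℝ),
        ENNReal.ofReal r * f (cyl r t z)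
      ≤ ∫⁻ z : ℝ, ∫⁻ _t in Ioo (-Real.pi) Real.pi,
        (Icc (z0 - η) (z0 + η)).indicator (fun _ => ENNReal.ofReal (2 * ρ0 * δ)) z := by
        refine lintegral_mono fun z => lintegral_mono fun t => hin t z
    _ = ∫⁻ z : ℝ, (Icc (z0 - η) (z0 + η)).indicator
        (fun _ => ENNReal.ofReal (2 * ρ0 * δ) * ENNReal.ofReal (2 * Real.pi)) z := by
        refine lintegral_congr fun z => ?_
        rw [lintegral_const, Measure.restrict_apply_univ, Real.volume_Ioo]
        have : Real.pi - -Real.pi = 2 * Real.pi := by ring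
        rw [this]
        by_cases hz : z ∈ Icc (z0 - η) (z0 + η)
        · rw [Set.indicator_of_mem hz, Set.indicator_of_mem hz]
        · rw [Set.indicator_of_notMem hz, Set.indicator_of_notMem hz, zero_mul]
    _ = ENNReal.ofReal (2 * ρ0 * δ) * ENNReal.ofReal (2 * Real.pi) * ENNReal.ofReal (2 * η) := by
        rw [lintegral_indicator measurableSet_Icc, lintegral_const, Measure.restrict_apply_univ,
          Real.volume_Icc]
        have : z0 + η - (z0 - η) = 2 * η := by ring
        rw [this]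
    _ ≤ ENNReal.ofReal (8 * Real.pi * ρ0 * δ * η) := by
        have hp := Real.pi_pos
        have h1 : 0 ≤ 2 * ρ0 * δ := by
          have : 0 < ρ0 := by linarith
          positivity
        rw [← ENNReal.ofReal_mul h1, ← ENNReal.ofReal_mul (by positivity)]
        apply ENNReal.ofReal_le_ofReal
        apply le_of_eq
        ring

end Pool.Agent.Work.MP_d5b3be_an.BN
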