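import Pool.Agent.Work.MP_d5b3be_an.BN.Stmts2

/-!
# Item CLT: the classes of test functions are linear
-/

set_option autoImplicit false

namespace Pool.Agent.Work.MP_d5b3be_an.BN

open MeasureTheory Filter Set
open scoped ENNReal Topology ContDiff

theorem CLT_zero (Ω : Set E3) : Test Ω (fun _ => 0) := by
  refine ⟨contDiff_const, HasCompactSupport.zero, ?_⟩
  have h : tsupport (fun _ : E3 => (0 : ℝ)) = ∅ := by
    rw [tsupport_eq_empty_iff]
    rfl
  rw [h]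
  exact Set.empty_subset _

theorem CLT_supp (φ ψ : E3 → ℝ) (a b : ℝ) :
    tsupport (fun x => a * φ x + b * ψ x) ⊆ tsupport φ ∪ tsupport ψ := by
  refine closure_minimal ?_ ((isClosed_tsupport φ).union (isClosed_tsupport ψ))
  intro x hx
  by_contra hc
  rw [Set.mem_union, not_or] at hc
  have h1 : φ x = 0 := image_eq_zero_of_notMem_tsupport hc.1
  have h2 : ψ x = 0 := image_eq_zero_of_notMem_tsupport hc.2
  apply hx
  change a * φ x + b * ψ x = 0
  rw [h1, h2, mul_zero, mul_zero, add_zero]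

theorem CLT_add (Ω : Set E3) (φ ψ : E3 → ℝ) (a b : ℝ) (h1 : Test Ω φ) (h2 : Test Ω ψ) :
    Test Ω (fun x => a * φ x + b * ψ x) := by
  refine ⟨(contDiff_const.mul h1.1).add (contDiff_const.mul h2.1), ?_, ?_⟩
  · exact (h1.2.1.isCompact.union h2.2.1.isCompact).of_isClosed_subset (isClosed_tsupport _)
      (CLT_supp φ ψ a b)
  · exact (CLT_supp φ ψ a b).trans (Set.union_subset h1.2.2 h2.2.2)

theorem prfCLT : CLT := by
  intro Ω
  refine ⟨⟨fun φ h => ⟨h.1, h.2.1⟩, CLT_zero Ω, fun φ ψ a b h1 h2 => CLT_add Ω φ ψ a b h1 h2⟩,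
    fun n => ⟨fun φ h => ⟨h.1.1, h.1.2.1⟩, ⟨CLT_zero Ω, fun x => by simp⟩, ?_⟩⟩
  intro φ ψ a b h1 h2
  refine ⟨CLT_add Ω φ ψ a b h1.1 h2.1, fun x => ?_⟩
  change a * φ (rot (Real.pi / n) x) + b * ψ (rot (Real.pi / n) x) = -(a * φ x + b * ψ x)
  rw [h1.2 x, h2.2 x]
  ring

end Pool.Agent.Work.MP_d5b3be_an.BN
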