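import Pool.Agent.Work.MP_d5b3be_an.BN.Stmts2

/-!
# Block BN, item CNT: counting the integers `n`
-/

set_option autoImplicit false

namespace Pool.Agent.Work.MP_d5b3be_an.BN

theorem prfCNT : CNT := by
  intro R N0 hR
  refine ⟨((10 ^ 9 + |N0|) / R) ^ 2, 1 / 10 ^ 9 * R, by positivity, fun lam hlam => ?_⟩
  have hq : 0 < (10 ^ 9 + |N0|) / R := by positivity
  have hl0 : 0 < lam := lt_of_lt_of_le (by positivity) hlam
  refine ⟨hl0, ?_⟩
  have hS : (10 ^ 9 + |N0|) / R ≤ Real.sqrt lam := Real.le_sqrt_of_sq_le hlam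
  have hS2 : Real.sqrt lam ^ 2 = lam := Real.sq_sqrt hl0.le
  set S := Real.sqrt lam with hSdef
  have hS0 : 0 ≤ S := Real.sqrt_nonneg lam
  set x := R * S with hx
  have hx1 : 10 ^ 9 + |N0| ≤ x := by
    rw [div_le_iff₀ hR] at hS
    rw [hx]; linarith
  have hN : N0 ≤ |N0| := le_abs_self N0
  have hN' : 0 ≤ |N0| := abs_nonneg N0
  have hx0 : 0 ≤ x := by linarith
  have hxx : 0 ≤ (1 + 4 / 10 ^ 9) * x := by positivity
  have hf1 := Nat.floor_le hx0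
  have hf2 := Nat.floor_le hxx
  have hf3 := Nat.lt_floor_add_one x
  have hf4 := Nat.lt_floor_add_one ((1 + 4 / 10 ^ 9) * x)
  have hmono : ⌊x⌋₊ ≤ ⌊(1 + 4 / 10 ^ 9) * x⌋₊ := Nat.floor_le_floor (by linarith)
  refine ⟨⌊x⌋₊ + 1, ⌊(1 + 4 / 10 ^ 9) * x⌋₊ + 1, by omega, ?_, fun n hn1 hn2 => ?_⟩
  · push_cast
    have e1 : 1 / 10 ^ 9 * R * S = 1 / 10 ^ 9 * x := by rw [hx]; ring
    rw [e1]
    linarith
  · have h1 : x < n := by
      have : ((⌊x⌋₊ + 1 : ℕ) : ℝ) ≤ n := by exact_mod_cast hn1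
      push_cast at this
      linarith
    have h2 : (n : ℝ) ≤ (1 + 4 / 10 ^ 9) * x := by
      have : n ≤ ⌊(1 + 4 / 10 ^ 9) * x⌋₊ := by omega
      have h3 : (n : ℝ) ≤ (⌊(1 + 4 / 10 ^ 9) * x⌋₊ : ℝ) := by exact_mod_cast this
      linarith
    have hxn : (n : ℝ) ^ 2 ≤ ((1 + 4 / 10 ^ 9) * x) ^ 2 :=
      pow_le_pow_left₀ (by linarith) h2 2
    have hx2 : x ^ 2 = lam * R ^ 2 := by rw [hx, mul_pow, hS2]; ring
    refine ⟨by linarith, by omega, ?_, ?_⟩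
    · have h4 : S < n / R := by
        rw [lt_div_iff₀ hR]
        linarith [h1, hx, mul_comm R S]
      calc lam = S ^ 2 := hS2.symm
        _ < (n / R) ^ 2 := by
          exact pow_lt_pow_left₀ h4 hS0 (by norm_num)
    · have h5 : 0 ≤ lam * R ^ 2 := by positivity
      calc (1 - 1 / 10 ^ 8) * (n : ℝ) ^ 2
          ≤ (1 - 1 / 10 ^ 8) * ((1 + 4 / 10 ^ 9) * x) ^ 2 :=
            mul_le_mul_of_nonneg_left hxn (by norm_num)
        _ = ((1 - 1 / 10 ^ 8) * (1 + 4 / 10 ^ 9) ^ 2) * (lam * R ^ 2) := by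
            rw [mul_pow, hx2]; ring
        _ ≤ 1 * (lam * R ^ 2) := by
            refine mul_le_mul_of_nonneg_right ?_ h5
            norm_num
        _ = lam * R ^ 2 := one_mul _

end Pool.Agent.Work.MP_d5b3be_an.BN
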