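import Pool.Agent.Work.MP_d5b3be_an.BN.Stmts2

/-!
# Block BN, item CPT: the limit of a minimizing sequence
-/

set_option autoImplicit false

namespace Pool.Agent.Work.MP_d5b3be_an.BN

open MeasureTheory Filter Set
open scoped ENNReal Topology ContDiff

theorem CPT_memLp {T : (E3 → ℝ) → Prop} (hT : Cl T) {φ : E3 → ℝ} (h : T φ) (p : ℝ≥0∞) :
    MemLp φ p volume :=
  (hT.1 φ h).1.continuous.memLp_of_hasCompactSupport (hT.1 φ h).2

theorem CPT_memLp_pd {T : (E3 → ℝ) → Prop} (hT : Cl T) {φ : E3 → ℝ} (h : T φ) (i : Fin 3)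
    (p : ℝ≥0∞) : MemLp (pd i φ) p volume := by
  have h1 : Continuous (pd i φ) :=
    ((hT.1 φ h).1.continuous_fderiv (by simp)).clm_apply continuous_const
  exact h1.memLp_of_hasCompactSupport ((hT.1 φ h).2.fderiv_apply (𝕜 := ℝ) _)

theorem CPT_le_DD {g : Fin 3 → E3 → ℝ} (hg : ∀ i, MemLp (g i) 2 volume) (i : Fin 3) :
    ∫ x, g i x ^ 2 ≤ DD g := by
  unfold DD
  have h1 : ∀ i, Integrable (fun x => g i x ^ 2) volume := fun i => (hg i).integrable_sq
  refine integral_mono (h1 i) (integrable_finsetSum _ fun j _ => h1 j) fun x => ?_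
  exact Finset.single_le_sum (f := fun j => g j x ^ 2) (fun j _ => sq_nonneg _)
    (Finset.mem_univ i)

theorem CPT_DD_nonneg (g : Fin 3 → E3 → ℝ) : 0 ≤ DD g :=
  integral_nonneg fun _ => Finset.sum_nonneg fun _ _ => sq_nonneg _

theorem CPT_N6_nonneg (u : E3 → ℝ) : 0 ≤ N6 u :=
  integral_nonneg fun x => by
    show 0 ≤ u x ^ 6
    positivity

theorem prfCPT (hRLS : RLS) (hWCP : WCP) (hLCV : LCV) (hHCW : HCW) (hHCL : HCL) (hHCE : HCE)
    (hDSP : DSP) (hBLZ : BLZ) (hCON : CON) : CPT := by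
  intro Ω T ν V lam m φ hΩ hTΩ hHy hm hmν hmin hφ hlim
  obtain ⟨hT, hν, hS, hlam, hlV, hQ⟩ := hHy
  have hV : 0 < V := hlam.trans hlV
  have hθ : 0 < 1 - lam / V := by
    rw [sub_pos, div_lt_one hV]
    exact hlV
  have haf : ∀ D Q : ℝ, V * Q ≤ D → (1 - lam / V) * D ≤ D - lam * Q := by
    intro D Q h
    have h1 : lam * Q ≤ lam / V * D := by
      rw [div_mul_eq_mul_div, le_div_iff₀ hV]
      nlinarith
    nlinarith
  -- bounds
  obtain ⟨A, hA⟩ := hlim.bddAbove_range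
  have hA' : ∀ k, af lam (φ k) (gr (φ k)) ≤ A := fun k => hA ⟨k, rfl⟩
  set C1 : ℝ := A / (1 - lam / V) with hC1
  have hD1 : ∀ k, DD (gr (φ k)) ≤ C1 := by
    intro k
    rw [hC1, le_div_iff₀ hθ, mul_comm]
    exact (haf _ _ (hQ _ (hφ k).1)).trans (hA' k)
  have hQ1 : ∀ k, Q2 (φ k) ≤ C1 / V := by
    intro k
    rw [le_div_iff₀ hV, mul_comm]
    exact (hQ _ (hφ k).1).trans (hD1 k)
  obtain ⟨σ, hσ, u, hu, hcv⟩ := hRLS Ω φ (max C1 (C1 / V)) hΩ (fun k => hTΩ _ (hφ k).1)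
    fun k => ⟨(hQ1 k).trans (le_max_right _ _), (hD1 k).trans (le_max_left _ _)⟩
  obtain ⟨ρ, hρ, g, hg, hwk⟩ := hWCP (fun k i => pd i (φ (σ k))) C1
    (fun k i => CPT_memLp_pd hT (hφ _).1 i 2)
    (fun k i => (CPT_le_DD (g := gr (φ (σ k))) (fun i => CPT_memLp_pd hT (hφ _).1 i 2) i).trans
      (hD1 _))
  set ψ : ℕ → E3 → ℝ := fun k => φ (σ (ρ k)) with hψ
  have hTψ : ∀ k, T (ψ k) := fun k => (hφ _).1
  have hNψ : ∀ k, N6 (ψ k) = 1 := fun k => (hφ _).2
  have hcvψ : Cv 2 ψ u := hcv.comp hρ.tendsto_atTop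
  have hlimψ : Tendsto (fun k => af lam (ψ k) (gr (ψ k))) atTop (𝓝 m) :=
    hlim.comp (hσ.tendsto_atTop.comp hρ.tendsto_atTop)
  have hψ2 : ∀ k, MemLp (ψ k) 2 volume := fun k => CPT_memLp hT (hTψ k) 2
  obtain ⟨hQlim, hwkψ⟩ := hLCV ψ u hψ2 hu hcvψ
  have hHC : HC T u g := hHCW T ψ u g hT hTψ hu hg hwkψ hwk
  -- the inequality for the class
  have hc : 0 < ν / 64 := by positivity
  have hS' : ∀ φ, T φ → ν / 64 * N6 φ ≤ DD (gr φ) ^ 3 := by
    intro w hw
    have := hS w hw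
    linarith
  obtain ⟨hu6, -, huV, hum⟩ := hHCE T (ν / 64) u g hT hc hS' hHC
  have huV' := huV V hQ
  have hum' := hum (m ^ 3) lam hmin
  -- the differences
  set v : ℕ → E3 → ℝ := fun k x => ψ k x - u x with hv
  have hHCv : ∀ k, HC T (v k) (fun i x => pd i (ψ k) x - g i x) := by
    intro k
    have h1 := (hHCL T hT).2 (ψ k) u (gr (ψ k)) g 1 (-1) ((hHCL T hT).1 _ (hTψ k)) hHC
    have e1 : (fun x => 1 * ψ k x + -1 * u x) = v k := by
      funext x
      simp only [hv]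
      ring
    have e2 : (fun i x => 1 * gr (ψ k) i x + -1 * g i x) =
        fun i x => pd i (ψ k) x - g i x := by
      funext i x
      unfold gr
      ring
    rw [e1, e2] at h1
    exact h1
  have hv6 : ∀ k, MemLp (v k) 6 volume := fun k => (hHCE T (ν / 64) _ _ hT hc hS' (hHCv k)).1
  have hvN : ∀ k, ν / 64 * N6 (v k) ≤ DD (fun i x => pd i (ψ k) x - g i x) ^ 3 :=
    fun k => (hHCE T (ν / 64) _ _ hT hc hS' (hHCv k)).2.1
  have hv2 : ∀ k, MemLp (v k) 2 volume := fun k => (hHCv k).1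
  have hdsp := hDSP (fun k i => pd i (ψ k)) g (fun k i => CPT_memLp_pd hT (hTψ k) i 2) hg hwk
  set d : ℕ → ℝ := fun k => DD (fun i x => pd i (ψ k) x - g i x) with hd
  have hDψ : Tendsto (fun k => DD (gr (ψ k))) atTop (𝓝 (m + lam * Q2 u)) := by
    have h1 : Tendsto (fun k => af lam (ψ k) (gr (ψ k)) + lam * Q2 (ψ k)) atTop
        (𝓝 (m + lam * Q2 u)) := hlimψ.add (hQlim.const_mul lam)
    refine h1.congr fun k => ?_
    unfold af
    ring
  have hdlim : Tendsto d atTop (𝓝 (m - af lam u g)) := by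
    have h1 := hDψ.sub hdsp
    have e1 : m + lam * Q2 u - DD g = m - af lam u g := by
      unfold af
      ring
    rw [e1] at h1
    refine h1.congr fun k => ?_
    show DD (gr (ψ k)) - (DD (fun i => pd i (ψ k)) - d k) = d k
    have e2 : gr (ψ k) = fun i => pd i (ψ k) := rfl
    rw [e2]
    ring
  obtain ⟨B, hB⟩ := hdlim.bddAbove_range
  have hB' : ∀ k, d k ≤ B := fun k => hB ⟨k, rfl⟩
  have hd0 : ∀ k, 0 ≤ d k := fun k => CPT_DD_nonneg _
  have hvbd : ∀ k, ∫ x, v k x ^ 6 ≤ B ^ 3 / (ν / 64) := by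
    intro k
    rw [le_div_iff₀ hc, mul_comm]
    exact (hvN k).trans (pow_le_pow_left₀ (hd0 k) (hB' k) 3)
  have hv0 : Tendsto (fun k => ∫ x, v k x ^ 2) atTop (𝓝 0) := by
    have h0 : MemLp (fun _ : E3 => (0 : ℝ)) 2 volume := by simp
    have h1 : Cv 2 v (fun _ => 0) := by
      unfold Cv
      refine hcvψ.congr fun k => ?_
      simp only [hv, sub_zero]
    have h2 := (hLCV v (fun _ => 0) hv2 h0 h1).1
    simpa using h2
  have hblz := hBLZ u v (B ^ 3 / (ν / 64)) hu hu6 hv2 hv6 hvbd hv0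
  have hNv : Tendsto (fun k => N6 (v k)) atTop (𝓝 (1 - N6 u)) := by
    have h1 : Tendsto (fun k => 1 - ((∫ x, (u x + v k x) ^ 6) - ∫ x, v k x ^ 6)) atTop
        (𝓝 (1 - N6 u)) := hblz.const_sub 1
    refine h1.congr fun k => ?_
    have e1 : ∫ x, (u x + v k x) ^ 6 = 1 := by
      rw [← hNψ k]
      unfold N6
      congr 1
      funext x
      simp only [hv]
      ring
    rw [e1]
    unfold N6
    ring
  -- the limits
  have ht1 : N6 u ≤ 1 := by
    have : 0 ≤ 1 - N6 u := ge_of_tendsto' hNv fun k => CPT_N6_nonneg _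
    linarith
  have hd0' : 0 ≤ m - af lam u g := ge_of_tendsto' hdlim hd0
  have ha0 : 0 ≤ af lam u g := by
    have h1 := haf _ _ huV'
    have h2 := CPT_DD_nonneg g
    unfold af
    nlinarith [mul_nonneg hθ.le h2]
  have hfin : ν / 64 * (1 - N6 u) ≤ (m - af lam u g) ^ 3 :=
    le_of_tendsto_of_tendsto' (hNv.const_mul _) (hdlim.pow 3) hvN
  obtain ⟨h1, h2⟩ := hCON m (m - af lam u g) (af lam u g) (N6 u) ν hm hd0' ha0 ht1 (by ring)
    hum' (by linarith) hmν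
  exact ⟨u, g, hHC, hu6, h1, h2⟩

end Pool.Agent.Work.MP_d5b3be_an.BN
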