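import Pool.Agent.Work.MP_d5b3be_an.BN.Stmts2

/-!
# Block BN: item CRI
-/

set_option autoImplicit false

namespace Pool.Agent.Work.MP_d5b3be_an.BN

open MeasureTheory Filter Set
open scoped ENNReal Topology ContDiff

theorem prfCRI (hCLT : CLT) (hSOB : SOB) (hTFC : TFC) (hEXI : EXI) (hSYM : SYM) (hNSY : NSY) :
    CRI := by
  intro Ω n V lam ρ0 z0 δ η hb hRI hn hlam hlV hV hBC hbox
  have hn' : (0 : ℝ) < n := by exact_mod_cast hn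
  have hHy : Hy (TestN Ω n) ((n : ℝ) ^ 2) V lam :=
    ⟨(hCLT Ω).2 n, by positivity, fun φ hφ => hSOB Ω n φ hn hφ, hlam, hlV, hV⟩
  obtain ⟨u, g, hHC, h6, h0, hN, hE⟩ := hEXI Ω (TestN Ω n) ((n : ℝ) ^ 2) V lam hb
    (fun φ hφ => hφ.1) hHy (hTFC Ω n lam ρ0 z0 δ η hn hBC hbox)
  refine ⟨u, ⟨h0, h6, g, ?_, hSYM Ω n lam u g hRI hn hHC h6 hE⟩, hN, hNSY Ω n u g hHC⟩
  obtain ⟨k1, k2, φ, k3, k4, k5⟩ := hHC
  exact ⟨k1, k2, φ, fun k => (k3 k).1, k4, k5⟩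

end Pool.Agent.Work.MP_d5b3be_an.BN
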