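import Pool.Agent.Work.MP_d5b3be_an.BN.Stmts3

/-!
# MP_d5b3be_an, block BN, item CVR: the ring of a convex body of revolution
-/

set_option autoImplicit false

namespace Pool.Agent.Work.MP_d5b3be_an.BN

open MeasureTheory Filter Set
open scoped ENNReal Topology ContDiff

/-- a pair of square sum `1` is `(cos t, sin t)` -/
theorem CVR_cs (c s : ℝ) (h : c ^ 2 + s ^ 2 = 1) : ∃ t : ℝ, Real.cos t = c ∧ Real.sin t = s := by
  have hz : ‖(⟨c, s⟩ : ℂ)‖ = 1 := by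
    rw [Complex.norm_def, Complex.normSq_apply]
    have : c * c + s * s = 1 := by linarith [sq c, sq s]
    simp [this]
  have hz0 : (⟨c, s⟩ : ℂ) ≠ 0 := by
    intro h0
    rw [h0, norm_zero] at hz
    exact zero_ne_one hz
  refine ⟨Complex.arg ⟨c, s⟩, ?_, ?_⟩
  · rw [Complex.cos_arg hz0, hz, div_one]
  · rw [Complex.sin_arg, hz, div_one]

/-- a rotation invariant set contains the whole circle of each of its points -/
theorem CVR_rot (Ω : Set E3) (hRI : RI Ω) (x y : E3) (hx : x ∈ Ω) (h2 : y 2 = x 2)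
    (h : y 0 ^ 2 + y 1 ^ 2 = x 0 ^ 2 + x 1 ^ 2) : y ∈ Ω := by
  by_cases hr : x 0 ^ 2 + x 1 ^ 2 = 0
  · have ex0 : x 0 = 0 := by
      have : x 0 ^ 2 = 0 := by nlinarith [sq_nonneg (x 0), sq_nonneg (x 1)]
      exact pow_eq_zero_iff (two_ne_zero) |>.1 this
    have ex1 : x 1 = 0 := by
      have : x 1 ^ 2 = 0 := by nlinarith [sq_nonneg (x 0), sq_nonneg (x 1)]
      exact pow_eq_zero_iff (two_ne_zero) |>.1 this
    have ey0 : y 0 = 0 := by
      have : y 0 ^ 2 = 0 := by nlinarith [sq_nonneg (y 0), sq_nonneg (y 1)]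
      exact pow_eq_zero_iff (two_ne_zero) |>.1 this
    have ey1 : y 1 = 0 := by
      have : y 1 ^ 2 = 0 := by nlinarith [sq_nonneg (y 0), sq_nonneg (y 1)]
      exact pow_eq_zero_iff (two_ne_zero) |>.1 this
    have e : y = x := by
      funext i
      fin_cases i
      · show y 0 = x 0
        rw [ex0, ey0]
      · show y 1 = x 1
        rw [ex1, ey1]
      · exact h2
    rw [e]
    exact hx
  · obtain ⟨t, hc, hs⟩ := CVR_cs ((x 0 * y 0 + x 1 * y 1) / (x 0 ^ 2 + x 1 ^ 2))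
      ((x 0 * y 1 - x 1 * y 0) / (x 0 ^ 2 + x 1 ^ 2)) (by
        rw [div_pow, div_pow, ← add_div, div_eq_one_iff_eq (pow_ne_zero 2 hr)]
        linear_combination (x 0 ^ 2 + x 1 ^ 2) * h)
    have e : rot t x = y := by
      funext i
      fin_cases i
      · show Real.cos t * x 0 - Real.sin t * x 1 = y 0
        rw [hc, hs]
        field_simp
        ring
      · show Real.sin t * x 0 + Real.cos t * x 1 = y 1
        rw [hc, hs]
        field_simp
        ring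
      · show x 2 = y 2
        exact h2.symm
    rw [← e]
    exact hRI t x hx

/-- the points of the axis -/
theorem CVR_axis (Ω : Set E3) (hc : Convex ℝ Ω) (hRI : RI Ω) (x : E3) (hx : x ∈ Ω) :
    (![0, 0, x 2] : E3) ∈ Ω := by
  have h1 : (![- x 0, - x 1, x 2] : E3) ∈ Ω := by
    refine CVR_rot Ω hRI x _ hx rfl ?_
    show (- x 0) ^ 2 + (- x 1) ^ 2 = x 0 ^ 2 + x 1 ^ 2
    ring
  have h2 := hc hx h1 (by norm_num : (0 : ℝ) ≤ 1 / 2) (by norm_num : (0 : ℝ) ≤ 1 / 2) (by norm_num)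
  have e : (1 / 2 : ℝ) • x + (1 / 2 : ℝ) • (![- x 0, - x 1, x 2] : E3) = ![0, 0, x 2] := by
    funext i
    fin_cases i
    · show (1 / 2 : ℝ) * x 0 + (1 / 2 : ℝ) * (- x 0) = 0
      ring
    · show (1 / 2 : ℝ) * x 1 + (1 / 2 : ℝ) * (- x 1) = 0
      ring
    · show (1 / 2 : ℝ) * x 2 + (1 / 2 : ℝ) * (x 2) = x 2
      ring
  rwa [e] at h2

/-- the points of the axis between two points of the body -/
theorem CVR_axis2 (Ω : Set E3) (hc : Convex ℝ Ω) (hRI : RI Ω) (q q' : E3) (hq : q ∈ Ω) (hq' : q' ∈ Ω)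
    (w : ℝ) (h1 : q' 2 ≤ w) (h2 : w ≤ q 2) : (![0, 0, w] : E3) ∈ Ω := by
  have a1 := CVR_axis Ω hc hRI q hq
  have a2 := CVR_axis Ω hc hRI q' hq'
  rcases eq_or_lt_of_le (h1.trans h2) with h | h
  · have : w = q 2 := le_antisymm h2 (h ▸ h1)
    rw [this]
    exact a1
  · have hd : 0 < q 2 - q' 2 := by linarith
    have h3 := hc a1 a2 (div_nonneg (sub_nonneg.2 h1) hd.le) (div_nonneg (sub_nonneg.2 h2) hd.le) (by
      rw [← add_div, div_eq_one_iff_eq hd.ne']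
      ring)
    have e : ((w - q' 2) / (q 2 - q' 2)) • (![0, 0, q 2] : E3)
        + ((q 2 - w) / (q 2 - q' 2)) • (![0, 0, q' 2] : E3) = ![0, 0, w] := by
      funext i
      fin_cases i
      · show ((w - q' 2) / (q 2 - q' 2)) * 0 + ((q 2 - w) / (q 2 - q' 2)) * 0 = 0
        ring
      · show ((w - q' 2) / (q 2 - q' 2)) * 0 + ((q 2 - w) / (q 2 - q' 2)) * 0 = 0
        ring
      · show ((w - q' 2) / (q 2 - q' 2)) * q 2 + ((q 2 - w) / (q 2 - q' 2)) * q' 2 = w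
        field_simp
        ring
    rwa [e] at h3

/-- the points of the cone over a point of the body with the axis -/
theorem CVR_cone (Ω : Set E3) (hc : Convex ℝ Ω) (hRI : RI Ω) (p q q' x : E3) (hp : p ∈ Ω)
    (hq : q ∈ Ω) (hq' : q' ∈ Ω) (s : ℝ) (hs0 : 0 < s) (hs1 : s < 1)
    (hρ : x 0 ^ 2 + x 1 ^ 2 = s ^ 2 * (p 0 ^ 2 + p 1 ^ 2))
    (h1 : s * p 2 + (1 - s) * q' 2 ≤ x 2) (h2 : x 2 ≤ s * p 2 + (1 - s) * q 2) : x ∈ Ω := by
  have h1s : 0 < 1 - s := by linarith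
  have hP : (![x 0 / s, x 1 / s, p 2] : E3) ∈ Ω := by
    refine CVR_rot Ω hRI p _ hp rfl ?_
    show (x 0 / s) ^ 2 + (x 1 / s) ^ 2 = p 0 ^ 2 + p 1 ^ 2
    rw [div_pow, div_pow, ← add_div, div_eq_iff (pow_ne_zero 2 hs0.ne'), hρ]
    ring
  have hA : (![0, 0, (x 2 - s * p 2) / (1 - s)] : E3) ∈ Ω := by
    refine CVR_axis2 Ω hc hRI q q' hq hq' _ ?_ ?_
    · rw [le_div_iff₀ h1s]
      linarith
    · rw [div_le_iff₀ h1s]
      linarith
  have h3 := hc hP hA hs0.le h1s.le (by ring)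
  have e : s • (![x 0 / s, x 1 / s, p 2] : E3)
      + (1 - s) • (![0, 0, (x 2 - s * p 2) / (1 - s)] : E3) = x := by
    funext i
    fin_cases i
    · show s * (x 0 / s) + (1 - s) * 0 = x 0
      field_simp
      ring
    · show s * (x 1 / s) + (1 - s) * 0 = x 1
      field_simp
      ring
    · show s * p 2 + (1 - s) * ((x 2 - s * p 2) / (1 - s)) = x 2
      field_simp
      ring
  rwa [e] at h3

/-- the coordinates of a bounded set are bounded -/
theorem CVR_bdd (Ω : Set E3) (hb : Bornology.IsBounded Ω) : ∃ M : ℝ, ∀ x ∈ Ω, ∀ i, |x i| ≤ M := by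
  obtain ⟨M, hM⟩ := hb.exists_norm_le
  refine ⟨M, fun x hx i => ?_⟩
  have := norm_le_pi_norm x i
  rw [Real.norm_eq_abs] at this
  exact this.trans (hM x hx)

/-- an open set contains a small displacement of each of its points in each direction -/
theorem CVR_open (Ω : Set E3) (ho : IsOpen Ω) (x : E3) (hx : x ∈ Ω) (i : Fin 3) :
    ∃ e : ℝ, 0 < e ∧ x + e • (Pi.single i (1 : ℝ) : E3) ∈ Ω := by
  have hcont : Continuous (fun e : ℝ => x + e • (Pi.single i (1 : ℝ) : E3)) := by fun_prop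
  have h0 : (fun e : ℝ => x + e • (Pi.single i (1 : ℝ) : E3)) 0 ∈ Ω := by
    simpa using hx
  have hop : IsOpen ((fun e : ℝ => x + e • (Pi.single i (1 : ℝ) : E3)) ⁻¹' Ω) := ho.preimage hcont
  obtain ⟨ε, hε, hball⟩ := Metric.isOpen_iff.1 hop 0 h0
  refine ⟨ε / 2, by positivity, hball ?_⟩
  rw [Metric.mem_ball, Real.dist_eq, sub_zero, abs_of_pos (by positivity)]
  linarith

/-- the numerical part -/
theorem CVR_num (R H P p2 q2 q2' m η ρ1 S z1 ρ s x2 : ℝ) (hR : 0 < R) (hH : 0 < H)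
    (hP1 : (1 - 1 / 10 ^ 10) * R < P) (hP2 : P ≤ R)
    (hq : 98 / 100 * H ≤ q2 - q2') (hpm : |p2 - m| ≤ H) (hm : m = (q2 + q2') / 2)
    (hη0 : 0 < η) (hηR : η ≤ 4 / 10 ^ 10 * R) (hηH : η ≤ 4 / 10 ^ 10 * H)
    (hρ1 : ρ1 = (1 - 5 / 10 ^ 9) * R) (hS : S = (ρ1 + η) / P) (hz1 : z1 = S * p2 + (1 - S) * m)
    (hs : s = ρ / P) (hρ : |ρ - ρ1| ≤ η) (hx2 : |x2 - z1| ≤ η) :
    0 < s ∧ s < 1 ∧ s * p2 + (1 - s) * q2' ≤ x2 ∧ x2 ≤ s * p2 + (1 - s) * q2 := by
  have hP : 0 < P := lt_trans (by positivity) hP1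
  have hρa := (abs_le.1 hρ).1
  have hρb := (abs_le.1 hρ).2
  have hρ0 : 0 < ρ := by
    have : 0 < ρ1 - η := by
      rw [hρ1]
      linarith
    linarith
  have hs0 : 0 < s := by
    rw [hs]
    positivity
  have hsS : s ≤ S := by
    rw [hs, hS]
    exact div_le_div_of_nonneg_right (by linarith) hP.le
  have hS1 : S ≤ 1 - 45 / 10 ^ 10 := by
    rw [hS, div_le_iff₀ hP, hρ1]
    have : (1 - 45 / 10 ^ 10) * ((1 - 1 / 10 ^ 10) * R) ≤ (1 - 45 / 10 ^ 10) * P :=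
      mul_le_mul_of_nonneg_left hP1.le (by norm_num)
    linarith
  have hSs : S - s ≤ 3 * (η / R) := by
    have e : S - s = (ρ1 + η - ρ) / P := by
      rw [hS, hs, ← sub_div]
    rw [e, div_le_iff₀ hP]
    have h1 : ρ1 + η - ρ ≤ 2 * η := by linarith
    have h2 : 2 * η ≤ 3 * (η / R) * P := by
      have e2 : 3 * (η / R) * P = 3 * η * P / R := by ring
      rw [e2, le_div_iff₀ hR]
      have h3 : 2 * R ≤ 3 * P := by linarith
      nlinarith
    exact h1.trans h2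
  have hηRR : η / R ≤ 4 / 10 ^ 10 := by
    rw [div_le_iff₀ hR]
    exact hηR
  have hSs2 : S - s ≤ 12 / 10 ^ 10 := by linarith
  have hdiff : |x2 - (s * p2 + (1 - s) * m)| ≤ 16 / 10 ^ 10 * H := by
    have e : x2 - (s * p2 + (1 - s) * m) = (x2 - z1) + (S - s) * (p2 - m) := by
      rw [hz1]
      ring
    rw [e]
    refine (abs_add_le _ _).trans ?_
    have h1 : |(S - s) * (p2 - m)| ≤ 12 / 10 ^ 10 * H := by
      rw [abs_mul, abs_of_nonneg (by linarith : 0 ≤ S - s)]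
      exact mul_le_mul hSs2 hpm (abs_nonneg _) (by norm_num)
    linarith
  have hs1 : 45 / 10 ^ 10 ≤ 1 - s := by linarith
  have hmul : 45 / 10 ^ 10 * (98 / 100 * H) ≤ (1 - s) * (q2 - q2') :=
    mul_le_mul hs1 hq (by positivity) (by linarith [show (0 : ℝ) ≤ 45 / 10 ^ 10 by norm_num])
  have hd1 := (abs_le.1 hdiff).1
  have hd2 := (abs_le.1 hdiff).2
  refine ⟨hs0, by linarith [show (0 : ℝ) < 45 / 10 ^ 10 by norm_num], ?_, ?_⟩
  · have e : s * p2 + (1 - s) * q2' = s * p2 + (1 - s) * m - (1 - s) * (q2 - q2') / 2 := by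
      rw [hm]
      ring
    rw [e]
    linarith
  · have e : s * p2 + (1 - s) * q2 = s * p2 + (1 - s) * m + (1 - s) * (q2 - q2') / 2 := by
      rw [hm]
      ring
    rw [e]
    linarith

theorem prfCVR : CVR := by
  intro Ω ho hne hb hc hRI
  obtain ⟨M, hM⟩ := CVR_bdd Ω hb
  -- the three extremal values
  set fρ : E3 → ℝ := fun x => Real.sqrt (x 0 ^ 2 + x 1 ^ 2) with hfρ
  have hAne : (fρ '' Ω).Nonempty := hne.image _
  have hAbdd : BddAbove (fρ '' Ω) := by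
    refine ⟨|M| + |M|, ?_⟩
    rintro _ ⟨x, hx, rfl⟩
    have h0 := (hM x hx 0).trans (le_abs_self M)
    have h1 := (hM x hx 1).trans (le_abs_self M)
    rw [hfρ]
    refine Real.sqrt_le_iff.2 ⟨by positivity, ?_⟩
    have h0' : x 0 ^ 2 ≤ |M| ^ 2 := by
      rw [← sq_abs (x 0)]
      exact pow_le_pow_left₀ (abs_nonneg _) h0 2
    have h1' : x 1 ^ 2 ≤ |M| ^ 2 := by
      rw [← sq_abs (x 1)]
      exact pow_le_pow_left₀ (abs_nonneg _) h1 2
    nlinarith [abs_nonneg M]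
  set f2 : E3 → ℝ := fun x => x 2 with hf2
  have hBne : (f2 '' Ω).Nonempty := hne.image _
  have hBa : BddAbove (f2 '' Ω) := by
    refine ⟨M, ?_⟩
    rintro _ ⟨x, hx, rfl⟩
    exact (abs_le.1 (hM x hx 2)).2
  have hBb : BddBelow (f2 '' Ω) := by
    refine ⟨-M, ?_⟩
    rintro _ ⟨x, hx, rfl⟩
    exact (abs_le.1 (hM x hx 2)).1
  obtain ⟨x0, hx0⟩ := hne
  have hRub : ∀ x ∈ Ω, fρ x ≤ sSup (fρ '' Ω) := fun x hx => le_csSup hAbdd ⟨x, hx, rfl⟩
  have hbub : ∀ x ∈ Ω, x 2 ≤ sSup (f2 '' Ω) := fun x hx => le_csSup hBa ⟨x, hx, rfl⟩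
  have halb : ∀ x ∈ Ω, sInf (f2 '' Ω) ≤ x 2 := fun x hx => csInf_le hBb ⟨x, hx, rfl⟩
  have hRpos : 0 < sSup (fρ '' Ω) := by
    by_cases h : 0 < fρ x0
    · exact h.trans_le (hRub x0 hx0)
    · have h0 : fρ x0 = 0 := le_antisymm (not_lt.1 h) (Real.sqrt_nonneg _)
      have h1 : x0 0 ^ 2 + x0 1 ^ 2 = 0 := by
        have := (Real.sqrt_eq_zero (by positivity)).1 h0
        exact this
      have h2 : x0 0 = 0 := by
        have : x0 0 ^ 2 = 0 := by nlinarith [sq_nonneg (x0 0), sq_nonneg (x0 1)]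
        exact pow_eq_zero_iff (two_ne_zero) |>.1 this
      obtain ⟨e, he, hmem⟩ := CVR_open Ω ho x0 hx0 0
      refine lt_of_lt_of_le ?_ (hRub _ hmem)
      refine Real.sqrt_pos.2 ?_
      have e0 : (x0 + e • (Pi.single 0 (1 : ℝ) : E3)) 0 = e := by
        simp [h2]
      rw [e0]
      positivity
  have hab : sInf (f2 '' Ω) < sSup (f2 '' Ω) := by
    obtain ⟨e, he, hmem⟩ := CVR_open Ω ho x0 hx0 2
    have h1 := hbub _ hmem
    have h2 := halb _ hx0
    have e2 : (x0 + e • (Pi.single 2 (1 : ℝ) : E3)) 2 = x0 2 + e := by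
      simp
    rw [e2] at h1
    linarith
  generalize hR : sSup (fρ '' Ω) = R at hRub hRpos
  generalize hbb : sSup (f2 '' Ω) = b at hbub hab
  generalize haa : sInf (f2 '' Ω) = a at halb hab
  have hH : 0 < b - a := by linarith
  -- the three points
  obtain ⟨_, ⟨p, hp, rfl⟩, hpR⟩ := exists_lt_of_lt_csSup hAne
    (show (1 - 1 / 10 ^ 10) * R < sSup (fρ '' Ω) by
      rw [hR]
      linarith [show 1 / 10 ^ 10 * R > 0 by positivity])
  obtain ⟨_, ⟨q, hq, rfl⟩, hqb⟩ := exists_lt_of_lt_csSup hBne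
    (show b - (b - a) / 100 < sSup (f2 '' Ω) by
      rw [hbb]
      linarith)
  obtain ⟨_, ⟨q', hq', rfl⟩, hqa⟩ := exists_lt_of_csInf_lt hBne
    (show sInf (f2 '' Ω) < a + (b - a) / 100 by
      rw [haa]
      linarith)
  have hpos : 0 < min R (b - a) := lt_min hRpos hH
  have hηR : 4 / 10 ^ 10 * min R (b - a) ≤ 4 / 10 ^ 10 * R :=
    mul_le_mul_of_nonneg_left (min_le_left _ _) (by norm_num)
  have hηH : 4 / 10 ^ 10 * min R (b - a) ≤ 4 / 10 ^ 10 * (b - a) :=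
    mul_le_mul_of_nonneg_left (min_le_right _ _) (by norm_num)
  have hη0 : 0 < 4 / 10 ^ 10 * min R (b - a) := by positivity
  generalize hηdef : 4 / 10 ^ 10 * min R (b - a) = η at hηR hηH hη0
  have hPR := hRub p hp
  refine ⟨R, a, b, (1 - 5 / 10 ^ 9) * R,
    (((1 - 5 / 10 ^ 9) * R + η) / fρ p) * p 2
      + (1 - ((1 - 5 / 10 ^ 9) * R + η) / fρ p) * ((q 2 + q' 2) / 2), hRpos, hab, ?_, ?_, ?_, ?_, ?_⟩
  · intro x hx
    refine ⟨?_, halb x hx, hbub x hx⟩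
    have h1 := hRub x hx
    have h2 : fρ x ^ 2 = x 0 ^ 2 + x 1 ^ 2 := Real.sq_sqrt (by positivity)
    rw [← h2]
    exact pow_le_pow_left₀ (Real.sqrt_nonneg _) h1 2
  · rw [hηdef]
    linarith
  · rw [hηdef]
    linarith
  · linarith
  · rw [hηdef]
    intro x hx
    obtain ⟨hxa, hxb⟩ : |Real.sqrt (x 0 ^ 2 + x 1 ^ 2) - (1 - 5 / 10 ^ 9) * R| ≤ η ∧ |x 2 -
      ((((1 - 5 / 10 ^ 9) * R + η) / fρ p) * p 2
      + (1 - ((1 - 5 / 10 ^ 9) * R + η) / fρ p) * ((q 2 + q' 2) / 2))| ≤ η := hx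
    have hqb' : b - (b - a) / 100 < q 2 := hqb
    have hqa' : q' 2 < a + (b - a) / 100 := hqa
    have hPpos : 0 < fρ p := lt_trans (by positivity) hpR
    have g1 := halb p hp
    have g2 := hbub p hp
    have g3 := halb q hq
    have g4 := hbub q hq
    have g5 := halb q' hq'
    have g6 := hbub q' hq'
    obtain ⟨k1, k2, k3, k4⟩ := CVR_num R (b - a) (fρ p) (p 2) (q 2) (q' 2) ((q 2 + q' 2) / 2) η
      ((1 - 5 / 10 ^ 9) * R) (((1 - 5 / 10 ^ 9) * R + η) / fρ p) _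
      (Real.sqrt (x 0 ^ 2 + x 1 ^ 2)) (Real.sqrt (x 0 ^ 2 + x 1 ^ 2) / fρ p) (x 2) hRpos hH hpR hPR
      (by linarith) (by rw [abs_le]; constructor <;> linarith) rfl hη0 hηR hηH rfl rfl rfl rfl hxa hxb
    refine CVR_cone Ω hc hRI p q q' x hp hq hq' _ k1 k2 ?_ k3 k4
    have h2 : fρ p ^ 2 = p 0 ^ 2 + p 1 ^ 2 := Real.sq_sqrt (by positivity)
    rw [← h2, ← mul_pow, div_mul_cancel₀ _ hPpos.ne', Real.sq_sqrt (by positivity)]

end Pool.Agent.Work.MP_d5b3be_an.BN
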