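import Pool.Agent.Work.MP_d5b3be_an.BN.Stmts

/-!
# Block BN, item CYD: derivatives in cylindrical coordinates
-/

set_option autoImplicit false

namespace Pool.Agent.Work.MP_d5b3be_an.BN

open MeasureTheory Filter Set
open scoped ENNReal Topology ContDiff

theorem CYD_fderiv (φ : E3 → ℝ) (x v : E3) :
    fderiv ℝ φ x v = v 0 * pd 0 φ x + v 1 * pd 1 φ x + v 2 * pd 2 φ x := by
  have h : v = v 0 • (Pi.single 0 1 : E3) + v 1 • (Pi.single 1 1 : E3) +
      v 2 • (Pi.single 2 1 : E3) := by
    funext i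
    fin_cases i <;> simp
  unfold pd
  calc fderiv ℝ φ x v = fderiv ℝ φ x (v 0 • (Pi.single 0 1 : E3) + v 1 • (Pi.single 1 1 : E3) +
      v 2 • (Pi.single 2 1 : E3)) := by rw [← h]
    _ = _ := by simp only [map_add, map_smul, smul_eq_mul]

theorem CYD_comp {φ : E3 → ℝ} (hφ : ContDiff ℝ ((⊤ : ℕ∞) : WithTop ℕ∞) φ) {c : ℝ → E3} {v : E3}
    {s : ℝ} (hc : HasDerivAt c v s) : HasDerivAt (fun s => φ (c s))
      (v 0 * pd 0 φ (c s) + v 1 * pd 1 φ (c s) + v 2 * pd 2 φ (c s)) s := by
  have h1 : HasFDerivAt φ (fderiv ℝ φ (c s)) (c s) :=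
    (hφ.differentiable (by simp) _).hasFDerivAt
  have h2 := h1.comp_hasDerivAt s hc
  rw [CYD_fderiv] at h2
  exact h2

theorem prfCYD : CYD := by
  intro φ hφ r t z
  have c1 : HasDerivAt (fun s : ℝ => cyl s t z) (![Real.cos t, Real.sin t, 0] : E3) r := by
    rw [hasDerivAt_pi]
    intro i
    fin_cases i
    · simpa [cyl] using (hasDerivAt_id r).mul_const (Real.cos t)
    · simpa [cyl] using (hasDerivAt_id r).mul_const (Real.sin t)
    · simpa [cyl] using hasDerivAt_const r z
  have c2 : HasDerivAt (fun s : ℝ => cyl r s z)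
      (![r * -Real.sin t, r * Real.cos t, 0] : E3) t := by
    rw [hasDerivAt_pi]
    intro i
    fin_cases i
    · simpa [cyl] using (Real.hasDerivAt_cos t).const_mul r
    · simpa [cyl] using (Real.hasDerivAt_sin t).const_mul r
    · simpa [cyl] using hasDerivAt_const t z
  have c3 : HasDerivAt (fun s : ℝ => cyl r t s) (![0, 0, 1] : E3) z := by
    rw [hasDerivAt_pi]
    intro i
    fin_cases i
    · simpa [cyl] using hasDerivAt_const z (r * Real.cos t)
    · simpa [cyl] using hasDerivAt_const z (r * Real.sin t)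
    · simpa [cyl] using hasDerivAt_id' z
  have s1 : ContDiff ℝ ((⊤ : ℕ∞) : WithTop ℕ∞) (fun s : ℝ => cyl s t z) := by
    rw [contDiff_pi]
    intro i
    fin_cases i
    · simpa [cyl] using contDiff_id.mul contDiff_const
    · simpa [cyl] using contDiff_id.mul contDiff_const
    · simpa [cyl] using contDiff_const
  have s2 : ContDiff ℝ ((⊤ : ℕ∞) : WithTop ℕ∞) (fun s : ℝ => cyl r s z) := by
    rw [contDiff_pi]
    intro i
    fin_cases i
    · simpa [cyl] using contDiff_const.mul Real.contDiff_cos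
    · simpa [cyl] using contDiff_const.mul Real.contDiff_sin
    · simpa [cyl] using contDiff_const
  have s3 : ContDiff ℝ ((⊤ : ℕ∞) : WithTop ℕ∞) (fun s : ℝ => cyl r t s) := by
    rw [contDiff_pi]
    intro i
    fin_cases i
    · simpa [cyl] using contDiff_const
    · simpa [cyl] using contDiff_const
    · simpa [cyl] using contDiff_fun_id
  refine ⟨?_, ?_, ?_, hφ.comp s1, hφ.comp s2, hφ.comp s3⟩
  · refine (CYD_comp hφ c1).congr_deriv ?_
    simp
  · refine (CYD_comp hφ c2).congr_deriv ?_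
    simp only [Matrix.cons_val_zero, Matrix.cons_val_one, Matrix.cons_val]
    ring
  · refine (CYD_comp hφ c3).congr_deriv ?_
    simp

end Pool.Agent.Work.MP_d5b3be_an.BN
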