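import Pool.Agent.Work.MP_d5b3be_an.BN.Stmts

/-! # Block BN, item CYI: cylindrical coordinates -/

set_option autoImplicit false

namespace Pool.Agent.Work.MP_d5b3be_an.BN

open MeasureTheory Filter Set
open scoped ENNReal Topology ContDiff

theorem CYI_meas3 : Measurable (fun p : ℝ × ℝ × ℝ => (![p.1, p.2.1, p.2.2] : E3)) := by
  refine measurable_pi_iff.2 ?_
  intro i
  fin_cases i
  · exact measurable_fst
  · exact measurable_fst.comp measurable_snd
  · exact measurable_snd.comp measurable_snd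

theorem CYI_meas (f : E3 → ℝ≥0∞) (hf : Measurable f) {α : Type} [MeasurableSpace α]
    (a b c : α → ℝ) (ha : Measurable a) (hb : Measurable b) (hc : Measurable c) :
    Measurable (fun x => f ![a x, b x, c x]) := by
  have h : (fun x => f ![a x, b x, c x]) =
      (fun x => (f ∘ (fun p : ℝ × ℝ × ℝ => (![p.1, p.2.1, p.2.2] : E3))) (a x, b x, c x)) := rfl
  rw [h]
  exact (hf.comp CYI_meas3).comp (ha.prodMk (hb.prodMk hc))

theorem prfCYI (hFU : FU3) : CYI := by
  intro f hf
  rw [hFU f hf]
  have step1 : (∫⁻ a : ℝ, ∫⁻ b : ℝ, ∫⁻ c : ℝ, f ![a, b, c]) =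
      ∫⁻ c : ℝ, ∫⁻ p : ℝ × ℝ, f ![p.1, p.2, c] := by
    have h1 : ∀ a : ℝ, (∫⁻ b : ℝ, ∫⁻ c : ℝ, f ![a, b, c]) = ∫⁻ c : ℝ, ∫⁻ b : ℝ, f ![a, b, c] := by
      intro a
      refine lintegral_lintegral_swap ?_
      exact (CYI_meas f hf (fun _ : ℝ × ℝ => a) (fun x => x.1) (fun x => x.2) measurable_const
        measurable_fst measurable_snd).aemeasurable
    simp_rw [h1]
    rw [lintegral_lintegral_swap]
    · refine lintegral_congr ?_
      intro c
      rw [Measure.volume_eq_prod, lintegral_prod]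
      exact (CYI_meas f hf (fun x : ℝ × ℝ => x.1) (fun x => x.2) (fun _ => c)
        measurable_fst measurable_snd measurable_const).aemeasurable
    · have h2 : Measurable (fun q : (ℝ × ℝ) × ℝ => f ![q.1.1, q.2, q.1.2]) :=
        CYI_meas f hf (fun q : (ℝ × ℝ) × ℝ => q.1.1) (fun q => q.2) (fun q => q.1.2)
          (measurable_fst.comp measurable_fst) measurable_snd (measurable_snd.comp measurable_fst)
      exact (Measurable.lintegral_prod_right' (ν := (volume : Measure ℝ)) h2).aemeasurable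
  rw [step1]
  refine lintegral_congr ?_
  intro z
  rw [← lintegral_comp_polarCoord_symm]
  have hm : Measurable (fun p : ℝ × ℝ => ENNReal.ofReal p.1 * f (cyl p.1 p.2 z)) := by
    refine Measurable.mul (ENNReal.measurable_ofReal.comp measurable_fst) ?_
    exact CYI_meas f hf (fun p : ℝ × ℝ => p.1 * Real.cos p.2) (fun p => p.1 * Real.sin p.2)
      (fun _ => z) (measurable_fst.mul (Real.measurable_cos.comp measurable_snd))
      (measurable_fst.mul (Real.measurable_sin.comp measurable_snd)) measurable_const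
  have step2 : (∫⁻ p in polarCoord.target,
      ENNReal.ofReal p.1 • (fun p : ℝ × ℝ => f ![p.1, p.2, z]) (polarCoord.symm p)) =
      ∫⁻ p in (Ioi (0 : ℝ)) ×ˢ (Ioo (-Real.pi) Real.pi), ENNReal.ofReal p.1 * f (cyl p.1 p.2 z) := by
    rw [polarCoord_target]
    rfl
  rw [step2, Measure.volume_eq_prod, ← Measure.prod_restrict, lintegral_prod_symm]
  exact hm.aemeasurable

end Pool.Agent.Work.MP_d5b3be_an.BN
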