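import Pool.Agent.Work.MP_d5b3be_an.BN.Stmts2

/-!
# MP_d5b3be_an, block BN, item DIS: the rotated functions are different
-/

set_option autoImplicit false

namespace Pool.Agent.Work.MP_d5b3be_an.BN

open MeasureTheory Filter Set
open scoped ENNReal Topology ContDiff

theorem DIS_add (hR : ROT) {u : E3 → ℝ} {s t c d : ℝ}
    (hs : ∀ᵐ x ∂(volume : Measure E3), u (rot s x) = c * u x)
    (ht : ∀ᵐ x ∂(volume : Measure E3), u (rot t x) = d * u x) :
    ∀ᵐ x ∂(volume : Measure E3), u (rot (s + t) x) = (c * d) * u x := by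
  obtain ⟨-, hadd, -, -, -, -, hmp, -, -⟩ := hR
  have h1 := (hmp t).quasiMeasurePreserving.ae hs
  filter_upwards [h1, ht] with x hx1 hx2
  rw [← hadd, hx1, hx2]
  ring

theorem DIS_pow (hR : ROT) {u : E3 → ℝ} {s c : ℝ}
    (hs : ∀ᵐ x ∂(volume : Measure E3), u (rot s x) = c * u x) (m : ℕ) :
    ∀ᵐ x ∂(volume : Measure E3), u (rot (m * s) x) = c ^ m * u x := by
  induction m with
  | zero =>
    refine Filter.Eventually.of_forall fun x => ?_
    rw [Nat.cast_zero, zero_mul, hR.1, pow_zero, one_mul]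
  | succ m ih =>
    have h := DIS_add hR hs ih
    have e : s + (m : ℝ) * s = ((m + 1 : ℕ) : ℝ) * s := by
      push_cast
      ring
    rw [e] at h
    filter_upwards [h] with x hx
    rw [hx]
    ring

theorem DIS_lt (hR : ROT) (n : ℕ) (u : E3 → ℝ) (hn : 1 ≤ n)
    (hu : ¬ (u =ᵐ[volume] fun _ => 0)) (hA : Anti n u) (i j : ℕ) (hij : i < j) :
    ¬ ((fun x => u (rot (Real.pi / (n * 2 ^ i)) x)) =ᵐ[volume]
      fun x => u (rot (Real.pi / (n * 2 ^ j)) x)) := by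
  intro h
  obtain ⟨a, ha⟩ : ∃ a, a = Real.pi / (n * 2 ^ i) := ⟨_, rfl⟩
  obtain ⟨b, hb⟩ : ∃ b, b = Real.pi / (n * 2 ^ j) := ⟨_, rfl⟩
  rw [← ha, ← hb] at h
  have hmp := hR.2.2.2.2.2.2.1
  have h1 := (hmp (-b)).quasiMeasurePreserving.ae h
  have h2 : ∀ᵐ x ∂(volume : Measure E3), u (rot (a - b) x) = 1 * u x := by
    filter_upwards [h1] with x hx
    rw [hR.2.1, hR.2.1, add_neg_cancel, hR.1, ← sub_eq_add_neg] at hx
    rw [hx, one_mul]
  have h3 := DIS_pow hR h2 (2 ^ j)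
  have h4 : ∀ᵐ x ∂(volume : Measure E3), u (rot (Real.pi / n) x) = (-1) * u x := by
    filter_upwards [hA] with x hx
    rw [hx]
    ring
  have h5 := DIS_pow hR h4 (2 ^ (j - i) - 1)
  have hn0 : (n : ℝ) ≠ 0 := by
    have : n ≠ 0 := by omega
    exact_mod_cast this
  have he : ((2 ^ j : ℕ) : ℝ) * (a - b) = ((2 ^ (j - i) - 1 : ℕ) : ℝ) * (Real.pi / n) := by
    have hc : ((2 ^ (j - i) - 1 : ℕ) : ℝ) = 2 ^ (j - i) - 1 := by
      rw [Nat.cast_sub Nat.one_le_two_pow]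
      push_cast
      ring
    rw [hc, ha, hb]
    have hj : (2 : ℝ) ^ j = 2 ^ (j - i) * 2 ^ i := by
      rw [← pow_add]
      congr 1
      omega
    push_cast
    rw [hj]
    field_simp
  have hodd : ((-1 : ℝ)) ^ (2 ^ (j - i) - 1) = -1 := by
    apply Odd.neg_one_pow
    have hk : j - i ≠ 0 := by omega
    have h2 : 2 ∣ 2 ^ (j - i) := dvd_pow_self 2 hk
    have h1 : 1 ≤ 2 ^ (j - i) := Nat.one_le_two_pow
    rw [Nat.odd_iff]
    omega
  rw [he] at h3
  rw [hodd] at h5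
  apply hu
  filter_upwards [h3, h5] with x hx3 hx5
  rw [hx3, one_pow] at hx5
  linarith

theorem prfDIS (hR : ROT) : DIS := by
  intro n u hn hu hA i j hij
  rcases Nat.lt_or_gt_of_ne hij with h | h
  · exact DIS_lt hR n u hn hu hA i j h
  · intro he
    exact DIS_lt hR n u hn hu hA j i h he.symm

end Pool.Agent.Work.MP_d5b3be_an.BN
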