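import Pool.Agent.Work.MP_d5b3be_an.BN.Stmts2

/-!
# Block BN, item DSP: the square of a weakly convergent sequence
-/

set_option autoImplicit false

namespace Pool.Agent.Work.MP_d5b3be_an.BN

open MeasureTheory Filter Set
open scoped ENNReal Topology ContDiff

theorem DSP_sum {g : Fin 3 → E3 → ℝ} (hg : ∀ i, MemLp (g i) 2 volume) :
    DD g = ∑ i, ∫ x, g i x ^ 2 :=
  integral_finsetSum _ fun i _ => (hg i).integrable_sq

theorem DSP_one {f g : E3 → ℝ} (hf : MemLp f 2 volume) (hg : MemLp g 2 volume) :
    (∫ x, f x ^ 2) - ∫ x, (f x - g x) ^ 2 = 2 * (∫ x, f x * g x) - ∫ x, g x * g x := by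
  have hfg : Integrable (fun x => f x * g x) volume := hf.integrable_mul hg
  have hgg : Integrable (fun x => g x * g x) volume := hg.integrable_mul hg
  have hd : Integrable (fun x => (f x - g x) ^ 2) volume := (hf.sub hg).integrable_sq
  rw [← integral_sub hf.integrable_sq hd, ← integral_const_mul, ← integral_sub (hfg.const_mul 2) hgg]
  refine integral_congr_ae (Eventually.of_forall fun x => ?_)
  ring

theorem prfDSP : DSP := by
  intro f g hf hg hw
  have h1 : ∀ k, DD (f k) - DD (fun i x => f k i x - g i x) =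
      ∑ i, (2 * (∫ x, f k i x * g i x) - ∫ x, g i x * g i x) := by
    intro k
    rw [DSP_sum (hf k), DSP_sum (g := fun i x => f k i x - g i x) (fun i => (hf k i).sub (hg i)),
      ← Finset.sum_sub_distrib]
    exact Finset.sum_congr rfl fun i _ => DSP_one (hf k i) (hg i)
  have h2 : DD g = ∑ i, (2 * (∫ x, g i x * g i x) - ∫ x, g i x * g i x) := by
    rw [DSP_sum hg]
    refine Finset.sum_congr rfl fun i _ => ?_
    have h3 : (∫ x, g i x ^ 2) = ∫ x, g i x * g i x :=
      integral_congr_ae (Eventually.of_forall fun x => sq (g i x))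
    rw [h3]
    ring
  simp_rw [h1]
  rw [h2]
  exact tendsto_finsetSum _ fun i _ => ((hw i (g i) (hg i)).const_mul 2).sub_const _

end Pool.Agent.Work.MP_d5b3be_an.BN
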