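import Pool.Agent.Work.MP_d5b3be_an.BN.Stmts3

/-!
# Block BN, item EG2: the eigenvalue of a subset of a cylinder
-/

set_option autoImplicit false

namespace Pool.Agent.Work.MP_d5b3be_an.BN

open MeasureTheory Filter Set
open scoped ENNReal Topology ContDiff

theorem EG2_pd_cont (φ : E3 → ℝ) (hφ : ContDiff ℝ ((⊤ : ℕ∞) : WithTop ℕ∞) φ) (i : Fin 3) :
    Continuous (pd i φ) := by
  have h1 : Continuous (fderiv ℝ φ) := hφ.continuous_fderiv (by simp)
  exact h1.clm_apply continuous_const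

theorem EG2_int (φ : E3 → ℝ) (h1 : ContDiff ℝ ((⊤ : ℕ∞) : WithTop ℕ∞) φ)
    (h2 : HasCompactSupport φ) (i : Fin 3) : Integrable (fun x => pd i φ x ^ 2) volume := by
  have c2 : HasCompactSupport (fun x => pd i φ x) :=
    h2.fderiv_apply (𝕜 := ℝ) (Pi.single i (1 : ℝ) : E3)
  have c3 : Continuous (fun x => pd i φ x ^ 2) := (EG2_pd_cont φ h1 i).pow 2
  have c4 : HasCompactSupport (fun x => pd i φ x ^ 2) :=
    c2.comp_left (g := fun y : ℝ => y ^ 2) (by norm_num)
  exact c3.integrable_of_hasCompactSupport c4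

/-- from the inequality of the lower integrals to the inequality of the integrals -/
theorem EG2_fin (φ : E3 → ℝ) (h1 : ContDiff ℝ ((⊤ : ℕ∞) : WithTop ℕ∞) φ)
    (h2 : HasCompactSupport φ) (c : ℝ) (hc : 0 ≤ c)
    (h : ∫⁻ x : E3, ENNReal.ofReal (c * φ x ^ 2) ≤
      ∫⁻ x, ENNReal.ofReal (∑ i, pd i φ x ^ 2)) :
    c * (∫ x, φ x ^ 2) ≤ ∫ x, ∑ i, pd i φ x ^ 2 := by
  have c3 : Continuous (fun x => φ x ^ 2) := h1.continuous.pow 2
  have c4 : HasCompactSupport (fun x => φ x ^ 2) :=
    h2.comp_left (g := fun y : ℝ => y ^ 2) (by norm_num)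
  have i1 : Integrable (fun x => φ x ^ 2) volume := c3.integrable_of_hasCompactSupport c4
  have i2 : Integrable (fun x => ∑ i, pd i φ x ^ 2) volume :=
    integrable_finsetSum _ fun i _ => EG2_int φ h1 h2 i
  have n1 : 0 ≤ᵐ[volume] fun x => c * φ x ^ 2 :=
    Filter.Eventually.of_forall fun x => mul_nonneg hc (sq_nonneg _)
  have n2 : ∀ x, 0 ≤ ∑ i, pd i φ x ^ 2 := fun x => Finset.sum_nonneg fun i _ => sq_nonneg _
  rw [← ofReal_integral_eq_lintegral_ofReal (i1.const_mul c) n1,
    ← ofReal_integral_eq_lintegral_ofReal i2 (Filter.Eventually.of_forall n2),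
    ENNReal.ofReal_le_ofReal_iff (integral_nonneg n2), integral_const_mul] at h
  exact h

theorem EG2_curve (k : Fin 3) (x : E3) (c : ℝ) :
    HasDerivAt (fun s : ℝ => Function.update x k s) (Pi.single k (1 : ℝ)) c := by
  rw [hasDerivAt_pi]
  intro i
  by_cases h : i = k
  · subst h
    simpa using hasDerivAt_id' c
  · simpa [Function.update_of_ne h, Pi.single_eq_of_ne h] using hasDerivAt_const c (x i)

theorem EG2_hasDerivAt (φ : E3 → ℝ) (hφ : ContDiff ℝ ((⊤ : ℕ∞) : WithTop ℕ∞) φ) (k : Fin 3)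
    (x : E3) (c : ℝ) :
    HasDerivAt (fun s => φ (Function.update x k s)) (pd k φ (Function.update x k c)) c := by
  have h2 : HasFDerivAt φ (fderiv ℝ φ (Function.update x k c)) (Function.update x k c) :=
    ((hφ.differentiable (by simp)) _).hasFDerivAt
  exact h2.comp_hasDerivAt c (EG2_curve k x c)

theorem EG2_contDiff (φ : E3 → ℝ) (hφ : ContDiff ℝ ((⊤ : ℕ∞) : WithTop ℕ∞) φ) (k : Fin 3)
    (x : E3) : ContDiff ℝ 1 (fun s => φ (Function.update x k s)) := by
  have h1 : ContDiff ℝ 1 (fun s : ℝ => (Function.update x k s : E3)) := by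
    rw [contDiff_pi]
    intro i
    by_cases h : i = k
    · subst h
      have e : (fun s : ℝ => Function.update x i s i) = fun s => s := by
        funext s
        simp
      rw [e]
      exact contDiff_id
    · simpa [Function.update_of_ne h] using contDiff_const
  have h2 : ContDiff ℝ 1 φ := hφ.of_le (by exact_mod_cast le_top)
  exact h2.comp h1

/-- a continuous function which vanishes on the left of `a` vanishes at `a` -/
theorem EG2_left (f : ℝ → ℝ) (a : ℝ) (hf : Continuous f) (h0 : ∀ c, c < a → f c = 0) : f a = 0 := by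
  have h1 : Tendsto f (𝓝[<] a) (𝓝 (f a)) := hf.continuousAt.tendsto.mono_left nhdsWithin_le_nhds
  have h2 : Tendsto f (𝓝[<] a) (𝓝 0) := by
    refine tendsto_const_nhds.congr' ?_
    filter_upwards [self_mem_nhdsWithin] with c hc
    exact (h0 c hc).symm
  exact tendsto_nhds_unique h1 h2

theorem EG2_right (f : ℝ → ℝ) (b : ℝ) (hf : Continuous f) (h0 : ∀ c, b < c → f c = 0) : f b = 0 := by
  have h1 : Tendsto f (𝓝[>] b) (𝓝 (f b)) := hf.continuousAt.tendsto.mono_left nhdsWithin_le_nhds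
  have h2 : Tendsto f (𝓝[>] b) (𝓝 0) := by
    refine tendsto_const_nhds.congr' ?_
    filter_upwards [self_mem_nhdsWithin] with c hc
    exact (h0 c hc).symm
  exact tendsto_nhds_unique h1 h2

theorem EG2_line (hW : WTI) (f f' : ℝ → ℝ) (a b : ℝ) (hab : a < b) (hf : ContDiff ℝ 1 f)
    (hd : ∀ c, HasDerivAt f (f' c) c) (ha : ∀ c, c < a → f c = 0) (hb : ∀ c, b < c → f c = 0) :
    ∫⁻ c, ENNReal.ofReal ((Real.pi / (b - a)) ^ 2 * f c ^ 2) ≤ ∫⁻ c, ENNReal.ofReal (f' c ^ 2) := by
  have hfc : Continuous f := hf.continuous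
  have fa := EG2_left f a hfc ha
  have fb := EG2_right f b hfc hb
  have hw := hW f a b hab hf fa fb
  have hdf : deriv f = f' := funext fun c => (hd c).deriv
  rw [hdf, intervalIntegral.integral_of_le hab.le, intervalIntegral.integral_of_le hab.le] at hw
  have hfc' : Continuous f' := by
    rw [← hdf]
    exact hf.continuous_deriv le_rfl
  have e1 : ∫⁻ c, ENNReal.ofReal ((Real.pi / (b - a)) ^ 2 * f c ^ 2)
      = ∫⁻ c in Ioc a b, ENNReal.ofReal ((Real.pi / (b - a)) ^ 2 * f c ^ 2) := by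
    rw [← lintegral_indicator measurableSet_Ioc]
    refine lintegral_congr fun c => ?_
    by_cases hc : c ∈ Ioc a b
    · rw [indicator_of_mem hc]
    · rw [indicator_of_notMem hc]
      have : f c = 0 := by
        rcases lt_trichotomy c a with h | h | h
        · exact ha c h
        · rw [h]; exact fa
        · rcases le_or_gt c b with h' | h'
          · exact absurd ⟨h, h'⟩ hc
          · exact hb c h'
      simp [this]
  have i1 : IntegrableOn (fun c => (Real.pi / (b - a)) ^ 2 * f c ^ 2) (Ioc a b) :=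
    ((continuous_const.mul (hfc.pow 2)).integrableOn_Icc (a := a) (b := b)).mono_set
      Ioc_subset_Icc_self
  have i2 : IntegrableOn (fun c => f' c ^ 2) (Ioc a b) :=
    ((hfc'.pow 2).integrableOn_Icc (a := a) (b := b)).mono_set Ioc_subset_Icc_self
  calc ∫⁻ c, ENNReal.ofReal ((Real.pi / (b - a)) ^ 2 * f c ^ 2)
      = ENNReal.ofReal (∫ c in Ioc a b, (Real.pi / (b - a)) ^ 2 * f c ^ 2) := by
        rw [e1, ofReal_integral_eq_lintegral_ofReal i1
          (Eventually.of_forall fun c => by positivity)]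
    _ ≤ ENNReal.ofReal (∫ c in Ioc a b, f' c ^ 2) := by
        apply ENNReal.ofReal_le_ofReal
        rw [integral_const_mul]
        exact hw
    _ = ∫⁻ c in Ioc a b, ENNReal.ofReal (f' c ^ 2) := by
        rw [ofReal_integral_eq_lintegral_ofReal i2
          (Eventually.of_forall fun c => by positivity)]
    _ ≤ ∫⁻ c, ENNReal.ofReal (f' c ^ 2) := setLIntegral_le_lintegral _ _

theorem EG2_upd2 (a b c s : ℝ) : Function.update (![a, b, c] : E3) 2 s = ![a, b, s] := by
  ext i
  fin_cases i <;> simp [Function.update]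

theorem EG2_upd0 (a b c s : ℝ) : Function.update (![a, b, c] : E3) 0 s = ![s, b, c] := by
  ext i
  fin_cases i <;> simp [Function.update]

theorem EG2_vec : Measurable (fun q : (ℝ × ℝ) × ℝ => (![q.1.1, q.1.2, q.2] : E3)) := by
  rw [measurable_pi_iff]
  intro i
  fin_cases i
  · exact measurable_fst.comp measurable_fst
  · exact measurable_snd.comp measurable_fst
  · exact measurable_snd

/-- Tonelli with the first variable inside -/
theorem EG2_swap (hF : FU3) (F : E3 → ℝ≥0∞) (hm : Measurable F) :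
    ∫⁻ x, F x = ∫⁻ b : ℝ, ∫⁻ c : ℝ, ∫⁻ a : ℝ, F ![a, b, c] := by
  have m1 : Measurable (fun q : (ℝ × ℝ) × ℝ => F ![q.1.1, q.1.2, q.2]) := hm.comp EG2_vec
  rw [hF F hm, lintegral_lintegral_swap]
  · refine lintegral_congr fun b => ?_
    rw [lintegral_lintegral_swap]
    have m2 : Measurable (fun p : ℝ × ℝ => ((p.1, b), p.2)) := by fun_prop
    exact (m1.comp m2).aemeasurable
  · exact (m1.lintegral_prod_right').aemeasurable

theorem prfEG2 (hF : FU3) (hW : WTI) : EG2 := by
  intro Ω R a b φ hR hab hΩ hφ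
  obtain ⟨hs, hcs, hsub⟩ := hφ
  have hc : Continuous φ := hs.continuous
  have hz : ∀ x : E3, ¬ (x 0 ^ 2 + x 1 ^ 2 ≤ R ^ 2 ∧ a ≤ x 2 ∧ x 2 ≤ b) → φ x = 0 := by
    intro x hx
    exact image_eq_zero_of_notMem_tsupport fun hmem => hx (hΩ x (hsub hmem))
  have key2 : ∫⁻ x : E3, ENNReal.ofReal ((Real.pi / (b - a)) ^ 2 * φ x ^ 2) ≤
      ∫⁻ x : E3, ENNReal.ofReal (pd 2 φ x ^ 2) := by
    have m1 : Measurable fun x : E3 => ENNReal.ofReal ((Real.pi / (b - a)) ^ 2 * φ x ^ 2) := by
      have := hc.measurable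
      fun_prop
    have m2 : Measurable fun x : E3 => ENNReal.ofReal (pd 2 φ x ^ 2) := by
      have := (EG2_pd_cont φ hs 2).measurable
      fun_prop
    rw [hF _ m1, hF _ m2]
    refine lintegral_mono fun p => lintegral_mono fun q => ?_
    have h := EG2_line hW (fun s => φ (Function.update (![p, q, 0] : E3) 2 s))
      (fun s => pd 2 φ (Function.update (![p, q, 0] : E3) 2 s)) a b hab
      (EG2_contDiff φ hs 2 _) (fun c => EG2_hasDerivAt φ hs 2 _ c) ?_ ?_
    · simp only [EG2_upd2] at h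
      exact h
    · intro c hca
      apply hz
      rw [EG2_upd2]
      rintro ⟨-, h2, -⟩
      have h3 : a ≤ c := h2
      linarith
    · intro c hcb
      apply hz
      rw [EG2_upd2]
      rintro ⟨-, -, h2⟩
      have h3 : c ≤ b := h2
      linarith
  have key0 : ∫⁻ x : E3, ENNReal.ofReal ((Real.pi / (2 * R)) ^ 2 * φ x ^ 2) ≤
      ∫⁻ x : E3, ENNReal.ofReal (pd 0 φ x ^ 2) := by
    have m1 : Measurable fun x : E3 => ENNReal.ofReal ((Real.pi / (2 * R)) ^ 2 * φ x ^ 2) := by
      have := hc.measurable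
      fun_prop
    have m2 : Measurable fun x : E3 => ENNReal.ofReal (pd 0 φ x ^ 2) := by
      have := (EG2_pd_cont φ hs 0).measurable
      fun_prop
    rw [EG2_swap hF _ m1, EG2_swap hF _ m2]
    refine lintegral_mono fun p => lintegral_mono fun q => ?_
    have h := EG2_line hW (fun s => φ (Function.update (![0, p, q] : E3) 0 s))
      (fun s => pd 0 φ (Function.update (![0, p, q] : E3) 0 s)) (-R) R (by linarith)
      (EG2_contDiff φ hs 0 _) (fun c => EG2_hasDerivAt φ hs 0 _ c) ?_ ?_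
    · simp only [EG2_upd0] at h
      have e : R - -R = 2 * R := by ring
      rw [e] at h
      exact h
    · intro c hca
      apply hz
      rw [EG2_upd0]
      rintro ⟨h2, -, -⟩
      have h3 : c ^ 2 + p ^ 2 ≤ R ^ 2 := h2
      nlinarith [sq_nonneg p]
    · intro c hcb
      apply hz
      rw [EG2_upd0]
      rintro ⟨h2, -, -⟩
      have h3 : c ^ 2 + p ^ 2 ≤ R ^ 2 := h2
      nlinarith [sq_nonneg p]
  apply EG2_fin φ hs hcs _ (by positivity)
  have m0 : Measurable fun x : E3 => ENNReal.ofReal ((Real.pi / (2 * R)) ^ 2 * φ x ^ 2) := by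
    have := hc.measurable
    fun_prop
  have m3 : Measurable fun x : E3 => ENNReal.ofReal (pd 0 φ x ^ 2) := by
    have := (EG2_pd_cont φ hs 0).measurable
    fun_prop
  calc ∫⁻ x : E3, ENNReal.ofReal
        (((Real.pi / (2 * R)) ^ 2 + (Real.pi / (b - a)) ^ 2) * φ x ^ 2)
      = ∫⁻ x : E3, (ENNReal.ofReal ((Real.pi / (2 * R)) ^ 2 * φ x ^ 2) +
          ENNReal.ofReal ((Real.pi / (b - a)) ^ 2 * φ x ^ 2)) := by
        refine lintegral_congr fun x => ?_
        rw [← ENNReal.ofReal_add (by positivity) (by positivity), add_mul]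
    _ = (∫⁻ x : E3, ENNReal.ofReal ((Real.pi / (2 * R)) ^ 2 * φ x ^ 2)) +
          ∫⁻ x : E3, ENNReal.ofReal ((Real.pi / (b - a)) ^ 2 * φ x ^ 2) :=
        lintegral_add_left m0 _
    _ ≤ (∫⁻ x : E3, ENNReal.ofReal (pd 0 φ x ^ 2)) +
          ∫⁻ x : E3, ENNReal.ofReal (pd 2 φ x ^ 2) := add_le_add key0 key2
    _ = ∫⁻ x : E3, (ENNReal.ofReal (pd 0 φ x ^ 2) + ENNReal.ofReal (pd 2 φ x ^ 2)) :=
        (lintegral_add_left m3 _).symm
    _ ≤ ∫⁻ x : E3, ENNReal.ofReal (∑ i, pd i φ x ^ 2) := by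
        refine lintegral_mono fun x => ?_
        rw [← ENNReal.ofReal_add (by positivity) (by positivity)]
        apply ENNReal.ofReal_le_ofReal
        rw [Fin.sum_univ_three]
        nlinarith [sq_nonneg (pd 1 φ x)]

end Pool.Agent.Work.MP_d5b3be_an.BN
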