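import Pool.Agent.Work.MP_d5b3be_an.BN.Stmts2

/-!
# Block BN, item ENE: the energy identity
-/

set_option autoImplicit false

namespace Pool.Agent.Work.MP_d5b3be_an.BN

open MeasureTheory Filter Set
open scoped ENNReal Topology ContDiff

theorem ENE_pd_cont {φ : E3 → ℝ} (h : ContDiff ℝ ((⊤ : ℕ∞) : WithTop ℕ∞) φ) (i : Fin 3) :
    Continuous (pd i φ) := by
  have h1 : Continuous (fderiv ℝ φ) := h.continuous_fderiv (by simp)
  exact h1.clm_apply continuous_const

theorem ENE_pd_supp {φ : E3 → ℝ} (h : HasCompactSupport φ) (i : Fin 3) :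
    HasCompactSupport (pd i φ) := by
  have h1 : HasCompactSupport (fderiv ℝ φ) := h.fderiv ℝ
  exact h1.comp_left (g := fun L : E3 →L[ℝ] ℝ => L (Pi.single i (1 : ℝ))) (by simp)

theorem prfENE (hSOB : SOB) (hCLT : CLT) (hHS6 : HS6) (hLCV : LCV) (hL6C : L6C) : ENE := by
  intro Ω n lam u g hn hHC hu6 hEq
  obtain ⟨hu2, hg2, φ, hφ, hφu, hφg⟩ := hHC
  have hn0 : (0 : ℝ) < n := by exact_mod_cast hn
  have hsm : ∀ k, ContDiff ℝ ((⊤ : ℕ∞) : WithTop ℕ∞) (φ k) := fun k => (hφ k).1.1
  have hcs : ∀ k, HasCompactSupport (φ k) := fun k => (hφ k).1.2.1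
  have hmem : ∀ (p : ℝ≥0∞) (k : ℕ), MemLp (φ k) p volume := fun p k =>
    (hsm k).continuous.memLp_of_hasCompactSupport (hcs k)
  have hmemp : ∀ (i : Fin 3) (k : ℕ), MemLp (pd i (φ k)) 2 volume := fun i k =>
    (ENE_pd_cont (hsm k) i).memLp_of_hasCompactSupport (ENE_pd_supp (hcs k) i)
  have hc : ∀ ψ, TestN Ω n ψ → (n : ℝ) ^ 2 / 64 * N6 ψ ≤ DD (gr ψ) ^ 3 := by
    intro ψ hψ
    have := hSOB Ω n ψ hn hψ
    linarith
  have hC6 : Cv 6 φ u := (hHS6 (TestN Ω n) ((n : ℝ) ^ 2 / 64) u g φ ((hCLT Ω).2 n) (by positivity)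
    hc hu2 hg2 hφ hφu hφg).2
  -- the three limits
  have hA : Tendsto (fun k => ∫ x, ∑ i, g i x * pd i (φ k) x) atTop (𝓝 (DD g)) := by
    have h1 : ∀ i, Tendsto (fun k => ∫ x, pd i (φ k) x * g i x) atTop (𝓝 (∫ x, g i x * g i x)) :=
      fun i => (hLCV (fun k => pd i (φ k)) (g i) (hmemp i) (hg2 i) (hφg i)).2 (g i) (hg2 i)
    have h2 : ∀ k, (∫ x, ∑ i, g i x * pd i (φ k) x) = ∑ i, ∫ x, pd i (φ k) x * g i x := by
      intro k
      rw [integral_finsetSum]
      · refine Finset.sum_congr rfl fun i _ => ?_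
        refine integral_congr_ae (Eventually.of_forall fun x => ?_)
        exact mul_comm _ _
      · intro i _
        exact (hg2 i).integrable_mul (hmemp i k)
    have h3 : DD g = ∑ i, ∫ x, g i x * g i x := by
      unfold DD
      rw [integral_finsetSum]
      · refine Finset.sum_congr rfl fun i _ => ?_
        refine integral_congr_ae (Eventually.of_forall fun x => ?_)
        exact pow_two _
      · intro i _
        exact (hg2 i).integrable_sq
    rw [h3]
    simp_rw [h2]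
    exact tendsto_finsetSum _ fun i _ => h1 i
  have hB : Tendsto (fun k => ∫ x, u x ^ 5 * φ k x) atTop (𝓝 (N6 u)) := by
    have h1 := ((hL6C φ u (hmem 6) hu6 hC6).2 u hu6).2
    have h2 : N6 u = ∫ x, u x ^ 5 * u x := by
      unfold N6
      refine integral_congr_ae (Eventually.of_forall fun x => ?_)
      exact pow_succ _ _
    rw [h2]
    exact h1
  have hC : Tendsto (fun k => ∫ x, u x * φ k x) atTop (𝓝 (Q2 u)) := by
    have h1 := (hLCV φ u (hmem 2) hu2 hφu).2 u hu2
    have h2 : Q2 u = ∫ x, u x * u x := by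
      unfold Q2
      refine integral_congr_ae (Eventually.of_forall fun x => ?_)
      exact pow_two _
    rw [h2]
    refine h1.congr fun k => ?_
    refine integral_congr_ae (Eventually.of_forall fun x => ?_)
    exact mul_comm _ _
  have hD : Tendsto (fun k => ∫ x, ∑ i, g i x * pd i (φ k) x) atTop (𝓝 (N6 u + lam * Q2 u)) := by
    refine (hB.add (hC.const_mul lam)).congr fun k => ?_
    exact (hEq (φ k) (hφ k).1).symm
  have := tendsto_nhds_unique hA hD
  linarith

end Pool.Agent.Work.MP_d5b3be_an.BN
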