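import Pool.Agent.Work.MP_d5b3be_an.BN.Stmts2

/-!
# Item EUL of block BN: the Euler-Lagrange equation
-/

set_option autoImplicit false

namespace Pool.Agent.Work.MP_d5b3be_an.BN

open MeasureTheory Filter Set
open scoped ENNReal Topology ContDiff

theorem EUL_poly (m A B c1 c2 c3 c4 c5 c6 : ℝ) (hm : 0 < m)
    (h : ∀ t : ℝ, m ^ 3 * (1 + 6 * t * c1 + 15 * t ^ 2 * c2 + 20 * t ^ 3 * c3 + 15 * t ^ 4 * c4 +
      6 * t ^ 5 * c5 + t ^ 6 * c6) ≤ (m + 2 * t * A + t ^ 2 * B) ^ 3) : A = m * c1 := by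
  set q : ℝ → ℝ := fun t => 3 * m ^ 2 * (2 * A + t * B) + 3 * m * t * (2 * A + t * B) ^ 2 +
    t ^ 2 * (2 * A + t * B) ^ 3 - m ^ 3 * (6 * c1 + 15 * t * c2 + 20 * t ^ 2 * c3 +
      15 * t ^ 3 * c4 + 6 * t ^ 4 * c5 + t ^ 5 * c6) with hq
  have hc : Continuous q := by
    rw [hq]
    fun_prop
  have hf : ∀ t : ℝ, 0 ≤ t * q t := by
    intro t
    have h1 := h t
    have h2 : t * q t = (m + 2 * t * A + t ^ 2 * B) ^ 3 - m ^ 3 * (1 + 6 * t * c1 +
        15 * t ^ 2 * c2 + 20 * t ^ 3 * c3 + 15 * t ^ 4 * c4 + 6 * t ^ 5 * c5 + t ^ 6 * c6) := by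
      rw [hq]
      ring
    rw [h2]
    linarith
  have h3 : 0 ≤ q 0 := by
    have ht : Tendsto q (𝓝[>] 0) (𝓝 (q 0)) := (hc.tendsto 0).mono_left nhdsWithin_le_nhds
    refine ge_of_tendsto ht ?_
    filter_upwards [self_mem_nhdsWithin] with t ht
    exact nonneg_of_mul_nonneg_right (hf t) ht
  have h4 : q 0 ≤ 0 := by
    have ht : Tendsto q (𝓝[<] 0) (𝓝 (q 0)) := (hc.tendsto 0).mono_left nhdsWithin_le_nhds
    refine le_of_tendsto ht ?_
    filter_upwards [self_mem_nhdsWithin] with t ht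
    have ht' : t < 0 := ht
    by_contra hcon
    push Not at hcon
    have := mul_neg_of_neg_of_pos ht' hcon
    linarith [hf t]
  have h5 : q 0 = 6 * m ^ 2 * (A - m * c1) := by
    rw [hq]
    ring
  have h6 : 6 * m ^ 2 * (A - m * c1) = 0 := by
    rw [← h5]
    exact le_antisymm h4 h3
  have h7 : 6 * m ^ 2 ≠ 0 := by positivity
  have h8 := (mul_eq_zero.1 h6).resolve_left h7
  linarith

theorem EUL_int (u w : E3 → ℝ) (hu : MemLp u 6 volume) (hw : MemLp w 6 volume) (j k : ℕ)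
    (hjk : j + k = 6) : Integrable (fun x => u x ^ j * w x ^ k) := by
  have hu' : Integrable (fun x => ‖u x‖ ^ 6) :=
    MemLp.integrable_norm_pow (p := 6) (by exact_mod_cast hu) (by norm_num)
  have hw' : Integrable (fun x => ‖w x‖ ^ 6) :=
    MemLp.integrable_norm_pow (p := 6) (by exact_mod_cast hw) (by norm_num)
  refine (hu'.add hw').mono' ((hu.aestronglyMeasurable.pow j).mul (hw.aestronglyMeasurable.pow k)) ?_
  refine Filter.Eventually.of_forall fun x => ?_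
  show ‖u x ^ j * w x ^ k‖ ≤ ‖u x‖ ^ 6 + ‖w x‖ ^ 6
  rw [norm_mul, norm_pow, norm_pow]
  set a := ‖u x‖
  set b := ‖w x‖
  have ha : 0 ≤ a := norm_nonneg _
  have hb : 0 ≤ b := norm_nonneg _
  rcases le_total a b with h | h
  · calc a ^ j * b ^ k ≤ b ^ j * b ^ k :=
          mul_le_mul_of_nonneg_right (pow_le_pow_left₀ ha h j) (by positivity)
      _ = b ^ 6 := by rw [← pow_add, hjk]
      _ ≤ a ^ 6 + b ^ 6 := by
        have : 0 ≤ a ^ 6 := by positivity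
        linarith
  · calc a ^ j * b ^ k ≤ a ^ j * a ^ k :=
          mul_le_mul_of_nonneg_left (pow_le_pow_left₀ hb h k) (by positivity)
      _ = a ^ 6 := by rw [← pow_add, hjk]
      _ ≤ a ^ 6 + b ^ 6 := by
        have : 0 ≤ b ^ 6 := by positivity
        linarith

theorem EUL_lin (c : ℝ) (F G : E3 → ℝ) (hF : Integrable F) (hG : Integrable G) :
    Integrable (fun x => F x + c * G x) ∧
      ∫ x, (F x + c * G x) = (∫ x, F x) + c * ∫ x, G x := by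
  have h := hG.const_mul c
  exact ⟨hF.add h, by rw [integral_add hF h, integral_const_mul]⟩

theorem EUL_N6 (u w : E3 → ℝ) (hu : MemLp u 6 volume) (hw : MemLp w 6 volume) (t : ℝ) :
    N6 (fun x => 1 * u x + t * w x) = N6 u + 6 * t * (∫ x, u x ^ 5 * w x) +
      15 * t ^ 2 * (∫ x, u x ^ 4 * w x ^ 2) + 20 * t ^ 3 * (∫ x, u x ^ 3 * w x ^ 3) +
      15 * t ^ 4 * (∫ x, u x ^ 2 * w x ^ 4) + 6 * t ^ 5 * (∫ x, u x ^ 1 * w x ^ 5) +
      t ^ 6 * (∫ x, u x ^ 0 * w x ^ 6) := by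
  have i0 := EUL_int u w hu hw 6 0 rfl
  have i1 := EUL_int u w hu hw 5 1 rfl
  have i2 := EUL_int u w hu hw 4 2 rfl
  have i3 := EUL_int u w hu hw 3 3 rfl
  have i4 := EUL_int u w hu hw 2 4 rfl
  have i5 := EUL_int u w hu hw 1 5 rfl
  have i6 := EUL_int u w hu hw 0 6 rfl
  simp only [pow_zero, mul_one] at i0
  simp only [pow_one] at i1
  unfold N6
  have e : (fun x => (1 * u x + t * w x) ^ 6) = fun x => u x ^ 6 + 6 * t * (u x ^ 5 * w x) +
      15 * t ^ 2 * (u x ^ 4 * w x ^ 2) + 20 * t ^ 3 * (u x ^ 3 * w x ^ 3) +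
      15 * t ^ 4 * (u x ^ 2 * w x ^ 4) + 6 * t ^ 5 * (u x ^ 1 * w x ^ 5) +
      t ^ 6 * (u x ^ 0 * w x ^ 6) := by
    ext x
    ring
  rw [e]
  obtain ⟨a1, b1⟩ := EUL_lin (6 * t) _ _ i0 i1
  obtain ⟨a2, b2⟩ := EUL_lin (15 * t ^ 2) _ _ a1 i2
  obtain ⟨a3, b3⟩ := EUL_lin (20 * t ^ 3) _ _ a2 i3
  obtain ⟨a4, b4⟩ := EUL_lin (15 * t ^ 4) _ _ a3 i4
  obtain ⟨a5, b5⟩ := EUL_lin (6 * t ^ 5) _ _ a4 i5
  obtain ⟨a6, b6⟩ := EUL_lin (t ^ 6) _ _ a5 i6
  rw [b6, b5, b4, b3, b2, b1]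

theorem EUL_Q2 (u w : E3 → ℝ) (hu : MemLp u 2 volume) (hw : MemLp w 2 volume) (t : ℝ) :
    Q2 (fun x => 1 * u x + t * w x) = Q2 u + 2 * t * (∫ x, u x * w x) + t ^ 2 * Q2 w := by
  unfold Q2
  have e : (fun x => (1 * u x + t * w x) ^ 2) = fun x => u x ^ 2 + 2 * t * (u x * w x) +
      t ^ 2 * w x ^ 2 := by
    ext x
    ring
  rw [e]
  have i0 : Integrable (fun x => u x ^ 2) := hu.integrable_sq
  have i1 : Integrable (fun x => u x * w x) := hu.integrable_mul hw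
  have i2 : Integrable (fun x => w x ^ 2) := hw.integrable_sq
  obtain ⟨a1, b1⟩ := EUL_lin (2 * t) _ _ i0 i1
  obtain ⟨a2, b2⟩ := EUL_lin (t ^ 2) _ _ a1 i2
  rw [b2, b1]

theorem EUL_DD (g f : Fin 3 → E3 → ℝ) (hg : ∀ i, MemLp (g i) 2 volume)
    (hf : ∀ i, MemLp (f i) 2 volume) (t : ℝ) :
    DD (fun i x => 1 * g i x + t * f i x) =
      DD g + 2 * t * (∫ x, ∑ i, g i x * f i x) + t ^ 2 * DD f := by
  unfold DD
  have e : (fun x => ∑ i, (1 * g i x + t * f i x) ^ 2) = fun x => (∑ i, g i x ^ 2) +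
      2 * t * (∑ i, g i x * f i x) + t ^ 2 * ∑ i, f i x ^ 2 := by
    ext x
    simp only [Fin.sum_univ_three]
    ring
  rw [e]
  have i0 : Integrable (fun x => ∑ i, g i x ^ 2) :=
    integrable_finsetSum _ fun i _ => (hg i).integrable_sq
  have i1 : Integrable (fun x => ∑ i, g i x * f i x) :=
    integrable_finsetSum _ fun i _ => (hg i).integrable_mul (hf i)
  have i2 : Integrable (fun x => ∑ i, f i x ^ 2) :=
    integrable_finsetSum _ fun i _ => (hf i).integrable_sq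
  obtain ⟨a1, b1⟩ := EUL_lin (2 * t) _ _ i0 i1
  obtain ⟨a2, b2⟩ := EUL_lin (t ^ 2) _ _ a1 i2
  rw [b2, b1]

theorem prfEUL (hHCL : HCL) (hHCE : HCE) : EUL := by
  intro T ν V lam m u g hHy hm hin hug hu6 hN6 haf w hw
  obtain ⟨hCl, hν, hSob, hlam, hlV, hPoi⟩ := hHy
  have hwg : HC T w (gr w) := (hHCL T hCl).1 w hw
  have hSob' : ∀ φ, T φ → ν / 64 * N6 φ ≤ DD (gr φ) ^ 3 := by
    intro φ hφ
    have := hSob φ hφ
    linarith
  have hw6 : MemLp w 6 volume := (hHCE T (ν / 64) w (gr w) hCl (by positivity) hSob' hwg).1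
  have hkey : ∀ t : ℝ, m ^ 3 * N6 (fun x => 1 * u x + t * w x) ≤
      af lam (fun x => 1 * u x + t * w x) (fun i x => 1 * g i x + t * gr w i x) ^ 3 := by
    intro t
    have h1 := (hHCL T hCl).2 u w g (gr w) 1 t hug hwg
    exact (hHCE T (ν / 64) _ _ hCl (by positivity) hSob' h1).2.2.2 (m ^ 3) lam hin
  have hafe : ∀ t : ℝ, af lam (fun x => 1 * u x + t * w x) (fun i x => 1 * g i x + t * gr w i x) =
      m + 2 * t * ((∫ x, ∑ i, g i x * gr w i x) - lam * ∫ x, u x * w x) +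
        t ^ 2 * af lam w (gr w) := by
    intro t
    rw [← haf]
    unfold af
    rw [EUL_Q2 u w hug.1 hwg.1 t, EUL_DD g (gr w) hug.2.1 hwg.2.1 t]
    ring
  have h := EUL_poly m ((∫ x, ∑ i, g i x * gr w i x) - lam * ∫ x, u x * w x) (af lam w (gr w))
    (∫ x, u x ^ 5 * w x) (∫ x, u x ^ 4 * w x ^ 2) (∫ x, u x ^ 3 * w x ^ 3)
    (∫ x, u x ^ 2 * w x ^ 4) (∫ x, u x ^ 1 * w x ^ 5) (∫ x, u x ^ 0 * w x ^ 6) hm (by
      intro t
      have h1 := hkey t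
      rw [EUL_N6 u w hu6 hw6 t, hN6, hafe t] at h1
      exact h1)
  exact h

end Pool.Agent.Work.MP_d5b3be_an.BN
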