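import Pool.Agent.Work.MP_d5b3be_an.BN.Stmts

/-!
# Block BN, item EZL: the vertical part of the energy in the ellipsoid
-/

set_option autoImplicit false

namespace Pool.Agent.Work.MP_d5b3be_an.BN

open MeasureTheory Filter Set
open scoped ENNReal Topology ContDiff

theorem EZL_hasDerivAt (φ : E3 → ℝ) (hφ : ContDiff ℝ ((⊤ : ℕ∞) : WithTop ℕ∞) φ) (a b c : ℝ) :
    HasDerivAt (fun s => φ ![a, b, s]) (pd 2 φ ![a, b, c]) c := by
  have h1 : HasDerivAt (fun s : ℝ => (![a, b, s] : E3)) (Pi.single 2 (1 : ℝ)) c := by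
    rw [hasDerivAt_pi]
    intro i
    fin_cases i
    · simpa using hasDerivAt_const c a
    · simpa using hasDerivAt_const c b
    · simpa using hasDerivAt_id' c
  have h2 : HasFDerivAt φ (fderiv ℝ φ ![a, b, c]) ![a, b, c] :=
    ((hφ.differentiable (by simp)) _).hasFDerivAt
  exact h2.comp_hasDerivAt c h1

theorem EZL_contDiff (φ : E3 → ℝ) (hφ : ContDiff ℝ ((⊤ : ℕ∞) : WithTop ℕ∞) φ) (a b : ℝ) :
    ContDiff ℝ 1 (fun s => φ ![a, b, s]) := by
  have h1 : ContDiff ℝ 1 (fun s : ℝ => (![a, b, s] : E3)) := by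
    rw [contDiff_pi]
    intro i
    fin_cases i
    · exact contDiff_const
    · exact contDiff_const
    · exact contDiff_id
  have h2 : ContDiff ℝ 1 φ := hφ.of_le (by exact_mod_cast le_top)
  exact h2.comp h1

theorem EZL_line (hW : WTI) (f f' : ℝ → ℝ) (H K : ℝ) (hH : 0 < H) (hf : ContDiff ℝ 1 f)
    (hd : ∀ c, HasDerivAt f (f' c) c) (h0 : ∀ c, H ≤ |c| → f c = 0)
    (hK : K = (Real.pi / (H - -H)) ^ 2) :
    ∫⁻ c, ENNReal.ofReal (K * f c ^ 2) ≤ ∫⁻ c, ENNReal.ofReal (f' c ^ 2) := by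
  have hle : -H < H := by linarith
  have hw := hW f (-H) H hle hf (h0 _ (by rw [abs_neg]; exact le_abs_self H))
    (h0 _ (le_abs_self H))
  have hdf : deriv f = f' := funext fun c => (hd c).deriv
  rw [hdf, intervalIntegral.integral_of_le hle.le, intervalIntegral.integral_of_le hle.le,
    ← hK] at hw
  have hfc : Continuous f := hf.continuous
  have hfc' : Continuous f' := by
    rw [← hdf]
    exact hf.continuous_deriv le_rfl
  have hK0 : 0 ≤ K := by rw [hK]; positivity
  have e1 : ∫⁻ c, ENNReal.ofReal (K * f c ^ 2)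
      = ∫⁻ c in Ioc (-H) H, ENNReal.ofReal (K * f c ^ 2) := by
    rw [← lintegral_indicator measurableSet_Ioc]
    refine lintegral_congr fun c => ?_
    by_cases hc : c ∈ Ioc (-H) H
    · rw [indicator_of_mem hc]
    · rw [indicator_of_notMem hc]
      have : f c = 0 := by
        apply h0
        by_contra hlt
        rw [not_le, abs_lt] at hlt
        exact hc ⟨hlt.1, hlt.2.le⟩
      simp [this]
  have i1 : IntegrableOn (fun c => K * f c ^ 2) (Ioc (-H) H) :=
    ((continuous_const.mul (hfc.pow 2)).integrableOn_Icc (a := -H) (b := H)).mono_set Ioc_subset_Icc_self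
  have i2 : IntegrableOn (fun c => f' c ^ 2) (Ioc (-H) H) :=
    ((hfc'.pow 2).integrableOn_Icc (a := -H) (b := H)).mono_set Ioc_subset_Icc_self
  calc ∫⁻ c, ENNReal.ofReal (K * f c ^ 2)
      = ENNReal.ofReal (∫ c in Ioc (-H) H, K * f c ^ 2) := by
        rw [e1, ofReal_integral_eq_lintegral_ofReal i1
          (Eventually.of_forall fun c => by positivity)]
    _ ≤ ENNReal.ofReal (∫ c in Ioc (-H) H, f' c ^ 2) := by
        apply ENNReal.ofReal_le_ofReal
        rw [integral_const_mul]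
        exact hw
    _ = ∫⁻ c in Ioc (-H) H, ENNReal.ofReal (f' c ^ 2) := by
        rw [ofReal_integral_eq_lintegral_ofReal i2
          (Eventually.of_forall fun c => by positivity)]
    _ ≤ ∫⁻ c, ENNReal.ofReal (f' c ^ 2) := setLIntegral_le_lintegral _ _

theorem EZL_pd_cont (φ : E3 → ℝ) (hφ : ContDiff ℝ ((⊤ : ℕ∞) : WithTop ℕ∞) φ) (i : Fin 3) :
    Continuous (pd i φ) := by
  have h1 : Continuous (fderiv ℝ φ) := hφ.continuous_fderiv (by simp)
  exact h1.clm_apply continuous_const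

theorem prfEZL (hF : FU3) (hW : WTI) : EZL := by
  intro R h φ hR hh hφ
  obtain ⟨hs, _, hsub⟩ := hφ
  have hc : Continuous φ := hs.continuous
  have m1 : Measurable fun x : E3 => ENNReal.ofReal
      ((Real.pi / (2 * h)) ^ 2 / (1 - (x 0 ^ 2 + x 1 ^ 2) / R ^ 2) * φ x ^ 2) := by
    have := hc.measurable
    fun_prop
  have m2 : Measurable fun x : E3 => ENNReal.ofReal (pd 2 φ x ^ 2) := by
    have := (EZL_pd_cont φ hs 2).measurable
    fun_prop
  rw [hF _ m1, hF _ m2]
  refine lintegral_mono fun a => lintegral_mono fun b => ?_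
  simp only [Matrix.cons_val_zero, Matrix.cons_val_one]
  set s : ℝ := (a ^ 2 + b ^ 2) / R ^ 2 with hsdef
  have hz : ∀ c : ℝ, h ^ 2 * (1 - s) ≤ c ^ 2 → φ ![a, b, c] = 0 := by
    intro c hcc
    have hn : (![a, b, c] : E3) ∉ ell R h := by
      intro hmem
      have h1 : (a ^ 2 + b ^ 2) / R ^ 2 + c ^ 2 / h ^ 2 < 1 := by
        simpa [ell] using hmem
      rw [← hsdef] at h1
      have h2 : c ^ 2 / h ^ 2 < 1 - s := by linarith
      rw [div_lt_iff₀ (by positivity)] at h2
      linarith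
    exact image_eq_zero_of_notMem_tsupport fun hmem => hn (hsub hmem)
  rcases lt_or_ge s 1 with hs1 | hs1
  · have h1s : 0 < 1 - s := by linarith
    refine EZL_line hW (fun c => φ ![a, b, c]) (fun c => pd 2 φ ![a, b, c])
      (h * Real.sqrt (1 - s)) _ (by positivity) (EZL_contDiff φ hs a b)
      (fun c => EZL_hasDerivAt φ hs a b c) ?_ ?_
    · intro c hcc
      apply hz
      have h2 : (h * Real.sqrt (1 - s)) ^ 2 ≤ |c| ^ 2 := by gcongr
      rw [mul_pow, Real.sq_sqrt h1s.le, sq_abs] at h2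
      exact h2
    · have e : h * Real.sqrt (1 - s) - -(h * Real.sqrt (1 - s)) = (2 * h) * Real.sqrt (1 - s) := by
        ring
      rw [e, div_pow, div_pow, mul_pow (2 * h), Real.sq_sqrt h1s.le, div_div]
  · have hzero : ∀ c : ℝ, φ ![a, b, c] = 0 := by
      intro c
      apply hz
      have : h ^ 2 * (1 - s) ≤ 0 := mul_nonpos_of_nonneg_of_nonpos (by positivity) (by linarith)
      exact this.trans (by positivity)
    simp [hzero]

end Pool.Agent.Work.MP_d5b3be_an.BN
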