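import Pool.Agent.Work.MP_d5b3be_an.BN.Stmts

/-!
# Item FU3: Tonelli in the three-dimensional space
-/

set_option autoImplicit false

namespace Pool.Agent.Work.MP_d5b3be_an.BN

open MeasureTheory Filter Set
open scoped ENNReal

theorem FU3_two (g : (Fin 2 → ℝ) → ℝ≥0∞) (hg : Measurable g) :
    ∫⁻ y, g y = ∫⁻ b : ℝ, ∫⁻ c : ℝ, g ![b, c] := by
  have h := (MeasureTheory.volume_preserving_finTwoArrow ℝ).symm
  have h2 : Measurable fun z : ℝ × ℝ => g (MeasurableEquiv.finTwoArrow.symm z) :=
    hg.comp h.measurable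
  rw [← h.lintegral_comp hg, Measure.volume_eq_prod,
    MeasureTheory.lintegral_prod _ h2.aemeasurable]
  rfl

/-- item FU3 -/
theorem prfFU3 : FU3 := by
  intro f hf
  have h := (MeasureTheory.volume_preserving_piFinSuccAbove (fun _ : Fin 3 => ℝ) 0).symm
  have h2 : Measurable fun z : ℝ × (Fin 2 → ℝ) =>
      f ((MeasurableEquiv.piFinSuccAbove (fun _ : Fin 3 => ℝ) 0).symm z) :=
    hf.comp h.measurable
  rw [← h.lintegral_comp hf, Measure.volume_eq_prod,
    MeasureTheory.lintegral_prod _ h2.aemeasurable]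
  refine lintegral_congr fun a => ?_
  have hm : Measurable fun y : Fin 2 → ℝ =>
      f ((MeasurableEquiv.piFinSuccAbove (fun _ : Fin 3 => ℝ) 0).symm (a, y)) :=
    h2.comp (measurable_const.prodMk measurable_id)
  refine (FU3_two _ hm).trans ?_
  refine lintegral_congr fun b => lintegral_congr fun c => ?_
  congr 1
  funext i
  fin_cases i <;> rfl

end Pool.Agent.Work.MP_d5b3be_an.BN
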