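import Pool.Agent.Work.MP_d5b3be_an.BN.Stmts

/-! Item GNA of block BN (helper51): the radial bound. -/

set_option autoImplicit false

namespace Pool.Agent.Work.MP_d5b3be_an.BN

open MeasureTheory Filter Set
open scoped ENNReal Topology ContDiff

theorem GNA_supp (φ : E3 → ℝ) (hc : HasCompactSupport φ) (t z : ℝ) :
    ∃ R : ℝ, 0 ≤ R ∧ ∀ s : ℝ, R < s → φ (cyl s t z) = 0 := by
  obtain ⟨R, hR⟩ := hc.isCompact.isBounded.subset_closedBall (0 : E3)
  refine ⟨2 * |R|, by positivity, fun s hs => ?_⟩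
  by_contra hne
  have h1 : cyl s t z ∈ tsupport φ := subset_tsupport φ hne
  have h2 := hR h1
  rw [mem_closedBall_zero_iff] at h2
  have h3 : |s * Real.cos t| ≤ |R| := by
    have h := (norm_le_pi_norm (cyl s t z) 0).trans (h2.trans (le_abs_self R))
    simpa [cyl] using h
  have h4 : |s * Real.sin t| ≤ |R| := by
    have h := (norm_le_pi_norm (cyl s t z) 1).trans (h2.trans (le_abs_self R))
    simpa [cyl] using h
  have h5 : (s * Real.cos t) ^ 2 ≤ |R| ^ 2 := sq_le_sq' (by linarith [abs_le.1 h3]) (abs_le.1 h3).2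
  have h6 : (s * Real.sin t) ^ 2 ≤ |R| ^ 2 := sq_le_sq' (by linarith [abs_le.1 h4]) (abs_le.1 h4).2
  have h7 : s ^ 2 = (s * Real.cos t) ^ 2 + (s * Real.sin t) ^ 2 := by
    have := Real.sin_sq_add_cos_sq t
    calc s ^ 2 = s ^ 2 * (Real.sin t ^ 2 + Real.cos t ^ 2) := by rw [this, mul_one]
      _ = _ := by ring
  have h8 : 0 ≤ |R| := abs_nonneg R
  nlinarith

theorem GNA_cs (a b c t : ℝ) : |Real.cos t * a + Real.sin t * b| ≤ Real.sqrt (a ^ 2 + b ^ 2 + c ^ 2) := by
  apply Real.abs_le_sqrt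
  have h : Real.sin t ^ 2 + Real.cos t ^ 2 = 1 := Real.sin_sq_add_cos_sq t
  have h2 : (Real.cos t * a + Real.sin t * b) ^ 2 + (Real.sin t * a - Real.cos t * b) ^ 2 = a ^ 2 + b ^ 2 := by
    calc _ = (Real.sin t ^ 2 + Real.cos t ^ 2) * (a ^ 2 + b ^ 2) := by ring
      _ = _ := by rw [h, one_mul]
  nlinarith [sq_nonneg (Real.sin t * a - Real.cos t * b), sq_nonneg c]

theorem prfGNA (hCYD : CYD) : GNA := by
  intro φ hφ hc r t z hr
  obtain ⟨R, hR0, hR⟩ := GNA_supp φ hc t z
  set M : ℝ := max R r + 1 with hM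
  have hrM : r ≤ M := by linarith [le_max_right R r]
  have hRM : R < M := by linarith [le_max_left R r]
  have hD := fun s : ℝ => (hCYD φ hφ s t z).1
  have hsm : ContDiff ℝ ((⊤ : ℕ∞) : WithTop ℕ∞) (fun s => φ (cyl s t z)) := (hCYD φ hφ r t z).2.2.2.1
  set g' : ℝ → ℝ := fun s => 4 * φ (cyl s t z) ^ 3 *
    (Real.cos t * pd 0 φ (cyl s t z) + Real.sin t * pd 1 φ (cyl s t z)) with hg'
  have hg : ∀ s, HasDerivAt (fun s => φ (cyl s t z) ^ 4) (g' s) s := by
    intro s
    have h : HasDerivAt (fun s => φ (cyl s t z) ^ 4) _ s := HasDerivAt.fun_pow (hD s) 4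
    simpa [hg'] using h
  have hcont : Continuous g' := by
    have h1 : Continuous (fun s => φ (cyl s t z)) := hsm.continuous
    have h2 : (fun s => Real.cos t * pd 0 φ (cyl s t z) + Real.sin t * pd 1 φ (cyl s t z)) =
        deriv (fun s => φ (cyl s t z)) := by
      funext s
      exact (hD s).deriv.symm
    have h3 : Continuous (fun s => Real.cos t * pd 0 φ (cyl s t z) + Real.sin t * pd 1 φ (cyl s t z)) := by
      rw [h2]
      exact hsm.continuous_deriv (by exact_mod_cast le_top)
    exact (continuous_const.mul (h1.pow 3)).mul h3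
  have hint : ∫ s in r..M, g' s = - φ (cyl r t z) ^ 4 := by
    rw [intervalIntegral.integral_eq_sub_of_hasDerivAt (fun s _ => hg s) (hcont.intervalIntegrable _ _),
      hR M hRM]
    ring
  have hle : r * φ (cyl r t z) ^ 4 ≤ ∫ s in r..M, s * |g' s| := by
    have e : r * φ (cyl r t z) ^ 4 = ∫ s in r..M, - (r * g' s) := by
      rw [intervalIntegral.integral_neg, intervalIntegral.integral_const_mul, hint]
      ring
    rw [e]
    apply intervalIntegral.integral_mono_on hrM
    · exact ((continuous_const.mul hcont).neg).intervalIntegrable _ _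
    · exact (continuous_id.mul hcont.abs).intervalIntegrable _ _
    · intro s hs
      have h1 : r ≤ s := hs.1
      have h2 := neg_abs_le (g' s)
      have h3 := abs_nonneg (g' s)
      nlinarith
  have hci : IntegrableOn (fun s => s * |g' s|) (Ioc r M) volume :=
    ((continuous_id.mul hcont.abs).integrableOn_Icc (a := r) (b := M)).mono_set Ioc_subset_Icc_self
  calc ENNReal.ofReal (r * φ (cyl r t z) ^ 4)
      ≤ ENNReal.ofReal (∫ s in r..M, s * |g' s|) := ENNReal.ofReal_le_ofReal hle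
    _ = ENNReal.ofReal (∫ s in Ioc r M, s * |g' s|) := by rw [intervalIntegral.integral_of_le hrM]
    _ = ∫⁻ s in Ioc r M, ENNReal.ofReal (s * |g' s|) := by
        apply ofReal_integral_eq_lintegral_ofReal hci
        refine (ae_restrict_iff' measurableSet_Ioc).2 (ae_of_all _ fun s hs => ?_)
        have h1 : 0 ≤ s := (hr.trans hs.1).le
        positivity
    _ ≤ ∫⁻ s in Ioc r M, ENNReal.ofReal s * KK φ (cyl s t z) := by
        refine setLIntegral_mono' measurableSet_Ioc fun s hs => ?_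
        have h1 : 0 ≤ s := (hr.trans hs.1).le
        rw [ENNReal.ofReal_mul h1]
        refine mul_le_mul_right (ENNReal.ofReal_le_ofReal ?_) _
        rw [hg', abs_mul, abs_mul, abs_pow, abs_of_pos (by norm_num : (0 : ℝ) < 4)]
        apply mul_le_mul_of_nonneg_left _ (by positivity)
        rw [Fin.sum_univ_three]
        exact GNA_cs _ _ _ t
    _ ≤ ∫⁻ s in Ioi (0 : ℝ), ENNReal.ofReal s * KK φ (cyl s t z) :=
        lintegral_mono_set fun s hs => hr.trans hs.1

end Pool.Agent.Work.MP_d5b3be_an.BN
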