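import Pool.Agent.Work.MP_d5b3be_an.BN.Stmts

set_option autoImplicit false

namespace Pool.Agent.Work.MP_d5b3be_an.BN

open MeasureTheory Filter Set
open scoped ENNReal Topology ContDiff

/-- the tangential derivative is bounded by the gradient -/
theorem GNB_bound (r s a b c : ℝ) (hr : 0 < r) :
    |r * (-Real.sin s * a + Real.cos s * b)| ≤ r * Real.sqrt (a ^ 2 + b ^ 2 + c ^ 2) := by
  rw [abs_mul, abs_of_pos hr]
  refine mul_le_mul_of_nonneg_left ?_ hr.le
  refine Real.abs_le_sqrt ?_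
  have h := Real.sin_sq_add_cos_sq s
  have h1 : (-Real.sin s * a + Real.cos s * b) ^ 2 + (Real.cos s * a + Real.sin s * b) ^ 2 =
      (Real.sin s ^ 2 + Real.cos s ^ 2) * (a ^ 2 + b ^ 2) := by ring
  rw [h, one_mul] at h1
  nlinarith [sq_nonneg (Real.cos s * a + Real.sin s * b), sq_nonneg c]

theorem prfGNB (h1 : ROT) (h2 : CYD) (h3 : ZBD) : GNB := by
  intro Ω n φ hn hφ r t z hr
  obtain ⟨⟨hφs, -, -⟩, hanti⟩ := hφ
  obtain ⟨f, hf⟩ : ∃ f : ℝ → ℝ, f = fun s => φ (cyl r s z) := ⟨_, rfl⟩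
  have hfs : ContDiff ℝ ((⊤ : ℕ∞) : WithTop ℕ∞) f := by
    rw [hf]
    exact (h2 φ hφs r t z).2.2.2.2.1
  have hf1 : ContDiff ℝ 1 f := hfs.of_le (by exact_mod_cast le_top)
  have hfa : ∀ s, f (s + Real.pi / n) = -f s := by
    intro s
    rw [hf]
    dsimp only
    rw [← h1.2.2.2.2.2.2.2.2 (Real.pi / n) r s z, hanti]
  have hd : ∀ s, deriv f s = r * (-Real.sin s * pd 0 φ (cyl r s z) +
      Real.cos s * pd 1 φ (cyl r s z)) := by
    intro s
    rw [hf]
    exact (h2 φ hφs r s z).2.1.deriv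
  have hz := h3 f n hn hf1 hfa t
  have hcont : Continuous (fun s => 4 * |f s| ^ 3 * |deriv f s|) :=
    (continuous_const.mul (hf1.continuous.abs.pow 3)).mul (hf1.continuous_deriv le_rfl).abs
  have hpi : -Real.pi ≤ Real.pi := by linarith [Real.pi_pos]
  have e1 : ENNReal.ofReal (∫ s in (-Real.pi)..Real.pi, 4 * |f s| ^ 3 * |deriv f s|) =
      ∫⁻ s in Ioo (-Real.pi) Real.pi, ENNReal.ofReal (4 * |f s| ^ 3 * |deriv f s|) := by
    rw [intervalIntegral.integral_of_le hpi, restrict_Ioo_eq_restrict_Ioc]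
    refine ofReal_integral_eq_lintegral_ofReal ?_ ?_
    · exact (hcont.integrableOn_Icc (a := -Real.pi) (b := Real.pi)).mono_set Ioc_subset_Icc_self
    · exact Filter.Eventually.of_forall fun s => by positivity
  calc 4 * (n : ℝ≥0∞) * ENNReal.ofReal (φ (cyl r t z) ^ 4)
      = ENNReal.ofReal (4 * (n : ℝ) * f t ^ 4) := by
        rw [ENNReal.ofReal_mul (by positivity), ENNReal.ofReal_mul (by norm_num), hf,
          ENNReal.ofReal_natCast]
        norm_num
    _ ≤ ENNReal.ofReal (∫ s in (-Real.pi)..Real.pi, 4 * |f s| ^ 3 * |deriv f s|) :=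
        ENNReal.ofReal_le_ofReal hz
    _ = ∫⁻ s in Ioo (-Real.pi) Real.pi, ENNReal.ofReal (4 * |f s| ^ 3 * |deriv f s|) := e1
    _ ≤ ∫⁻ s in Ioo (-Real.pi) Real.pi, ENNReal.ofReal r * KK φ (cyl r s z) := by
        refine lintegral_mono fun s => ?_
        unfold KK
        rw [← ENNReal.ofReal_mul hr.le]
        refine ENNReal.ofReal_le_ofReal ?_
        rw [hd, Fin.sum_univ_three, hf]
        dsimp only
        have h4 := GNB_bound r s (pd 0 φ (cyl r s z)) (pd 1 φ (cyl r s z)) (pd 2 φ (cyl r s z)) hr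
        calc 4 * |φ (cyl r s z)| ^ 3 * |r * (-Real.sin s * pd 0 φ (cyl r s z) +
              Real.cos s * pd 1 φ (cyl r s z))|
            ≤ 4 * |φ (cyl r s z)| ^ 3 * (r * Real.sqrt (pd 0 φ (cyl r s z) ^ 2 +
                pd 1 φ (cyl r s z) ^ 2 + pd 2 φ (cyl r s z) ^ 2)) :=
              mul_le_mul_of_nonneg_left h4 (by positivity)
          _ = _ := by ring

end Pool.Agent.Work.MP_d5b3be_an.BN
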