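import Pool.Agent.Work.MP_d5b3be_an.BN.Stmts

/-!
# Block BN, item GNC: the vertical bound
-/

set_option autoImplicit false

namespace Pool.Agent.Work.MP_d5b3be_an.BN

open MeasureTheory Filter Set
open scoped ENNReal Topology ContDiff

theorem GNC_bound (f : ℝ → ℝ) (hf : ContDiff ℝ 1 f) (hc : HasCompactSupport f) (x : ℝ) :
    2 * ‖f x‖ₑ ≤ ∫⁻ y, ‖deriv f y‖ₑ := by
  have h1 := hc.enorm_le_lintegral_Ici_deriv hf x
  have h2 : ‖f x‖ₑ ≤ ∫⁻ y in Ioi x, ‖deriv f y‖ₑ := by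
    have hf2 : ContDiff ℝ 1 (fun s => f (-s)) := hf.comp contDiff_neg
    have hc2 : HasCompactSupport (fun s => f (-s)) := hc.comp_homeomorph (Homeomorph.neg ℝ)
    have h3 := hc2.enorm_le_lintegral_Ici_deriv hf2 (-x)
    simp only [neg_neg] at h3
    refine h3.trans (le_of_eq ?_)
    have h4 : ∀ y, deriv (fun s => f (-s)) y = - deriv f (-y) := fun y => deriv_comp_neg f y
    simp only [h4, enorm_neg]
    have h5 := (Measure.measurePreserving_neg (volume : Measure ℝ)).setLIntegral_comp_preimage_emb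
      (MeasurableEquiv.neg ℝ).measurableEmbedding (fun y => ‖deriv f y‖ₑ) (Ici x)
    have h6 : (Neg.neg ⁻¹' Ici x : Set ℝ) = Iic (-x) := by
      ext y
      simp only [mem_preimage, mem_Ici, mem_Iic]
      constructor <;> intro h <;> linarith
    rw [h6] at h5
    rw [h5]
    exact (setLIntegral_congr Ioi_ae_eq_Ici).symm
  calc 2 * ‖f x‖ₑ = ‖f x‖ₑ + ‖f x‖ₑ := two_mul _
    _ ≤ (∫⁻ y in Iic x, ‖deriv f y‖ₑ) + ∫⁻ y in Ioi x, ‖deriv f y‖ₑ := add_le_add h1 h2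
    _ = ∫⁻ y, ‖deriv f y‖ₑ := by
        rw [← compl_Iic]
        exact lintegral_add_compl _ measurableSet_Iic

theorem prfGNC (hD : CYD) : GNC := by
  intro φ hφ hc r t z
  obtain ⟨_, _, _, _, _, hs⟩ := hD φ hφ r t z
  have hg : ContDiff ℝ 1 (fun s => φ (cyl r t s) ^ 4) := by
    have h1 : ContDiff ℝ 1 (fun s => φ (cyl r t s)) := hs.of_le (by
      exact WithTop.coe_le_coe.2 (le_top : ((1 : ℕ) : ℕ∞) ≤ ⊤))
    exact h1.pow 4
  have hgc : HasCompactSupport (fun s => φ (cyl r t s) ^ 4) := by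
    refine HasCompactSupport.intro (K := (fun x : E3 => x 2) '' tsupport φ)
      (IsCompact.image hc (continuous_apply 2)) ?_
    intro s hs
    have h1 : φ (cyl r t s) = 0 := by
      by_contra h
      exact hs ⟨cyl r t s, subset_tsupport φ h, rfl⟩
    simp [h1]
  have h2 := GNC_bound _ hg hgc z
  have h3 : ‖φ (cyl r t z) ^ 4‖ₑ = ENNReal.ofReal (φ (cyl r t z) ^ 4) :=
    Real.enorm_of_nonneg (by positivity)
  rw [h3] at h2
  refine h2.trans (lintegral_mono fun s => ?_)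
  have h4 : HasDerivAt (fun s => φ (cyl r t s) ^ 4)
      (4 * φ (cyl r t s) ^ 3 * pd 2 φ (cyl r t s)) s := by
    have h5 := ((hD φ hφ r t s).2.2.1).pow 4
    have h6 : (((4 : ℕ) : ℝ) * φ (cyl r t s) ^ (4 - 1) * pd 2 φ (cyl r t s)) =
        4 * φ (cyl r t s) ^ 3 * pd 2 φ (cyl r t s) := by norm_num
    rw [h6] at h5
    exact h5
  show ‖deriv (fun s => φ (cyl r t s) ^ 4) s‖ₑ ≤ KK φ (cyl r t s)
  rw [h4.deriv, Real.enorm_eq_ofReal_abs]
  unfold KK
  apply ENNReal.ofReal_le_ofReal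
  rw [abs_mul, abs_mul, abs_pow, abs_of_nonneg (by norm_num : (0 : ℝ) ≤ 4)]
  refine mul_le_mul_of_nonneg_left ?_ (by positivity)
  apply Real.abs_le_sqrt
  rw [Fin.sum_univ_three]
  nlinarith [sq_nonneg (pd 0 φ (cyl r t s)), sq_nonneg (pd 1 φ (cyl r t s))]

end Pool.Agent.Work.MP_d5b3be_an.BN

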