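import Pool.Agent.Work.MP_d5b3be_an.BN.Stmts

/-!
# Block BN, item GNI: the Gagliardo-Nirenberg-Sobolev inequality of the class
-/

set_option autoImplicit false

namespace Pool.Agent.Work.MP_d5b3be_an.BN

open MeasureTheory Filter Set
open scoped ENNReal Topology ContDiff

theorem GNI_cyl : Continuous fun p : ℝ × ℝ × ℝ => cyl p.1 p.2.1 p.2.2 := by
  refine continuous_pi fun i => ?_
  fin_cases i
  · show Continuous fun p : ℝ × ℝ × ℝ => p.1 * Real.cos p.2.1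
    fun_prop
  · show Continuous fun p : ℝ × ℝ × ℝ => p.1 * Real.sin p.2.1
    fun_prop
  · show Continuous fun p : ℝ × ℝ × ℝ => p.2.2
    fun_prop

theorem GNI_pd {φ : E3 → ℝ} (h : ContDiff ℝ ((⊤ : ℕ∞) : WithTop ℕ∞) φ) (i : Fin 3) :
    Continuous (pd i φ) :=
  (h.continuous_fderiv (by simp)).clm_apply continuous_const

theorem GNI_KK {φ : E3 → ℝ} (h : ContDiff ℝ ((⊤ : ℕ∞) : WithTop ℕ∞) φ) : Continuous (KK φ) := by
  have h0 := h.continuous
  have h1 : Continuous fun x => Real.sqrt (∑ i, pd i φ x ^ 2) :=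
    (continuous_finsetSum _ fun i _ => (GNI_pd h i).pow 2).sqrt
  exact ENNReal.continuous_ofReal.comp ((continuous_const.mul (h0.abs.pow 3)).mul h1)

theorem GNI_F {φ : E3 → ℝ} (h : ContDiff ℝ ((⊤ : ℕ∞) : WithTop ℕ∞) φ) :
    Measurable fun p : ℝ × ℝ × ℝ => ENNReal.ofReal p.1 * KK φ (cyl p.1 p.2.1 p.2.2) :=
  (ENNReal.measurable_ofReal.comp measurable_fst).mul ((GNI_KK h).comp GNI_cyl).measurable

theorem prfGNI (hCYI : CYI) (hLWI : LWI) (hA : GNA) (hB : GNB) (hC : GNC) : GNI := by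
  intro Ω n φ hn hφ
  have hs := hφ.1.1
  have hcs := hφ.1.2.1
  have hn0 : (n : ℝ≥0∞) ≠ 0 := by
    have : n ≠ 0 := by omega
    exact_mod_cast this
  have hnt : (n : ℝ≥0∞) ≠ ⊤ := ENNReal.natCast_ne_top n
  set K : ℝ≥0∞ := ∫⁻ x, KK φ x with hK
  set μ : Measure ℝ := volume.restrict (Ioi 0) with hμ
  set ν : Measure ℝ := volume.restrict (Ioo (-Real.pi) Real.pi) with hν
  let F : ℝ → ℝ → ℝ → ℝ≥0∞ := fun r t z => ENNReal.ofReal r * KK φ (cyl r t z)
  have hF : Measurable fun p : ℝ × ℝ × ℝ => F p.1 p.2.1 p.2.2 := GNI_F hs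
  let A : ℝ → ℝ → ℝ≥0∞ := fun t z => ∫⁻ s, F s t z ∂μ
  let B : ℝ → ℝ → ℝ≥0∞ := fun r z => (4 * (n : ℝ≥0∞))⁻¹ * ∫⁻ s, F r s z ∂ν
  let C : ℝ → ℝ → ℝ≥0∞ := fun r t => 2⁻¹ * ∫⁻ s, F r t s
  have mA : Measurable (Function.uncurry A) := by
    have h1 : Measurable fun q : (ℝ × ℝ) × ℝ => F q.2 q.1.1 q.1.2 :=
      hF.comp (measurable_snd.prodMk (measurable_fst.fst.prodMk measurable_fst.snd))
    exact h1.lintegral_prod_right'
  have mB : Measurable (Function.uncurry B) := by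
    have h1 : Measurable fun q : (ℝ × ℝ) × ℝ => F q.1.1 q.2 q.1.2 :=
      hF.comp (measurable_fst.fst.prodMk (measurable_snd.prodMk measurable_fst.snd))
    exact (h1.lintegral_prod_right' (ν := ν)).const_mul _
  have mC : Measurable (Function.uncurry C) := by
    have h1 : Measurable fun q : (ℝ × ℝ) × ℝ => F q.1.1 q.1.2 q.2 :=
      hF.comp (measurable_fst.fst.prodMk (measurable_fst.snd.prodMk measurable_snd))
    exact (h1.lintegral_prod_right' (ν := volume)).const_mul _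
  have hKc : K = ∫⁻ z, ∫⁻ t, ∫⁻ r, F r t z ∂μ ∂ν := hCYI (KK φ) (GNI_KK hs).measurable
  -- the three double integrals
  have iA : ∫⁻ z, ∫⁻ t, A t z ∂ν = K := hKc.symm
  have iB : ∫⁻ z, ∫⁻ r, B r z ∂μ = (4 * (n : ℝ≥0∞))⁻¹ * K := by
    have h1 : ∀ z, ∫⁻ r, B r z ∂μ = (4 * (n : ℝ≥0∞))⁻¹ * ∫⁻ t, ∫⁻ r, F r t z ∂μ ∂ν := by
      intro z
      have m1 : Measurable fun q : ℝ × ℝ => F q.1 q.2 z :=
        hF.comp (measurable_fst.prodMk (measurable_snd.prodMk measurable_const))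
      have m2 : Measurable fun r => ∫⁻ s, F r s z ∂ν := m1.lintegral_prod_right'
      rw [lintegral_const_mul _ m2]
      congr 1
      exact lintegral_lintegral_swap m1.aemeasurable
    simp_rw [h1]
    have m3 : Measurable fun z => ∫⁻ t, ∫⁻ r, F r t z ∂μ ∂ν := by
      have e1 : Measurable fun q : ℝ × ℝ => ∫⁻ r, F r q.2 q.1 ∂μ := by
        have h1 : Measurable fun q : (ℝ × ℝ) × ℝ => F q.2 q.1.2 q.1.1 :=
          hF.comp (measurable_snd.prodMk (measurable_fst.snd.prodMk measurable_fst.fst))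
        exact h1.lintegral_prod_right'
      exact e1.lintegral_prod_right'
    rw [lintegral_const_mul _ m3, ← hKc]
  have iC : ∫⁻ t, ∫⁻ r, C r t ∂μ ∂ν = 2⁻¹ * K := by
    have h1 : ∀ t, ∫⁻ r, C r t ∂μ = 2⁻¹ * ∫⁻ z, ∫⁻ r, F r t z ∂μ := by
      intro t
      have m1 : Measurable fun q : ℝ × ℝ => F q.1 t q.2 :=
        hF.comp (measurable_fst.prodMk (measurable_const.prodMk measurable_snd))
      have m2 : Measurable fun r => ∫⁻ s, F r t s := m1.lintegral_prod_right'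
      rw [lintegral_const_mul _ m2]
      congr 1
      exact lintegral_lintegral_swap m1.aemeasurable
    simp_rw [h1]
    have e1 : Measurable fun q : ℝ × ℝ => ∫⁻ r, F r q.1 q.2 ∂μ := by
      have h1 : Measurable fun q : (ℝ × ℝ) × ℝ => F q.2 q.1.1 q.1.2 :=
        hF.comp (measurable_snd.prodMk (measurable_fst.fst.prodMk measurable_fst.snd))
      exact h1.lintegral_prod_right'
    have m3 : Measurable fun t => ∫⁻ z, ∫⁻ r, F r t z ∂μ := e1.lintegral_prod_right'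
    rw [lintegral_const_mul _ m3, hKc]
    congr 1
    exact lintegral_lintegral_swap e1.aemeasurable
  -- the pointwise inequality
  have hpt : ∀ r t z : ℝ, 0 < r → ENNReal.ofReal r * ENNReal.ofReal (φ (cyl r t z) ^ 6) ≤
      (A t z) ^ (1 / 2 : ℝ) * (B r z) ^ (1 / 2 : ℝ) * (C r t) ^ (1 / 2 : ℝ) := by
    intro r t z hr
    set y : ℝ := φ (cyl r t z) with hy
    have a1 : ENNReal.ofReal (r * y ^ 4) ≤ A t z := hA φ hs hcs r t z hr
    have b1 : ENNReal.ofReal (y ^ 4) ≤ B r z := by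
      have h1 := hB Ω n φ hn hφ r t z hr
      have h2 : (4 * (n : ℝ≥0∞)) ≠ 0 := mul_ne_zero (by norm_num) hn0
      have h3 : (4 * (n : ℝ≥0∞)) ≠ ⊤ := ENNReal.mul_ne_top (by norm_num) hnt
      have h4 : ENNReal.ofReal (y ^ 4) =
          (4 * (n : ℝ≥0∞))⁻¹ * (4 * (n : ℝ≥0∞) * ENNReal.ofReal (y ^ 4)) := by
        rw [← mul_assoc, ENNReal.inv_mul_cancel h2 h3, one_mul]
      rw [h4]
      exact mul_le_mul_right h1 _
    have c1 : ENNReal.ofReal (r * y ^ 4) ≤ C r t := by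
      have h1 := hC φ hs hcs r t z
      have m1 : Measurable fun s => KK φ (cyl r t s) :=
        ((GNI_KK hs).comp (GNI_cyl.comp (by fun_prop : Continuous fun s : ℝ => (r, t, s)))).measurable
      have h2 : ∫⁻ s, F r t s = ENNReal.ofReal r * ∫⁻ s, KK φ (cyl r t s) :=
        lintegral_const_mul _ m1
      show ENNReal.ofReal (r * y ^ 4) ≤ 2⁻¹ * ∫⁻ s, F r t s
      rw [h2, ENNReal.ofReal_mul hr.le]
      have h4 : ENNReal.ofReal r * ENNReal.ofReal (y ^ 4) =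
          2⁻¹ * (ENNReal.ofReal r * (2 * ENNReal.ofReal (y ^ 4))) := by
        rw [mul_left_comm (ENNReal.ofReal r) 2, ← mul_assoc 2⁻¹ 2,
          ENNReal.inv_mul_cancel (by norm_num) (by norm_num), one_mul]
      rw [h4]
      exact mul_le_mul_right (mul_le_mul_right h1 _) _
    have e : ENNReal.ofReal r * ENNReal.ofReal (y ^ 6) =
        (ENNReal.ofReal (r * y ^ 4)) ^ (1 / 2 : ℝ) * (ENNReal.ofReal (y ^ 4)) ^ (1 / 2 : ℝ) *
          (ENNReal.ofReal (r * y ^ 4)) ^ (1 / 2 : ℝ) := by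
      have hy4 : 0 ≤ y ^ 4 := by positivity
      have hry : 0 ≤ r * y ^ 4 := by positivity
      rw [ENNReal.ofReal_rpow_of_nonneg hry (by norm_num),
        ENNReal.ofReal_rpow_of_nonneg hy4 (by norm_num), ← ENNReal.ofReal_mul hr.le,
        ← ENNReal.ofReal_mul (by positivity), ← ENNReal.ofReal_mul (by positivity)]
      congr 1
      rw [← Real.sqrt_eq_rpow, ← Real.sqrt_eq_rpow]
      have s1 : Real.sqrt (y ^ 4) = y ^ 2 := by
        rw [show y ^ 4 = (y ^ 2) ^ 2 by ring, Real.sqrt_sq (by positivity)]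
      have s2 : Real.sqrt (r * y ^ 4) * Real.sqrt (r * y ^ 4) = r * y ^ 4 := Real.mul_self_sqrt hry
      calc r * y ^ 6 = (Real.sqrt (r * y ^ 4) * Real.sqrt (r * y ^ 4)) * y ^ 2 := by rw [s2]; ring
        _ = Real.sqrt (r * y ^ 4) * Real.sqrt (y ^ 4) * Real.sqrt (r * y ^ 4) := by rw [s1]; ring
    rw [e]
    gcongr
  -- conclusion
  have hI : ∫⁻ x, ENNReal.ofReal (φ x ^ 6) ≤
      K ^ (1 / 2 : ℝ) * ((4 * (n : ℝ≥0∞))⁻¹ * K) ^ (1 / 2 : ℝ) * (2⁻¹ * K) ^ (1 / 2 : ℝ) := by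
    have m6 : Measurable fun x => ENNReal.ofReal (φ x ^ 6) :=
      ENNReal.measurable_ofReal.comp (hs.continuous.pow 6).measurable
    rw [hCYI (fun x => ENNReal.ofReal (φ x ^ 6)) m6]
    have h1 := hLWI μ ν volume A B C mA mB mC
    rw [iA, iB, iC] at h1
    refine le_trans ?_ h1
    refine lintegral_mono fun z => lintegral_mono fun t => ?_
    refine setLIntegral_mono' measurableSet_Ioi fun r hr => ?_
    exact hpt r t z hr
  have hsq : ∀ x : ℝ≥0∞, (x ^ (1 / 2 : ℝ)) ^ 2 = x := by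
    intro x
    rw [← ENNReal.rpow_natCast, ← ENNReal.rpow_mul]
    norm_num
  calc 8 * (n : ℝ≥0∞) * (∫⁻ x, ENNReal.ofReal (φ x ^ 6)) ^ 2
      ≤ 8 * (n : ℝ≥0∞) * (K ^ (1 / 2 : ℝ) * ((4 * (n : ℝ≥0∞))⁻¹ * K) ^ (1 / 2 : ℝ) *
        (2⁻¹ * K) ^ (1 / 2 : ℝ)) ^ 2 := by gcongr
    _ = 8 * (n : ℝ≥0∞) * (K * ((4 * (n : ℝ≥0∞))⁻¹ * K) * (2⁻¹ * K)) := by
        rw [mul_pow, mul_pow, hsq, hsq, hsq]
    _ = ((4 * (n : ℝ≥0∞)) * (4 * (n : ℝ≥0∞))⁻¹) * (2 * 2⁻¹) * K ^ 3 := by ring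
    _ = K ^ 3 := by
        rw [ENNReal.mul_inv_cancel (mul_ne_zero (by norm_num) hn0)
          (ENNReal.mul_ne_top (by norm_num) hnt), ENNReal.mul_inv_cancel (by norm_num) (by norm_num)]
        ring

end Pool.Agent.Work.MP_d5b3be_an.BN
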