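import Pool.Agent.Work.MP_d5b3be_an.BN.Stmts2

/-! # Block BN, item HCW: weak limits stay in the closure -/

set_option autoImplicit false

namespace Pool.Agent.Work.MP_d5b3be_an.BN

open MeasureTheory Filter Set
open scoped ENNReal Topology ContDiff

/-- the Hilbert space of the pairs -/
abbrev HCW_X : Type := PiLp 2 (fun _ : Fin 4 => Lp ℝ 2 (volume : Measure E3))

theorem HCW_pd_cont (φ : E3 → ℝ) (h : ContDiff ℝ ((⊤ : ℕ∞) : WithTop ℕ∞) φ) (i : Fin 3) :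
    Continuous (pd i φ) := by
  have h1 : Continuous (fderiv ℝ φ) := h.continuous_fderiv (by simp)
  exact h1.clm_apply continuous_const

theorem HCW_pd_cs (φ : E3 → ℝ) (hc : HasCompactSupport φ) (i : Fin 3) : HasCompactSupport (pd i φ) := by
  have h1 := hc.fderiv (𝕜 := ℝ)
  exact h1.comp_left (g := fun L : E3 →L[ℝ] ℝ => L (Pi.single i (1 : ℝ))) rfl

theorem HCW_m0 (φ : E3 → ℝ) (h : ContDiff ℝ ((⊤ : ℕ∞) : WithTop ℕ∞) φ) (hc : HasCompactSupport φ) :
    MemLp φ 2 volume := h.continuous.memLp_of_hasCompactSupport hc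

theorem HCW_m1 (φ : E3 → ℝ) (h : ContDiff ℝ ((⊤ : ℕ∞) : WithTop ℕ∞) φ) (hc : HasCompactSupport φ)
    (i : Fin 3) : MemLp (pd i φ) 2 volume :=
  (HCW_pd_cont φ h i).memLp_of_hasCompactSupport (HCW_pd_cs φ hc i)

theorem HCW_pd_lin (φ ψ : E3 → ℝ) (hφ : ContDiff ℝ ((⊤ : ℕ∞) : WithTop ℕ∞) φ)
    (hψ : ContDiff ℝ ((⊤ : ℕ∞) : WithTop ℕ∞) ψ) (a b : ℝ) (i : Fin 3) (x : E3) :
    pd i (fun x => a * φ x + b * ψ x) x = a * pd i φ x + b * pd i ψ x := by
  have h1 : DifferentiableAt ℝ φ x := (hφ.differentiable (by simp)) x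
  have h2 : DifferentiableAt ℝ ψ x := (hψ.differentiable (by simp)) x
  have h3 : HasFDerivAt (fun x => a * φ x + b * ψ x) (a • fderiv ℝ φ x + b • fderiv ℝ ψ x) x :=
    (h1.hasFDerivAt.const_mul a).add (h2.hasFDerivAt.const_mul b)
  unfold pd
  rw [h3.fderiv]
  rfl

/-- the vector of a pair -/
noncomputable def HCW_vec (u : E3 → ℝ) (g : Fin 3 → E3 → ℝ) (hu : MemLp u 2 volume)
    (hg : ∀ i, MemLp (g i) 2 volume) : HCW_X :=
  WithLp.toLp 2 (Fin.cons (α := fun _ => Lp ℝ 2 (volume : Measure E3)) (hu.toLp u)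
    (fun i => (hg i).toLp (g i)))

theorem HCW_vec_zero (u : E3 → ℝ) (g : Fin 3 → E3 → ℝ) (hu : MemLp u 2 volume)
    (hg : ∀ i, MemLp (g i) 2 volume) : (HCW_vec u g hu hg) 0 = hu.toLp u := rfl

theorem HCW_vec_succ (u : E3 → ℝ) (g : Fin 3 → E3 → ℝ) (hu : MemLp u 2 volume)
    (hg : ∀ i, MemLp (g i) 2 volume) (i : Fin 3) :
    (HCW_vec u g hu hg) i.succ = (hg i).toLp (g i) := rfl

theorem HCW_inner (u : E3 → ℝ) (g : Fin 3 → E3 → ℝ) (hu : MemLp u 2 volume)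
    (hg : ∀ i, MemLp (g i) 2 volume) (y : HCW_X) :
    inner ℝ (HCW_vec u g hu hg) y =
      (∫ x, u x * (y 0 : E3 → ℝ) x) + ∑ i : Fin 3, ∫ x, g i x * (y i.succ : E3 → ℝ) x := by
  rw [PiLp.inner_apply, Fin.sum_univ_succ]
  congr 1
  · rw [MeasureTheory.L2.inner_def, HCW_vec_zero]
    apply integral_congr_ae
    filter_upwards [hu.coeFn_toLp] with x hx
    rw [hx]
    simp [mul_comm]
  · apply Finset.sum_congr rfl
    intro i _
    rw [MeasureTheory.L2.inner_def, HCW_vec_succ]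
    apply integral_congr_ae
    filter_upwards [(hg i).coeFn_toLp] with x hx
    rw [hx]
    simp [mul_comm]

/-- the classes of the pairs -/
def HCW_M (T : (E3 → ℝ) → Prop) (hT : Cl T) : Submodule ℝ HCW_X where
  carrier := {v | ∃ φ : E3 → ℝ, T φ ∧ (v 0 : E3 → ℝ) =ᵐ[volume] φ ∧
    ∀ i : Fin 3, (v i.succ : E3 → ℝ) =ᵐ[volume] pd i φ}
  add_mem' := by
    rintro v w ⟨φ, hφ, h0, h1⟩ ⟨ψ, hψ, k0, k1⟩
    refine ⟨fun x => 1 * φ x + 1 * ψ x, hT.2.2 φ ψ 1 1 hφ hψ, ?_, ?_⟩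
    · rw [PiLp.add_apply]
      filter_upwards [Lp.coeFn_add (v 0) (w 0), h0, k0] with x e1 e2 e3
      rw [e1, Pi.add_apply, e2, e3, one_mul, one_mul]
    · intro i
      rw [PiLp.add_apply]
      filter_upwards [Lp.coeFn_add (v i.succ) (w i.succ), h1 i, k1 i] with x e1 e2 e3
      rw [e1, Pi.add_apply, e2, e3, HCW_pd_lin φ ψ (hT.1 φ hφ).1 (hT.1 ψ hψ).1, one_mul, one_mul]
  zero_mem' := by
    refine ⟨fun _ => 0, hT.2.1, ?_, ?_⟩
    · rw [PiLp.zero_apply]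
      filter_upwards [Lp.coeFn_zero ℝ 2 (volume : Measure E3)] with x e1
      rw [e1]; rfl
    · intro i
      rw [PiLp.zero_apply]
      filter_upwards [Lp.coeFn_zero ℝ 2 (volume : Measure E3)] with x e1
      rw [e1]
      unfold pd
      simp
  smul_mem' := by
    rintro c v ⟨φ, hφ, h0, h1⟩
    refine ⟨fun x => c * φ x + 0 * φ x, hT.2.2 φ φ c 0 hφ hφ, ?_, ?_⟩
    · rw [PiLp.smul_apply]
      filter_upwards [Lp.coeFn_smul c (v 0), h0] with x e1 e2
      rw [e1, Pi.smul_apply, e2, smul_eq_mul, zero_mul, add_zero]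
    · intro i
      rw [PiLp.smul_apply]
      filter_upwards [Lp.coeFn_smul c (v i.succ), h1 i] with x e1 e2
      rw [e1, Pi.smul_apply, e2, HCW_pd_lin φ φ (hT.1 φ hφ).1 (hT.1 φ hφ).1, smul_eq_mul,
        zero_mul, add_zero]

theorem prfHCW : HCW := by
  intro T φ u g hT hφ hu hg hwu hwg
  refine ⟨hu, hg, ?_⟩
  have hm0 : ∀ k, MemLp (φ k) 2 volume := fun k => HCW_m0 (φ k) (hT.1 _ (hφ k)).1 (hT.1 _ (hφ k)).2
  have hm1 : ∀ k i, MemLp (pd i (φ k)) 2 volume :=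
    fun k i => HCW_m1 (φ k) (hT.1 _ (hφ k)).1 (hT.1 _ (hφ k)).2 i
  have hmem : HCW_vec u g hu hg ∈ (HCW_M T hT).topologicalClosure := by
    rw [← Submodule.orthogonal_orthogonal_eq_closure, Submodule.mem_orthogonal]
    intro y hy
    rw [Submodule.mem_orthogonal] at hy
    have h1 : ∀ k, inner ℝ (HCW_vec (φ k) (fun i => pd i (φ k)) (hm0 k) (hm1 k)) y = 0 := by
      intro k
      apply hy
      exact ⟨φ k, hφ k, (hm0 k).coeFn_toLp, fun i => (hm1 k i).coeFn_toLp⟩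
    have h2 : Tendsto (fun k => inner ℝ (HCW_vec (φ k) (fun i => pd i (φ k)) (hm0 k) (hm1 k)) y)
        atTop (𝓝 (inner ℝ (HCW_vec u g hu hg) y)) := by
      rw [HCW_inner]
      have h3 : (fun k => inner ℝ (HCW_vec (φ k) (fun i => pd i (φ k)) (hm0 k) (hm1 k)) y) =
          fun k => (∫ x, φ k x * (y 0 : E3 → ℝ) x) +
            ∑ i : Fin 3, ∫ x, pd i (φ k) x * (y i.succ : E3 → ℝ) x := by
        funext k
        rw [HCW_inner]
      rw [h3]
      refine (hwu _ (Lp.memLp (y 0))).add ?_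
      exact tendsto_finsetSum _ fun i _ => hwg i _ (Lp.memLp (y i.succ))
    have h4 : inner ℝ (HCW_vec u g hu hg) y = 0 := by
      refine tendsto_nhds_unique h2 ?_
      simp only [h1]
      exact tendsto_const_nhds
    rw [real_inner_comm]
    exact h4
  rw [← SetLike.mem_coe, Submodule.topologicalClosure_coe, mem_closure_iff_seq_limit] at hmem
  obtain ⟨v, hv, hlim⟩ := hmem
  choose ψ hψ hψ0 hψ1 using hv
  have hcomp : ∀ j : Fin 4, Tendsto (fun n => v n j) atTop (𝓝 ((HCW_vec u g hu hg) j)) := by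
    intro j
    have h1 := (PiLp.continuous_apply 2 (fun _ : Fin 4 => Lp ℝ 2 (volume : Measure E3)) j).tendsto
      (HCW_vec u g hu hg)
    exact h1.comp hlim
  refine ⟨ψ, hψ, ?_, ?_⟩
  · have h1 := (Lp.tendsto_Lp_iff_tendsto_eLpNorm' _ _).1 (hcomp 0)
    refine h1.congr fun n => ?_
    apply eLpNorm_congr_ae
    rw [HCW_vec_zero]
    filter_upwards [hψ0 n, hu.coeFn_toLp] with x e1 e2
    rw [Pi.sub_apply, e1, e2]
  · intro i
    have h1 := (Lp.tendsto_Lp_iff_tendsto_eLpNorm' _ _).1 (hcomp i.succ)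
    refine h1.congr fun n => ?_
    apply eLpNorm_congr_ae
    rw [HCW_vec_succ]
    filter_upwards [hψ1 n i, (hg i).coeFn_toLp] with x e1 e2
    rw [Pi.sub_apply, e1, e2]

end Pool.Agent.Work.MP_d5b3be_an.BN
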