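import Pool.Agent.Work.MP_d5b3be_an.BN.Stmts

/-!
# Block BN, item HOL: Hölder's inequality on a set of finite measure
-/

set_option autoImplicit false

namespace Pool.Agent.Work.MP_d5b3be_an.BN

open MeasureTheory Filter Set
open scoped ENNReal Topology ContDiff

theorem prfHOL : HOL := by
  intro φ S v hc hcs hS h0 hv hvol
  have hpq : (3 : ℝ).HolderConjugate (3 / 2) :=
    Real.holderConjugate_iff.2 ⟨by norm_num, by norm_num⟩
  have c2 : Continuous (fun x => φ x ^ 2) := hc.pow 2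
  have c6 : Continuous (fun x => φ x ^ 6) := hc.pow 6
  have s2 : HasCompactSupport (fun x => φ x ^ 2) :=
    hcs.comp_left (g := fun t : ℝ => t ^ 2) (by norm_num)
  have s6 : HasCompactSupport (fun x => φ x ^ 6) :=
    hcs.comp_left (g := fun t : ℝ => t ^ 6) (by norm_num)
  have i2 : Integrable (fun x => φ x ^ 2) := c2.integrable_of_hasCompactSupport s2
  have i6 : Integrable (fun x => φ x ^ 6) := c6.integrable_of_hasCompactSupport s6
  have p2 : 0 ≤ Q2 φ := integral_nonneg fun x => by positivity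
  have p6 : 0 ≤ N6 φ := integral_nonneg fun x => Even.pow_nonneg (by decide) _
  have e2 : ENNReal.ofReal (Q2 φ) = ∫⁻ x, ENNReal.ofReal (φ x ^ 2) :=
    ofReal_integral_eq_lintegral_ofReal i2 (Eventually.of_forall fun x => by positivity)
  have e6 : ENNReal.ofReal (N6 φ) = ∫⁻ x, ENNReal.ofReal (φ x ^ 6) :=
    ofReal_integral_eq_lintegral_ofReal i6
      (Eventually.of_forall fun x => Even.pow_nonneg (by decide) _)
  have hfm : AEMeasurable (fun x : E3 => ENNReal.ofReal (φ x ^ 2)) volume :=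
    (hc.pow 2).measurable.ennreal_ofReal.aemeasurable
  have hgm : AEMeasurable (S.indicator (1 : E3 → ℝ≥0∞)) volume :=
    (measurable_one.indicator hS).aemeasurable
  have key := ENNReal.lintegral_mul_le_Lp_mul_Lq volume hpq hfm hgm
  have k1 : ∫⁻ x, ((fun x : E3 => ENNReal.ofReal (φ x ^ 2)) * S.indicator (1 : E3 → ℝ≥0∞)) x
      = ∫⁻ x, ENNReal.ofReal (φ x ^ 2) := by
    refine lintegral_congr fun x => ?_
    by_cases hx : x ∈ S
    · simp [hx]
    · simp [hx, h0 x hx]
  have k2 : ∫⁻ x, (ENNReal.ofReal (φ x ^ 2)) ^ (3 : ℝ) = ∫⁻ x, ENNReal.ofReal (φ x ^ 6) := by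
    refine lintegral_congr fun x => ?_
    rw [show (3 : ℝ) = ((3 : ℕ) : ℝ) by norm_num, ENNReal.rpow_natCast,
      ← ENNReal.ofReal_pow (by positivity)]
    congr 1
    ring
  have k3 : ∫⁻ x, (S.indicator (1 : E3 → ℝ≥0∞) x) ^ (3 / 2 : ℝ) = volume S := by
    have h : ∀ x, (S.indicator (1 : E3 → ℝ≥0∞) x) ^ (3 / 2 : ℝ) = S.indicator 1 x := by
      intro x
      by_cases hx : x ∈ S
      · simp [hx]
      · simp only [indicator_of_notMem hx]
        exact ENNReal.zero_rpow_of_pos (by norm_num)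
    simp_rw [h]
    exact lintegral_indicator_one hS
  rw [k1, k2, k3, ← e2, ← e6] at key
  have key3 : ENNReal.ofReal (Q2 φ) ^ 3 ≤ ENNReal.ofReal (N6 φ) * ENNReal.ofReal v ^ 2 := by
    calc ENNReal.ofReal (Q2 φ) ^ 3
        ≤ (ENNReal.ofReal (N6 φ) ^ (1 / (3 : ℝ)) * (volume S) ^ (1 / (3 / 2 : ℝ))) ^ 3 :=
          pow_le_pow_left' key 3
      _ = ENNReal.ofReal (N6 φ) * (volume S) ^ 2 := by
          rw [mul_pow, ← ENNReal.rpow_natCast, ← ENNReal.rpow_natCast, ← ENNReal.rpow_natCast,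
            ← ENNReal.rpow_mul, ← ENNReal.rpow_mul]
          norm_num
      _ ≤ ENNReal.ofReal (N6 φ) * ENNReal.ofReal v ^ 2 := by gcongr
  rw [← ENNReal.ofReal_pow p2, ← ENNReal.ofReal_pow hv, ← ENNReal.ofReal_mul p6] at key3
  have := (ENNReal.ofReal_le_ofReal_iff (by positivity)).1 key3
  linarith

end Pool.Agent.Work.MP_d5b3be_an.BN
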