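import Pool.Agent.Work.MP_d5b3be_an.BN.Stmts2

/-!
# HS6: convergence of the pairs gives convergence in `L⁶`
-/

set_option autoImplicit false

namespace Pool.Agent.Work.MP_d5b3be_an.BN

open MeasureTheory Filter Set
open scoped ENNReal Topology ContDiff

theorem HS6_norm2 {f : E3 → ℝ} (hf : MemLp f 2 volume) : ‖hf.toLp f‖ ^ 2 = ∫ x, f x ^ 2 := by
  rw [Lp.norm_toLp, hf.eLpNorm_eq_integral_rpow_norm (by norm_num) (by norm_num)]
  have h0 : 0 ≤ ∫ x, f x ^ 2 := integral_nonneg fun x => sq_nonneg _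
  have e : ∫ x, ‖f x‖ ^ (2 : ℝ≥0∞).toReal = ∫ x, f x ^ 2 := by
    refine integral_congr_ae (Eventually.of_forall fun x => ?_)
    simp only [ENNReal.toReal_ofNat, Real.rpow_ofNat, Real.norm_eq_abs, sq_abs]
  rw [e, ENNReal.toReal_ofReal (Real.rpow_nonneg h0 _), ENNReal.toReal_ofNat, ← Real.rpow_natCast,
    ← Real.rpow_mul h0]
  norm_num

theorem HS6_norm6 {f : E3 → ℝ} (hf : MemLp f 6 volume) : ‖hf.toLp f‖ ^ 6 = ∫ x, f x ^ 6 := by
  rw [Lp.norm_toLp, hf.eLpNorm_eq_integral_rpow_norm (by norm_num) (by norm_num)]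
  have h0 : 0 ≤ ∫ x, f x ^ 6 := integral_nonneg fun x => by positivity
  have e : ∫ x, ‖f x‖ ^ (6 : ℝ≥0∞).toReal = ∫ x, f x ^ 6 := by
    refine integral_congr_ae (Eventually.of_forall fun x => ?_)
    simp only [ENNReal.toReal_ofNat, Real.norm_eq_abs]
    rw [show (6 : ℝ) = ((6 : ℕ) : ℝ) by norm_num, Real.rpow_natCast]
    exact (show Even 6 by decide).pow_abs _
  rw [e, ENNReal.toReal_ofReal (Real.rpow_nonneg h0 _), ENNReal.toReal_ofNat, ← Real.rpow_natCast,
    ← Real.rpow_mul h0]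
  norm_num

theorem HS6_small (c ε : ℝ) (hc : 0 < c) (hε : 0 < ε) :
    ∃ δ : ℝ, 0 < δ ∧ (3 * δ ^ 2) ^ 3 < c * ε ^ 6 := by
  set m := min 1 (c / 28) with hm
  have hm0 : 0 < m := lt_min one_pos (by positivity)
  have hm1 : m ≤ 1 := min_le_left _ _
  have hm2 : m ≤ c / 28 := min_le_right _ _
  refine ⟨ε * m, mul_pos hε hm0, ?_⟩
  have h6 : m ^ 6 ≤ m := by
    calc m ^ 6 ≤ m ^ 1 := pow_le_pow_of_le_one hm0.le hm1 (by norm_num)
      _ = m := pow_one m
  have hε6 : 0 < ε ^ 6 := by positivity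
  have : (3 * (ε * m) ^ 2) ^ 3 = 27 * (ε ^ 6 * m ^ 6) := by ring
  rw [this]
  have h7 : ε ^ 6 * m ^ 6 ≤ ε ^ 6 * (c / 28) := mul_le_mul_of_nonneg_left (h6.trans hm2) hε6.le
  have h8 : 0 < ε ^ 6 * c := by positivity
  nlinarith

theorem prfHS6 : HS6 := by
  intro T c u g φ hT hc hS hu hg hφ hCu hCg
  -- regularity
  have hcont : ∀ k, Continuous (φ k) := fun k => (hT.1 _ (hφ k)).1.continuous
  have hcs : ∀ k, HasCompactSupport (φ k) := fun k => (hT.1 _ (hφ k)).2
  have hd : ∀ k, Differentiable ℝ (φ k) := fun k =>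
    (hT.1 _ (hφ k)).1.differentiable (by simp)
  have hpc : ∀ k i, Continuous (pd i (φ k)) := by
    intro k i
    have h1 : Continuous (fderiv ℝ (φ k)) := (hT.1 _ (hφ k)).1.continuous_fderiv (by simp)
    exact h1.clm_apply continuous_const
  have hps : ∀ k i, HasCompactSupport (pd i (φ k)) := by
    intro k i
    exact (hcs k).fderiv_apply (𝕜 := ℝ) _
  have hL6 : ∀ k, MemLp (φ k) 6 volume := fun k =>
    (hcont k).memLp_of_hasCompactSupport (hcs k)
  have hL2 : ∀ k, MemLp (φ k) 2 volume := fun k =>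
    (hcont k).memLp_of_hasCompactSupport (hcs k)
  have hG2 : ∀ k i, MemLp (pd i (φ k)) 2 volume := fun k i =>
    (hpc k i).memLp_of_hasCompactSupport (hps k i)
  -- convergence in `L²` of the derivatives
  have hconv : ∀ i, Tendsto (fun k => (hG2 k i).toLp (pd i (φ k))) atTop (𝓝 ((hg i).toLp (g i))) := by
    intro i
    rw [Lp.tendsto_Lp_iff_tendsto_eLpNorm'' (fun k => pd i (φ k)) (fun k => hG2 k i) (g i) (hg i)]
    exact hCg i
  have hFact : Fact ((1 : ℝ≥0∞) ≤ 6) := ⟨by norm_num⟩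
  have hcau : CauchySeq (fun k => (hL6 k).toLp (φ k)) := by
    rw [Metric.cauchySeq_iff]
    intro ε hε
    obtain ⟨δ, hδ, hδε⟩ := HS6_small c ε hc hε
    have h1 : ∀ i : Fin 3, ∃ N, ∀ k ≥ N, ∀ l ≥ N,
        dist ((hG2 k i).toLp (pd i (φ k))) ((hG2 l i).toLp (pd i (φ l))) < δ := fun i =>
      Metric.cauchySeq_iff.1 (hconv i).cauchySeq δ hδ
    choose N hN using h1
    refine ⟨N 0 + N 1 + N 2, fun k hk l hl => ?_⟩
    have hNi : ∀ i, N i ≤ N 0 + N 1 + N 2 := by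
      intro i
      fin_cases i <;> simp <;> omega
    have h2 : ∀ i, ∫ x, (pd i (φ k) x - pd i (φ l) x) ^ 2 ≤ δ ^ 2 := by
      intro i
      have h3 := hN i k ((hNi i).trans hk) l ((hNi i).trans hl)
      rw [dist_eq_norm, ← MemLp.toLp_sub] at h3
      have h4 := HS6_norm2 ((hG2 k i).sub (hG2 l i))
      have h5 : ‖((hG2 k i).sub (hG2 l i)).toLp (pd i (φ k) - pd i (φ l))‖ ^ 2 ≤ δ ^ 2 :=
        pow_le_pow_left₀ (norm_nonneg _) h3.le 2
      rw [h4] at h5
      exact h5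
    -- the difference is in the class
    have hψ : T (fun x => 1 * φ k x + (-1) * φ l x) := hT.2.2 _ _ 1 (-1) (hφ k) (hφ l)
    have hpd : ∀ i x, pd i (fun x => 1 * φ k x + (-1) * φ l x) x = pd i (φ k) x - pd i (φ l) x := by
      intro i x
      unfold pd
      have e : (fun x => 1 * φ k x + (-1) * φ l x) = fun x => φ k x - φ l x := by
        funext x
        ring
      rw [e, fderiv_fun_sub (hd k x) (hd l x)]
      rfl
    have h6 : DD (gr (fun x => 1 * φ k x + (-1) * φ l x)) ≤ 3 * δ ^ 2 := by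
      unfold DD gr
      have e : ∫ x, ∑ i, pd i (fun x => 1 * φ k x + (-1) * φ l x) x ^ 2 =
          ∑ i, ∫ x, (pd i (φ k) x - pd i (φ l) x) ^ 2 := by
        rw [← integral_finsetSum]
        · refine integral_congr_ae (Eventually.of_forall fun x => ?_)
          simp only [hpd]
        · intro i _
          exact ((hG2 k i).sub (hG2 l i)).integrable_sq
      rw [e]
      calc ∑ i, ∫ x, (pd i (φ k) x - pd i (φ l) x) ^ 2 ≤ ∑ _i : Fin 3, δ ^ 2 :=
            Finset.sum_le_sum fun i _ => h2 i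
        _ = 3 * δ ^ 2 := by simp
    have h7 : 0 ≤ DD (gr (fun x => 1 * φ k x + (-1) * φ l x)) :=
      integral_nonneg fun x => Finset.sum_nonneg fun i _ => sq_nonneg _
    have h8 := hS _ hψ
    have h9 : DD (gr (fun x => 1 * φ k x + (-1) * φ l x)) ^ 3 ≤ (3 * δ ^ 2) ^ 3 :=
      pow_le_pow_left₀ h7 h6 3
    have h10 : N6 (fun x => 1 * φ k x + (-1) * φ l x) = ∫ x, (φ k - φ l) x ^ 6 := by
      unfold N6
      refine integral_congr_ae (Eventually.of_forall fun x => ?_)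
      simp only [Pi.sub_apply]
      ring
    rw [h10, ← HS6_norm6 ((hL6 k).sub (hL6 l))] at h8
    have h11 : ‖((hL6 k).sub (hL6 l)).toLp (φ k - φ l)‖ ^ 6 < ε ^ 6 := by
      have h12 : c * ‖((hL6 k).sub (hL6 l)).toLp (φ k - φ l)‖ ^ 6 < c * ε ^ 6 :=
        lt_of_le_of_lt (h8.trans h9) hδε
      exact lt_of_mul_lt_mul_left h12 hc.le
    rw [dist_eq_norm, ← MemLp.toLp_sub]
    exact lt_of_pow_lt_pow_left₀ 6 hε.le h11
  obtain ⟨F, hF⟩ := cauchySeq_tendsto_of_complete hcau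
  rw [Lp.tendsto_Lp_iff_tendsto_eLpNorm'] at hF
  have hF' : Tendsto (fun k => eLpNorm (φ k - (F : E3 → ℝ)) 6 volume) atTop (𝓝 0) := by
    refine hF.congr fun k => ?_
    exact eLpNorm_congr_ae ((hL6 k).coeFn_toLp.sub EventuallyEq.rfl)
  have hm6 : TendstoInMeasure volume φ atTop F :=
    tendstoInMeasure_of_tendsto_eLpNorm (by norm_num) (fun k => (hL6 k).aestronglyMeasurable)
      (Lp.aestronglyMeasurable F) hF'
  have hm2 : TendstoInMeasure volume φ atTop u :=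
    tendstoInMeasure_of_tendsto_eLpNorm (p := 2) (by norm_num) (fun k => (hL2 k).aestronglyMeasurable)
      hu.aestronglyMeasurable hCu
  have huF : u =ᵐ[volume] F := tendstoInMeasure_ae_unique hm2 hm6
  refine ⟨(memLp_congr_ae huF).2 (Lp.memLp F), ?_⟩
  unfold Cv
  refine hF'.congr fun k => ?_
  exact eLpNorm_congr_ae (EventuallyEq.rfl.sub huF.symm)

end Pool.Agent.Work.MP_d5b3be_an.BN
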