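import Pool.Agent.Work.MP_d5b3be_an.BN.Stmts2

/-! Item [d5b3be BN INF] (helper63): the infimum of the quadratic form on the unit sphere of `L⁶`. -/

set_option autoImplicit false

namespace Pool.Agent.Work.MP_d5b3be_an.BN

open MeasureTheory Filter Set
open scoped ENNReal Topology ContDiff

theorem INF_N6_nonneg (φ : E3 → ℝ) : 0 ≤ N6 φ := by
  unfold N6
  apply integral_nonneg
  intro x
  change 0 ≤ φ x ^ 6
  positivity

theorem INF_Q2_nonneg (φ : E3 → ℝ) : 0 ≤ Q2 φ := by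
  unfold Q2
  apply integral_nonneg
  intro x
  change 0 ≤ φ x ^ 2
  positivity

theorem INF_N6_smul (c : ℝ) (φ : E3 → ℝ) : N6 (fun x => c * φ x) = c ^ 6 * N6 φ := by
  unfold N6
  rw [← integral_const_mul]
  apply integral_congr_ae
  refine Eventually.of_forall fun x => ?_
  change (c * φ x) ^ 6 = c ^ 6 * φ x ^ 6
  ring

theorem INF_Q2_smul (c : ℝ) (φ : E3 → ℝ) : Q2 (fun x => c * φ x) = c ^ 2 * Q2 φ := by
  unfold Q2
  rw [← integral_const_mul]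
  apply integral_congr_ae
  refine Eventually.of_forall fun x => ?_
  change (c * φ x) ^ 2 = c ^ 2 * φ x ^ 2
  ring

theorem INF_pd_smul (c : ℝ) (φ : E3 → ℝ) (hφ : ContDiff ℝ ((⊤ : ℕ∞) : WithTop ℕ∞) φ) (i : Fin 3)
    (x : E3) : pd i (fun x => c * φ x) x = c * pd i φ x := by
  unfold pd
  have hd : DifferentiableAt ℝ φ x := (hφ.differentiable (by simp)).differentiableAt
  rw [fderiv_const_mul hd]
  rfl

theorem INF_DD_smul (c : ℝ) (φ : E3 → ℝ) (hφ : ContDiff ℝ ((⊤ : ℕ∞) : WithTop ℕ∞) φ) :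
    DD (gr (fun x => c * φ x)) = c ^ 2 * DD (gr φ) := by
  unfold DD gr
  rw [← integral_const_mul]
  apply integral_congr_ae
  refine Eventually.of_forall fun x => ?_
  change ∑ i, (pd i (fun x => c * φ x) x) ^ 2 = c ^ 2 * ∑ i, (pd i φ x) ^ 2
  rw [Finset.mul_sum]
  apply Finset.sum_congr rfl
  intro i _
  rw [INF_pd_smul c φ hφ i x]
  ring

theorem INF_af_smul (lam c : ℝ) (φ : E3 → ℝ) (hφ : ContDiff ℝ ((⊤ : ℕ∞) : WithTop ℕ∞) φ) :
    af lam (fun x => c * φ x) (gr (fun x => c * φ x)) = c ^ 2 * af lam φ (gr φ) := by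
  unfold af
  rw [INF_DD_smul c φ hφ, INF_Q2_smul]
  ring

theorem INF_T_smul {T : (E3 → ℝ) → Prop} (hT : Cl T) (c : ℝ) {φ : E3 → ℝ} (h : T φ) :
    T (fun x => c * φ x) := by
  have h1 := hT.2.2 φ φ c 0 h h
  have h2 : (fun x => c * φ x + 0 * φ x) = fun x => c * φ x := by
    funext x
    ring
  rwa [h2] at h1

/-- normalization in `L⁶` -/
theorem INF_norm {T : (E3 → ℝ) → Prop} (hT : Cl T) (lam : ℝ) {φ : E3 → ℝ} (h : T φ)
    (hN : 0 < N6 φ) : ∃ ψ : E3 → ℝ, T ψ ∧ N6 ψ = 1 ∧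
      af lam ψ (gr ψ) ^ 3 * N6 φ = af lam φ (gr φ) ^ 3 := by
  have hc : 0 < (N6 φ) ^ (-(1 / 6 : ℝ)) := Real.rpow_pos_of_pos hN _
  have hc6 : ((N6 φ) ^ (-(1 / 6 : ℝ))) ^ 6 * N6 φ = 1 := by
    rw [← Real.rpow_natCast, ← Real.rpow_mul hN.le]
    have h1 : -(1 / 6 : ℝ) * ((6 : ℕ) : ℝ) = -1 := by norm_num
    rw [h1, Real.rpow_neg_one]
    exact inv_mul_cancel₀ hN.ne'
  set c := (N6 φ) ^ (-(1 / 6 : ℝ)) with hcdef
  refine ⟨fun x => c * φ x, INF_T_smul hT c h, ?_, ?_⟩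
  · rw [INF_N6_smul, hc6]
  · rw [INF_af_smul lam c φ (hT.1 φ h).1]
    calc (c ^ 2 * af lam φ (gr φ)) ^ 3 * N6 φ = (c ^ 6 * N6 φ) * af lam φ (gr φ) ^ 3 := by ring
      _ = af lam φ (gr φ) ^ 3 := by rw [hc6, one_mul]

/-- lower bounds for the quadratic form -/
theorem INF_lower {T : (E3 → ℝ) → Prop} {ν V lam : ℝ} (hy : Hy T ν V lam) {φ : E3 → ℝ}
    (h : T φ) : 0 ≤ DD (gr φ) ∧ (1 - lam / V) * DD (gr φ) ≤ af lam φ (gr φ) := by
  obtain ⟨-, -, -, hlam, hV, hVQ⟩ := hy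
  have hV0 : 0 < V := hlam.trans hV
  have hQ := INF_Q2_nonneg φ
  have h1 := hVQ φ h
  have hD : 0 ≤ DD (gr φ) := le_trans (mul_nonneg hV0.le hQ) h1
  refine ⟨hD, ?_⟩
  unfold af
  have h2 : lam * Q2 φ ≤ lam / V * DD (gr φ) := by
    have h3 : lam / V * (V * Q2 φ) ≤ lam / V * DD (gr φ) :=
      mul_le_mul_of_nonneg_left h1 (by positivity)
    have h4 : lam / V * (V * Q2 φ) = lam * Q2 φ := by field_simp
    linarith
  linarith

theorem prfINF : INF := by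
  intro T ν V lam hy hex
  obtain ⟨hT, hν, hS, hlam, hV, hVQ⟩ := id hy
  have hV0 : 0 < V := hlam.trans hV
  obtain ⟨φ₀, hφ₀, hN₀, hA₀⟩ := hex
  obtain ⟨ψ₀, hψ₀, hNψ₀, hAψ₀⟩ := INF_norm hT lam hφ₀ hN₀
  set S : Set ℝ := {a | ∃ φ : E3 → ℝ, T φ ∧ N6 φ = 1 ∧ a = af lam φ (gr φ)} with hSdef
  have hne : S.Nonempty := ⟨_, ψ₀, hψ₀, hNψ₀, rfl⟩
  have hfac : 0 < 1 - lam / V := by
    have : lam / V < 1 := (div_lt_one hV0).mpr hV
    linarith
  set e : ℝ := min 1 (ν / 64) with he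
  have he0 : 0 < e := lt_min one_pos (by positivity)
  have he1 : e ≤ 1 := min_le_left _ _
  have he2 : e ≤ ν / 64 := min_le_right _ _
  have he3 : 64 * e ^ 3 ≤ ν := by
    have h1 : e ^ 3 ≤ e := by
      have h2 : e ^ 2 ≤ 1 := pow_le_one₀ he0.le he1
      nlinarith
    linarith
  have hlow : ∀ a ∈ S, (1 - lam / V) * e ≤ a := by
    rintro a ⟨φ, hφ, hN, rfl⟩
    obtain ⟨hD, hA⟩ := INF_lower hy hφ
    have h1 := hS φ hφ
    rw [hN, mul_one] at h1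
    have h2 : e ≤ DD (gr φ) := by
      by_contra hcon
      push Not at hcon
      have h3 : DD (gr φ) ^ 3 < e ^ 3 := pow_lt_pow_left₀ hcon hD (by norm_num)
      linarith
    exact le_trans (mul_le_mul_of_nonneg_left h2 hfac.le) hA
  have hbdd : BddBelow S := ⟨_, hlow⟩
  have hm0 : 0 < sInf S := lt_of_lt_of_le (mul_pos hfac he0) (le_csInf hne hlow)
  refine ⟨sInf S, hm0, ?_, ?_, ?_⟩
  · have h1 : sInf S ≤ af lam ψ₀ (gr ψ₀) := csInf_le hbdd ⟨ψ₀, hψ₀, hNψ₀, rfl⟩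
    have h2 : sInf S ^ 3 ≤ af lam ψ₀ (gr ψ₀) ^ 3 := pow_le_pow_left₀ hm0.le h1 3
    have h3 : 64 * (af lam ψ₀ (gr ψ₀) ^ 3 * N6 φ₀) < ν * N6 φ₀ := by
      rw [hAψ₀]
      exact hA₀
    have h4 : 64 * af lam ψ₀ (gr ψ₀) ^ 3 < ν := by
      have h5 : (64 * af lam ψ₀ (gr ψ₀) ^ 3) * N6 φ₀ < ν * N6 φ₀ := by linarith
      exact lt_of_mul_lt_mul_right h5 hN₀.le
    linarith
  · intro φ hφ
    rcases (INF_N6_nonneg φ).eq_or_lt with h0 | h0
    · rw [← h0, mul_zero]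
      obtain ⟨hD, hA⟩ := INF_lower hy hφ
      have : 0 ≤ af lam φ (gr φ) := le_trans (mul_nonneg hfac.le hD) hA
      positivity
    · obtain ⟨ψ, hψ, hNψ, hAψ⟩ := INF_norm hT lam hφ h0
      have h1 : sInf S ≤ af lam ψ (gr ψ) := csInf_le hbdd ⟨ψ, hψ, hNψ, rfl⟩
      have h2 : sInf S ^ 3 ≤ af lam ψ (gr ψ) ^ 3 := pow_le_pow_left₀ hm0.le h1 3
      rw [← hAψ]
      exact mul_le_mul_of_nonneg_right h2 h0.le
  · obtain ⟨a, -, ha, haS⟩ := exists_seq_tendsto_sInf hne hbdd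
    choose φ hφ hNφ haφ using haS
    refine ⟨φ, fun k => ⟨hφ k, hNφ k⟩, ?_⟩
    have : (fun k => af lam (φ k) (gr (φ k))) = a := by
      funext k
      exact (haφ k).symm
    rw [this]
    exact ha

end Pool.Agent.Work.MP_d5b3be_an.BN
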