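import Pool.Agent.Work.MP_d5b3be_an.BN.Stmts2

/-!
# Block BN, item CON: strict concavity of the cube root
-/

set_option autoImplicit false

namespace Pool.Agent.Work.MP_d5b3be_an.BN

theorem prfCON : CON := by
  intro m d a τ ν hm hd ha hτ hmad h1 h2 h3
  have hν : 0 < ν := by
    have : 0 < m ^ 3 := by positivity
    linarith
  have h4 : 64 * m ^ 3 * (1 - τ) ≤ ν * (1 - τ) :=
    mul_le_mul_of_nonneg_right h3.le (by linarith)
  have h5 : m ^ 3 ≤ a ^ 3 + d ^ 3 := by linarith
  have h6 : m ^ 3 = a ^ 3 + d ^ 3 + 3 * (a * d * m) := by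
    rw [hmad]
    ring
  have h7 : a * d * m ≤ 0 := by linarith
  have h8 : a * d = 0 := by
    have h9 : 0 ≤ a * d := mul_nonneg ha hd
    by_contra hc
    have h10 : 0 < a * d := lt_of_le_of_ne h9 (Ne.symm hc)
    have : 0 < a * d * m := mul_pos h10 hm
    linarith
  rcases mul_eq_zero.1 h8 with h | h
  · exfalso
    rw [h] at hmad h1
    have hdm : d = m := by linarith
    have hm3 : 0 < m ^ 3 := by positivity
    have hτ0 : τ ≤ 0 := by
      by_contra hc
      push Not at hc
      have : 0 < m ^ 3 * τ := mul_pos hm3 hc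
      norm_num at h1
      linarith
    rw [hdm] at h2
    have h9 : ν * 1 ≤ ν * (1 - τ) := mul_le_mul_of_nonneg_left (by linarith) hν.le
    linarith
  · rw [h] at hmad h2
    refine ⟨le_antisymm hτ ?_, by linarith⟩
    by_contra hc
    push Not at hc
    have : 0 < ν * (1 - τ) := mul_pos hν (by linarith)
    norm_num at h2
    linarith

end Pool.Agent.Work.MP_d5b3be_an.BN
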