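import Pool.Agent.Work.MP_d5b3be_an.BN.Stmts2

set_option autoImplicit false

namespace Pool.Agent.Work.MP_d5b3be_an.BN

open MeasureTheory Filter Set
open scoped ENNReal Topology ContDiff

theorem L6C_holder (F : Fin 6 → E3 → ℝ) (hF : ∀ i, MemLp (F i) 6 volume) :
    ∫⁻ x, ‖∏ i, F i x‖ₑ ≤ ∏ i, eLpNorm (F i) 6 volume := by
  have h0 : ∀ a : ℝ≥0∞, (a ^ (6 : ℝ)) ^ (1 / 6 : ℝ) = a := by
    intro a
    rw [← ENNReal.rpow_mul]
    norm_num
  have h1 : ∀ x, ‖∏ i, F i x‖ₑ = ∏ i, (‖F i x‖ₑ ^ (6 : ℝ)) ^ (1 / 6 : ℝ) := by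
    intro x
    simp only [h0, Fin.prod_univ_six, enorm_mul]
  simp only [h1]
  refine (ENNReal.lintegral_prod_norm_pow_le (p := fun _ => (1 / 6 : ℝ)) Finset.univ
    (fun i _ => ((hF i).1.enorm).pow_const _) (by simp) (fun i _ => by norm_num)).trans ?_
  refine le_of_eq (Finset.prod_congr rfl fun i _ => ?_)
  rw [eLpNorm_eq_lintegral_rpow_enorm_toReal (by norm_num) (by norm_num)]
  norm_num

theorem L6C_int (F : Fin 6 → E3 → ℝ) (hF : ∀ i, MemLp (F i) 6 volume) :
    Integrable (fun x => ∏ i, F i x) volume := by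
  have h1 := MemLp.prod' (s := Finset.univ) (p := fun _ => (6 : ℝ≥0∞)) (fun i _ => hF i)
  have h2 : (∑ i ∈ (Finset.univ : Finset (Fin 6)), ((6 : ℝ≥0∞))⁻¹)⁻¹ = 1 := by
    rw [Finset.sum_const, Finset.card_univ, Fintype.card_fin, nsmul_eq_mul]
    push_cast
    rw [ENNReal.mul_inv_cancel (by norm_num) (by norm_num), inv_one]
  rw [h2] at h1
  exact memLp_one_iff_integrable.1 h1

/-- the factors of the telescoping sum -/
noncomputable def L6C_M (F G : Fin 6 → E3 → ℝ) (j i : Fin 6) : E3 → ℝ :=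
  if i < j then G i else if i = j then (fun x => F i x - G i x) else F i

theorem L6C_M_lt (F G : Fin 6 → E3 → ℝ) {j i : Fin 6} (h : i < j) : L6C_M F G j i = G i := by
  unfold L6C_M
  rw [if_pos h]

theorem L6C_M_eq (F G : Fin 6 → E3 → ℝ) {j i : Fin 6} (h : i = j) :
    L6C_M F G j i = fun x => F i x - G i x := by
  unfold L6C_M
  rw [if_neg (by rw [h]; exact lt_irrefl j), if_pos h]

theorem L6C_M_gt (F G : Fin 6 → E3 → ℝ) {j i : Fin 6} (h : ¬ i < j) (h' : ¬ i = j) :
    L6C_M F G j i = F i := by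
  unfold L6C_M
  rw [if_neg h, if_neg h']

theorem L6C_tele (F G : Fin 6 → E3 → ℝ) (x : E3) :
    ∏ i, F i x - ∏ i, G i x = ∑ j, ∏ i, L6C_M F G j i x := by
  unfold L6C_M
  rw [Fin.sum_univ_six]
  simp only [Fin.prod_univ_six]
  simp (decide := true) only [if_true, if_false]
  ring

theorem L6C_prod (F : ℕ → Fin 6 → E3 → ℝ) (G : Fin 6 → E3 → ℝ)
    (hF : ∀ k i, MemLp (F k i) 6 volume) (hG : ∀ i, MemLp (G i) 6 volume)
    (hc : ∀ i, Tendsto (fun k => eLpNorm (fun x => F k i x - G i x) 6 volume) atTop (𝓝 0)) :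
    Tendsto (fun k => ∫ x, ∏ i, F k i x) atTop (𝓝 (∫ x, ∏ i, G i x)) := by
  refine tendsto_integral_of_L1 _ (L6C_int G hG).1
    (Eventually.of_forall fun k => L6C_int (F k) (hF k)) ?_
  set c : ℕ → ℝ≥0∞ := fun k => ∑ i, eLpNorm (fun x => F k i x - G i x) 6 volume with hcdef
  set B : ℝ≥0∞ := ∑ i, eLpNorm (G i) 6 volume with hB
  have hBtop : B ≠ ⊤ := by
    rw [hB]
    exact ENNReal.sum_ne_top.2 fun i _ => (hG i).2.ne
  have hc0 : Tendsto c atTop (𝓝 0) := by
    have := tendsto_finsetSum (Finset.univ : Finset (Fin 6)) (fun i _ => hc i)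
    simpa using this
  have hK : Tendsto (fun k => c k + B) atTop (𝓝 B) := by
    have := hc0.add (tendsto_const_nhds (x := B))
    simpa using this
  have hlim : Tendsto (fun k => 6 * (c k * (c k + B) ^ 5)) atTop (𝓝 0) := by
    have h1 : Tendsto (fun k => (c k + B) ^ 5) atTop (𝓝 (B ^ 5)) :=
      ((ENNReal.continuous_pow 5).tendsto B).comp hK
    have h2 := ENNReal.Tendsto.mul hc0 (Or.inr (ENNReal.pow_ne_top hBtop)) h1
      (Or.inr ENNReal.zero_ne_top)
    have h3 := ENNReal.Tendsto.const_mul (a := 6) h2 (Or.inr (by norm_num))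
    simpa using h3
  refine tendsto_of_tendsto_of_tendsto_of_le_of_le tendsto_const_nhds hlim
    (fun _ => zero_le) fun k => ?_
  have hM : ∀ j i, MemLp (L6C_M (F k) G j i) 6 volume := by
    intro j i
    by_cases h1 : i < j
    · rw [L6C_M_lt (F k) G h1]
      exact hG i
    · by_cases h2 : i = j
      · rw [L6C_M_eq (F k) G h2]
        exact (hF k i).sub (hG i)
      · rw [L6C_M_gt (F k) G h1 h2]
        exact hF k i
  have hle : ∀ j i, eLpNorm (L6C_M (F k) G j i) 6 volume ≤ c k + B := by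
    intro j i
    have hGi : eLpNorm (G i) 6 volume ≤ B :=
      Finset.single_le_sum (f := fun i => eLpNorm (G i) 6 volume) (fun _ _ => zero_le)
        (Finset.mem_univ i)
    have hdi : eLpNorm (fun x => F k i x - G i x) 6 volume ≤ c k :=
      Finset.single_le_sum (f := fun i => eLpNorm (fun x => F k i x - G i x) 6 volume)
        (fun _ _ => zero_le) (Finset.mem_univ i)
    by_cases h1 : i < j
    · rw [L6C_M_lt (F k) G h1]
      exact hGi.trans le_add_self
    · by_cases h2 : i = j
      · rw [L6C_M_eq (F k) G h2]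
        exact hdi.trans le_self_add
      · rw [L6C_M_gt (F k) G h1 h2]
        have h4 : F k i = (fun x => F k i x - G i x) + G i := by
          funext x
          simp
        rw [h4]
        refine (eLpNorm_add_le ((hF k i).sub (hG i)).1 (hG i).1 (by norm_num)).trans ?_
        exact add_le_add hdi hGi
  have hjj : ∀ j, eLpNorm (L6C_M (F k) G j j) 6 volume ≤ c k := by
    intro j
    rw [L6C_M_eq (F k) G rfl]
    exact Finset.single_le_sum (f := fun i => eLpNorm (fun x => F k i x - G i x) 6 volume)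
      (fun _ _ => zero_le) (Finset.mem_univ j)
  have hprod : ∀ j, ∏ i, eLpNorm (L6C_M (F k) G j i) 6 volume ≤ c k * (c k + B) ^ 5 := by
    intro j
    rw [← Finset.mul_prod_erase Finset.univ _ (Finset.mem_univ j)]
    refine mul_le_mul' (hjj j) ?_
    refine (Finset.prod_le_prod' fun i _ => hle j i).trans ?_
    rw [Finset.prod_const, Finset.card_erase_of_mem (Finset.mem_univ j), Finset.card_univ,
      Fintype.card_fin]
  calc ∫⁻ x, ‖∏ i, F k i x - ∏ i, G i x‖ₑ
      ≤ ∫⁻ x, ∑ j, ‖∏ i, L6C_M (F k) G j i x‖ₑ := by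
        refine lintegral_mono fun x => ?_
        rw [L6C_tele]
        exact enorm_sum_le _ _
    _ = ∑ j, ∫⁻ x, ‖∏ i, L6C_M (F k) G j i x‖ₑ := by
        rw [lintegral_finsetSum' _ fun j _ => (L6C_int _ (hM j)).1.enorm]
    _ ≤ ∑ _j : Fin 6, c k * (c k + B) ^ 5 :=
        Finset.sum_le_sum fun j _ => (L6C_holder _ (hM j)).trans (hprod j)
    _ = 6 * (c k * (c k + B) ^ 5) := by
        rw [Finset.sum_const, Finset.card_univ, Fintype.card_fin, nsmul_eq_mul]
        norm_num

theorem prfL6C : L6C := by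
  intro f g hf hg hfg
  have hconst : ∀ h : E3 → ℝ,
      Tendsto (fun _ : ℕ => eLpNorm (fun x => h x - h x) 6 volume) atTop (𝓝 0) := by
    intro h
    have e : (fun x : E3 => h x - h x) = fun _ => (0 : ℝ) := funext fun x => sub_self _
    rw [e, eLpNorm_zero']
    exact tendsto_const_nhds
  refine ⟨?_, fun h hh => ⟨?_, ?_⟩⟩
  · have := L6C_prod (fun k _ => f k) (fun _ => g) (fun k _ => hf k) (fun _ => hg) (fun _ => hfg)
    simpa using this
  · have := L6C_prod (fun k => ![f k, f k, f k, f k, f k, h]) ![g, g, g, g, g, h]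
      (fun k i => by fin_cases i <;> first | exact hf k | exact hh)
      (fun i => by fin_cases i <;> first | exact hg | exact hh)
      (fun i => by fin_cases i <;> first | exact hfg | exact hconst h)
    simp only [Fin.prod_univ_six] at this
    have e1 : ∀ k x, f k x ^ 5 * h x = f k x * f k x * f k x * f k x * f k x * h x := by
      intro k x
      ring
    have e2 : ∀ x, g x ^ 5 * h x = g x * g x * g x * g x * g x * h x := by
      intro x
      ring
    simp only [e1, e2]
    exact this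
  · have := L6C_prod (fun k => ![h, h, h, h, h, f k]) ![h, h, h, h, h, g]
      (fun k i => by fin_cases i <;> first | exact hf k | exact hh)
      (fun i => by fin_cases i <;> first | exact hg | exact hh)
      (fun i => by fin_cases i <;> first | exact hfg | exact hconst h)
    simp only [Fin.prod_univ_six] at this
    have e1 : ∀ k x, h x ^ 5 * f k x = h x * h x * h x * h x * h x * f k x := by
      intro k x
      ring
    have e2 : ∀ x, h x ^ 5 * g x = h x * h x * h x * h x * h x * g x := by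
      intro x
      ring
    simp only [e1, e2]
    exact this

end Pool.Agent.Work.MP_d5b3be_an.BN
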