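import Pool.Agent.Work.MP_d5b3be_an.BN.Stmts2

/-! Item LCV of block BN (helper51): strong convergence in `L²`. -/

set_option autoImplicit false

namespace Pool.Agent.Work.MP_d5b3be_an.BN

open MeasureTheory Filter Set
open scoped ENNReal Topology ContDiff

theorem LCV_inner (f h : E3 → ℝ) (hf : MemLp f 2 volume) (hh : MemLp h 2 volume) :
    ∫ x, f x * h x = inner ℝ (hf.toLp f) (hh.toLp h) := by
  rw [L2.inner_def]
  apply integral_congr_ae
  filter_upwards [hf.coeFn_toLp, hh.coeFn_toLp] with x h1 h2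
  rw [h1, h2, real_inner_eq_re_inner]
  simp [mul_comm]

theorem prfLCV : LCV := by
  intro f g hf hg hc
  have hL : Tendsto (fun k => (hf k).toLp (f k)) atTop (𝓝 (hg.toLp g)) :=
    (Lp.tendsto_Lp_iff_tendsto_eLpNorm'' f hf g hg).2 hc
  refine ⟨?_, fun h hh => ?_⟩
  · have h1 := hL.inner (𝕜 := ℝ) hL
    have e : ∀ u : E3 → ℝ, ∀ hu : MemLp u 2 volume, ∫ x, u x ^ 2 = inner ℝ (hu.toLp u) (hu.toLp u) := by
      intro u hu
      rw [← LCV_inner u u hu hu]
      exact integral_congr_ae (ae_of_all _ fun x => sq (u x))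
    rw [e g hg]
    exact h1.congr fun k => (e (f k) (hf k)).symm
  · have h1 := hL.inner (𝕜 := ℝ) (tendsto_const_nhds (x := hh.toLp h))
    rw [LCV_inner g h hg hh]
    exact h1.congr fun k => (LCV_inner (f k) h (hf k) hh).symm

end Pool.Agent.Work.MP_d5b3be_an.BN
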