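import Pool.Agent.Work.MP_d5b3be_an.BN.Stmts2

/-!
Item LOW of block BN: the lower bound of the energy of solutions of high angular frequency.
-/

set_option autoImplicit false

namespace Pool.Agent.Work.MP_d5b3be_an.BN

open MeasureTheory Filter Set
open scoped ENNReal Topology ContDiff

/-- the sixth moment of a function which is not zero is positive -/
theorem LOW_pos (u : E3 → ℝ) (h6 : MemLp u 6 volume) (hne : ¬ (u =ᵐ[volume] fun _ => 0)) :
    0 < N6 u := by
  have hint : Integrable (fun x => u x ^ 6) volume := by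
    have h := h6.integrable_norm_pow (p := 6) (by norm_num)
    refine h.congr (Eventually.of_forall fun x => ?_)
    show ‖u x‖ ^ 6 = u x ^ 6
    rw [Real.norm_eq_abs]
    exact Even.pow_abs (by decide) _
  have hnn : 0 ≤ᵐ[volume] fun x => u x ^ 6 := Eventually.of_forall fun x => by
    show (0 : ℝ) ≤ u x ^ 6
    positivity
  have h0 : 0 ≤ N6 u := integral_nonneg_of_ae hnn
  rcases h0.lt_or_eq with h | h
  · exact h
  · exfalso
    apply hne
    have h1 := (integral_eq_zero_iff_of_nonneg_ae hnn hint).1 h.symm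
    filter_upwards [h1] with x hx
    have : u x ^ 6 = 0 := hx
    exact pow_eq_zero_iff (by norm_num) |>.1 this

theorem prfLOW (hSOB : SOB) (hVN1 : VN1) (hCLT : CLT) (hHCE : HCE) (hENE : ENE) : LOW := by
  intro Ω L lam R u g hL hR hΩ hlam h9 hHC h6 hne hE
  have hLpos : (0 : ℝ) < L := by exact_mod_cast hL
  have hc : (0 : ℝ) < (L : ℝ) ^ 2 / 64 := by positivity
  obtain ⟨-, hS, hV, -⟩ := hHCE (TestN Ω L) ((L : ℝ) ^ 2 / 64) u g ((hCLT Ω).2 L) hc
    (fun φ hφ => by
      have := hSOB Ω L φ hL hφ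
      linarith) hHC
  have hV' := hV (((L : ℝ) / R) ^ 2) (fun φ hφ => hVN1 Ω L φ R hL hR hΩ hφ)
  have hEn := hENE Ω L lam u g hL hHC h6 hE
  have hN := LOW_pos u h6 hne
  have hQ : 0 ≤ Q2 u := integral_nonneg fun x => by positivity
  have h9' : 9 * lam ≤ ((L : ℝ) / R) ^ 2 := by
    rw [div_pow, le_div_iff₀ (by positivity)]
    linarith
  have hD9 : 9 * (lam * Q2 u) ≤ DD g := by
    have := mul_le_mul_of_nonneg_right h9' hQ
    linarith
  have hlQ : 0 ≤ lam * Q2 u := mul_nonneg hlam.le hQ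
  have hD0 : 0 ≤ DD g := by linarith
  have hDN : DD g ≤ 9 / 8 * N6 u := by linarith
  have h3 : DD g ^ 3 ≤ (9 / 8 * N6 u) ^ 3 := pow_le_pow_left₀ hD0 hDN 3
  have h4 : (L : ℝ) ^ 2 / 64 * N6 u ≤ 729 / 512 * N6 u ^ 2 * N6 u := by
    calc (L : ℝ) ^ 2 / 64 * N6 u ≤ DD g ^ 3 := hS
      _ ≤ (9 / 8 * N6 u) ^ 3 := h3
      _ = 729 / 512 * N6 u ^ 2 * N6 u := by ring
  have h5 := le_of_mul_le_mul_right h4 hN
  linarith

end Pool.Agent.Work.MP_d5b3be_an.BN
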