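import Pool.Agent.Work.MP_d5b3be_an.BN.Stmts4

/-!
# Item NB1 of the block BN: boxes in flat convex bodies of revolution, small `n`
-/

set_option autoImplicit false

namespace Pool.Agent.Work.MP_d5b3be_an.BN

open MeasureTheory Filter Set
open scoped ENNReal Topology ContDiff

theorem NB1_E3 (H A n : ℝ) (hH : 0 < H) (hA : A * H = Real.pi) (hn : 1 ≤ n) :
    n ^ 2 / (10 ^ 5 * n * H - 10 ^ 5 * H / 2) ^ 2 ≤ 4.1 / 10 ^ 11 * A ^ 2 := by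
  have h1 : 0 < 10 ^ 5 * n * H - 10 ^ 5 * H / 2 := by nlinarith
  rw [div_le_iff₀ (by positivity)]
  have hpi := Real.pi_gt_d2
  have h3 : 3.14 * 10 ^ 5 * n / 2 ≤ A * (10 ^ 5 * n * H - 10 ^ 5 * H / 2) := by
    have : A * (10 ^ 5 * n * H - 10 ^ 5 * H / 2) = (A * H) * (10 ^ 5 * (n - 1 / 2)) := by ring
    rw [this, hA]
    nlinarith [Real.pi_pos]
  have h4 : (3.14 * 10 ^ 5 * n / 2) ^ 2 ≤ (A * (10 ^ 5 * n * H - 10 ^ 5 * H / 2)) ^ 2 :=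
    pow_le_pow_left₀ (by positivity) h3 2
  have h5 : 4.1 / 10 ^ 11 * A ^ 2 * (10 ^ 5 * n * H - 10 ^ 5 * H / 2) ^ 2 =
      4.1 / 10 ^ 11 * (A * (10 ^ 5 * n * H - 10 ^ 5 * H / 2)) ^ 2 := by ring
  rw [h5]
  nlinarith [sq_nonneg n]

theorem NB1_fin (H A n x η : ℝ) (hH : 0 < H) (hA : A * H = Real.pi) (hn : 1 ≤ n)
    (hη0 : 0 < η) (hη : η ≤ H / 2) (hx : x ≤ 4.8 / 10 ^ 10 * A ^ 2) :
    4096 * Real.pi ^ 2 * x ^ 3 * (10 ^ 5 * n * H * (10 ^ 5 * H / 2) * η) ^ 2 < n ^ 2 := by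
  have h1 : x ^ 3 ≤ (4.8 / 10 ^ 10 * A ^ 2) ^ 3 :=
    (Odd.strictMono_pow (by decide : Odd 3)).monotone hx
  have h2 : (10 ^ 5 * n * H * (10 ^ 5 * H / 2) * η) ^ 2 ≤
      (10 ^ 5 * n * H * (10 ^ 5 * H / 2) * (H / 2)) ^ 2 := by
    refine pow_le_pow_left₀ (by positivity) ?_ 2
    exact mul_le_mul_of_nonneg_left hη (by positivity)
  have hpi := Real.pi_lt_d2
  have hpi0 := Real.pi_pos
  have h8 : Real.pi ^ 8 ≤ 3.15 ^ 8 := pow_le_pow_left₀ hpi0.le hpi.le 8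
  calc 4096 * Real.pi ^ 2 * x ^ 3 * (10 ^ 5 * n * H * (10 ^ 5 * H / 2) * η) ^ 2
      ≤ 4096 * Real.pi ^ 2 * (4.8 / 10 ^ 10 * A ^ 2) ^ 3 *
        (10 ^ 5 * n * H * (10 ^ 5 * H / 2) * η) ^ 2 := by
        refine mul_le_mul_of_nonneg_right ?_ (sq_nonneg _)
        exact mul_le_mul_of_nonneg_left h1 (by positivity)
    _ ≤ 4096 * Real.pi ^ 2 * (4.8 / 10 ^ 10 * A ^ 2) ^ 3 *
        (10 ^ 5 * n * H * (10 ^ 5 * H / 2) * (H / 2)) ^ 2 := by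
        refine mul_le_mul_of_nonneg_left h2 (by positivity)
    _ = 4096 * Real.pi ^ 2 * (4.8 / 10 ^ 10) ^ 3 * (10 ^ 10 / 4) ^ 2 * (A * H) ^ 6 * n ^ 2 := by
        ring
    _ = 4096 * (4.8 / 10 ^ 10) ^ 3 * (10 ^ 10 / 4) ^ 2 * Real.pi ^ 8 * n ^ 2 := by
        rw [hA]; ring
    _ ≤ 4096 * (4.8 / 10 ^ 10) ^ 3 * (10 ^ 10 / 4) ^ 2 * 3.15 ^ 8 * n ^ 2 := by
        refine mul_le_mul_of_nonneg_right ?_ (sq_nonneg _)
        exact mul_le_mul_of_nonneg_left h8 (by norm_num)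
    _ < 1 * n ^ 2 := by
        refine mul_lt_mul_of_pos_right ?_ (by positivity)
        norm_num
    _ = n ^ 2 := one_mul _

theorem prfNB1 (hBXC : BXC) : NB1 := by
  intro Ω R a b zm zp n lam hS hn hR hlam
  obtain ⟨hR0, hab, -, hsec, -, -⟩ := id hS
  obtain ⟨H, hHdef⟩ : ∃ H : ℝ, H = b - a := ⟨_, rfl⟩
  have hH : 0 < H := by rw [hHdef]; linarith
  rw [← hHdef] at hR hlam
  have hn1 : (1 : ℝ) ≤ n := by exact_mod_cast hn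
  have hpi0 := Real.pi_pos
  obtain ⟨A, hAdef⟩ : ∃ A : ℝ, A = Real.pi / H := ⟨_, rfl⟩
  have hA0 : 0 < A := by rw [hAdef]; positivity
  have hA : A * H = Real.pi := by rw [hAdef]; field_simp
  rw [← hAdef] at hlam
  obtain ⟨δ, hδdef⟩ : ∃ δ : ℝ, δ = 10 ^ 5 * H / 2 := ⟨_, rfl⟩
  have hδ : 0 < δ := by rw [hδdef]; positivity
  obtain ⟨ρo, hρdef⟩ : ∃ ρo : ℝ, ρo = 10 ^ 5 * n * H + δ := ⟨_, rfl⟩
  have hnH : H ≤ n * H := by nlinarith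
  have hρ0 : 0 < ρo := by rw [hρdef]; positivity
  have h2δ : 2 * δ < ρo := by
    rw [hρdef, hδdef]
    nlinarith
  have hρ1 : ρo ≤ 1.5 / 10 ^ 10 * R := by
    have h1 : ρo ≤ 1.5 * 10 ^ 5 * (n * H) := by
      rw [hρdef, hδdef]
      nlinarith
    have h2 : (n : ℝ) * H ≤ R / 10 ^ 15 := by
      rw [le_div_iff₀ (by norm_num)]
      linarith
    calc ρo ≤ 1.5 * 10 ^ 5 * (n * H) := h1
      _ ≤ 1.5 * 10 ^ 5 * (R / 10 ^ 15) := mul_le_mul_of_nonneg_left h2 (by norm_num)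
      _ = 1.5 / 10 ^ 10 * R := by ring
  have hρR : ρo < R := by nlinarith
  obtain ⟨hzm, hzp, hT⟩ := hsec ρo hρ0 hρR
  obtain ⟨T, hTdef⟩ : ∃ T : ℝ, T = zp ρo - zm ρo := ⟨_, rfl⟩
  rw [← hTdef, ← hHdef] at hT
  have hTH : T ≤ H := by rw [hTdef, hHdef]; linarith
  have hT1 : (1 - 1.5 / 10 ^ 10) * H ≤ T := by
    refine le_trans (mul_le_mul_of_nonneg_right ?_ hH.le) hT
    have : ρo / R ≤ 1.5 / 10 ^ 10 := by
      rw [div_le_iff₀ hR0]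
      exact hρ1
    linarith
  have hT0 : 0 < T := lt_of_lt_of_le (mul_pos (by norm_num) hH) hT1
  obtain ⟨η, hηdef⟩ : ∃ η : ℝ, η = (1 - 1 / 10 ^ 11) * (T / 2) := ⟨_, rfl⟩
  have hη0 : 0 < η := by
    rw [hηdef]
    exact mul_pos (by norm_num) (by linarith)
  have hηT : η < T / 2 := by
    rw [hηdef]
    nlinarith
  have hηH : η ≤ H / 2 := by linarith
  refine ⟨ρo - δ, (zm ρo + zp ρo) / 2, δ, η, ⟨hδ, by linarith, hη0, ?_⟩, ?_⟩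
  · have hρ2 : ρo - δ = 10 ^ 5 * n * H := by rw [hρdef]; ring
    rw [hρ2, hδdef]
    refine NB1_fin H A n _ η hH hA hn1 hη0 hηH ?_
    unfold Eb
    have e1 : (Real.pi / (2 * (10 ^ 5 * H / 2))) ^ 2 = 1 / 10 ^ 10 * A ^ 2 := by
      rw [hAdef]; field_simp
    have e2 : (Real.pi / (2 * η)) ^ 2 ≤ (1 + 3.3 / 10 ^ 10) * A ^ 2 := by
      have k1 : (1 - 1 / 10 ^ 11) * ((1 - 1.5 / 10 ^ 10) * H) ≤ 2 * η := by
        rw [hηdef]
        have : 2 * ((1 - 1 / 10 ^ 11) * (T / 2)) = (1 - 1 / 10 ^ 11) * T := by ring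
        rw [this]
        exact mul_le_mul_of_nonneg_left hT1 (by norm_num)
      have k0 : (0 : ℝ) < (1 - 1 / 10 ^ 11) * ((1 - 1.5 / 10 ^ 10) * H) :=
        mul_pos (by norm_num) (mul_pos (by norm_num) hH)
      have k2 : Real.pi / (2 * η) ≤ ((1 - 1 / 10 ^ 11) * (1 - 1.5 / 10 ^ 10))⁻¹ * A := by
        refine le_trans (div_le_div_of_nonneg_left hpi0.le k0 k1) (le_of_eq ?_)
        rw [hAdef]
        field_simp
      have k3 : (Real.pi / (2 * η)) ^ 2 ≤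
          (((1 - 1 / 10 ^ 11) * (1 - 1.5 / 10 ^ 10))⁻¹ * A) ^ 2 :=
        pow_le_pow_left₀ (by positivity) k2 2
      refine le_trans k3 ?_
      rw [mul_pow]
      refine mul_le_mul_of_nonneg_right ?_ (sq_nonneg _)
      norm_num
    have e3 := NB1_E3 H A n hH hA hn1
    have e5 : (0 : ℝ) ≤ A ^ 2 := sq_nonneg A
    rw [e1]
    have e6 : (1 / 10 ^ 110 : ℝ) ≤ 1 / 10 ^ 13 := by norm_num
    nlinarith
  · refine hBXC Ω R a b zm zp ρo ((zm ρo + zp ρo) / 2) δ η hS hδ h2δ hρR ?_ ?_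
    · linarith
    · linarith

end Pool.Agent.Work.MP_d5b3be_an.BN
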