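import Pool.Agent.Work.MP_d5b3be_an.BN.Stmts2

/-!
# Block BN, item NSY: limits of functions of the class change sign under the rotation
-/

set_option autoImplicit false

namespace Pool.Agent.Work.MP_d5b3be_an.BN

open MeasureTheory Filter Set
open scoped ENNReal Topology ContDiff

/-- the comparison of the norms -/
theorem NSY_le (r : E3 → E3) (hr : MeasurePreserving r volume volume) (u φ : E3 → ℝ)
    (hu : AEStronglyMeasurable u volume) (hφ : AEStronglyMeasurable φ volume)
    (h : ∀ x, φ (r x) = -φ x) :
    eLpNorm (fun x => u (r x) + u x) 2 volume ≤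
      eLpNorm (fun x => φ x - u x) 2 volume + eLpNorm (fun x => φ x - u x) 2 volume := by
  have hf : AEStronglyMeasurable (fun x => φ x - u x) volume := hφ.sub hu
  have hfr : AEStronglyMeasurable ((fun x => φ x - u x) ∘ r) volume :=
    hf.comp_measurePreserving hr
  have e : (fun x => u (r x) + u x) = -((fun x => φ x - u x) ∘ r) - (fun x => φ x - u x) := by
    funext x
    show u (r x) + u x = -(φ (r x) - u (r x)) - (φ x - u x)
    rw [h x]
    ring
  rw [e]
  refine (eLpNorm_sub_le hfr.neg hf one_le_two).trans ?_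
  rw [eLpNorm_neg, eLpNorm_comp_measurePreserving hf hr]

/-- Item NSY -/
theorem prfNSY (hR : ROT) : NSY := by
  intro Ω n u g hHC
  obtain ⟨hu, -, φ, hφ, hcv, -⟩ := hHC
  have hmp : MeasurePreserving (rot (Real.pi / n)) volume volume :=
    hR.2.2.2.2.2.2.1 (Real.pi / n)
  have hle : ∀ k, eLpNorm (fun x => u (rot (Real.pi / n) x) + u x) 2 volume ≤
      eLpNorm (fun x => φ k x - u x) 2 volume + eLpNorm (fun x => φ k x - u x) 2 volume :=
    fun k => NSY_le _ hmp u (φ k) hu.1 (hφ k).1.1.continuous.aestronglyMeasurable (hφ k).2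
  have hlim : Tendsto (fun k => eLpNorm (fun x => φ k x - u x) 2 volume +
      eLpNorm (fun x => φ k x - u x) 2 volume) atTop (𝓝 0) := by
    have := hcv.add hcv
    rwa [add_zero] at this
  have h0 : eLpNorm (fun x => u (rot (Real.pi / n) x) + u x) 2 volume = 0 :=
    le_antisymm (ge_of_tendsto' hlim hle) zero_le
  have hm : AEStronglyMeasurable (fun x => u (rot (Real.pi / n) x) + u x) volume :=
    (hu.1.comp_measurePreserving hmp).add hu.1
  have h1 := (eLpNorm_eq_zero_iff hm two_ne_zero).1 h0
  filter_upwards [h1] with x hx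
  have h2 : u (rot (Real.pi / n) x) + u x = 0 := hx
  linarith

end Pool.Agent.Work.MP_d5b3be_an.BN
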