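import Pool.Agent.Work.MP_d5b3be_an.BN.Stmts2

/-!
# Block BN, item NT1: numbers for (1)
-/

set_option autoImplicit false

namespace Pool.Agent.Work.MP_d5b3be_an.BN

open MeasureTheory Filter Set
open scoped ENNReal Topology ContDiff

theorem prfNT1 : NT1 := by
  intro n R lam η ρ1 hR hn hη hηρ h1 h2 h3 h4
  obtain ⟨N, hN⟩ : ∃ N : ℝ, N = (n : ℝ) := ⟨_, rfl⟩
  have hN1 : 1 ≤ N := by rw [hN]; exact_mod_cast hn
  have hN0 : 0 < N := by linarith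
  rw [← hN] at h3 h4
  unfold BC Eb
  rw [← hN]
  obtain ⟨δ, hδ⟩ : ∃ δ : ℝ, δ = 10 ^ 4 * R / N := ⟨_, rfl⟩
  rw [← hδ]
  have hδ0 : 0 < δ := by rw [hδ]; positivity
  have hδη : δ ≤ η := by
    rw [hδ, div_le_iff₀ hN0]
    linarith
  have hδρ : δ < ρ1 := lt_of_le_of_lt hδη hηρ
  refine ⟨hδ0, hδρ, hδ0, ?_⟩
  obtain ⟨q, hq⟩ : ∃ q : ℝ, q = N ^ 2 / R ^ 2 := ⟨_, rfl⟩
  have hq0 : 0 < q := by rw [hq]; positivity
  have hpi0 : 0 < Real.pi := Real.pi_pos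
  have hpi : Real.pi ^ 2 ≤ 9.9225 := by
    have := Real.pi_lt_d2
    nlinarith
  have e1 : (Real.pi / (2 * δ)) ^ 2 = Real.pi ^ 2 / (4 * 10 ^ 8) * q := by
    rw [hδ, hq]
    field_simp
    norm_num
  have e2 : (Real.pi / (2 * δ)) ^ 2 ≤ 2.480625 / 10 ^ 8 * q := by
    rw [e1]
    apply mul_le_mul_of_nonneg_right _ hq0.le
    rw [div_le_div_iff₀ (by norm_num) (by norm_num)]
    nlinarith
  have e3 : lam ≥ (1 - 1 / 10 ^ 8) * q := by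
    rw [hq]
    have : (1 - 1 / 10 ^ 8) * (N ^ 2 / R ^ 2) = (1 - 1 / 10 ^ 8) * N ^ 2 / R ^ 2 := by ring
    rw [this, ge_iff_le, div_le_iff₀ (by positivity)]
    exact h3
  have e4 : (1 - 1 / 10 ^ 8) * R ≤ ρ1 - δ := by linarith
  have e5 : 0 < (1 - 1 / 10 ^ 8) * R := by
    apply mul_pos _ hR
    norm_num
  have e6 : N ^ 2 / (ρ1 - δ) ^ 2 ≤ (1 + 2.1 / 10 ^ 8) * q := by
    have f1 : N ^ 2 / (ρ1 - δ) ^ 2 ≤ N ^ 2 / ((1 - 1 / 10 ^ 8) * R) ^ 2 := by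
      apply div_le_div_of_nonneg_left (by positivity) (by positivity)
      exact pow_le_pow_left₀ e5.le e4 2
    refine f1.trans ?_
    have f2 : N ^ 2 / ((1 - 1 / 10 ^ 8) * R) ^ 2 = 1 / (1 - 1 / 10 ^ 8) ^ 2 * q := by
      rw [hq, mul_pow]
      field_simp
    rw [f2]
    apply mul_le_mul_of_nonneg_right _ hq0.le
    norm_num
  obtain ⟨x, hx⟩ : ∃ x : ℝ, x = (Real.pi / (2 * δ)) ^ 2 + (Real.pi / (2 * δ)) ^ 2 +
      N ^ 2 / (ρ1 - δ) ^ 2 - lam := ⟨_, rfl⟩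
  rw [← hx]
  have hxB : x ≤ 8.1 / 10 ^ 8 * q := by
    rw [hx]
    linarith
  have hx3 : x ^ 3 ≤ (8.1 / 10 ^ 8 * q) ^ 3 := (Odd.strictMono_pow (by decide : Odd 3)).monotone hxB
  have hB : 0 ≤ (8.1 / 10 ^ 8 * q) ^ 3 := by positivity
  have hρ0 : 0 < ρ1 := lt_trans hη hηρ
  have e7 : (ρ1 * δ * δ) ^ 2 ≤ (R * δ * δ) ^ 2 := by
    apply pow_le_pow_left₀ (by positivity)
    apply mul_le_mul_of_nonneg_right _ hδ0.le
    exact mul_le_mul_of_nonneg_right h2 hδ0.le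
  have e8 : (8.1 / 10 ^ 8 * q) ^ 3 * (R * δ * δ) ^ 2 = (8.1 / 10 ^ 8) ^ 3 * 10 ^ 16 * N ^ 2 := by
    rw [hq, hδ]
    field_simp
  calc 4096 * Real.pi ^ 2 * x ^ 3 * (ρ1 * δ * δ) ^ 2
      ≤ 4096 * Real.pi ^ 2 * (8.1 / 10 ^ 8 * q) ^ 3 * (ρ1 * δ * δ) ^ 2 := by
        apply mul_le_mul_of_nonneg_right _ (by positivity)
        exact mul_le_mul_of_nonneg_left hx3 (by positivity)
    _ ≤ 4096 * Real.pi ^ 2 * (8.1 / 10 ^ 8 * q) ^ 3 * (R * δ * δ) ^ 2 :=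
        mul_le_mul_of_nonneg_left e7 (by positivity)
    _ = 4096 * Real.pi ^ 2 * ((8.1 / 10 ^ 8 * q) ^ 3 * (R * δ * δ) ^ 2) := by ring
    _ = 4096 * Real.pi ^ 2 * ((8.1 / 10 ^ 8) ^ 3 * 10 ^ 16 * N ^ 2) := by rw [e8]
    _ ≤ 4096 * 9.9225 * ((8.1 / 10 ^ 8) ^ 3 * 10 ^ 16 * N ^ 2) := by
        apply mul_le_mul_of_nonneg_right _ (by positivity)
        linarith
    _ = (4096 * 9.9225 * ((8.1 / 10 ^ 8) ^ 3 * 10 ^ 16)) * N ^ 2 := by ring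
    _ < 1 * N ^ 2 := by
        apply mul_lt_mul_of_pos_right _ (by positivity)
        norm_num
    _ = N ^ 2 := one_mul _

end Pool.Agent.Work.MP_d5b3be_an.BN
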