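import Pool.Agent.Work.MP_d5b3be_an.BN.Stmts2

/-!
# Item NU1 of the block BN
-/

set_option autoImplicit false

namespace Pool.Agent.Work.MP_d5b3be_an.BN

open MeasureTheory Filter Set
open scoped ENNReal Topology ContDiff

theorem NU1_E3 (h a n : ℝ) (hh : 0 < h) (ha : a * h = Real.pi / 2) (hn : 1 ≤ n) :
    n ^ 2 / (10 ^ 5 * n * h - 10 ^ 5 * h / 2) ^ 2 ≤ 1.63 / 10 ^ 10 * a ^ 2 := by
  have h1 : 0 < 10 ^ 5 * n * h - 10 ^ 5 * h / 2 := by nlinarith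
  rw [div_le_iff₀ (by positivity)]
  have hpi := Real.pi_gt_d2
  have h2 : Real.pi * 10 ^ 5 * n / 4 ≤ a * (10 ^ 5 * n * h - 10 ^ 5 * h / 2) := by
    have : a * (10 ^ 5 * n * h - 10 ^ 5 * h / 2) = (a * h) * (10 ^ 5 * (n - 1 / 2)) := by ring
    rw [this, ha]
    nlinarith [Real.pi_pos]
  have h3 : 3.14 * 10 ^ 5 * n / 4 ≤ a * (10 ^ 5 * n * h - 10 ^ 5 * h / 2) := by
    refine le_trans ?_ h2
    nlinarith
  have h4 : (3.14 * 10 ^ 5 * n / 4) ^ 2 ≤ (a * (10 ^ 5 * n * h - 10 ^ 5 * h / 2)) ^ 2 :=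
    pow_le_pow_left₀ (by positivity) h3 2
  have h5 : 1.63 / 10 ^ 10 * a ^ 2 * (10 ^ 5 * n * h - 10 ^ 5 * h / 2) ^ 2 =
      1.63 / 10 ^ 10 * (a * (10 ^ 5 * n * h - 10 ^ 5 * h / 2)) ^ 2 := by ring
  rw [h5]
  nlinarith [sq_nonneg n]

theorem NU1_fin (h a n x : ℝ) (hh : 0 < h) (ha : a * h = Real.pi / 2) (hn : 1 ≤ n)
    (ha0 : 0 < a) (hx : x ≤ 1.2 / 10 ^ 9 * a ^ 2) :
    4096 * Real.pi ^ 2 * x ^ 3 * (10 ^ 5 * n * h * (10 ^ 5 * h / 2) * ((1 - 3 / 10 ^ 10) * h)) ^ 2 <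
      n ^ 2 := by
  have h1 : x ^ 3 ≤ (1.2 / 10 ^ 9 * a ^ 2) ^ 3 :=
    (Odd.strictMono_pow (by decide : Odd 3)).monotone hx
  have h2 : (10 ^ 5 * n * h * (10 ^ 5 * h / 2) * ((1 - 3 / 10 ^ 10) * h)) ^ 2 ≤
      (10 ^ 5 * n * h * (10 ^ 5 * h / 2) * h) ^ 2 := by
    refine pow_le_pow_left₀ ?_ ?_ 2
    · have : (0 : ℝ) ≤ 1 - 3 / 10 ^ 10 := by norm_num
      positivity
    · refine mul_le_mul_of_nonneg_left ?_ (by positivity)
      nlinarith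
  have hpi := Real.pi_lt_d2
  have hpi0 := Real.pi_pos
  have h8 : Real.pi ^ 8 ≤ 3.15 ^ 8 := pow_le_pow_left₀ hpi0.le hpi.le 8
  calc 4096 * Real.pi ^ 2 * x ^ 3 * (10 ^ 5 * n * h * (10 ^ 5 * h / 2) * ((1 - 3 / 10 ^ 10) * h)) ^ 2
      ≤ 4096 * Real.pi ^ 2 * (1.2 / 10 ^ 9 * a ^ 2) ^ 3 *
        (10 ^ 5 * n * h * (10 ^ 5 * h / 2) * ((1 - 3 / 10 ^ 10) * h)) ^ 2 := by
        refine mul_le_mul_of_nonneg_right ?_ (sq_nonneg _)
        exact mul_le_mul_of_nonneg_left h1 (by positivity)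
    _ ≤ 4096 * Real.pi ^ 2 * (1.2 / 10 ^ 9 * a ^ 2) ^ 3 *
        (10 ^ 5 * n * h * (10 ^ 5 * h / 2) * h) ^ 2 := by
        refine mul_le_mul_of_nonneg_left h2 (by positivity)
    _ = 4096 * Real.pi ^ 2 * (1.2 / 10 ^ 9) ^ 3 * (10 ^ 10 / 2) ^ 2 * (a * h) ^ 6 * n ^ 2 := by ring
    _ = 4096 * (1.2 / 10 ^ 9) ^ 3 * (10 ^ 10 / 2) ^ 2 / 64 * Real.pi ^ 8 * n ^ 2 := by
        rw [ha]; ring
    _ ≤ 4096 * (1.2 / 10 ^ 9) ^ 3 * (10 ^ 10 / 2) ^ 2 / 64 * 3.15 ^ 8 * n ^ 2 := by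
        refine mul_le_mul_of_nonneg_right ?_ (sq_nonneg _)
        exact mul_le_mul_of_nonneg_left h8 (by norm_num)
    _ < 1 * n ^ 2 := by
        refine mul_lt_mul_of_pos_right ?_ (by positivity)
        norm_num
    _ = n ^ 2 := one_mul _

theorem prfNU1 : NU1 := by
  intro n R h lam hh hR hn hlam hnR
  have hR0 : 0 < R := by
    by_contra hc
    push Not at hc
    have : 1 / 10 ^ 60 * R ≤ 0 := mul_nonpos_of_nonneg_of_nonpos (by norm_num) hc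
    linarith
  obtain ⟨a, ha⟩ : ∃ a : ℝ, a = Real.pi / (2 * h) := ⟨_, rfl⟩
  have hpi0 := Real.pi_pos
  have ha0 : 0 < a := by rw [ha]; positivity
  have hah : a * h = Real.pi / 2 := by rw [ha]; field_simp
  rw [← ha] at hlam hnR
  have hn1 : (1 : ℝ) ≤ n := by exact_mod_cast hn
  have hη : (0 : ℝ) < 1 - 3 / 10 ^ 10 := by norm_num
  refine ⟨10 ^ 5 * n * h, 10 ^ 5 * h / 2, (1 - 3 / 10 ^ 10) * h, ⟨by positivity, by nlinarith,
    by positivity, ?_⟩, ?_⟩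
  · refine NU1_fin h a n _ hh hah hn1 ha0 ?_
    unfold Eb
    have e1 : (Real.pi / (2 * (10 ^ 5 * h / 2))) ^ 2 = 4 / 10 ^ 10 * a ^ 2 := by
      rw [ha]; field_simp; ring
    have e2 : (Real.pi / (2 * ((1 - 3 / 10 ^ 10) * h))) ^ 2 ≤ (1 + 6.1 / 10 ^ 10) * a ^ 2 := by
      have : Real.pi / (2 * ((1 - 3 / 10 ^ 10) * h)) = (1 - 3 / 10 ^ 10)⁻¹ * a := by
        rw [ha]; field_simp
      rw [this, mul_pow]
      refine mul_le_mul_of_nonneg_right ?_ (sq_nonneg _)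
      norm_num
    have e3 := NU1_E3 h a n hh hah hn1
    have e4 : (1 - 4 / 10 ^ 60) * a ^ 2 ≤ lam := by
      refine le_trans (mul_le_mul_of_nonneg_left ?_ (by norm_num)) hlam
      refine pow_le_pow_left₀ ha0.le ?_ 2
      have : (0 : ℝ) ≤ n / R := by positivity
      linarith
    have e5 : (0 : ℝ) ≤ a ^ 2 := sq_nonneg a
    rw [e1]
    nlinarith
  · have h1 : (n : ℝ) * h / R ≤ Real.pi / 2 / 10 ^ 10 := by
      rw [div_le_iff₀ hR0]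
      have : (n : ℝ) ≤ a * R / 10 ^ 10 := by
        rw [le_div_iff₀ (by norm_num)]; linarith
      calc (n : ℝ) * h ≤ a * R / 10 ^ 10 * h := mul_le_mul_of_nonneg_right this hh.le
        _ = (a * h) / 10 ^ 10 * R := by ring
        _ = Real.pi / 2 / 10 ^ 10 * R := by rw [hah]
    have h2 : (10 ^ 5 * n * h + 10 ^ 5 * h / 2) / R ≤ 1.5 * 10 ^ 5 * (n * h / R) := by
      rw [div_le_iff₀ hR0]
      have : 1.5 * 10 ^ 5 * ((n : ℝ) * h / R) * R = 1.5 * 10 ^ 5 * (n * h) := by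
        field_simp
      rw [this]
      nlinarith
    have h3 : (10 ^ 5 * n * h + 10 ^ 5 * h / 2) / R ≤ 1.5 * 10 ^ 5 * (3.15 / 2 / 10 ^ 10) := by
      refine le_trans h2 (mul_le_mul_of_nonneg_left (le_trans h1 ?_) (by norm_num))
      have := Real.pi_lt_d2
      linarith
    have h4 : (10 ^ 5 * n * h + 10 ^ 5 * h / 2) ^ 2 / R ^ 2 ≤
        (1.5 * 10 ^ 5 * (3.15 / 2 / 10 ^ 10)) ^ 2 := by
      rw [← div_pow]
      exact pow_le_pow_left₀ (by positivity) h3 2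
    have h5 : ((1 - 3 / 10 ^ 10) * h) ^ 2 / h ^ 2 = (1 - 3 / 10 ^ 10) ^ 2 := by
      field_simp
    rw [h5]
    refine lt_of_le_of_lt (add_le_add_left h4 _) ?_
    norm_num

end Pool.Agent.Work.MP_d5b3be_an.BN
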