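import Pool.Agent.Work.MP_d5b3be_an.BN.Stmts2

/-!
# Block BN: item NU2
-/

set_option autoImplicit false

namespace Pool.Agent.Work.MP_d5b3be_an.BN

open MeasureTheory Filter Set
open scoped ENNReal Topology ContDiff

theorem NU2_t (a b : ℝ) (ha : 0 < a) (hb : 0 < b) (h1 : a ≤ 10 ^ 10 * b) (h2 : b ≤ 10 ^ 9 * a) :
    0 < b / (a + b) ∧ b / (a + b) < 1 ∧ 1 / 10 ^ 12 ≤ b / (a + b) ∧
      1 / 10 ^ 10 ≤ 1 - b / (a + b) ∧ (a + b) * (b / (a + b)) = b := by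
  have hab : 0 < a + b := by positivity
  refine ⟨by positivity, ?_, ?_, ?_, ?_⟩
  · rw [div_lt_one hab]; linarith
  · rw [le_div_iff₀ hab]; norm_num at *; linarith
  · have : 1 - b / (a + b) = a / (a + b) := by field_simp; ring
    rw [this, le_div_iff₀ hab]; norm_num at *; linarith
  · field_simp

theorem NU2_i (a b q : ℝ) (ha : 0 < a) (hb : 0 < b) (h1 : a ≤ 10 ^ 10 * b)
    (h2 : b ≤ 10 ^ 9 * a) (hq0 : 0 < q) (hq : q ≤ 1 / 10 ^ 53) :
    a ^ 2 / (1 - b / (a + b) - 4 * q) ≤ (1 + 1 / 10 ^ 40) * (a * (a + b)) := by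
  obtain ⟨t0, t1, t2, t3, t4⟩ := NU2_t a b ha hb h1 h2
  set t := b / (a + b) with ht
  have hw : 0 < 1 - t - 4 * q := by norm_num at *; linarith
  rw [div_le_iff₀ hw]
  have e1 : (1 + 1 / 10 ^ 40) * (a * (a + b)) * (1 - t - 4 * q) =
      (1 + 1 / 10 ^ 40) * (a * ((a + b) - (a + b) * t) - 4 * q * (a * (a + b))) := by ring
  rw [e1, t4]
  have e2 : a + b - b = a := by ring
  rw [e2]
  have e3 : a * (a + b) ≤ a * ((1 + 10 ^ 9) * a) := by
    apply mul_le_mul_of_nonneg_left _ ha.le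
    linarith
  have e4 : 4 * q * (a * (a + b)) ≤ 4 * (1 / 10 ^ 53) * (a * ((1 + 10 ^ 9) * a)) := by
    apply mul_le_mul _ e3 (by positivity) (by positivity)
    linarith
  have e5 : 0 < a ^ 2 := by positivity
  norm_num at *
  nlinarith

theorem NU2_ii (a b q s : ℝ) (ha : 0 < a) (hb : 0 < b) (h1 : a ≤ 10 ^ 10 * b)
    (h2 : b ≤ 10 ^ 9 * a) (hq0 : 0 < q) (hq : q ≤ 1 / 10 ^ 53) (hs : s ^ 2 = b / (a + b))
    (hs1 : s ≤ 1) (hs0 : 1 / 10 ^ 6 ≤ s) :
    b ^ 2 / (s - q) ^ 2 ≤ (1 + 1 / 10 ^ 40) * (b * (a + b)) := by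
  obtain ⟨t0, t1, t2, t3, t4⟩ := NU2_t a b ha hb h1 h2
  have hw : 0 < s - q := by norm_num at *; linarith
  rw [div_le_iff₀ (by positivity)]
  have e0 : b / (a + b) - 2 * q ≤ (s - q) ^ 2 := by
    rw [← hs]; nlinarith [sq_nonneg q]
  have e1 : (1 + 1 / 10 ^ 40) * (b * (a + b)) * (b / (a + b) - 2 * q) ≤
      (1 + 1 / 10 ^ 40) * (b * (a + b)) * (s - q) ^ 2 :=
    mul_le_mul_of_nonneg_left e0 (by positivity)
  refine le_trans ?_ e1
  have e2 : (1 + 1 / 10 ^ 40) * (b * (a + b)) * (b / (a + b) - 2 * q) =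
      (1 + 1 / 10 ^ 40) * (b * ((a + b) * (b / (a + b))) - 2 * q * (b * (a + b))) := by ring
  rw [e2, t4]
  have e3 : b * (a + b) ≤ b * ((1 + 10 ^ 10) * b) := by
    apply mul_le_mul_of_nonneg_left _ hb.le
    linarith
  have e4 : 2 * q * (b * (a + b)) ≤ 2 * (1 / 10 ^ 53) * (b * ((1 + 10 ^ 10) * b)) := by
    apply mul_le_mul _ e3 (by positivity) (by positivity)
    linarith
  have e5 : 0 < b ^ 2 := by positivity
  norm_num at *
  nlinarith

theorem prfNU2 : NU2 := by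
  intro n R h lam hh hhR hn hlam h1 h2
  have hR : 0 < R := by
    have h3 : 0 < 1 / 10 ^ 60 * R := lt_of_lt_of_le hh hhR
    by_contra hc
    have h4 : 1 / 10 ^ 60 * R ≤ 0 := mul_nonpos_of_nonneg_of_nonpos (by positivity) (not_lt.1 hc)
    linarith
  have hn' : (1 : ℝ) ≤ n := by exact_mod_cast hn
  have hpi := Real.pi_pos
  set a := Real.pi / (2 * h) with ha_def
  set b := (n : ℝ) / R with hb_def
  have ha : 0 < a := by positivity
  have hb : 0 < b := by positivity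
  have hab1 : a ≤ 10 ^ 10 * b := by
    rw [hb_def, ← mul_div_assoc, le_div_iff₀ hR]; exact h1
  have hab2 : b ≤ 10 ^ 9 * a := by
    rw [hb_def, div_le_iff₀ hR]; linarith
  obtain ⟨q, hq_def⟩ : ∃ q : ℝ, q = 10 ^ 7 * h / R := ⟨_, rfl⟩
  have hq0 : 0 < q := by rw [hq_def]; positivity
  have hq : q ≤ 1 / 10 ^ 53 := by
    rw [hq_def, div_le_iff₀ hR]; norm_num at *; linarith
  have hδ : 10 ^ 7 * h = q * R := by rw [hq_def]; field_simp
  obtain ⟨t0, t1, t2, t3, t4⟩ := NU2_t a b ha hb hab1 hab2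
  obtain ⟨t, ht⟩ : ∃ t : ℝ, t = b / (a + b) := ⟨_, rfl⟩
  obtain ⟨s, hs_def⟩ : ∃ s : ℝ, s = Real.sqrt t := ⟨_, rfl⟩
  have hs2 : s ^ 2 = t := by rw [hs_def, Real.sq_sqrt]; rw [ht]; exact t0.le
  have hs0 : 1 / 10 ^ 6 ≤ s := by
    rw [hs_def]; apply Real.le_sqrt_of_sq_le; rw [ht]
    refine le_trans (le_of_eq ?_) t2
    norm_num
  have hs1 : s ≤ 1 := by
    rw [hs_def]; apply Real.sqrt_le_one.2; rw [ht]; exact t1.le
  have hspos : 0 < s := lt_of_lt_of_le (by positivity) hs0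
  obtain ⟨w, hw_def⟩ : ∃ w : ℝ, w = 1 - t - 4 * q := ⟨_, rfl⟩
  have hw : 0 < w := by rw [hw_def, ht]; norm_num at *; linarith
  have hw1 : w ≤ 1 := by rw [hw_def, ht]; linarith
  have hsw : Real.sqrt w ^ 2 = w := Real.sq_sqrt hw.le
  have hswp : 0 < Real.sqrt w := Real.sqrt_pos.2 hw
  have hsq : q < s := by norm_num at *; linarith
  refine ⟨R * s, 10 ^ 7 * h, h * Real.sqrt w, ⟨by positivity, ?_, by positivity, ?_⟩, ?_⟩
  · rw [hδ]; nlinarith
  · -- the energy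
    have hE : Eb n (R * s) (10 ^ 7 * h) (h * Real.sqrt w) =
        a ^ 2 / 10 ^ 14 + a ^ 2 / w + b ^ 2 / (s - q) ^ 2 := by
      unfold Eb
      have i1 : (Real.pi / (2 * (10 ^ 7 * h))) ^ 2 = a ^ 2 / 10 ^ 14 := by
        rw [ha_def]; field_simp
      have i2 : (Real.pi / (2 * (h * Real.sqrt w))) ^ 2 = a ^ 2 / w := by
        rw [ha_def]
        conv_rhs => rw [← hsw]
        field_simp
      have i3 : (n : ℝ) ^ 2 / (R * s - 10 ^ 7 * h) ^ 2 = b ^ 2 / (s - q) ^ 2 := by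
        have h5 : R * s - 10 ^ 7 * h = R * (s - q) := by rw [hδ]; ring
        have h6 : s - q ≠ 0 := by linarith
        rw [h5, hb_def]; field_simp
      rw [i1, i2, i3]
    have h7 := NU2_i a b q ha hb hab1 hab2 hq0 hq
    rw [← ht, ← hw_def] at h7
    have h8 := NU2_ii a b q s ha hb hab1 hab2 hq0 hq (by rw [hs2, ht]) hs1 hs0
    have h9 : (a + b) ^ 2 ≤ ((1 + 10 ^ 9) * a) ^ 2 := by
      apply pow_le_pow_left₀ (by positivity)
      linarith
    have hX : Eb n (R * s) (10 ^ 7 * h) (h * Real.sqrt w) - lam ≤ 11 / 10 ^ 15 * a ^ 2 := by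
      rw [hE]
      have h10 : a ^ 2 / w + b ^ 2 / (s - q) ^ 2 ≤ (1 + 1 / 10 ^ 40) * (a + b) ^ 2 := by
        calc _ ≤ (1 + 1 / 10 ^ 40) * (a * (a + b)) + (1 + 1 / 10 ^ 40) * (b * (a + b)) :=
              add_le_add h7 h8
          _ = _ := by ring
      have h11 : 0 < a ^ 2 := by positivity
      have h12 : a ^ 2 / 10 ^ 14 = 1 / 10 ^ 14 * a ^ 2 := by ring
      rw [h12]
      have h13 : ((1 + 10 ^ 9) * a) ^ 2 = (1 + 10 ^ 9) ^ 2 * a ^ 2 := by ring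
      rw [h13] at h9
      have h14 : 0 ≤ (a + b) ^ 2 := by positivity
      norm_num at *
      linarith
    have hX3 : (Eb n (R * s) (10 ^ 7 * h) (h * Real.sqrt w) - lam) ^ 3 ≤
        (11 / 10 ^ 15 * a ^ 2) ^ 3 :=
      (Odd.pow_le_pow (by decide : Odd 3)).2 hX
    have hY : (R * s * (10 ^ 7 * h) * (h * Real.sqrt w)) ^ 2 ≤ 10 ^ 14 * R ^ 2 * h ^ 4 := by
      have e1 : (R * s * (10 ^ 7 * h) * (h * Real.sqrt w)) ^ 2 =
          10 ^ 14 * R ^ 2 * h ^ 4 * (s ^ 2 * Real.sqrt w ^ 2) := by ring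
      rw [e1, hsw, hs2]
      have e2 : t * w ≤ 1 := by
        have : t ≤ 1 := by rw [ht]; exact t1.le
        have : 0 < t := by rw [ht]; exact t0
        nlinarith
      calc 10 ^ 14 * R ^ 2 * h ^ 4 * (t * w) ≤ 10 ^ 14 * R ^ 2 * h ^ 4 * 1 :=
            mul_le_mul_of_nonneg_left e2 (by positivity)
        _ = _ := by ring
    have hah : a * h = Real.pi / 2 := by rw [ha_def]; field_simp
    have hpi2 : Real.pi < 3.15 := Real.pi_lt_d2
    have hpi6 : Real.pi ^ 6 ≤ 3.15 ^ 6 := pow_le_pow_left₀ hpi.le hpi2.le 6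
    have haR : (a * R) ^ 2 ≤ (10 ^ 10 * n) ^ 2 := pow_le_pow_left₀ (by positivity) h1 2
    calc 4096 * Real.pi ^ 2 * (Eb n (R * s) (10 ^ 7 * h) (h * Real.sqrt w) - lam) ^ 3 *
          (R * s * (10 ^ 7 * h) * (h * Real.sqrt w)) ^ 2
        ≤ 4096 * Real.pi ^ 2 * (11 / 10 ^ 15 * a ^ 2) ^ 3 *
          (R * s * (10 ^ 7 * h) * (h * Real.sqrt w)) ^ 2 := by
          apply mul_le_mul_of_nonneg_right _ (by positivity)
          exact mul_le_mul_of_nonneg_left hX3 (by positivity)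
      _ ≤ 4096 * Real.pi ^ 2 * (11 / 10 ^ 15 * a ^ 2) ^ 3 * (10 ^ 14 * R ^ 2 * h ^ 4) :=
          mul_le_mul_of_nonneg_left hY (by positivity)
      _ = 4096 * Real.pi ^ 2 * (11 / 10 ^ 15) ^ 3 * 10 ^ 14 * (a * h) ^ 4 * (a * R) ^ 2 := by
          ring
      _ = 256 * (11 / 10 ^ 15) ^ 3 * 10 ^ 14 * Real.pi ^ 6 * (a * R) ^ 2 := by
          rw [hah]; ring
      _ ≤ 256 * (11 / 10 ^ 15) ^ 3 * 10 ^ 14 * 3.15 ^ 6 * (10 ^ 10 * n) ^ 2 := by
          apply mul_le_mul _ haR (by positivity) (by positivity)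
          exact mul_le_mul_of_nonneg_left hpi6 (by positivity)
      _ < (n : ℝ) ^ 2 := by
          have h15 : (0 : ℝ) < (n : ℝ) ^ 2 := by positivity
          rw [mul_pow]
          norm_num
          nlinarith
  · have e1 : (R * s + 10 ^ 7 * h) ^ 2 / R ^ 2 = (s + q) ^ 2 := by
      rw [hδ]
      have : R * s + q * R = R * (s + q) := by ring
      rw [this]; field_simp
    have e2 : (h * Real.sqrt w) ^ 2 / h ^ 2 = w := by
      rw [mul_pow, hsw]; field_simp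
    rw [e1, e2, hw_def]
    have e3 : (s + q) ^ 2 = t + 2 * s * q + q ^ 2 := by rw [← hs2]; ring
    rw [e3]
    have e4 : s * q ≤ 1 * q := mul_le_mul_of_nonneg_right hs1 hq0.le
    have e5 : q ^ 2 ≤ 1 * q := by
      rw [sq]
      apply mul_le_mul_of_nonneg_right _ hq0.le
      norm_num at *
      linarith
    linarith

end Pool.Agent.Work.MP_d5b3be_an.BN
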