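import Pool.Agent.Work.MP_d5b3be_an.BN.Stmts2

/-!
# Block BN, item NU3: numbers for large n
-/

set_option autoImplicit false

namespace Pool.Agent.Work.MP_d5b3be_an.BN

theorem prfNU3 : NU3 := by
  intro n R h lam hh hhR hn hlam hnR
  have hR : 0 < R := by
    by_contra hc
    push Not at hc
    have : 1 / 10 ^ 60 * R ≤ 0 := mul_nonpos_of_nonneg_of_nonpos (by positivity) hc
    linarith
  have hpi3 : (3 : ℝ) < Real.pi := Real.pi_gt_three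
  have hpi4 : Real.pi < 3.15 := Real.pi_lt_d2
  have hN0 : (0 : ℝ) < (n : ℝ) := by exact_mod_cast hn
  -- the ratio `R / h`
  obtain ⟨y, hy⟩ : ∃ y : ℝ, y = R / h := ⟨_, rfl⟩
  have hy0 : 0 < y := by rw [hy]; positivity
  have hy1 : (10 : ℝ) ^ 60 ≤ y := by
    rw [hy, le_div_iff₀ hh]
    have : h * 10 ^ 60 ≤ 1 / 10 ^ 60 * R * 10 ^ 60 := by
      exact mul_le_mul_of_nonneg_right hhR (by positivity)
    have h2 : 1 / 10 ^ 60 * R * 10 ^ 60 = R := by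
      field_simp
    linarith
  have hNy : 10 ^ 9 * (Real.pi / 2 * y) ≤ (n : ℝ) := by
    have e : Real.pi / (2 * h) * R = Real.pi / 2 * y := by
      rw [hy]; field_simp
    rw [e] at hnR
    exact hnR
  have hNy' : 10 ^ 9 * (1.5 * y) ≤ (n : ℝ) := by
    have : 1.5 * y ≤ Real.pi / 2 * y := mul_le_mul_of_nonneg_right (by linarith) hy0.le
    nlinarith
  -- the ratio `δ / R`
  obtain ⟨x, hx⟩ : ∃ x : ℝ, x = 10 ^ 4 / (n : ℝ) := ⟨_, rfl⟩
  have hx0 : 0 < x := by rw [hx]; positivity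
  have hxn : x * (n : ℝ) = 10 ^ 4 := by rw [hx]; field_simp
  have hx1 : x ≤ 1 / 10 ^ 60 := by
    rw [hx, div_le_iff₀ hN0]
    have h1 : (10 : ℝ) ^ 9 * (1.5 * 10 ^ 60) ≤ (n : ℝ) :=
      le_trans (by nlinarith [hy1]) hNy'
    nlinarith
  have hxy : x * y ≤ 1 / 10 ^ 5 := by
    have h1 : x * (10 ^ 9 * (1.5 * y)) ≤ x * (n : ℝ) := mul_le_mul_of_nonneg_left hNy' hx0.le
    rw [hxn] at h1
    nlinarith
  have hxy0 : 0 < x * y := mul_pos hx0 hy0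
  -- the frequency
  obtain ⟨q, hq⟩ : ∃ q : ℝ, q = (n : ℝ) / R := ⟨_, rfl⟩
  have hq0 : 0 < q := by rw [hq]; positivity
  have hqR : q * R = n := by rw [hq]; field_simp
  obtain ⟨s, hs⟩ : ∃ s : ℝ, s = 1 - 5 / 10 ^ 9 := ⟨_, rfl⟩
  have hs0 : 0 < s := by rw [hs]; norm_num
  have hs1 : s ≤ 1 := by rw [hs]; norm_num
  refine ⟨s * R, x * R, x * R, ⟨by positivity, ?_, by positivity, ?_⟩, ?_⟩
  · refine mul_lt_mul_of_pos_right ?_ hR
    rw [hs]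
    refine lt_of_le_of_lt hx1 ?_
    norm_num
  · -- the energy
    have hsx : 0 < s - x := by
      rw [hs]
      have : x < 1 / 2 := lt_of_le_of_lt hx1 (by norm_num)
      norm_num
      linarith
    have e1 : (Real.pi / (2 * (x * R))) ^ 2 = Real.pi ^ 2 / (4 * 10 ^ 8) * q ^ 2 := by
      have hxR : x * R = 10 ^ 4 / q := by
        rw [eq_div_iff hq0.ne']
        calc x * R * q = x * (q * R) := by ring
          _ = 10 ^ 4 := by rw [hqR, hxn]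
      rw [hxR]
      field_simp
      norm_num
    have e2 : (n : ℝ) ^ 2 / (s * R - x * R) ^ 2 = q ^ 2 / (s - x) ^ 2 := by
      rw [← hqR, ← sub_mul, mul_pow, mul_pow]
      field_simp
    have e3 : q ^ 2 / (s - x) ^ 2 ≤ (1 + 1.1 / 10 ^ 8) * q ^ 2 := by
      rw [div_le_iff₀ (by positivity)]
      have h1 : 1 ≤ (1 + 1.1 / 10 ^ 8) * (s - x) ^ 2 := by
        have h2 : s - 1 / 10 ^ 60 ≤ s - x := by linarith
        have h3 : 0 ≤ s - 1 / 10 ^ 60 := by rw [hs]; norm_num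
        have h4 : (s - 1 / 10 ^ 60) ^ 2 ≤ (s - x) ^ 2 := pow_le_pow_left₀ h3 h2 2
        have h5 : 1 ≤ (1 + 1.1 / 10 ^ 8) * (s - 1 / 10 ^ 60) ^ 2 := by rw [hs]; norm_num
        refine h5.trans ?_
        exact mul_le_mul_of_nonneg_left h4 (by positivity)
      calc q ^ 2 = q ^ 2 * 1 := by ring
        _ ≤ q ^ 2 * ((1 + 1.1 / 10 ^ 8) * (s - x) ^ 2) :=
            mul_le_mul_of_nonneg_left h1 (by positivity)
        _ = (1 + 1.1 / 10 ^ 8) * q ^ 2 * (s - x) ^ 2 := by ring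
    have e4 : (1 - 4 / 10 ^ 60) * q ^ 2 ≤ lam := by
      refine le_trans ?_ hlam
      refine mul_le_mul_of_nonneg_left ?_ (by norm_num)
      rw [← hq]
      refine pow_le_pow_left₀ hq0.le ?_ 2
      have : 0 < Real.pi / (2 * h) := by positivity
      linarith
    have hpisq : Real.pi ^ 2 ≤ 9.93 := by nlinarith
    have e5 : Eb n (s * R) (x * R) (x * R) - lam ≤ 6.3 / 10 ^ 8 * q ^ 2 := by
      unfold Eb
      rw [e1, e2]
      have h1 : Real.pi ^ 2 / (4 * 10 ^ 8) * q ^ 2 ≤ 9.93 / (4 * 10 ^ 8) * q ^ 2 :=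
        mul_le_mul_of_nonneg_right (div_le_div_of_nonneg_right hpisq (by positivity))
          (by positivity)
      have h2 : (0 : ℝ) ≤ q ^ 2 := by positivity
      have h3 : (9.93 / (4 * 10 ^ 8) * 2 + (1 + 1.1 / 10 ^ 8) - (1 - 4 / 10 ^ 60)) * q ^ 2 ≤
          6.3 / 10 ^ 8 * q ^ 2 := mul_le_mul_of_nonneg_right (by norm_num) h2
      nlinarith
    have e6 : (Eb n (s * R) (x * R) (x * R) - lam) ^ 3 ≤ (6.3 / 10 ^ 8 * q ^ 2) ^ 3 :=
      (Odd.strictMono_pow (by decide : Odd 3)).monotone e5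
    have e7 : (s * R * (x * R) * (x * R)) ^ 2 ≤ x ^ 4 * R ^ 6 := by
      have h1 : (s * R * (x * R) * (x * R)) ^ 2 = s ^ 2 * (x ^ 4 * R ^ 6) := by ring
      rw [h1]
      have h2 : s ^ 2 ≤ 1 := pow_le_one₀ hs0.le hs1
      calc s ^ 2 * (x ^ 4 * R ^ 6) ≤ 1 * (x ^ 4 * R ^ 6) :=
            mul_le_mul_of_nonneg_right h2 (by positivity)
        _ = x ^ 4 * R ^ 6 := one_mul _
    have e8 : (q ^ 2) ^ 3 * (x ^ 4 * R ^ 6) = 10 ^ 16 * (n : ℝ) ^ 2 := by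
      calc (q ^ 2) ^ 3 * (x ^ 4 * R ^ 6) = (q * R) ^ 2 * (x * (q * R)) ^ 4 := by ring
        _ = (n : ℝ) ^ 2 * (x * (n : ℝ)) ^ 4 := by rw [hqR]
        _ = 10 ^ 16 * (n : ℝ) ^ 2 := by rw [hxn]; ring
    have h9 : (0 : ℝ) ≤ (s * R * (x * R) * (x * R)) ^ 2 := by positivity
    calc 4096 * Real.pi ^ 2 * (Eb n (s * R) (x * R) (x * R) - lam) ^ 3 *
          (s * R * (x * R) * (x * R)) ^ 2
        ≤ 4096 * Real.pi ^ 2 * (6.3 / 10 ^ 8 * q ^ 2) ^ 3 *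
          (s * R * (x * R) * (x * R)) ^ 2 :=
          mul_le_mul_of_nonneg_right (mul_le_mul_of_nonneg_left e6 (by positivity)) h9
      _ ≤ 4096 * Real.pi ^ 2 * (6.3 / 10 ^ 8 * q ^ 2) ^ 3 * (x ^ 4 * R ^ 6) :=
          mul_le_mul_of_nonneg_left e7 (by positivity)
      _ = 4096 * Real.pi ^ 2 * (6.3 / 10 ^ 8) ^ 3 * ((q ^ 2) ^ 3 * (x ^ 4 * R ^ 6)) := by ring
      _ = 4096 * Real.pi ^ 2 * (6.3 / 10 ^ 8) ^ 3 * (10 ^ 16 * (n : ℝ) ^ 2) := by rw [e8]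
      _ ≤ 4096 * 9.93 * (6.3 / 10 ^ 8) ^ 3 * (10 ^ 16 * (n : ℝ) ^ 2) := by
          refine mul_le_mul_of_nonneg_right ?_ (by positivity)
          refine mul_le_mul_of_nonneg_right ?_ (by positivity)
          exact mul_le_mul_of_nonneg_left hpisq (by norm_num)
      _ = (4096 * 9.93 * (6.3 / 10 ^ 8) ^ 3 * 10 ^ 16) * (n : ℝ) ^ 2 := by ring
      _ < 1 * (n : ℝ) ^ 2 := mul_lt_mul_of_pos_right (by norm_num) (by positivity)
      _ = (n : ℝ) ^ 2 := one_mul _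
  · have e1 : (s * R + x * R) ^ 2 / R ^ 2 = (s + x) ^ 2 := by
      rw [← add_mul, mul_pow]
      field_simp
    have e2 : (x * R) ^ 2 / h ^ 2 = (x * y) ^ 2 := by
      rw [hy]; field_simp
    rw [e1, e2]
    have h1 : (s + x) ^ 2 ≤ (s + 1 / 10 ^ 60) ^ 2 :=
      pow_le_pow_left₀ (by positivity) (by linarith) 2
    have h2 : (x * y) ^ 2 ≤ (1 / 10 ^ 5) ^ 2 := pow_le_pow_left₀ hxy0.le hxy 2
    have h3 : (s + 1 / 10 ^ 60) ^ 2 + (1 / 10 ^ 5) ^ 2 < (1 : ℝ) := by rw [hs]; norm_num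
    linarith

end Pool.Agent.Work.MP_d5b3be_an.BN
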