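import Pool.Agent.Work.MP_d5b3be_an.BN.Stmts3

/-! Block BN, item NZT: a nonzero test function. -/

set_option autoImplicit false

namespace Pool.Agent.Work.MP_d5b3be_an.BN

open MeasureTheory Filter Set
open scoped ENNReal Topology ContDiff

theorem prfNZT : NZT := by
  intro Ω hΩ ⟨p, hp⟩
  obtain ⟨φ, h1, h2, h3, -, h5⟩ := exists_contDiff_tsupport_subset (n := (⊤ : ℕ∞))
    (hΩ.mem_nhds hp)
  refine ⟨φ, ⟨h3, h2, h1⟩, ?_⟩
  have hc : Continuous fun x => φ x ^ 2 := (h3.continuous).pow 2
  have hcs : HasCompactSupport fun x => φ x ^ 2 := by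
    have := h2.comp_left (g := fun t : ℝ => t ^ 2) (by norm_num)
    exact this
  exact hc.integral_pos_of_hasCompactSupport_nonneg_nonzero hcs (fun x => sq_nonneg _)
    (x := p) (by rw [h5]; norm_num)

end Pool.Agent.Work.MP_d5b3be_an.BN
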