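import Pool.Agent.Work.MP_d5b3be_an.BN.Stmts2

/-! # Block BN: item PRI -/

set_option autoImplicit false

namespace Pool.Agent.Work.MP_d5b3be_an.BN

open MeasureTheory Filter Set
open scoped ENNReal Topology ContDiff

/-- iterated rotations -/
lemma PRI_iter (hR : ROT) (n : ℕ) (F : E3 → ℝ) (hF : ∀ x, F (rot (Real.pi / n) x) = -F x)
    (k : ℕ) (x : E3) : F (rot (k * (Real.pi / n)) x) = (-1 : ℝ) ^ k * F x := by
  induction k with
  | zero => simp [hR.1]
  | succ k ih =>
    have h1 : ((k + 1 : ℕ) : ℝ) * (Real.pi / n) = Real.pi / n + k * (Real.pi / n) := by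
      push_cast; ring
    rw [h1, ← hR.2.1, hF, ih, pow_succ]
    ring

/-- the mean of the rotated copies has the same integral -/
lemma PRI_mean (hR : ROT) (n : ℕ) (hn : 1 ≤ n) (H : E3 → ℝ) (hH : Integrable H volume) :
    ∫ x, (1 / (2 * n : ℝ)) * ∑ k ∈ Finset.range (2 * n), H (rot (k * (Real.pi / n)) x) =
      ∫ x, H x := by
  obtain ⟨-, -, -, -, -, -, hmp, hme, -⟩ := hR
  rw [integral_const_mul, integral_finset_sum]
  · have : ∀ k ∈ Finset.range (2 * n), ∫ x, H (rot (k * (Real.pi / n)) x) = ∫ x, H x := by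
      intro k _
      exact (hmp _).integral_comp (hme _) H
    rw [Finset.sum_congr rfl this, Finset.sum_const, Finset.card_range, nsmul_eq_mul]
    have h0 : (n : ℝ) ≠ 0 := by
      have : (1 : ℝ) ≤ n := by exact_mod_cast hn
      linarith
    push_cast
    field_simp
  · intro k _
    exact (hmp _).integrable_comp_of_integrable hH

lemma PRI_sq (k : ℕ) : (-1 : ℝ) ^ k * (-1 : ℝ) ^ k = 1 := by
  rw [← mul_pow]; norm_num

/-- the case of functions -/
lemma PRI_fun (hR : ROT) (n : ℕ) (hn : 1 ≤ n) (F φ : E3 → ℝ)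
    (hF : ∀ x, F (rot (Real.pi / n) x) = -F x) (hi : Integrable (fun x => F x * φ x) volume) :
    ∫ x, F x * Pn n φ x = ∫ x, F x * φ x := by
  rw [← PRI_mean hR n hn _ hi]
  congr 1
  funext x
  unfold Pn
  rw [← mul_assoc, mul_comm (F x), mul_assoc, Finset.mul_sum]
  congr 1
  apply Finset.sum_congr rfl
  intro k _
  rw [PRI_iter hR n F hF k x]
  ring

lemma PRI_diff (hR : ROT) (φ : E3 → ℝ) (hφ : ContDiff ℝ ((⊤ : ℕ∞) : WithTop ℕ∞) φ) (t : ℝ)
    (x : E3) : DifferentiableAt ℝ (fun y => φ (rot t y)) x := by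
  have h1 : ContDiff ℝ ((⊤ : ℕ∞) : WithTop ℕ∞) (fun y => φ (rot t y)) :=
    hφ.comp (hR.2.2.2.2.2.1 t)
  exact (h1.differentiable (by simp)) x

/-- the derivative of the symmetrization -/
lemma PRI_pd (hR : ROT) (n : ℕ) (φ : E3 → ℝ) (hφ : ContDiff ℝ ((⊤ : ℕ∞) : WithTop ℕ∞) φ)
    (i : Fin 3) (x : E3) :
    pd i (Pn n φ) x = (1 / (2 * n : ℝ)) * ∑ k ∈ Finset.range (2 * n), (-1 : ℝ) ^ k *
      pd i (fun y => φ (rot (k * (Real.pi / n)) y)) x := by
  have hd : HasFDerivAt (Pn n φ) ((1 / (2 * n : ℝ)) • ∑ k ∈ Finset.range (2 * n), (-1 : ℝ) ^ k •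
      fderiv ℝ (fun y => φ (rot (k * (Real.pi / n)) y)) x) x := by
    unfold Pn
    apply HasFDerivAt.const_mul
    apply HasFDerivAt.fun_sum
    intro k _
    apply HasFDerivAt.const_mul
    exact (PRI_diff hR φ hφ _ x).hasFDerivAt
  unfold pd
  rw [hd.fderiv]
  simp only [ContinuousLinearMap.smul_apply, ContinuousLinearMap.sum_apply, smul_eq_mul]

lemma PRI_pdc (φ : E3 → ℝ) (hφ : ContDiff ℝ ((⊤ : ℕ∞) : WithTop ℕ∞) φ) (i : Fin 3) :
    Continuous (pd i φ) := by
  unfold pd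
  exact (hφ.continuous_fderiv (by simp)).clm_apply continuous_const

lemma PRI_pds (φ : E3 → ℝ) (hφ : HasCompactSupport φ) (i : Fin 3) :
    HasCompactSupport (pd i φ) := by
  unfold pd
  exact hφ.fderiv_apply ℝ (Pi.single i (1 : ℝ))

/-- PRI: the symmetrization does not change the integrals against functions of the class -/
theorem prfPRI (hR : ROT) (hG : ROG) : PRI := by
  intro Ω n φ ψ _ hn hφ hψ
  obtain ⟨⟨hψ1, hψ2, -⟩, hψ3⟩ := hψ
  obtain ⟨hφ1, hφ2, -⟩ := hφ
  refine ⟨?_, ?_, ?_⟩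
  · have hi : Integrable (fun x => ∑ i, pd i ψ x * pd i φ x) volume := by
      apply integrable_finset_sum
      intro i _
      exact ((PRI_pdc ψ hψ1 i).mul (PRI_pdc φ hφ1 i)).integrable_of_hasCompactSupport
        ((PRI_pds ψ hψ2 i).mul_right)
    rw [← PRI_mean hR n hn _ hi]
    congr 1
    funext x
    have h1 : ∀ k : ℕ, ∑ i, pd i ψ (rot (k * (Real.pi / n)) x) *
        pd i φ (rot (k * (Real.pi / n)) x) =
        ∑ i, pd i ψ x * ((-1 : ℝ) ^ k * pd i (fun y => φ (rot (k * (Real.pi / n)) y)) x) := by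
      intro k
      rw [← (hG (k * (Real.pi / n)) ψ φ hψ1 hφ1 x).2]
      have h2 : (fun y => ψ (rot (k * (Real.pi / n)) y)) = fun y => (-1 : ℝ) ^ k * ψ y := by
        funext y
        exact PRI_iter hR n ψ hψ3 k y
      rw [h2]
      apply Finset.sum_congr rfl
      intro i _
      have h3 : pd i (fun y => (-1 : ℝ) ^ k * ψ y) x = (-1 : ℝ) ^ k * pd i ψ x := by
        unfold pd
        have hd : HasFDerivAt (fun y => (-1 : ℝ) ^ k * ψ y) ((-1 : ℝ) ^ k • fderiv ℝ ψ x) x :=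
          HasFDerivAt.const_mul ((hψ1.differentiable (by simp)) x).hasFDerivAt _
        rw [hd.fderiv]
        simp only [ContinuousLinearMap.smul_apply, smul_eq_mul]
      rw [h3]
      ring
    simp only [h1]
    rw [Finset.sum_comm, Finset.mul_sum]
    apply Finset.sum_congr rfl
    intro i _
    rw [PRI_pd hR n φ hφ1 i x, ← Finset.mul_sum]
    ring
  · apply PRI_fun hR n hn ψ φ hψ3
    exact (hψ1.continuous.mul hφ1.continuous).integrable_of_hasCompactSupport hψ2.mul_right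
  · apply PRI_fun hR n hn (fun x => ψ x ^ 5) φ
    · intro x
      simp only [hψ3]
      ring
    · apply ((hψ1.continuous.pow 5).mul hφ1.continuous).integrable_of_hasCompactSupport
      exact hφ2.mul_left

end Pool.Agent.Work.MP_d5b3be_an.BN
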