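import Pool.Agent.Work.MP_d5b3be_an.BN.Stmts2

/-!
# Block BN, item PRM (helper39): the symmetrization is in the class
-/

set_option autoImplicit false

namespace Pool.Agent.Work.MP_d5b3be_an.BN

open MeasureTheory Filter Set
open scoped ENNReal Topology ContDiff

theorem PRM_zero (Ω : Set E3) : Test Ω (fun _ => 0) := by
  refine ⟨contDiff_const, HasCompactSupport.zero, ?_⟩
  have h : tsupport (fun _ : E3 => (0 : ℝ)) = ∅ := tsupport_eq_empty_iff.2 rfl
  rw [h]
  exact Set.empty_subset _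

theorem PRM_add (Ω : Set E3) (φ ψ : E3 → ℝ) (h1 : Test Ω φ) (h2 : Test Ω ψ) :
    Test Ω (fun x => φ x + ψ x) :=
  ⟨h1.1.add h2.1, h1.2.1.add h2.2.1,
    (tsupport_add φ ψ).trans (Set.union_subset h1.2.2 h2.2.2)⟩

theorem PRM_mul (Ω : Set E3) (φ : E3 → ℝ) (c : ℝ) (h1 : Test Ω φ) :
    Test Ω (fun x => c * φ x) :=
  ⟨contDiff_const.mul h1.1, h1.2.1.mul_left,
    (tsupport_mul_subset_right (f := fun _ => c) (g := φ)).trans h1.2.2⟩

theorem PRM_sum (Ω : Set E3) (s : Finset ℕ) (φ : ℕ → E3 → ℝ) (h : ∀ k ∈ s, Test Ω (φ k)) :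
    Test Ω (fun x => ∑ k ∈ s, φ k x) := by
  induction s using Finset.induction_on with
  | empty => simpa using PRM_zero Ω
  | insert a s ha ih =>
    have h1 : (fun x => ∑ k ∈ insert a s, φ k x) = fun x => φ a x + ∑ k ∈ s, φ k x := by
      funext x
      exact Finset.sum_insert ha
    rw [h1]
    exact PRM_add Ω _ _ (h a (Finset.mem_insert_self a s))
      (ih fun k hk => h k (Finset.mem_insert_of_mem hk))

theorem prfPRM (hR : ROT) (hT : TRO) : PRM := by
  intro Ω n φ hΩ hn h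
  have hn0 : (n : ℝ) ≠ 0 := by
    have : 0 < n := hn
    positivity
  constructor
  · refine PRM_mul Ω _ _ (PRM_sum Ω _ _ fun k _ => ?_)
    exact PRM_mul Ω _ _ ((hT Ω n _ φ hΩ).1 h)
  · intro x
    show (1 / (2 * n : ℝ)) * ∑ k ∈ Finset.range (2 * n), (-1 : ℝ) ^ k *
      φ (rot (k * (Real.pi / n)) (rot (Real.pi / n) x)) = -((1 / (2 * n : ℝ)) *
        ∑ k ∈ Finset.range (2 * n), (-1 : ℝ) ^ k * φ (rot (k * (Real.pi / n)) x))
    have h1 : ∀ k : ℕ, (-1 : ℝ) ^ k * φ (rot (k * (Real.pi / n)) (rot (Real.pi / n) x)) =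
        -((-1 : ℝ) ^ (k + 1) * φ (rot (((k + 1 : ℕ) : ℝ) * (Real.pi / n)) x)) := by
      intro k
      have h2 : (((k + 1 : ℕ) : ℝ) * (Real.pi / n)) = k * (Real.pi / n) + Real.pi / n := by
        push_cast
        ring
      rw [hR.2.1, h2, pow_succ]
      ring
    simp_rw [h1]
    rw [Finset.sum_neg_distrib, mul_neg]
    congr 2
    have h3 := Finset.sum_range_succ'
      (fun k : ℕ => (-1 : ℝ) ^ k * φ (rot ((k : ℝ) * (Real.pi / n)) x)) (2 * n)
    rw [Finset.sum_range_succ] at h3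
    have h4 : (-1 : ℝ) ^ (2 * n) * φ (rot (((2 * n : ℕ) : ℝ) * (Real.pi / n)) x) =
        (-1 : ℝ) ^ 0 * φ (rot (((0 : ℕ) : ℝ) * (Real.pi / n)) x) := by
      have h5 : (((2 * n : ℕ) : ℝ) * (Real.pi / n)) = 2 * Real.pi := by
        push_cast
        field_simp
      rw [h5, hR.2.2.1, Nat.cast_zero, zero_mul, hR.1, pow_mul]
      norm_num
    rw [h4] at h3
    exact (add_right_cancel h3).symm

end Pool.Agent.Work.MP_d5b3be_an.BN
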