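import Pool.Agent.Work.MP_d5b3be_an.BN.Stmts

/-!
# Item PZL: the first eigenvalue of the ellipsoid
-/

set_option autoImplicit false

namespace Pool.Agent.Work.MP_d5b3be_an.BN

open MeasureTheory Filter Set
open scoped ENNReal Topology ContDiff

theorem PZL_cont (φ : E3 → ℝ) (hφ : ContDiff ℝ ((⊤ : ℕ∞) : WithTop ℕ∞) φ) (i : Fin 3) :
    Continuous (pd i φ) := by
  have h1 : Continuous (fderiv ℝ φ) := hφ.continuous_fderiv (by simp)
  exact h1.clm_apply continuous_const

theorem PZL_supp (φ : E3 → ℝ) (hc : HasCompactSupport φ) (i : Fin 3) :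
    HasCompactSupport (pd i φ) := by
  have h1 : HasCompactSupport (fderiv ℝ φ) := hc.fderiv ℝ
  refine h1.comp_left (g := fun L : E3 →L[ℝ] ℝ => L (Pi.single i (1 : ℝ))) ?_
  simp

theorem PZL_int (f : E3 → ℝ) (h1 : Continuous f) (h2 : HasCompactSupport f) :
    Integrable (fun x => f x ^ 2) volume := by
  refine Continuous.integrable_of_hasCompactSupport (h1.pow 2) ?_
  exact h2.comp_left (g := fun y : ℝ => y ^ 2) (by simp)

/-- item PZL -/
theorem prfPZL (h : EZL) : PZL := by
  intro R h' φ hR hh hT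
  have hE := h R h' φ hR hh hT
  obtain ⟨hs, hc, hsub⟩ := hT
  have i1 : Integrable (fun x => φ x ^ 2) volume := PZL_int φ hs.continuous hc
  have i2 : ∀ i, Integrable (fun x => pd i φ x ^ 2) volume := fun i =>
    PZL_int _ (PZL_cont φ hs i) (PZL_supp φ hc i)
  have i3 : Integrable (fun x => ∑ i, gr φ i x ^ 2) volume :=
    integrable_finsetSum _ fun i _ => i2 i
  have hnn : 0 ≤ DD (gr φ) := integral_nonneg fun x => Finset.sum_nonneg fun i _ => sq_nonneg _
  rw [← ENNReal.ofReal_le_ofReal_iff hnn]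
  unfold Q2 DD
  rw [← integral_const_mul, ofReal_integral_eq_lintegral_ofReal (i1.const_mul _)
    (Eventually.of_forall fun x => by positivity),
    ofReal_integral_eq_lintegral_ofReal i3
    (Eventually.of_forall fun x => Finset.sum_nonneg fun i _ => sq_nonneg _)]
  refine (lintegral_mono fun x => ?_).trans (hE.trans (lintegral_mono fun x => ?_))
  · refine ENNReal.ofReal_le_ofReal ?_
    by_cases hx : φ x = 0
    · simp [hx]
    · have hx1 : x ∈ ell R h' := hsub (subset_tsupport _ hx)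
      have hx2 : (x 0 ^ 2 + x 1 ^ 2) / R ^ 2 + x 2 ^ 2 / h' ^ 2 < 1 := hx1
      have hx3 : 0 ≤ x 2 ^ 2 / h' ^ 2 := by positivity
      have hx4 : 0 ≤ (x 0 ^ 2 + x 1 ^ 2) / R ^ 2 := by positivity
      refine mul_le_mul_of_nonneg_right ?_ (sq_nonneg _)
      rw [le_div_iff₀ (by linarith)]
      have hx5 : 0 ≤ (Real.pi / (2 * h')) ^ 2 := sq_nonneg _
      nlinarith
  · refine ENNReal.ofReal_le_ofReal ?_
    exact Finset.single_le_sum (f := fun i => gr φ i x ^ 2) (fun i _ => sq_nonneg _)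
      (Finset.mem_univ 2)

end Pool.Agent.Work.MP_d5b3be_an.BN
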