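import Pool.Agent.Work.MP_d5b3be_an.BN.Stmts2

/-!
# Item RIM: the rim of a body of revolution
-/

set_option autoImplicit false

namespace Pool.Agent.Work.MP_d5b3be_an.BN

open MeasureTheory Filter Set
open scoped ENNReal Topology ContDiff

/-- the distance to the axis -/
noncomputable def RIM_rho (x : E3) : ℝ := Real.sqrt (x 0 ^ 2 + x 1 ^ 2)

theorem RIM_arg (x : E3) : ∃ t : ℝ, x 0 = RIM_rho x * Real.cos t ∧ x 1 = RIM_rho x * Real.sin t := by
  have h : ‖(⟨x 0, x 1⟩ : ℂ)‖ = RIM_rho x := by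
    rw [Complex.norm_eq_sqrt_sq_add_sq]
    rfl
  refine ⟨Complex.arg ⟨x 0, x 1⟩, ?_, ?_⟩
  · rw [← h, Complex.norm_mul_cos_arg]
  · rw [← h, Complex.norm_mul_sin_arg]

theorem RIM_rot1 (x : E3) : ∃ t : ℝ, rot t ![RIM_rho x, 0, x 2] = x := by
  obtain ⟨t, h1, h2⟩ := RIM_arg x
  refine ⟨t, ?_⟩
  funext i
  fin_cases i
  · simp [rot]
    linarith
  · simp [rot]
    linarith
  · simp [rot]

theorem RIM_rot2 (x : E3) : ∃ t : ℝ, rot t x = ![RIM_rho x, 0, x 2] := by
  obtain ⟨t, h1, h2⟩ := RIM_arg x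
  refine ⟨-t, ?_⟩
  have hs := Real.sin_sq_add_cos_sq t
  funext i
  fin_cases i
  · simp only [rot, Real.cos_neg, Real.sin_neg]
    simp only [Fin.zero_eta, Matrix.cons_val_zero]
    calc Real.cos t * x 0 - -Real.sin t * x 1
        = Real.cos t * (RIM_rho x * Real.cos t) - -Real.sin t * (RIM_rho x * Real.sin t) := by
          rw [← h1, ← h2]
      _ = RIM_rho x * (Real.sin t ^ 2 + Real.cos t ^ 2) := by ring
      _ = RIM_rho x := by rw [hs, mul_one]
  · simp only [rot, Real.cos_neg, Real.sin_neg]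
    simp only [Fin.mk_one, Matrix.cons_val_one, Matrix.cons_val_zero]
    calc -Real.sin t * x 0 + Real.cos t * x 1
        = -Real.sin t * (RIM_rho x * Real.cos t) + Real.cos t * (RIM_rho x * Real.sin t) := by
          rw [← h1, ← h2]
      _ = 0 := by ring
  · simp [rot]

/-- Item RIM. -/
theorem prfRIM : RIM := by
  intro Ω hO hne hb hR
  have hrho0 : ∀ x, 0 ≤ RIM_rho x := fun x => Real.sqrt_nonneg _
  have hsq : ∀ x : E3, RIM_rho x ^ 2 = x 0 ^ 2 + x 1 ^ 2 := fun x =>
    Real.sq_sqrt (by positivity)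
  obtain ⟨M, hM⟩ := hb.exists_norm_le
  have hbd : BddAbove (RIM_rho '' Ω) := by
    refine ⟨2 * M, ?_⟩
    rintro _ ⟨x, hx, rfl⟩
    have h0 : |x 0| ≤ M := (norm_le_pi_norm x 0).trans (hM x hx)
    have h1 : |x 1| ≤ M := (norm_le_pi_norm x 1).trans (hM x hx)
    have hM0 : 0 ≤ M := (abs_nonneg _).trans h0
    apply Real.sqrt_le_iff.2
    refine ⟨by linarith, ?_⟩
    have e0 : x 0 ^ 2 ≤ M ^ 2 := sq_le_sq' (by linarith [neg_abs_le (x 0)]) ((le_abs_self _).trans h0)
    have e1 : x 1 ^ 2 ≤ M ^ 2 := sq_le_sq' (by linarith [neg_abs_le (x 1)]) ((le_abs_self _).trans h1)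
    nlinarith [sq_nonneg M]
  have hle : ∀ x ∈ Ω, RIM_rho x ≤ sSup (RIM_rho '' Ω) := fun x hx =>
    le_csSup hbd (mem_image_of_mem _ hx)
  have hRpos : 0 < sSup (RIM_rho '' Ω) := by
    obtain ⟨p, hp⟩ := hne
    obtain ⟨r, hr, hball⟩ := Metric.isOpen_iff.1 hO p hp
    have : ∃ q ∈ Ω, q 0 ≠ 0 := by
      by_cases h : p 0 = 0
      · refine ⟨Function.update p 0 (r / 2), hball ?_, ?_⟩
        · rw [Metric.mem_ball, dist_pi_lt_iff hr]
          intro i
          by_cases hi : i = 0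
          · subst hi
            rw [Function.update_self, h, Real.dist_eq, sub_zero, abs_of_pos (by positivity)]
            linarith
          · rw [Function.update_of_ne hi, dist_self]
            exact hr
        · rw [Function.update_self]
          positivity
      · exact ⟨p, hp, h⟩
    obtain ⟨q, hq, hq0⟩ := this
    refine lt_of_lt_of_le ?_ (hle q hq)
    apply Real.sqrt_pos.2
    positivity
  refine ⟨sSup (RIM_rho '' Ω), hRpos, ?_, ?_⟩
  · intro x hx
    rw [← hsq]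
    exact pow_le_pow_left₀ (hrho0 x) (hle x hx) 2
  intro ε hε hε1
  set R : ℝ := sSup (RIM_rho '' Ω) with hRdef
  have hlt : (1 - ε / 2) * R < sSup (RIM_rho '' Ω) := by
    rw [← hRdef]
    nlinarith
  obtain ⟨_, ⟨p, hp, rfl⟩, hp2⟩ := exists_lt_of_lt_csSup (hne.image _) hlt
  have hp0 : 0 < RIM_rho p := lt_trans (mul_pos (by linarith) hRpos) hp2
  obtain ⟨t, ht⟩ := RIM_rot2 p
  have hq : (![RIM_rho p, 0, p 2] : E3) ∈ Ω := by
    rw [← ht]
    exact hR t p hp
  obtain ⟨r, hr, hball⟩ := Metric.isOpen_iff.1 hO _ hq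
  refine ⟨RIM_rho p, p 2, min (r / 2) (min (ε * R / 2) (RIM_rho p / 2)), ?_, ?_, ?_, hle p hp, ?_⟩
  · exact lt_min (by positivity) (lt_min (by positivity) (by positivity))
  · have : min (r / 2) (min (ε * R / 2) (RIM_rho p / 2)) ≤ RIM_rho p / 2 :=
      (min_le_right _ _).trans (min_le_right _ _)
    linarith
  · have : min (r / 2) (min (ε * R / 2) (RIM_rho p / 2)) ≤ ε * R / 2 :=
      (min_le_right _ _).trans (min_le_left _ _)
    nlinarith
  · rintro x ⟨hx1, hx2⟩
    have hη : min (r / 2) (min (ε * R / 2) (RIM_rho p / 2)) ≤ r / 2 := min_le_left _ _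
    have hx1' : |RIM_rho x - RIM_rho p| < r := by
      have := hx1.trans hη
      unfold RIM_rho at this ⊢
      linarith
    have hx2' : |x 2 - p 2| < r := by
      have := hx2.trans hη
      linarith
    have hy : (![RIM_rho x, 0, x 2] : E3) ∈ Ω := by
      apply hball
      rw [Metric.mem_ball, dist_pi_lt_iff hr]
      intro i
      fin_cases i
      · simpa [Real.dist_eq] using hx1'
      · simpa using hr
      · simpa [Real.dist_eq] using hx2'
    obtain ⟨s, hs⟩ := RIM_rot1 x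
    rw [← hs]
    exact hR s _ hy

end Pool.Agent.Work.MP_d5b3be_an.BN
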