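import Pool.Agent.Work.MP_d5b3be_an.BN.Stmts2
import Pool.Agent.Work.MP_2cde6c_an.Rellich
import Pool.Agent.Work.MP_2cde6c_an.Structure

/-!
# RLS: the compactness theorem of Rellich for test functions supported in a bounded set
-/

set_option autoImplicit false

namespace Pool.Agent.Work.MP_d5b3be_an.BN

open MeasureTheory Filter Set
open scoped ENNReal Topology ContDiff

theorem RLS_TF {Ω : Set E3} {φ : E3 → ℝ} (h : Test Ω φ) :
    Pool.Agent.Work.MP_2cde6c_an.TF φ := ⟨h.1, h.2.1⟩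

theorem RLS_WP {Ω : Set E3} {φ : E3 → ℝ} (h : Test Ω φ) :
    Pool.Agent.Work.MP_2cde6c_an.WP φ (fun i => pd i φ) :=
  Pool.Agent.Work.MP_2cde6c_an.WP.of_TF (RLS_TF h)

theorem RLS_sum {Ω : Set E3} {φ : E3 → ℝ} (h : Test Ω φ) :
    ∑ i, Pool.Agent.Work.MP_2cde6c_an.nsq (pd i φ) = ENNReal.ofReal (DD (gr φ)) := by
  have hw := RLS_WP h
  have e : DD (gr φ) = ∑ i, ∫ x, pd i φ x ^ 2 := by
    unfold DD gr
    rw [integral_finset_sum]
    intro i _
    exact (hw.mg i).integrable_sq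
  rw [e, ENNReal.ofReal_sum_of_nonneg]
  · exact Finset.sum_congr rfl fun i _ => Pool.Agent.Work.MP_2cde6c_an.nsq_ofReal (hw.mg i)
  · intro i _
    exact integral_nonneg fun x => sq_nonneg _

/-- RLS -/
theorem prfRLS : RLS := by
  intro Ω φ C hΩ hT hC
  obtain ⟨σ, hσ, v, hv, hlim⟩ := Pool.Agent.Work.MP_2cde6c_an.rellich (ι := Fin 1)
    (u := fun n _ => φ n) (g := fun n _ i => pd i (φ n)) (fun n _ => RLS_WP (hT n)) hΩ
    (by
      intro n _
      refine Filter.Eventually.of_forall fun x hx => ?_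
      exact image_eq_zero_of_notMem_tsupport fun hx' => hx ((hT n).2.2 hx'))
    (K := ENNReal.ofReal C) ENNReal.ofReal_ne_top
    (by
      intro n _
      have := Pool.Agent.Work.MP_2cde6c_an.nsq_ofReal (RLS_WP (hT n)).mu
      rw [this]
      exact ENNReal.ofReal_le_ofReal (hC n).1)
    (by
      intro n _
      have := RLS_sum (hT n)
      rw [this]
      exact ENNReal.ofReal_le_ofReal (hC n).2)
  exact ⟨σ, hσ, v 0, hv 0, hlim 0⟩

end Pool.Agent.Work.MP_d5b3be_an.BN
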