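import Pool.Agent.Work.MP_d5b3be_an.BN.Stmts4

/-!
# Block BN, item RNC: the ring in a convex body of revolution
-/

set_option autoImplicit false

namespace Pool.Agent.Work.MP_d5b3be_an.BN

open MeasureTheory Filter Set
open scoped ENNReal Topology ContDiff

/-- Item RNC. -/
theorem prfRNC (hBXC : BXC) : RNC := by
  intro Ω R a b zm zp hS
  have hR : 0 < R := hS.1
  have hab : a < b := hS.2.1
  have hsec := hS.2.2.2.1
  obtain ⟨m, hm⟩ : ∃ m, m = min R (b - a) := ⟨_, rfl⟩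
  have hm0 : 0 < m := by rw [hm]; exact lt_min hR (by linarith)
  have hmR : m ≤ R := by rw [hm]; exact min_le_left _ _
  have hmb : m ≤ b - a := by rw [hm]; exact min_le_right _ _
  rw [← hm]
  obtain ⟨ρo, hρo⟩ : ∃ ρo, ρo = (1 - 4 / 10 ^ 9) * R := ⟨_, rfl⟩
  have h1 : 0 < ρo := by rw [hρo]; nlinarith
  have h2 : ρo < R := by rw [hρo]; nlinarith
  obtain ⟨ha, hb, hlen⟩ := hsec ρo h1 h2
  have h3 : (1 - ρo / R) = 4 / 10 ^ 9 := by
    rw [hρo]
    field_simp
    ring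
  rw [h3] at hlen
  refine ⟨ρo - 1 / 10 ^ 9 * m, (zm ρo + zp ρo) / 2, ?_, ?_, ?_, ?_⟩
  · rw [hρo]
    nlinarith
  · rw [hρo]
    nlinarith
  · nlinarith
  · apply hBXC Ω R a b zm zp ρo _ _ _ hS
    · positivity
    · rw [hρo]
      nlinarith
    · exact h2
    · nlinarith
    · nlinarith

end Pool.Agent.Work.MP_d5b3be_an.BN
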