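import Pool.Agent.Work.MP_d5b3be_an.BN.Stmts

/-!
# Block BN, item ROG: the gradient of a rotated function
-/

set_option autoImplicit false

namespace Pool.Agent.Work.MP_d5b3be_an.BN

open MeasureTheory Filter Set
open scoped ENNReal Topology ContDiff

/-- the rotation as a linear map -/
noncomputable def ROG_lin (t : ℝ) : E3 →ₗ[ℝ] E3 where
  toFun := rot t
  map_add' x y := by
    funext j
    fin_cases j <;> simp [rot] <;> ring
  map_smul' c x := by
    funext j
    fin_cases j <;> simp [rot] <;> ring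

/-- the rotation as a continuous linear map -/
noncomputable def ROG_clm (t : ℝ) : E3 →L[ℝ] E3 := LinearMap.toContinuousLinearMap (ROG_lin t)

theorem ROG_clm_apply (t : ℝ) (x : E3) : ROG_clm t x = rot t x := rfl

theorem ROG_basis (t : ℝ) (i : Fin 3) :
    ROG_clm t (Pi.single i (1 : ℝ)) = ∑ j, Rm t j i • (Pi.single j (1 : ℝ) : E3) := by
  rw [ROG_clm_apply, Fin.sum_univ_three]
  funext k
  fin_cases i <;> fin_cases k <;> simp [rot, Rm]

theorem ROG_pd (t : ℝ) (φ : E3 → ℝ) (hφ : ContDiff ℝ ((⊤ : ℕ∞) : WithTop ℕ∞) φ) (x : E3) (i : Fin 3) :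
    pd i (fun y => φ (rot t y)) x = ∑ j, Rm t j i * pd j φ (rot t x) := by
  have h1 : HasFDerivAt φ (fderiv ℝ φ (rot t x)) (rot t x) :=
    (hφ.differentiable (by simp) (rot t x)).hasFDerivAt
  have h2 : HasFDerivAt (fun y => rot t y) (ROG_clm t) x := (ROG_clm t).hasFDerivAt
  have h3 : HasFDerivAt (fun y => φ (rot t y)) ((fderiv ℝ φ (rot t x)).comp (ROG_clm t)) x :=
    h1.comp x h2
  unfold pd
  rw [h3.fderiv, ContinuousLinearMap.comp_apply, ROG_basis, map_sum]
  simp only [map_smul, smul_eq_mul]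

theorem prfROG : ROG := by
  intro t φ ψ hφ hψ x
  refine ⟨ROG_pd t φ hφ x, ?_⟩
  simp only [ROG_pd t φ hφ x, ROG_pd t ψ hψ x, Fin.sum_univ_three]
  simp only [Rm, Matrix.cons_val_zero, Matrix.cons_val_one, Matrix.cons_val]
  linear_combination (pd 0 φ (rot t x) * pd 0 ψ (rot t x) + pd 1 φ (rot t x) * pd 1 ψ (rot t x)) *
    Real.sin_sq_add_cos_sq t

end Pool.Agent.Work.MP_d5b3be_an.BN
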