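import Pool.Agent.Work.MP_d5b3be_an.BN.Stmts2

/-!
# Block BN, item ROS (helper39): rotated solutions are solutions
-/

set_option autoImplicit false

namespace Pool.Agent.Work.MP_d5b3be_an.BN

open MeasureTheory Filter Set
open scoped ENNReal Topology ContDiff

/-- the rotated gradient -/
noncomputable def ROS_g (t : ℝ) (g : Fin 3 → E3 → ℝ) (i : Fin 3) (x : E3) : ℝ :=
  ∑ j, Rm t j i * g j (rot t x)

theorem ROS_mem (hR : ROT) (t : ℝ) (g : Fin 3 → E3 → ℝ) (hg : ∀ i, MemLp (g i) 2 volume)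
    (i : Fin 3) : MemLp (ROS_g t g i) 2 volume :=
  memLp_finsetSum Finset.univ fun j _ =>
    ((hg j).comp_measurePreserving (hR.2.2.2.2.2.2.1 t)).const_mul (Rm t j i)

theorem ROS_lim (hR : ROT) (t : ℝ) (v : ℕ → Fin 3 → E3 → ℝ)
    (hv : ∀ k i, AEStronglyMeasurable (v k i) volume)
    (hl : ∀ i, Tendsto (fun k => eLpNorm (v k i) 2 volume) atTop (𝓝 0)) (i : Fin 3) :
    Tendsto (fun k => eLpNorm (ROS_g t (v k) i) 2 volume) atTop (𝓝 0) := by
  have hmp := hR.2.2.2.2.2.2.1 t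
  have h1 : ∀ k, eLpNorm (ROS_g t (v k) i) 2 volume ≤
      ∑ j, ‖Rm t j i‖ₑ * eLpNorm (v k j) 2 volume := by
    intro k
    have h2 : ROS_g t (v k) i = ∑ j, fun x => Rm t j i * v k j (rot t x) := by
      funext x
      rw [Finset.sum_apply]
      rfl
    rw [h2]
    refine (eLpNorm_sum_le (fun j _ => ?_) (by norm_num)).trans (Finset.sum_le_sum fun j _ => ?_)
    · exact ((hv k j).comp_measurePreserving hmp).const_mul _
    · have h3 : (fun x => Rm t j i * v k j (rot t x)) = Rm t j i • (v k j ∘ rot t) := rfl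
      rw [h3, eLpNorm_const_smul, eLpNorm_comp_measurePreserving (hv k j) hmp]
  have h4 : Tendsto (fun k => ∑ j, ‖Rm t j i‖ₑ * eLpNorm (v k j) 2 volume) atTop (𝓝 0) := by
    have h5 : (0 : ℝ≥0∞) = ∑ j : Fin 3, ‖Rm t j i‖ₑ * 0 := by simp
    rw [h5]
    refine tendsto_finsetSum _ fun j _ => ?_
    exact ENNReal.Tendsto.const_mul (hl j) (Or.inr enorm_ne_top)
  exact tendsto_of_tendsto_of_tendsto_of_le_of_le tendsto_const_nhds h4 (fun k => zero_le) h1

theorem ROS_orth (t : ℝ) (a p : Fin 3 → ℝ) :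
    ∑ i, (∑ j, Rm t j i * a j) * (∑ k, Rm t k i * p k) = ∑ i, a i * p i := by
  simp only [Fin.sum_univ_three, Rm, Matrix.cons_val_zero, Matrix.cons_val_one, Matrix.cons_val]
  linear_combination (a 0 * p 0 + a 1 * p 1) * (Real.sin_sq_add_cos_sq t)

theorem ROS_pd (hG : ROG) (t : ℝ) (φ : E3 → ℝ)
    (hφ : ContDiff ℝ ((⊤ : ℕ∞) : WithTop ℕ∞) φ) (i : Fin 3) (x : E3) :
    pd i (fun y => φ (rot t y)) x = ROS_g t (gr φ) i x :=
  (hG t φ φ hφ hφ x).1 i

theorem ROS_meas (φ : E3 → ℝ) (hφ : ContDiff ℝ ((⊤ : ℕ∞) : WithTop ℕ∞) φ) (i : Fin 3) :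
    Continuous (pd i φ) := by
  unfold pd
  exact (hφ.continuous_fderiv (by simp)).clm_apply continuous_const

theorem ROS_HC (hR : ROT) (hG : ROG) (hT : TRO) (Ω : Set E3) (t : ℝ) (u : E3 → ℝ)
    (g : Fin 3 → E3 → ℝ) (hΩ : RI Ω) (h : HC (Test Ω) u g) :
    HC (Test Ω) (fun x => u (rot t x)) (ROS_g t g) := by
  have hmp := hR.2.2.2.2.2.2.1 t
  obtain ⟨hu, hg, φ, hφ, hl, hl'⟩ := h
  refine ⟨hu.comp_measurePreserving hmp, ROS_mem hR t g hg, fun k x => φ k (rot t x),
    fun k => (hT Ω 1 t (φ k) hΩ).1 (hφ k), ?_, ?_⟩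
  · have h1 : ∀ k, eLpNorm (fun x => φ k (rot t x) - u (rot t x)) 2 volume =
        eLpNorm (fun x => φ k x - u x) 2 volume := by
      intro k
      exact eLpNorm_comp_measurePreserving (g := fun x => φ k x - u x)
        ((hφ k).1.continuous.aestronglyMeasurable.sub hu.1) hmp
    simp_rw [h1]
    exact hl
  · intro i
    have h2 : ∀ k, (fun x => pd i (fun y => φ k (rot t y)) x - ROS_g t g i x) =
        ROS_g t (fun j x => pd j (φ k) x - g j x) i := by
      intro k
      funext x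
      rw [ROS_pd hG t (φ k) (hφ k).1 i x]
      unfold ROS_g gr
      rw [← Finset.sum_sub_distrib]
      refine Finset.sum_congr rfl fun j _ => ?_
      ring
    have h3 := ROS_lim hR t (fun k j x => pd j (φ k) x - g j x)
      (fun k j => (ROS_meas (φ k) (hφ k).1 j).aestronglyMeasurable.sub (hg j).1) hl' i
    simp_rw [h2]
    exact h3

theorem prfROS (hR : ROT) (hG : ROG) (hT : TRO) : ROS := by
  intro Ω lam t u hΩ hu
  have hmp := hR.2.2.2.2.2.2.1
  have hme := hR.2.2.2.2.2.2.2.1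
  obtain ⟨h0, h6, g, hHC, heq⟩ := hu
  refine ⟨?_, h6.comp_measurePreserving (hmp t), ROS_g t g, ROS_HC hR hG hT Ω t u g hΩ hHC, ?_⟩
  · intro h
    apply h0
    have h1 := (hmp (-t)).quasiMeasurePreserving.ae_eq_comp h
    have h2 : (fun x => u (rot t x)) ∘ rot (-t) = u := by
      funext x
      show u (rot t (rot (-t) x)) = u x
      rw [hR.2.1, add_neg_cancel, hR.1]
    rw [h2] at h1
    exact h1
  · intro φ hφ
    have hψ : Test Ω (fun x => φ (rot (-t) x)) := (hT Ω 1 (-t) φ hΩ).1 hφ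
    have h1 := heq _ hψ
    have h2 : φ = fun x => (fun y => φ (rot (-t) y)) (rot t x) := by
      funext x
      show φ x = φ (rot (-t) (rot t x))
      rw [hR.2.1, neg_add_cancel, hR.1]
    have h3 : ∀ x, ∑ i, ROS_g t g i x * pd i φ x =
        (fun y => ∑ i, g i y * pd i (fun z => φ (rot (-t) z)) y) (rot t x) := by
      intro x
      have h4 : ∀ i, pd i φ x = ∑ k, Rm t k i * pd k (fun z => φ (rot (-t) z)) (rot t x) := by
        intro i
        have h5 := ROS_pd hG t (fun z => φ (rot (-t) z)) hψ.1 i x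
        rw [← h2] at h5
        exact h5
      simp_rw [h4]
      exact ROS_orth t (fun j => g j (rot t x)) (fun k => pd k (fun z => φ (rot (-t) z)) (rot t x))
    have h4 : ∫ x, ∑ i, ROS_g t g i x * pd i φ x =
        ∫ y, ∑ i, g i y * pd i (fun z => φ (rot (-t) z)) y := by
      simp_rw [h3]
      exact (hmp t).integral_comp (hme t)
        (fun y => ∑ i, g i y * pd i (fun z => φ (rot (-t) z)) y)
    have h5 : ∫ x, u (rot t x) ^ 5 * φ x = ∫ y, u y ^ 5 * φ (rot (-t) y) := by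
      rw [← (hmp t).integral_comp (hme t) (fun y => u y ^ 5 * φ (rot (-t) y))]
      refine integral_congr_ae (Filter.Eventually.of_forall fun x => ?_)
      show u (rot t x) ^ 5 * φ x = u (rot t x) ^ 5 * φ (rot (-t) (rot t x))
      rw [hR.2.1, neg_add_cancel, hR.1]
    have h6' : ∫ x, u (rot t x) * φ x = ∫ y, u y * φ (rot (-t) y) := by
      rw [← (hmp t).integral_comp (hme t) (fun y => u y * φ (rot (-t) y))]
      refine integral_congr_ae (Filter.Eventually.of_forall fun x => ?_)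
      show u (rot t x) * φ x = u (rot t x) * φ (rot (-t) (rot t x))
      rw [hR.2.1, neg_add_cancel, hR.1]
    rw [h4, h5, h6']
    exact h1

end Pool.Agent.Work.MP_d5b3be_an.BN
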