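import Pool.Agent.Work.MP_d5b3be_an.BN.Stmts

set_option autoImplicit false

namespace Pool.Agent.Work.MP_d5b3be_an.BN

open MeasureTheory Filter Set
open scoped ENNReal Topology ContDiff

theorem ROT_zero (x : E3) : rot 0 x = x := by
  funext j
  fin_cases j <;> simp [rot]

theorem ROT_add (s t : ℝ) (x : E3) : rot s (rot t x) = rot (s + t) x := by
  funext j
  fin_cases j
  · simp only [rot, Matrix.cons_val_zero, Matrix.cons_val_one, Fin.zero_eta, Fin.isValue,
      Real.cos_add, Real.sin_add]
    ring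
  · simp only [rot, Matrix.cons_val_zero, Matrix.cons_val_one, Fin.mk_one, Fin.isValue,
      Real.cos_add, Real.sin_add]
    ring
  · simp [rot]

theorem ROT_mat (t : ℝ) (x : E3) (j : Fin 3) : rot t x j = ∑ i, Rm t j i * x i := by
  rw [Fin.sum_univ_three]
  fin_cases j
  · simp [rot, Rm]; ring
  · simp [rot, Rm]
  · simp [rot, Rm]

/-- `rot t` as a linear map -/
noncomputable def ROT_lin (t : ℝ) : E3 →ₗ[ℝ] E3 := Matrix.toLin' (Matrix.of (Rm t))

theorem ROT_lin_apply (t : ℝ) (x : E3) : ROT_lin t x = rot t x := by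
  funext j
  rw [ROT_mat, ROT_lin, Matrix.toLin'_apply]
  rfl

theorem ROT_det (t : ℝ) : LinearMap.det (ROT_lin t) = 1 := by
  rw [ROT_lin, LinearMap.det_toLin', Matrix.det_fin_three]
  simp only [Matrix.of_apply, Rm, Matrix.cons_val_zero, Matrix.cons_val_one, Matrix.cons_val]
  have := Real.sin_sq_add_cos_sq t
  linarith [this]

theorem ROT_contDiff (t : ℝ) : ContDiff ℝ ((⊤ : ℕ∞) : WithTop ℕ∞) (rot t) := by
  have h : rot t = fun x => (LinearMap.toContinuousLinearMap (ROT_lin t)) x := by
    funext x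
    rw [LinearMap.coe_toContinuousLinearMap', ROT_lin_apply]
  rw [h]
  exact ContinuousLinearMap.contDiff _

theorem ROT_cont (t : ℝ) : Continuous (rot t) := (ROT_contDiff t).continuous

theorem ROT_mp (t : ℝ) : MeasurePreserving (rot t) (volume : Measure E3) volume := by
  refine ⟨(ROT_cont t).measurable, ?_⟩
  have h : rot t = ⇑(ROT_lin t) := by
    funext x
    rw [ROT_lin_apply]
  rw [h, Real.map_linearMap_volume_pi_eq_smul_volume_pi (by rw [ROT_det]; norm_num), ROT_det]
  simp

/-- `rot t` as a homeomorphism -/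
noncomputable def ROT_homeo (t : ℝ) : E3 ≃ₜ E3 where
  toFun := rot t
  invFun := rot (-t)
  left_inv x := by
    change rot (-t) (rot t x) = x
    rw [ROT_add, neg_add_cancel, ROT_zero]
  right_inv x := by
    change rot t (rot (-t) x) = x
    rw [ROT_add, add_neg_cancel, ROT_zero]
  continuous_toFun := ROT_cont t
  continuous_invFun := ROT_cont (-t)

theorem prfROT : ROT := by
  refine ⟨ROT_zero, ROT_add, fun x => ?_, fun t x => ⟨?_, ?_⟩, ROT_mat, ROT_contDiff, ROT_mp,
    fun t => (ROT_homeo t).measurableEmbedding, fun s r t z => ?_⟩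
  · funext j
    fin_cases j <;> simp [rot]
  · simp only [rot, Matrix.cons_val_zero, Matrix.cons_val_one]
    have := Real.sin_sq_add_cos_sq t
    calc (Real.cos t * x 0 - Real.sin t * x 1) ^ 2 + (Real.sin t * x 0 + Real.cos t * x 1) ^ 2
        = (Real.sin t ^ 2 + Real.cos t ^ 2) * (x 0 ^ 2 + x 1 ^ 2) := by ring
      _ = x 0 ^ 2 + x 1 ^ 2 := by rw [this, one_mul]
  · simp [rot]
  · funext j
    fin_cases j
    · simp only [rot, cyl, Matrix.cons_val_zero, Matrix.cons_val_one, Fin.zero_eta, Fin.isValue,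
        Real.cos_add, Real.sin_add]
      ring
    · simp only [rot, cyl, Matrix.cons_val_zero, Matrix.cons_val_one, Fin.mk_one, Fin.isValue,
        Real.cos_add, Real.sin_add]
      ring
    · simp [rot, cyl]

end Pool.Agent.Work.MP_d5b3be_an.BN
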