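import Pool.Agent.Work.MP_d5b3be_an.BN.Stmts4

/-!
# SEC: the sections of a convex body of revolution
-/

set_option autoImplicit false

namespace Pool.Agent.Work.MP_d5b3be_an.BN

open MeasureTheory Filter Set
open scoped ENNReal Topology ContDiff

/-- the point in the half plane -/
def SEC_pt (ρ z : ℝ) : E3 := ![ρ, 0, z]

theorem SEC_pt2 (ρ z : ℝ) : SEC_pt ρ z 2 = z := rfl

theorem SEC_rr (ρ z : ℝ) : rr (SEC_pt ρ z) = |ρ| := by
  unfold rr SEC_pt
  simp [Real.sqrt_sq_eq_abs]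

theorem SEC_arg (x : E3) : ∃ t : ℝ, x 0 = rr x * Real.cos t ∧ x 1 = rr x * Real.sin t := by
  have h : ‖(⟨x 0, x 1⟩ : ℂ)‖ = rr x := by
    rw [Complex.norm_eq_sqrt_sq_add_sq]
    rfl
  refine ⟨Complex.arg ⟨x 0, x 1⟩, ?_, ?_⟩
  · rw [← h, Complex.norm_mul_cos_arg]
  · rw [← h, Complex.norm_mul_sin_arg]

theorem SEC_mem {Ω : Set E3} (hR : RI Ω) (x : E3) : x ∈ Ω ↔ SEC_pt (rr x) (x 2) ∈ Ω := by
  obtain ⟨t, h0, h1⟩ := SEC_arg x
  have hsc := Real.sin_sq_add_cos_sq t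
  constructor
  · intro h
    have := hR (-t) x h
    convert this using 1
    funext i
    fin_cases i
    · change rr x = Real.cos (-t) * x 0 - Real.sin (-t) * x 1
      rw [Real.cos_neg, Real.sin_neg, h0, h1]
      linear_combination (-(rr x)) * hsc
    · change (0 : ℝ) = Real.sin (-t) * x 0 + Real.cos (-t) * x 1
      rw [Real.cos_neg, Real.sin_neg, h0, h1]
      ring
    · rfl
  · intro h
    have := hR t _ h
    convert this using 1
    funext i
    fin_cases i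
    · change x 0 = Real.cos t * rr x - Real.sin t * 0
      rw [h0]; ring
    · change x 1 = Real.sin t * rr x + Real.cos t * 0
      rw [h1]; ring
    · rfl

theorem SEC_neg {Ω : Set E3} (hR : RI Ω) {ρ z : ℝ} (h : SEC_pt ρ z ∈ Ω) : SEC_pt (-ρ) z ∈ Ω := by
  rw [SEC_mem hR, SEC_rr, abs_neg, SEC_pt2, ← SEC_rr ρ z]
  exact (SEC_mem hR _).1 h

theorem SEC_comb (s ρ z ρ' z' : ℝ) :
    s • SEC_pt ρ z + (1 - s) • SEC_pt ρ' z' = SEC_pt (s * ρ + (1 - s) * ρ') (s * z + (1 - s) * z') := by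
  funext i
  fin_cases i
  · rfl
  · change s * 0 + (1 - s) * 0 = (0 : ℝ)
    ring
  · rfl

theorem SEC_conv {Ω : Set E3} (hc : Convex ℝ Ω) {s ρ z ρ' z' : ℝ} (h : SEC_pt ρ z ∈ Ω) (h' : SEC_pt ρ' z' ∈ Ω)
    (h0 : 0 ≤ s) (h1 : s ≤ 1) : SEC_pt (s * ρ + (1 - s) * ρ') (s * z + (1 - s) * z') ∈ Ω := by
  rw [← SEC_comb]
  exact hc h h' h0 (by linarith) (by ring)

theorem SEC_mono {Ω : Set E3} (hc : Convex ℝ Ω) (hR : RI Ω) {ρ ρ' z : ℝ} (h0 : 0 ≤ ρ) (h1 : ρ ≤ ρ')
    (h : SEC_pt ρ' z ∈ Ω) : SEC_pt ρ z ∈ Ω := by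
  rcases eq_or_lt_of_le (h0.trans h1) with h2 | h2
  · have : ρ = ρ' := le_antisymm h1 (by rw [← h2]; exact h0)
    rw [this]; exact h
  · have := SEC_conv hc (s := (ρ + ρ') / (2 * ρ')) h (SEC_neg hR h) (by positivity)
      (by rw [div_le_one (by positivity)]; linarith)
    convert this using 2
    · field_simp; ring
    · ring

theorem SEC_cont : Continuous fun p : ℝ × ℝ => SEC_pt p.1 p.2 := by
  refine continuous_pi fun i => ?_
  fin_cases i
  · exact continuous_fst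
  · exact continuous_const
  · exact continuous_snd

theorem SEC_open {Ω : Set E3} (ho : IsOpen Ω) {ρ z : ℝ} (h : SEC_pt ρ z ∈ Ω) :
    ∃ ε : ℝ, 0 < ε ∧ SEC_pt (ρ + ε) z ∈ Ω ∧ SEC_pt ρ (z + ε) ∈ Ω ∧ SEC_pt ρ (z - ε) ∈ Ω := by
  have h1 : IsOpen ((fun p : ℝ × ℝ => SEC_pt p.1 p.2) ⁻¹' Ω) := ho.preimage SEC_cont
  obtain ⟨ε, hε, hb⟩ := Metric.isOpen_iff.1 h1 (ρ, z) h
  have key : ∀ a b : ℝ, |a| < ε → |b| < ε → SEC_pt (ρ + a) (z + b) ∈ Ω := by
    intro a b ha hb'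
    have : (ρ + a, z + b) ∈ Metric.ball (ρ, z) ε := by
      rw [Metric.mem_ball, Prod.dist_eq, Real.dist_eq, Real.dist_eq]
      simp [ha, hb']
    exact hb this
  have h2 : |ε / 2| < ε := by rw [abs_of_pos (by linarith)]; linarith
  have h3 : |-(ε / 2)| < ε := by rw [abs_neg]; exact h2
  have h4 : |(0 : ℝ)| < ε := by rw [abs_zero]; exact hε
  refine ⟨ε / 2, by linarith, ?_, ?_, ?_⟩
  · have := key (ε / 2) 0 h2 h4
    rwa [add_zero] at this
  · have := key 0 (ε / 2) h4 h2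
    rwa [add_zero] at this
  · have := key 0 (-(ε / 2)) h4 h3
    rwa [add_zero, ← sub_eq_add_neg] at this

theorem prfSEC : SEC := by
  intro Ω R a b ho hne _ hc hR hRR ha hb
  have hrn : ∀ x : E3, 0 ≤ rr x := fun x => Real.sqrt_nonneg _
  -- the strict bounds
  have hst : ∀ x ∈ Ω, rr x < R ∧ a < x 2 ∧ x 2 < b := by
    intro x hx
    obtain ⟨ε, hε, h1, h2, h3⟩ := SEC_open ho ((SEC_mem hR x).1 hx)
    have e1 := hRR.1 (mem_image_of_mem rr h1)
    have e2 := hb.1 (mem_image_of_mem (fun x : E3 => x 2) h2)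
    have e3 := ha.1 (mem_image_of_mem (fun x : E3 => x 2) h3)
    rw [SEC_rr, abs_of_nonneg (by linarith [hrn x])] at e1
    simp only [SEC_pt2] at e2 e3
    exact ⟨by linarith, by linarith, by linarith⟩
  obtain ⟨x0, hx0⟩ := hne
  have hR0 : 0 < R := (hrn x0).trans_lt (hst x0 hx0).1
  have hab : a < b := (hst x0 hx0).2.1.trans (hst x0 hx0).2.2
  let Z : ℝ → Set ℝ := fun ρ => {z | SEC_pt ρ z ∈ Ω}
  have hZa : ∀ ρ, ∀ z ∈ Z ρ, a ≤ z := fun ρ z hz => (hst _ hz).2.1.le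
  have hZb : ∀ ρ, ∀ z ∈ Z ρ, z ≤ b := fun ρ z hz => (hst _ hz).2.2.le
  have hba : ∀ ρ, BddBelow (Z ρ) := fun ρ => ⟨a, hZa ρ⟩
  have hbb : ∀ ρ, BddAbove (Z ρ) := fun ρ => ⟨b, hZb ρ⟩
  have hZn : ∀ ρ, 0 ≤ ρ → ρ < R → (Z ρ).Nonempty := by
    intro ρ h0 h1
    obtain ⟨_, ⟨p, hp, rfl⟩, h2⟩ := (lt_isLUB_iff hRR).1 h1
    exact ⟨p 2, SEC_mono hc hR h0 h2.le ((SEC_mem hR p).1 hp)⟩
  refine ⟨fun ρ => sInf (Z ρ), fun ρ => sSup (Z ρ), hR0, hab, hst, ?_, ?_, ?_⟩
  · intro ρ h0 h1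
    refine ⟨le_csInf (hZn ρ h0.le h1) (hZa ρ), csSup_le (hZn ρ h0.le h1) (hZb ρ), ?_⟩
    set W : ℝ := sSup (Z ρ) - sInf (Z ρ) with hW
    have hW0 : 0 ≤ W := by
      obtain ⟨z, hz⟩ := hZn ρ h0.le h1
      have e1 := csInf_le (hba ρ) hz
      have e2 := le_csSup (hbb ρ) hz
      rw [hW]; linarith
    -- the estimate for points
    have key : ∀ q ∈ Ω, ∀ q' ∈ Ω, (R - ρ) * (q 2 - q' 2) ≤ W * R := by
      intro q hq q' hq'
      by_cases hD : q 2 - q' 2 ≤ 0
      · have : (R - ρ) * (q 2 - q' 2) ≤ 0 := mul_nonpos_of_nonneg_of_nonpos (by linarith) hD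
        have : 0 ≤ W * R := by positivity
        linarith
      push Not at hD
      have hax : ∀ q ∈ Ω, SEC_pt 0 (q 2) ∈ Ω := fun q hq =>
        SEC_mono hc hR le_rfl (hrn q) ((SEC_mem hR q).1 hq)
      have h2 : ∀ p ∈ Ω, rr p ≤ (W * R + ρ * (q 2 - q' 2)) / (q 2 - q' 2) := by
        intro p hp
        rw [le_div_iff₀ hD]
        by_cases h3 : rr p ≤ ρ
        · have e1 : rr p * (q 2 - q' 2) ≤ ρ * (q 2 - q' 2) := mul_le_mul_of_nonneg_right h3 hD.le
          have e2 : 0 ≤ W * R := by positivity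
          linarith
        push Not at h3
        have hp0 : 0 < rr p := h0.trans h3
        have hpp := (SEC_mem hR p).1 hp
        have m1 : ∀ q ∈ Ω, ρ / rr p * p 2 + (1 - ρ / rr p) * q 2 ∈ Z ρ := by
          intro q hq
          have := SEC_conv hc (s := ρ / rr p) hpp (hax q hq) (by positivity)
            (by rw [div_le_one hp0]; exact h3.le)
          have e : ρ / rr p * rr p + (1 - ρ / rr p) * 0 = ρ := by field_simp; ring
          rw [e] at this
          exact this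
        have e1 := le_csSup (hbb ρ) (m1 q hq)
        have e2 := csInf_le (hba ρ) (m1 q' hq')
        have e3 : (1 - ρ / rr p) * (q 2 - q' 2) ≤ W := by rw [hW]; linarith
        have e4 : rr p * ((1 - ρ / rr p) * (q 2 - q' 2)) = rr p * (q 2 - q' 2) - ρ * (q 2 - q' 2) := by
          field_simp
        have e5 : rr p * ((1 - ρ / rr p) * (q 2 - q' 2)) ≤ R * W :=
          (mul_le_mul_of_nonneg_left e3 hp0.le).trans (mul_le_mul_of_nonneg_right (hst p hp).1.le hW0)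
        linarith
      have h3 : R ≤ (W * R + ρ * (q 2 - q' 2)) / (q 2 - q' 2) := by
        refine hRR.2 ?_
        rintro _ ⟨p, hp, rfl⟩
        exact h2 p hp
      rw [le_div_iff₀ hD] at h3
      linarith
    have hRρ : 0 < R - ρ := by linarith
    have k1 : ∀ q' ∈ Ω, b ≤ q' 2 + W * R / (R - ρ) := by
      intro q' hq'
      refine hb.2 ?_
      rintro _ ⟨q, hq, rfl⟩
      have := key q hq q' hq'
      have h4 : q 2 - q' 2 ≤ W * R / (R - ρ) := by
        rw [le_div_iff₀ hRρ]; linarith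
      change q 2 ≤ _
      linarith
    have k2 : b - W * R / (R - ρ) ≤ a := by
      refine ha.2 ?_
      rintro _ ⟨q, hq, rfl⟩
      have := k1 q hq
      change _ ≤ q 2
      linarith
    have k3 : (b - a) ≤ W * R / (R - ρ) := by linarith
    rw [le_div_iff₀ hRρ] at k3
    have k4 : (1 - ρ / R) * (b - a) = (b - a) * (R - ρ) / R := by field_simp
    rw [k4, div_le_iff₀ hR0]
    exact k3
  · intro ρ ρ' h0 h1 h2
    have hsub : Z ρ' ⊆ Z ρ := fun z hz => SEC_mono hc hR h0.le h1 hz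
    have hn := hZn ρ' (h0.le.trans h1) h2
    exact ⟨csInf_le_csInf (hba ρ) hn hsub, csSup_le_csSup (hbb ρ) hn hsub⟩
  · intro x h0 h1
    constructor
    · intro hx
      obtain ⟨ε, hε, _, h2, h3⟩ := SEC_open ho ((SEC_mem hR x).1 hx)
      have e1 := csInf_le (hba (rr x)) h3
      have e2 := le_csSup (hbb (rr x)) h2
      constructor
      · change sInf (Z (rr x)) < x 2
        linarith
      · change x 2 < sSup (Z (rr x))
        linarith
    · rintro ⟨h2, h3⟩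
      have hn := hZn (rr x) h0.le h1
      obtain ⟨z1, hz1, e1⟩ := exists_lt_of_csInf_lt hn h2
      obtain ⟨z2, hz2, e2⟩ := exists_lt_of_lt_csSup hn h3
      rw [SEC_mem hR]
      have h12 : z1 < z2 := e1.trans e2
      have := SEC_conv hc (s := (x 2 - z1) / (z2 - z1)) hz2 hz1
        (div_nonneg (by linarith) (by linarith)) (by rw [div_le_one (by linarith)]; linarith)
      have hne : z2 - z1 ≠ 0 := by linarith
      convert this using 2
      · ring
      · field_simp; ring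

end Pool.Agent.Work.MP_d5b3be_an.BN
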