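import Pool.Agent.Work.MP_d5b3be_an.BN.Stmts2

/-!
# Block BN, item SEL: the choice of the frequency in part (2)
-/

set_option autoImplicit false

namespace Pool.Agent.Work.MP_d5b3be_an.BN

open MeasureTheory Filter Set
open scoped ENNReal Topology ContDiff

theorem SEL_id (κ R h n : ℝ) (hκ : 0 < κ) (hR : 0 < R) (hh : 0 < h) :
    Real.pi / (2 * ((1 + κ) * h)) + n / ((1 + κ) * R) = (Real.pi / (2 * h) + n / R) / (1 + κ) := by
  field_simp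

theorem SEL_one (κ a r : ℝ) (hκ : 0 < κ) (hκ1 : κ ≤ 1 / 100) (ha : 0 < a) (hr0 : 0 < r)
    (hr : r ≤ 2 / 3 * κ * a) : (1 - 4 * κ) * (a + r) ^ 2 ≤ (1 - κ) * a ^ 2 := by
  have h1 : a + r ≤ (1 + 2 / 3 * κ) * a := by linarith
  have h2 : (a + r) ^ 2 ≤ ((1 + 2 / 3 * κ) * a) ^ 2 := pow_le_pow_left₀ (by positivity) h1 2
  have h3 : (1 - 4 * κ) * (a + r) ^ 2 ≤ (1 - 4 * κ) * ((1 + 2 / 3 * κ) * a) ^ 2 :=
    mul_le_mul_of_nonneg_left h2 (by linarith)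
  have h4 : (1 - 4 * κ) * (1 + 2 / 3 * κ) ^ 2 ≤ 1 - κ := by
    nlinarith [mul_pos hκ hκ, mul_pos (mul_pos hκ hκ) hκ]
  calc (1 - 4 * κ) * (a + r) ^ 2 ≤ (1 - 4 * κ) * ((1 + 2 / 3 * κ) * a) ^ 2 := h3
    _ = ((1 - 4 * κ) * (1 + 2 / 3 * κ) ^ 2) * a ^ 2 := by ring
    _ ≤ (1 - κ) * a ^ 2 := mul_le_mul_of_nonneg_right h4 (by positivity)

theorem SEL_two (κ W r : ℝ) (hκ : 0 < κ) (hκ1 : κ ≤ 1 / 100) (hW : 0 < W)
    (hr : r ≤ 2 / 3 * κ * W) : (1 - 4 * κ) * W ^ 2 ≤ ((W - r) / (1 + κ)) ^ 2 := by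
  have h1 : (1 - 2 / 3 * κ) * W ≤ W - r := by linarith
  have h2 : (1 - κ) * ((1 - 2 / 3 * κ) * W) ≤ (W - r) / (1 + κ) := by
    rw [le_div_iff₀ (by linarith)]
    have h0 : 0 ≤ (1 - 2 / 3 * κ) * W := mul_nonneg (by linarith) hW.le
    have h3 : (1 - κ) * (1 + κ) ≤ 1 := by nlinarith
    calc (1 - κ) * ((1 - 2 / 3 * κ) * W) * (1 + κ)
        = ((1 - κ) * (1 + κ)) * ((1 - 2 / 3 * κ) * W) := by ring
      _ ≤ 1 * ((1 - 2 / 3 * κ) * W) := mul_le_mul_of_nonneg_right h3 h0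
      _ ≤ W - r := by linarith
  have h0 : 0 ≤ (1 - κ) * ((1 - 2 / 3 * κ) * W) :=
    mul_nonneg (by linarith) (mul_nonneg (by linarith) hW.le)
  have h4 : ((1 - κ) * ((1 - 2 / 3 * κ) * W)) ^ 2 ≤ ((W - r) / (1 + κ)) ^ 2 :=
    pow_le_pow_left₀ h0 h2 2
  have h5 : 1 - 4 * κ ≤ ((1 - κ) * (1 - 2 / 3 * κ)) ^ 2 := by
    have h6 : 1 - 5 / 3 * κ ≤ (1 - κ) * (1 - 2 / 3 * κ) := by nlinarith [mul_pos hκ hκ]
    have h7 : (1 - 5 / 3 * κ) ^ 2 ≤ ((1 - κ) * (1 - 2 / 3 * κ)) ^ 2 :=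
      pow_le_pow_left₀ (by linarith) h6 2
    nlinarith [mul_pos hκ hκ]
  calc (1 - 4 * κ) * W ^ 2 ≤ ((1 - κ) * (1 - 2 / 3 * κ)) ^ 2 * W ^ 2 :=
        mul_le_mul_of_nonneg_right h5 (by positivity)
    _ = ((1 - κ) * ((1 - 2 / 3 * κ) * W)) ^ 2 := by ring
    _ ≤ _ := h4

theorem prfSEL : SEL := by
  intro κ R h lam hκ hκ1 hh hhR hlam
  have hR : 0 < R := by
    by_contra hR
    have := mul_nonpos_of_nonneg_of_nonpos hκ.le (not_lt.1 hR)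
    linarith
  have ha0 : 0 < Real.pi / (2 * h) := by positivity
  have hr : 1 / R ≤ 2 / 3 * κ * (Real.pi / (2 * h)) := by
    have h1 : 3 / (2 * h) ≤ Real.pi / (2 * h) := by
      gcongr
      exact Real.pi_gt_three.le
    have h2 : 1 / R ≤ κ / h := by
      rw [div_le_div_iff₀ hR hh]
      linarith
    calc 1 / R ≤ κ / h := h2
      _ = 2 / 3 * κ * (3 / (2 * h)) := by field_simp
      _ ≤ _ := by gcongr
  have hex : ∃ n : ℕ, 1 ≤ n ∧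
      lam < (Real.pi / (2 * ((1 + κ) * h)) + n / ((1 + κ) * R)) ^ 2 := by
    obtain ⟨n, hn⟩ := exists_nat_gt ((|lam| + 1) * (R * (1 + κ)))
    refine ⟨n + 1, by omega, ?_⟩
    rw [SEL_id κ R h _ hκ hR hh]
    have h3 : |lam| + 1 ≤ (Real.pi / (2 * h) + ((n + 1 : ℕ) : ℝ) / R) / (1 + κ) := by
      rw [le_div_iff₀ (by positivity)]
      have h4 : (|lam| + 1) * (1 + κ) ≤ ((n + 1 : ℕ) : ℝ) / R := by
        rw [le_div_iff₀ hR]
        push_cast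
        linarith
      linarith
    have h0 := abs_nonneg lam
    calc lam ≤ |lam| := le_abs_self _
      _ < (|lam| + 1) ^ 2 := by nlinarith
      _ ≤ _ := pow_le_pow_left₀ (by linarith) h3 2
  classical
  obtain ⟨h1, h2⟩ := Nat.find_spec hex
  refine ⟨Nat.find hex, h1, h2, ?_⟩
  rcases Nat.lt_or_ge (Nat.find hex) 2 with hlt | hge
  · have e : Nat.find hex = 1 := by omega
    rw [e, Nat.cast_one]
    exact (SEL_one κ _ _ hκ hκ1 ha0 (by positivity) hr).trans hlam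
  · have hm := Nat.find_min hex (m := Nat.find hex - 1) (by omega)
    have hm2 : (Real.pi / (2 * ((1 + κ) * h)) + ((Nat.find hex - 1 : ℕ) : ℝ) / ((1 + κ) * R)) ^ 2
        ≤ lam := by
      by_contra hc
      exact hm ⟨by omega, not_le.1 hc⟩
    rw [SEL_id κ R h _ hκ hR hh, Nat.cast_sub (by omega), Nat.cast_one] at hm2
    have e : Real.pi / (2 * h) + (((Nat.find hex : ℕ) : ℝ) - 1) / R
        = (Real.pi / (2 * h) + ((Nat.find hex : ℕ) : ℝ) / R) - 1 / R := by ring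
    rw [e] at hm2
    refine (SEL_two κ _ _ hκ hκ1 (by positivity) ?_).trans hm2
    refine hr.trans ?_
    gcongr
    have : 0 ≤ ((Nat.find hex : ℕ) : ℝ) / R := by positivity
    linarith

end Pool.Agent.Work.MP_d5b3be_an.BN
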