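import Pool.Agent.Work.MP_d5b3be_an.BN.Stmts

/-!
# Block BN, item SOB: the Sobolev inequality of the class
-/

set_option autoImplicit false

namespace Pool.Agent.Work.MP_d5b3be_an.BN

open MeasureTheory Filter Set
open scoped ENNReal Topology ContDiff

/-- Cauchy-Schwarz for continuous functions with compact support -/
theorem SOB_cs {f g : E3 → ℝ} (hf : Continuous f) (hg : Continuous g) (hfc : HasCompactSupport f)
    (hgc : HasCompactSupport g) :
    (∫ x, f x * g x) ^ 2 ≤ (∫ x, f x * f x) * ∫ x, g x * g x := by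
  have i1 : Integrable (fun x => f x * f x) :=
    (hf.mul hf).integrable_of_hasCompactSupport hfc.mul_right
  have i2 : Integrable (fun x => f x * g x) :=
    (hf.mul hg).integrable_of_hasCompactSupport hfc.mul_right
  have i3 : Integrable (fun x => g x * g x) :=
    (hg.mul hg).integrable_of_hasCompactSupport hgc.mul_right
  have key : ∀ t : ℝ, 0 ≤ (∫ x, g x * g x) * (t * t) + (-2 * ∫ x, f x * g x) * t + ∫ x, f x * f x := by
    intro t
    have h : 0 ≤ ∫ x, (t * g x - f x) ^ 2 := integral_nonneg (fun x => sq_nonneg _)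
    have h1 : (fun x => (t * g x - f x) ^ 2) =
        fun x => ((t * t) * (g x * g x) + (-2 * t) * (f x * g x)) + f x * f x := by
      funext x; ring
    have i4 : Integrable (fun x => (t * t) * (g x * g x)) := i3.const_mul _
    have i5 : Integrable (fun x => (-2 * t) * (f x * g x)) := i2.const_mul _
    have i6 : Integrable (fun x => (t * t) * (g x * g x) + (-2 * t) * (f x * g x)) := i4.add i5
    rw [h1, integral_add i6 i1, integral_add i4 i5, integral_const_mul, integral_const_mul] at h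
    linarith
  have h2 := discrim_le_zero key
  unfold discrim at h2
  nlinarith

theorem SOB_grad_cont {φ : E3 → ℝ} (hφ : ContDiff ℝ ((⊤ : ℕ∞) : WithTop ℕ∞) φ) :
    Continuous fun x => Real.sqrt (∑ i, pd i φ x ^ 2) := by
  have h : ∀ i : Fin 3, Continuous (pd i φ) := by
    intro i
    exact (hφ.continuous_fderiv (by simp)).clm_apply continuous_const
  exact (continuous_finsetSum _ fun i _ => (h i).pow 2).sqrt

theorem SOB_grad_comp {φ : E3 → ℝ} (hc : HasCompactSupport φ) :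
    HasCompactSupport fun x => Real.sqrt (∑ i, pd i φ x ^ 2) := by
  have h : HasCompactSupport (fderiv ℝ φ) := hc.fderiv ℝ
  exact h.comp_left (g := fun L : E3 →L[ℝ] ℝ => Real.sqrt (∑ i : Fin 3, (L (Pi.single i (1 : ℝ))) ^ 2))
    (by simp)

theorem SOB_pow (y : ℝ) : y ^ 6 = |y| ^ 3 * |y| ^ 3 := by
  have h1 : |y| ^ 2 = y ^ 2 := sq_abs y
  calc y ^ 6 = (y ^ 2) ^ 3 := by ring
    _ = (|y| ^ 2) ^ 3 := by rw [h1]
    _ = |y| ^ 3 * |y| ^ 3 := by ring

theorem SOB_N (φ : E3 → ℝ) : N6 φ = ∫ x, |φ x| ^ 3 * |φ x| ^ 3 := by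
  unfold N6
  exact integral_congr_ae (Eventually.of_forall fun x => SOB_pow (φ x))

theorem SOB_D (φ : E3 → ℝ) : DD (gr φ) =
    ∫ x, Real.sqrt (∑ i, pd i φ x ^ 2) * Real.sqrt (∑ i, pd i φ x ^ 2) := by
  unfold DD gr
  refine integral_congr_ae (Eventually.of_forall fun x => ?_)
  exact (Real.mul_self_sqrt (Finset.sum_nonneg fun i _ => sq_nonneg _)).symm

theorem SOB_e2 {φ : E3 → ℝ} {f g : E3 → ℝ} (hf : f = fun x => |φ x| ^ 3)
    (hg : g = fun x => Real.sqrt (∑ i, pd i φ x ^ 2)) (ig : Integrable (fun x => f x * g x)) :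
    ∫⁻ x, KK φ x = ENNReal.ofReal (4 * ∫ x, f x * g x) := by
  have h0 : ∀ x, 0 ≤ 4 * (f x * g x) := fun x => by
    rw [hf, hg]
    have := Real.sqrt_nonneg (∑ i, pd i φ x ^ 2)
    have h2 : 0 ≤ |φ x| ^ 3 := pow_nonneg (abs_nonneg _) 3
    exact mul_nonneg (by norm_num) (mul_nonneg h2 this)
  rw [← integral_const_mul, ofReal_integral_eq_lintegral_ofReal (ig.const_mul 4)
    (Eventually.of_forall h0)]
  refine lintegral_congr fun x => ?_
  unfold KK
  rw [hf, hg, mul_assoc]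

theorem SOB_fin {n N M D : ℝ} (hn : 0 ≤ n) (hN : 0 ≤ N) (hD : 0 ≤ D) (h : M ^ 2 ≤ N * D)
    (hg : 8 * n * N ^ 2 ≤ (4 * M) ^ 3) : n ^ 2 * N ≤ 64 * D ^ 3 := by
  rcases hN.eq_or_lt with h0 | h0
  · rw [← h0, mul_zero]
    positivity
  · have h1 : n * N ^ 2 ≤ 8 * M ^ 3 := by
      have : (4 * M) ^ 3 = 64 * M ^ 3 := by ring
      rw [this] at hg
      linarith
    have h2 : (n * N ^ 2) ^ 2 ≤ (8 * M ^ 3) ^ 2 := pow_le_pow_left₀ (by positivity) h1 2
    have h3 : (M ^ 2) ^ 3 ≤ (N * D) ^ 3 := pow_le_pow_left₀ (by positivity) h 3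
    have h4 : N ^ 3 * (n ^ 2 * N) ≤ N ^ 3 * (64 * D ^ 3) := by
      calc N ^ 3 * (n ^ 2 * N) = (n * N ^ 2) ^ 2 := by ring
        _ ≤ (8 * M ^ 3) ^ 2 := h2
        _ = 64 * (M ^ 2) ^ 3 := by ring
        _ ≤ 64 * (N * D) ^ 3 := by linarith
        _ = N ^ 3 * (64 * D ^ 3) := by ring
    exact le_of_mul_le_mul_left h4 (by positivity)

theorem SOB_conv {n : ℕ} {N M : ℝ} (hN : 0 ≤ N) (hM : 0 ≤ M)
    (hg : 8 * (n : ℝ≥0∞) * (ENNReal.ofReal N) ^ 2 ≤ (ENNReal.ofReal (4 * M)) ^ 3) :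
    8 * (n : ℝ) * N ^ 2 ≤ (4 * M) ^ 3 := by
  have h4 : 0 ≤ 4 * M := by linarith
  rw [← ENNReal.ofReal_pow hN, ← ENNReal.ofReal_pow h4] at hg
  have e3 : (8 : ℝ≥0∞) * (n : ℝ≥0∞) * ENNReal.ofReal (N ^ 2) = ENNReal.ofReal (8 * (n : ℝ) * N ^ 2) := by
    rw [ENNReal.ofReal_mul (by positivity), ENNReal.ofReal_mul (by norm_num), ENNReal.ofReal_natCast]
    norm_num
  rw [e3, ENNReal.ofReal_le_ofReal_iff (by positivity)] at hg
  exact hg

theorem prfSOB (hG : GNI) : SOB := by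
  intro Ω n φ hn hφ
  have hg := hG Ω n φ hn hφ
  have hs : ContDiff ℝ ((⊤ : ℕ∞) : WithTop ℕ∞) φ := hφ.1.1
  have hc : HasCompactSupport φ := hφ.1.2.1
  have hcont : Continuous φ := hs.continuous
  obtain ⟨f, hf⟩ : ∃ f : E3 → ℝ, f = fun x => |φ x| ^ 3 := ⟨_, rfl⟩
  obtain ⟨g, hgd⟩ : ∃ g : E3 → ℝ, g = fun x => Real.sqrt (∑ i, pd i φ x ^ 2) := ⟨_, rfl⟩
  have cf : Continuous f := by rw [hf]; exact hcont.abs.pow 3
  have cg : Continuous g := by rw [hgd]; exact SOB_grad_cont hs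
  have kf : HasCompactSupport f := by
    rw [hf]
    exact hc.comp_left (g := fun y : ℝ => |y| ^ 3) (by simp)
  have kg : HasCompactSupport g := by rw [hgd]; exact SOB_grad_comp hc
  have hN : N6 φ = ∫ x, f x * f x := by rw [SOB_N, hf]
  have hD : DD (gr φ) = ∫ x, g x * g x := by rw [SOB_D, hgd]
  have hM := SOB_cs cf cg kf kg
  rw [← hN, ← hD] at hM
  have ig : Integrable (fun x => f x * g x) := (cf.mul cg).integrable_of_hasCompactSupport kf.mul_right
  have in6 : Integrable (fun x => φ x ^ 6) := by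
    have h1 : Integrable (fun x => f x * f x) := (cf.mul cf).integrable_of_hasCompactSupport kf.mul_right
    have h2 : (fun x => φ x ^ 6) = fun x => f x * f x := by
      rw [hf]
      funext x
      exact SOB_pow (φ x)
    rw [h2]
    exact h1
  have h6 : ∀ x, 0 ≤ φ x ^ 6 := fun x => Even.pow_nonneg (by decide) _
  have hN0 : 0 ≤ N6 φ := integral_nonneg h6
  have hD0 : 0 ≤ DD (gr φ) := by
    rw [hD]
    exact integral_nonneg fun x => mul_self_nonneg _
  have hfg0 : ∀ x, 0 ≤ f x * g x := fun x => by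
    rw [hf, hgd]
    exact mul_nonneg (pow_nonneg (abs_nonneg _) 3) (Real.sqrt_nonneg _)
  have hM0 : 0 ≤ ∫ x, f x * g x := integral_nonneg hfg0
  have e1 : ∫⁻ x, ENNReal.ofReal (φ x ^ 6) = ENNReal.ofReal (N6 φ) := by
    unfold N6
    rw [ofReal_integral_eq_lintegral_ofReal in6 (Eventually.of_forall h6)]
  rw [e1, SOB_e2 hf hgd ig] at hg
  exact SOB_fin (Nat.cast_nonneg n) hN0 hD0 hM (SOB_conv hN0 hM0 hg)

end Pool.Agent.Work.MP_d5b3be_an.BN
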