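import Pool.Agent.Work.MP_d5b3be_an.BN.Stmts2

/-!
# Item SYM: symmetric criticality
-/

set_option autoImplicit false

namespace Pool.Agent.Work.MP_d5b3be_an.BN

open MeasureTheory Filter Set
open scoped ENNReal Topology ContDiff

theorem SYM_mem (φ : E3 → ℝ) (h1 : ContDiff ℝ ((⊤ : ℕ∞) : WithTop ℕ∞) φ)
    (h2 : HasCompactSupport φ) (p : ℝ≥0∞) :
    MemLp φ p volume ∧ ∀ i, MemLp (pd i φ) p volume := by
  refine ⟨h1.continuous.memLp_of_hasCompactSupport h2, fun i => ?_⟩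
  have h3 : Continuous (pd i φ) :=
    (h1.continuous_fderiv (by simp)).clm_apply continuous_const
  exact h3.memLp_of_hasCompactSupport (h2.fderiv_apply (𝕜 := ℝ) (Pi.single i (1 : ℝ)))

theorem SYM_lim (f : ℕ → Fin 3 → E3 → ℝ) (g h : Fin 3 → E3 → ℝ)
    (hf : ∀ k i, MemLp (f k i) 2 volume) (hg : ∀ i, MemLp (g i) 2 volume)
    (hh : ∀ i, MemLp (h i) 2 volume) (hw : ∀ i, Wk (fun k => f k i) (g i)) :
    Tendsto (fun k => ∫ x, ∑ i, f k i x * h i x) atTop (𝓝 (∫ x, ∑ i, g i x * h i x)) := by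
  have e : ∀ a : Fin 3 → E3 → ℝ, (∀ i, MemLp (a i) 2 volume) →
      ∫ x, ∑ i, a i x * h i x = ∑ i, ∫ x, a i x * h i x := by
    intro a ha
    exact integral_finset_sum _ fun i _ => (ha i).integrable_mul (hh i)
  rw [e g hg]
  simp only [e _ (hf _)]
  exact tendsto_finset_sum _ fun i _ => hw i (h i) (hh i)

theorem prfSYM (hSOB : SOB) (hCLT : CLT) (hHS6 : HS6) (hLCV : LCV) (hL6C : L6C) (hPRM : PRM)
    (hPRI : PRI) : SYM := by
  intro Ω n lam u g hΩ hn hHC hu6 hE φ hφ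
  obtain ⟨hu2, hg2, ψ, hψT, hψ2, hψg⟩ := hHC
  have hn0 : (0 : ℝ) < n := by exact_mod_cast hn
  have hC6 : Cv 6 ψ u := (hHS6 (TestN Ω n) ((n : ℝ) ^ 2 / 64) u g ψ ((hCLT Ω).2 n)
    (by positivity) (fun f hf => by
      have h1 := hSOB Ω n f hn hf
      have h2 : (n : ℝ) ^ 2 / 64 * N6 f = (n : ℝ) ^ 2 * N6 f / 64 := by ring
      rw [h2, div_le_iff₀ (by norm_num)]
      linarith) hu2 hg2 hψT hψ2 hψg).2
  have mψ : ∀ k p, MemLp (ψ k) p volume ∧ ∀ i, MemLp (pd i (ψ k)) p volume := fun k p =>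
    SYM_mem (ψ k) (hψT k).1.1 (hψT k).1.2.1 p
  have mφ := SYM_mem φ hφ.1 hφ.2.1
  have hw : TestN Ω n (Pn n φ) := hPRM Ω n φ hΩ hn hφ
  have mw := SYM_mem (Pn n φ) hw.1.1 hw.1.2.1
  have wg : ∀ i, Wk (fun k => pd i (ψ k)) (g i) := fun i =>
    (hLCV (fun k => pd i (ψ k)) (g i) (fun k => (mψ k 2).2 i) (hg2 i) (hψg i)).2
  have wu : Wk ψ u := (hLCV ψ u (fun k => (mψ k 2).1) hu2 hψ2).2
  have w6 := (hL6C ψ u (fun k => (mψ k 6).1) hu6 hC6).2
  have hP := fun k => hPRI Ω n φ (ψ k) hΩ hn hφ (hψT k)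
  have e1 : ∫ x, ∑ i, g i x * pd i (Pn n φ) x = ∫ x, ∑ i, g i x * pd i φ x := by
    have t1 := SYM_lim (fun k i => pd i (ψ k)) g (fun i => pd i (Pn n φ))
      (fun k i => (mψ k 2).2 i) hg2 (fun i => (mw 2).2 i) wg
    have t2 := SYM_lim (fun k i => pd i (ψ k)) g (fun i => pd i φ)
      (fun k i => (mψ k 2).2 i) hg2 (fun i => (mφ 2).2 i) wg
    refine tendsto_nhds_unique t1 (t2.congr fun k => ?_)
    exact (hP k).1.symm
  have e2 : ∫ x, u x * Pn n φ x = ∫ x, u x * φ x := by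
    have t1 := wu (Pn n φ) (mw 2).1
    have t2 := wu φ (mφ 2).1
    refine tendsto_nhds_unique t1 (t2.congr fun k => ?_)
    exact (hP k).2.1.symm
  have e3 : ∫ x, u x ^ 5 * Pn n φ x = ∫ x, u x ^ 5 * φ x := by
    have t1 := (w6 (Pn n φ) (mw 6).1).1
    have t2 := (w6 φ (mφ 6).1).1
    refine tendsto_nhds_unique t1 (t2.congr fun k => ?_)
    exact (hP k).2.2.symm
  have h := hE (Pn n φ) hw
  rw [e1, e2, e3] at h
  exact h

end Pool.Agent.Work.MP_d5b3be_an.BN
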