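import Pool.Agent.Work.MP_d5b3be_an.BN.Stmts

/-!
# Block BN, item TRO: the classes are invariant under rotations
-/

set_option autoImplicit false

namespace Pool.Agent.Work.MP_d5b3be_an.BN

open MeasureTheory Filter Set
open scoped ENNReal Topology ContDiff

/-- the rotation as a homeomorphism -/
noncomputable def TRO_homeo (hR : ROT) (t : ℝ) : E3 ≃ₜ E3 where
  toFun := rot t
  invFun := rot (-t)
  left_inv := fun x => by rw [hR.2.1, neg_add_cancel, hR.1]
  right_inv := fun x => by rw [hR.2.1, add_neg_cancel, hR.1]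
  continuous_toFun := (hR.2.2.2.2.2.1 t).continuous
  continuous_invFun := (hR.2.2.2.2.2.1 (-t)).continuous

theorem TRO_test (hR : ROT) (Ω : Set E3) (t : ℝ) (φ : E3 → ℝ) (hΩ : RI Ω) (h : Test Ω φ) :
    Test Ω (fun x => φ (rot t x)) := by
  obtain ⟨h1, h2, h3⟩ := h
  refine ⟨h1.comp (hR.2.2.2.2.2.1 t), ?_, ?_⟩
  · exact h2.comp_homeomorph (TRO_homeo hR t)
  · have h4 : tsupport (fun x => φ (rot t x)) = rot t ⁻¹' tsupport φ :=
      tsupport_comp_eq_preimage φ (TRO_homeo hR t)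
    rw [h4]
    intro x hx
    have h5 := hΩ (-t) _ (h3 hx)
    rw [hR.2.1, neg_add_cancel, hR.1] at h5
    exact h5

theorem prfTRO (hR : ROT) : TRO := by
  intro Ω n t φ hΩ
  refine ⟨TRO_test hR Ω t φ hΩ, ?_⟩
  rintro ⟨h1, h2⟩
  refine ⟨TRO_test hR Ω t φ hΩ h1, fun x => ?_⟩
  show φ (rot t (rot (Real.pi / n) x)) = -φ (rot t x)
  rw [← h2 (rot t x), hR.2.1, hR.2.1, add_comm]

end Pool.Agent.Work.MP_d5b3be_an.BN

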