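import Pool.Agent.Work.MP_d5b3be_an.BN.Stmts2
import Pool.Agent.Work.MP_2cde6c_an.Defs

/-!
# UNI: the weak gradient is unique
-/

set_option autoImplicit false

namespace Pool.Agent.Work.MP_d5b3be_an.BN

open MeasureTheory Filter Set
open scoped ENNReal Topology ContDiff

/-- test functions have their gradient as weak gradient -/
theorem UNI_of_Test {Ω : Set E3} {φ : E3 → ℝ} (h : Test Ω φ) :
    MP_2cde6c_an.WP φ (fun i => pd i φ) := by
  have hφ : MP_2cde6c_an.TF φ := ⟨h.1, h.2.1⟩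
  refine ⟨hφ.memLp 2, fun i => hφ.memLp_fderiv _ 2, ?_⟩
  intro i ψ hψ
  refine integral_mul_fderiv_eq_neg_fderiv_mul_of_integrable ?_ ?_ ?_ ?_ ?_
  · exact MP_2cde6c_an.integrable_mul (hφ.memLp_fderiv _ 2) (hψ.memLp 2)
  · exact MP_2cde6c_an.integrable_mul (hφ.memLp 2) (hψ.memLp_fderiv _ 2)
  · exact MP_2cde6c_an.integrable_mul (hφ.memLp 2) (hψ.memLp 2)
  · intro x _
    exact (hφ.1.differentiable (by simp)).differentiableAt
  · intro x _
    exact (hψ.1.differentiable (by simp)).differentiableAt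

/-- elements of `HC (Test Ω)` are weak pairs -/
theorem UNI_WP {Ω : Set E3} {u : E3 → ℝ} {g : Fin 3 → E3 → ℝ} (h : HC (Test Ω) u g) :
    MP_2cde6c_an.WP u g := by
  obtain ⟨hu, hg, φ, hφ, tu, tg⟩ := h
  exact MP_2cde6c_an.WP.of_tendsto (fun k => UNI_of_Test (hφ k)) hu hg tu tg

theorem prfUNI : UNI := by
  intro Ω u g g' h h' i
  have h1 := (UNI_WP h).sub (UNI_WP h')
  have h2 := h1.grad_zero isOpen_univ (Eventually.of_forall fun x _ => sub_self (u x)) i
  filter_upwards [h2] with x hx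
  have := hx (mem_univ x)
  linarith

end Pool.Agent.Work.MP_d5b3be_an.BN
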