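import Pool.Agent.Work.MP_d5b3be_an.BN.Stmts

/-!
# Item VN1: the lower bound `n²/R²` of the energy in a body of radius `R`
-/

set_option autoImplicit false

namespace Pool.Agent.Work.MP_d5b3be_an.BN

open MeasureTheory Filter Set
open scoped ENNReal Topology ContDiff

theorem VN1_pd_cont (i : Fin 3) (φ : E3 → ℝ) (h : ContDiff ℝ ((⊤ : ℕ∞) : WithTop ℕ∞) φ) :
    Continuous (pd i φ) := by
  have h1 : ContDiff ℝ 1 φ := h.of_le (by exact_mod_cast le_top)
  exact (h1.continuous_fderiv (by norm_num)).clm_apply continuous_const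

theorem VN1_pd_supp (i : Fin 3) (φ : E3 → ℝ) (h : HasCompactSupport φ) :
    HasCompactSupport (pd i φ) := h.fderiv_apply (𝕜 := ℝ) _

theorem VN1_sq_supp (φ : E3 → ℝ) (hc : HasCompactSupport φ) :
    HasCompactSupport (fun x => φ x ^ 2) := by
  refine hc.mono fun x hx h => hx ?_
  have h' : φ x = 0 := h
  change φ x ^ 2 = 0
  rw [h']
  norm_num

theorem VN1_intQ (φ : E3 → ℝ) (h : ContDiff ℝ ((⊤ : ℕ∞) : WithTop ℕ∞) φ)
    (hc : HasCompactSupport φ) : Integrable (fun x => φ x ^ 2) := by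
  have hcont : Continuous φ := h.continuous
  exact (hcont.pow 2).integrable_of_hasCompactSupport (VN1_sq_supp φ hc)

theorem VN1_intD (φ : E3 → ℝ) (h : ContDiff ℝ ((⊤ : ℕ∞) : WithTop ℕ∞) φ)
    (hc : HasCompactSupport φ) : Integrable (fun x => ∑ i, gr φ i x ^ 2) := by
  refine integrable_finsetSum _ fun i _ => ?_
  exact ((VN1_pd_cont i φ h).pow 2).integrable_of_hasCompactSupport
    (VN1_sq_supp (pd i φ) (VN1_pd_supp i φ hc))

theorem VN1_axis (n : ℕ) (φ : E3 → ℝ) (h : ∀ x, φ (rot (Real.pi / n) x) = -φ x) (x : E3)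
    (h0 : x 0 = 0) (h1 : x 1 = 0) : φ x = 0 := by
  have e : rot (Real.pi / n) x = x := by
    unfold rot
    ext i
    fin_cases i <;> simp [h0, h1]
  have h2 := h x
  rw [e] at h2
  linarith

theorem VN1_point (Ω : Set E3) (n : ℕ) (φ : E3 → ℝ) (R : ℝ) (hR : 0 < R)
    (hΩ : ∀ x ∈ Ω, x 0 ^ 2 + x 1 ^ 2 ≤ R ^ 2) (h : TestN Ω n φ) (x : E3) :
    ((n : ℝ) / R) ^ 2 * φ x ^ 2 ≤ (n : ℝ) ^ 2 / (x 0 ^ 2 + x 1 ^ 2) * φ x ^ 2 := by
  by_cases hx : φ x = 0
  · rw [hx]; simp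
  · have hxΩ : x ∈ Ω := h.1.2.2 (subset_tsupport φ (Function.mem_support.2 hx))
    have h1 := hΩ x hxΩ
    have h2 : 0 < x 0 ^ 2 + x 1 ^ 2 := by
      rcases (add_nonneg (sq_nonneg (x 0)) (sq_nonneg (x 1))).lt_or_eq with h3 | h3
      · exact h3
      · exfalso
        have h4' : x 0 ^ 2 = 0 := by linarith [sq_nonneg (x 0), sq_nonneg (x 1)]
        have h5' : x 1 ^ 2 = 0 := by linarith [sq_nonneg (x 0), sq_nonneg (x 1)]
        have h4 : x 0 = 0 := pow_eq_zero_iff (two_ne_zero) |>.1 h4'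
        have h5 : x 1 = 0 := pow_eq_zero_iff (two_ne_zero) |>.1 h5'
        exact hx (VN1_axis n φ h.2 x h4 h5)
    refine mul_le_mul_of_nonneg_right ?_ (sq_nonneg _)
    rw [div_pow]
    exact div_le_div_of_nonneg_left (sq_nonneg _) h2 h1

theorem prfVN1 (hA : ANG) : VN1 := by
  intro Ω n φ R hn hR hΩ h
  have i1 := VN1_intQ φ h.1.1 h.1.2.1
  have i2 := VN1_intD φ h.1.1 h.1.2.1
  have hA' := hA Ω n φ hn h
  have e1 : ENNReal.ofReal (((n : ℝ) / R) ^ 2 * Q2 φ) =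
      ∫⁻ x : E3, ENNReal.ofReal (((n : ℝ) / R) ^ 2 * φ x ^ 2) := by
    unfold Q2
    rw [← integral_const_mul]
    exact ofReal_integral_eq_lintegral_ofReal (i1.const_mul _)
      (Eventually.of_forall fun x => by positivity)
  have e2 : ENNReal.ofReal (DD (gr φ)) = ∫⁻ x : E3, ENNReal.ofReal (∑ i, pd i φ x ^ 2) := by
    unfold DD
    exact ofReal_integral_eq_lintegral_ofReal i2
      (Eventually.of_forall fun x => Finset.sum_nonneg fun i _ => sq_nonneg _)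
  have hD : 0 ≤ DD (gr φ) := integral_nonneg fun x => Finset.sum_nonneg fun i _ => sq_nonneg _
  rw [← ENNReal.ofReal_le_ofReal_iff hD, e1, e2]
  refine le_trans ?_ (le_trans (le_add_right le_rfl) hA')
  exact lintegral_mono fun x => ENNReal.ofReal_le_ofReal (VN1_point Ω n φ R hR hΩ h x)

end Pool.Agent.Work.MP_d5b3be_an.BN
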