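import Pool.Agent.Work.MP_d5b3be_an.BN.Stmts

/-!
# Item VN2: the Dirichlet form on the sign changing functions of the ellipsoid
-/

set_option autoImplicit false

namespace Pool.Agent.Work.MP_d5b3be_an.BN

open MeasureTheory Filter Set
open scoped ENNReal Topology ContDiff

/-- `a²/(1 - s) + b²/s ≥ (a + b)²` -/
theorem VN2_ineq (a b s : ℝ) (h0 : 0 < s) (h1 : s < 1) :
    (a + b) ^ 2 ≤ b ^ 2 / s + a ^ 2 / (1 - s) := by
  have h2 : 0 < 1 - s := by linarith
  rw [div_add_div _ _ h0.ne' h2.ne', le_div_iff₀ (by positivity)]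
  have : b ^ 2 * (1 - s) + s * a ^ 2 - (a + b) ^ 2 * (s * (1 - s)) = (a * s - b * (1 - s)) ^ 2 := by
    ring
  nlinarith [sq_nonneg (a * s - b * (1 - s))]

/-- the squares of the partial derivatives are integrable -/
theorem VN2_int (φ : E3 → ℝ) (h1 : ContDiff ℝ ((⊤ : ℕ∞) : WithTop ℕ∞) φ)
    (h2 : HasCompactSupport φ) (i : Fin 3) : Integrable (fun x => pd i φ x ^ 2) volume := by
  have c1 : Continuous (fun x => pd i φ x) := by
    have := (h1.continuous_fderiv (by simp)).clm_apply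
      (continuous_const (y := (Pi.single i (1 : ℝ) : E3)))
    exact this
  have c2 : HasCompactSupport (fun x => pd i φ x) :=
    h2.fderiv_apply (𝕜 := ℝ) (Pi.single i (1 : ℝ) : E3)
  have c3 : Continuous (fun x => pd i φ x ^ 2) := c1.pow 2
  have c4 : HasCompactSupport (fun x => pd i φ x ^ 2) :=
    c2.comp_left (g := fun y : ℝ => y ^ 2) (by norm_num)
  exact c3.integrable_of_hasCompactSupport c4

/-- from the inequality of the lower integrals to the inequality of the integrals -/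
theorem VN2_fin (φ : E3 → ℝ) (h1 : ContDiff ℝ ((⊤ : ℕ∞) : WithTop ℕ∞) φ)
    (h2 : HasCompactSupport φ) (c : ℝ) (hc : 0 ≤ c)
    (h : ∫⁻ x : E3, ENNReal.ofReal (c * φ x ^ 2) ≤
      ∫⁻ x, ENNReal.ofReal (∑ i, pd i φ x ^ 2)) :
    c * Q2 φ ≤ DD (gr φ) := by
  have c3 : Continuous (fun x => φ x ^ 2) := h1.continuous.pow 2
  have c4 : HasCompactSupport (fun x => φ x ^ 2) :=
    h2.comp_left (g := fun y : ℝ => y ^ 2) (by norm_num)
  have i1 : Integrable (fun x => φ x ^ 2) volume := c3.integrable_of_hasCompactSupport c4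
  have i2 : Integrable (fun x => ∑ i, pd i φ x ^ 2) volume :=
    integrable_finsetSum _ fun i _ => VN2_int φ h1 h2 i
  have n1 : 0 ≤ᵐ[volume] fun x => c * φ x ^ 2 :=
    Filter.Eventually.of_forall fun x => mul_nonneg hc (sq_nonneg _)
  have n2 : ∀ x, 0 ≤ ∑ i, pd i φ x ^ 2 := fun x => Finset.sum_nonneg fun i _ => sq_nonneg _
  rw [← ofReal_integral_eq_lintegral_ofReal (i1.const_mul c) n1,
    ← ofReal_integral_eq_lintegral_ofReal i2 (Filter.Eventually.of_forall n2),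
    ENNReal.ofReal_le_ofReal_iff (integral_nonneg n2), integral_const_mul] at h
  exact h

/-- Item VN2. -/
theorem prfVN2 (hANG : ANG) (hEZL : EZL) : VN2 := by
  intro n φ R h hn hR hh hφ
  obtain ⟨⟨h1, h2, h3⟩, -⟩ := id hφ
  apply VN2_fin φ h1 h2 _ (sq_nonneg _)
  have k1 := hANG (ell R h) n φ hn hφ
  have k2 := hEZL R h φ hR hh hφ.1
  have m1 : Measurable (fun x : E3 => ENNReal.ofReal ((n : ℝ) ^ 2 / (x 0 ^ 2 + x 1 ^ 2) * φ x ^ 2)) := by
    have := h1.continuous.measurable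
    fun_prop
  calc ∫⁻ x : E3, ENNReal.ofReal ((Real.pi / (2 * h) + n / R) ^ 2 * φ x ^ 2)
      ≤ ∫⁻ x : E3, (ENNReal.ofReal ((n : ℝ) ^ 2 / (x 0 ^ 2 + x 1 ^ 2) * φ x ^ 2) +
        ENNReal.ofReal ((Real.pi / (2 * h)) ^ 2 / (1 - (x 0 ^ 2 + x 1 ^ 2) / R ^ 2) * φ x ^ 2)) := by
        apply lintegral_mono_ae
        have hz : ∀ᵐ x : E3, x 0 ≠ 0 := by
          rw [ae_iff]
          have := Measure.pi_hyperplane (fun _ : Fin 3 => (volume : Measure ℝ)) 0 (0 : ℝ)
          rw [← volume_pi] at this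
          simpa using this
        filter_upwards [hz] with x hx
        by_cases hx0 : φ x = 0
        · simp [hx0]
        have hxe : x ∈ ell R h := h3 (subset_tsupport _ hx0)
        have hxe' : (x 0 ^ 2 + x 1 ^ 2) / R ^ 2 + x 2 ^ 2 / h ^ 2 < 1 := hxe
        have p0 : 0 < x 0 ^ 2 + x 1 ^ 2 := by positivity
        set s : ℝ := (x 0 ^ 2 + x 1 ^ 2) / R ^ 2 with hs
        have s0 : 0 < s := by positivity
        have s1 : s < 1 := by
          have : 0 ≤ x 2 ^ 2 / h ^ 2 := by positivity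
          linarith
        have s2 : 0 < 1 - s := by linarith
        have e1 : (n : ℝ) ^ 2 / (x 0 ^ 2 + x 1 ^ 2) = ((n : ℝ) / R) ^ 2 / s := by
          rw [hs]
          field_simp
        rw [← ENNReal.ofReal_add (by positivity) (by positivity), e1]
        apply ENNReal.ofReal_le_ofReal
        rw [← add_mul]
        exact mul_le_mul_of_nonneg_right (VN2_ineq _ _ s s0 s1) (sq_nonneg _)
    _ = (∫⁻ x : E3, ENNReal.ofReal ((n : ℝ) ^ 2 / (x 0 ^ 2 + x 1 ^ 2) * φ x ^ 2)) +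
        ∫⁻ x : E3, ENNReal.ofReal
          ((Real.pi / (2 * h)) ^ 2 / (1 - (x 0 ^ 2 + x 1 ^ 2) / R ^ 2) * φ x ^ 2) :=
        lintegral_add_left m1 _
    _ ≤ (∫⁻ x : E3, ENNReal.ofReal ((n : ℝ) ^ 2 / (x 0 ^ 2 + x 1 ^ 2) * φ x ^ 2)) +
        ∫⁻ x, ENNReal.ofReal (pd 2 φ x ^ 2) := add_le_add le_rfl k2
    _ ≤ _ := k1

end Pool.Agent.Work.MP_d5b3be_an.BN
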