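import Pool.Agent.Work.MP_d5b3be_an.BN.Stmts

/-! Item WAP of block BN (helper51): Wirtinger's inequality for antiperiodic functions. -/

set_option autoImplicit false

namespace Pool.Agent.Work.MP_d5b3be_an.BN

open MeasureTheory Filter Set
open scoped ENNReal Topology ContDiff

/-- the integral over `2n` adjacent intervals of length `π/n` of a function of period `π/n` -/
theorem WAP_sum (g : ℝ → ℝ) (hg : Continuous g) (n : ℕ) (hn : 1 ≤ n)
    (hp : ∀ t, g (t + Real.pi / n) = g t) (t₀ : ℝ) :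
    ∑ k ∈ Finset.range (2 * n), ∫ t in (t₀ + (k : ℕ) * (Real.pi / n))..(t₀ + ((k + 1 : ℕ) : ℝ) * (Real.pi / n)), g t =
      ∫ t in (-Real.pi)..Real.pi, g t := by
  have hn0 : (n : ℝ) ≠ 0 := by positivity
  rw [intervalIntegral.sum_integral_adjacent_intervals (a := fun k : ℕ => t₀ + (k : ℝ) * (Real.pi / n))
    (fun k _ => hg.intervalIntegrable _ _)]
  have hper : Function.Periodic g (Real.pi / n) := hp
  have hper2 : Function.Periodic g (2 * Real.pi) := by
    have h := hper.nat_mul (2 * n)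
    have e : ((2 * n : ℕ) : ℝ) * (Real.pi / n) = 2 * Real.pi := by
      push_cast
      field_simp
    rwa [e] at h
  have h := hper2.intervalIntegral_add_eq t₀ (-Real.pi)
  have e1 : t₀ + ((2 * n : ℕ) : ℝ) * (Real.pi / n) = t₀ + 2 * Real.pi := by
    push_cast
    field_simp
  have e2 : t₀ + ((0 : ℕ) : ℝ) * (Real.pi / n) = t₀ := by push_cast; ring
  have e3 : -Real.pi + 2 * Real.pi = Real.pi := by ring
  rw [e3] at h
  simp only [e1, e2]
  exact h

theorem prfWAP (hW : WTI) : WAP := by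
  intro f n hn hf hap
  have hn0 : (0 : ℝ) < n := by positivity
  have hpi := Real.pi_pos
  have hp0 : 0 < Real.pi / n := div_pos hpi hn0
  have hcf : Continuous f := hf.continuous
  have hcd : Continuous (deriv f) := hf.continuous_deriv le_rfl
  have hd : ∀ t, deriv f (t + Real.pi / n) = -deriv f t := by
    intro t
    have h1 : deriv (fun s => f (s + Real.pi / n)) t = deriv f (t + Real.pi / n) := deriv_comp_add_const _ _ _
    have h2 : (fun s => f (s + Real.pi / n)) = fun s => -f s := funext hap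
    rw [← h1, h2]
    exact deriv.fun_neg
  -- a zero
  obtain ⟨t₀, ht₀⟩ : ∃ t₀, f t₀ = 0 := by
    have h0 := hap 0
    rcases le_total (f 0) 0 with h | h
    · exact mem_range_of_exists_le_of_exists_ge hcf ⟨0, h⟩ ⟨0 + Real.pi / n, by rw [h0]; linarith⟩
    · exact mem_range_of_exists_le_of_exists_ge hcf ⟨0 + Real.pi / n, by rw [h0]; linarith⟩ ⟨0, h⟩
  have hz : ∀ k : ℕ, f (t₀ + (k : ℝ) * (Real.pi / n)) = 0 := by
    intro k
    induction k with
    | zero => simpa using ht₀
    | succ k ih =>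
      have e : t₀ + ((k + 1 : ℕ) : ℝ) * (Real.pi / n) = t₀ + (k : ℝ) * (Real.pi / n) + Real.pi / n := by
        push_cast; ring
      rw [e, hap, ih, neg_zero]
  have hstep : ∀ k : ℕ, (n : ℝ) ^ 2 *
      ∫ t in (t₀ + (k : ℕ) * (Real.pi / n))..(t₀ + ((k + 1 : ℕ) : ℝ) * (Real.pi / n)), f t ^ 2 ≤
      ∫ t in (t₀ + (k : ℕ) * (Real.pi / n))..(t₀ + ((k + 1 : ℕ) : ℝ) * (Real.pi / n)), deriv f t ^ 2 := by
    intro k
    have e : t₀ + ((k + 1 : ℕ) : ℝ) * (Real.pi / n) - (t₀ + (k : ℝ) * (Real.pi / n)) = Real.pi / n := by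
      push_cast; ring
    have h := hW f (t₀ + (k : ℝ) * (Real.pi / n)) (t₀ + ((k + 1 : ℕ) : ℝ) * (Real.pi / n)) (by linarith) hf
      (hz k) (hz (k + 1))
    have e2 : Real.pi / (Real.pi / (n : ℝ)) = n := by
      field_simp
    rw [e, e2] at h
    exact h
  have hs := Finset.sum_le_sum fun k (_ : k ∈ Finset.range (2 * n)) => hstep k
  rw [← Finset.mul_sum, WAP_sum (fun t => f t ^ 2) (hcf.pow 2) n hn (fun t => by
      simp only [hap, neg_sq]) t₀, WAP_sum (fun t => deriv f t ^ 2) (hcd.pow 2) n hn (fun t => by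
      simp only [hd, neg_sq]) t₀] at hs
  exact hs

end Pool.Agent.Work.MP_d5b3be_an.BN
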