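import Pool.Agent.Work.MP_d5b3be_an.BN.Stmts2

/-!
# Block BN, item WCP: weak sequential compactness of bounded sets of `L²`
-/

set_option autoImplicit false

namespace Pool.Agent.Work.MP_d5b3be_an.BN

open MeasureTheory Filter Set
open scoped ENNReal Topology ContDiff

/-- the scalar product of two classes -/
theorem WCP_inner {f g : E3 → ℝ} (hf : MemLp f 2 volume) (hg : MemLp g 2 volume) :
    @inner ℝ (Lp ℝ 2 (volume : Measure E3)) _ (hf.toLp f) (hg.toLp g) = ∫ x, f x * g x := by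
  rw [MeasureTheory.L2.inner_def]
  apply integral_congr_ae
  filter_upwards [hf.coeFn_toLp, hg.coeFn_toLp] with x h1 h2
  rw [h1, h2]
  simp [mul_comm]

/-- weak sequential compactness in a separable Hilbert space -/
theorem WCP_hilbert {H : Type*} [NormedAddCommGroup H] [InnerProductSpace ℝ H] [CompleteSpace H]
    [TopologicalSpace.SeparableSpace H] (F : ℕ → H) (R : ℝ) (hF : ∀ k, ‖F k‖ ≤ R) :
    ∃ σ : ℕ → ℕ, StrictMono σ ∧ ∃ G : H, ∀ h : H,
      Tendsto (fun k => @inner ℝ H _ (F (σ k)) h) atTop (𝓝 (@inner ℝ H _ G h)) := by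
  have hc := WeakDual.isSeqCompact_closedBall ℝ H (0 : StrongDual ℝ H) R
  have hm : ∀ k, StrongDual.toWeakDual (InnerProductSpace.toDual ℝ H (F k)) ∈
      (WeakDual.toStrongDual ⁻¹' Metric.closedBall (0 : StrongDual ℝ H) R : Set (WeakDual ℝ H)) := by
    intro k
    rw [Set.mem_preimage, StrongDual.toStrongDual_toWeakDual, mem_closedBall_zero_iff,
      LinearIsometryEquiv.norm_map]
    exact hF k
  obtain ⟨ψ, _, σ, hσ, hψ⟩ := hc hm
  refine ⟨σ, hσ, (InnerProductSpace.toDual ℝ H).symm (WeakDual.toStrongDual ψ), fun h => ?_⟩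
  rw [InnerProductSpace.toDual_symm_apply]
  have h1 := ((WeakDual.eval_continuous (𝕜 := ℝ) h).tendsto ψ).comp hψ
  exact h1

/-- one component -/
theorem WCP_one (f : ℕ → E3 → ℝ) (C : ℝ) (hf : ∀ k, MemLp (f k) 2 volume)
    (hC : ∀ k, ∫ x, f k x ^ 2 ≤ C) : ∃ σ : ℕ → ℕ, StrictMono σ ∧ ∃ g : E3 → ℝ,
      MemLp g 2 volume ∧ Wk (fun k => f (σ k)) g := by
  have : Fact ((2 : ℝ≥0∞) ≠ ⊤) := ⟨by norm_num⟩
  have : SecondCountableTopology (Lp ℝ 2 (volume : Measure E3)) := inferInstance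
  have hb : ∀ k, ‖(hf k).toLp (f k)‖ ≤ Real.sqrt C := by
    intro k
    apply Real.le_sqrt_of_sq_le
    rw [← real_inner_self_eq_norm_sq, WCP_inner (hf k) (hf k)]
    refine le_trans (le_of_eq ?_) (hC k)
    congr 1
    funext x
    ring
  obtain ⟨σ, hσ, G, hG⟩ := WCP_hilbert (fun k => (hf k).toLp (f k)) (Real.sqrt C) hb
  refine ⟨σ, hσ, G, Lp.memLp G, fun h hh => ?_⟩
  have h1 := hG (hh.toLp h)
  have h2 : @inner ℝ (Lp ℝ 2 (volume : Measure E3)) _ G (hh.toLp h) = ∫ x, G x * h x := by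
    have h3 := WCP_inner (Lp.memLp G) hh
    rwa [Lp.toLp_coeFn] at h3
  rw [h2] at h1
  simpa only [WCP_inner] using h1

theorem WCP_sub {f : ℕ → E3 → ℝ} {g : E3 → ℝ} {σ : ℕ → ℕ} (hσ : StrictMono σ) (h : Wk f g) :
    Wk (fun k => f (σ k)) g := fun u hu => (h u hu).comp hσ.tendsto_atTop

/-- Item WCP. -/
theorem prfWCP : WCP := by
  intro f C hf hC
  obtain ⟨s0, hs0, g0, hg0, hw0⟩ := WCP_one (fun k => f k 0) C (fun k => hf k 0) (fun k => hC k 0)
  obtain ⟨s1, hs1, g1, hg1, hw1⟩ := WCP_one (fun k => f (s0 k) 1) C (fun k => hf _ 1)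
    (fun k => hC _ 1)
  obtain ⟨s2, hs2, g2, hg2, hw2⟩ := WCP_one (fun k => f (s0 (s1 k)) 2) C (fun k => hf _ 2)
    (fun k => hC _ 2)
  refine ⟨fun k => s0 (s1 (s2 k)), fun a b hab => hs0 (hs1 (hs2 hab)), ![g0, g1, g2], ?_, ?_⟩
  · intro i
    fin_cases i
    · exact hg0
    · exact hg1
    · exact hg2
  · intro i
    fin_cases i
    · exact WCP_sub (hs1.comp hs2) hw0
    · exact WCP_sub hs2 hw1
    · exact hw2

end Pool.Agent.Work.MP_d5b3be_an.BN
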