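import Pool.Agent.Work.MP_d5b3be_an.BN.Stmts

/-!
# Item WTI: Wirtinger's inequality
-/

set_option autoImplicit false

namespace Pool.Agent.Work.MP_d5b3be_an.BN

open MeasureTheory Filter Set
open scoped ENNReal Topology ContDiff

/-- the inequality with the constant `w < π / (b - a)` -/
theorem WTI_sub (f : ℝ → ℝ) (a b w : ℝ) (hab : a < b) (hf : ContDiff ℝ 1 f) (ha : f a = 0)
    (hb : f b = 0) (h0 : 0 < w) (hw : w < Real.pi / (b - a)) :
    w ^ 2 * ∫ x in a..b, f x ^ 2 ≤ ∫ x in a..b, deriv f x ^ 2 := by
  have hba : 0 < b - a := sub_pos.2 hab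
  have hwb : w * (b - a) < Real.pi := by rwa [lt_div_iff₀ hba] at hw
  set c : ℝ := (a + b) / 2 with hc
  have hcos : ∀ x ∈ Icc a b, 0 < Real.cos (w * (x - c)) := by
    intro x hx
    apply Real.cos_pos_of_mem_Ioo
    have e1 : w * (x - c) ≤ w * (b - c) :=
      mul_le_mul_of_nonneg_left (by linarith [hx.2]) h0.le
    have e2 : w * (a - c) ≤ w * (x - c) :=
      mul_le_mul_of_nonneg_left (by linarith [hx.1]) h0.le
    have e3 : w * (b - c) = w * (b - a) / 2 := by rw [hc]; ring
    have e4 : w * (a - c) = -(w * (b - a) / 2) := by rw [hc]; ring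
    constructor <;> linarith
  have hfc : Continuous f := hf.continuous
  have hfd : Continuous (deriv f) := hf.continuous_deriv le_rfl
  have hdf : ∀ x, HasDerivAt f (deriv f x) x := fun x =>
    (hf.differentiable one_ne_zero x).hasDerivAt
  set G' : ℝ → ℝ := fun x => w * (w / Real.cos (w * (x - c)) ^ 2) * f x ^ 2 +
    w * Real.tan (w * (x - c)) * (2 * f x * deriv f x) with hG'
  have hG : ∀ x ∈ Icc a b, HasDerivAt (fun x => w * Real.tan (w * (x - c)) * f x ^ 2) (G' x) x := by
    intro x hx
    have h1 : HasDerivAt (fun x : ℝ => w * (x - c)) w x := by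
      simpa using ((hasDerivAt_id x).sub_const c).const_mul w
    have h2 := (Real.hasDerivAt_tan (hcos x hx).ne').comp x h1
    have h3 := (h2.const_mul w).mul ((hdf x).pow 2)
    have h4 : HasDerivAt (fun x => w * Real.tan (w * (x - c)) * f x ^ 2) _ x := h3
    refine h4.congr_deriv ?_
    rw [hG']
    simp only [Function.comp, Pi.pow_apply]
    push_cast
    ring
  have hcc : Continuous (fun x => Real.cos (w * (x - c))) := by fun_prop
  have hG'c : ContinuousOn G' (Icc a b) := by
    have t1 : ContinuousOn (fun x => Real.tan (w * (x - c))) (Icc a b) := by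
      have : (fun x => Real.tan (w * (x - c))) =
          fun x => Real.sin (w * (x - c)) / Real.cos (w * (x - c)) := by
        funext x; exact Real.tan_eq_sin_div_cos _
      rw [this]
      refine ContinuousOn.div ?_ hcc.continuousOn fun x hx => (hcos x hx).ne'
      exact (by fun_prop : Continuous (fun x => Real.sin (w * (x - c)))).continuousOn
    have t2 : ContinuousOn (fun x => w / Real.cos (w * (x - c)) ^ 2) (Icc a b) := by
      refine ContinuousOn.div continuousOn_const (hcc.pow 2).continuousOn
        fun x hx => pow_ne_zero 2 (hcos x hx).ne'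
    refine ContinuousOn.add ?_ ?_
    · exact (continuousOn_const.mul t2).mul (hfc.pow 2).continuousOn
    · exact (continuousOn_const.mul t1).mul
        (((continuous_const.mul hfc).mul hfd).continuousOn)
  have huI : uIcc a b = Icc a b := uIcc_of_le hab.le
  have hG'i : IntervalIntegrable G' volume a b := by
    apply ContinuousOn.intervalIntegrable
    rwa [huI]
  have hint : ∫ x in a..b, G' x = 0 := by
    rw [intervalIntegral.integral_eq_sub_of_hasDerivAt (fun x hx => hG x (by rwa [huI] at hx)) hG'i]
    simp [ha, hb]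
  have hf2 : IntervalIntegrable (fun x => f x ^ 2) volume a b := (hfc.pow 2).intervalIntegrable _ _
  have hd2 : IntervalIntegrable (fun x => deriv f x ^ 2) volume a b :=
    (hfd.pow 2).intervalIntegrable _ _
  have hle : ∫ x in a..b, (w ^ 2 * f x ^ 2 - G' x) ≤ ∫ x in a..b, deriv f x ^ 2 := by
    apply intervalIntegral.integral_mono_on hab.le ((hf2.const_mul _).sub hG'i) hd2
    intro x hx
    have hc0 := hcos x hx
    have e1 : w * (w / Real.cos (w * (x - c)) ^ 2) =
        w ^ 2 * (1 + Real.tan (w * (x - c)) ^ 2) := by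
      rw [Real.tan_eq_sin_div_cos]
      field_simp
      rw [add_comm, Real.sin_sq_add_cos_sq]
    have e2 : w ^ 2 * f x ^ 2 - G' x = deriv f x ^ 2 -
        (deriv f x + w * Real.tan (w * (x - c)) * f x) ^ 2 := by
      rw [hG']
      simp only
      rw [e1]
      ring
    rw [e2]
    nlinarith [sq_nonneg (deriv f x + w * Real.tan (w * (x - c)) * f x)]
  rw [intervalIntegral.integral_sub (hf2.const_mul _) hG'i, hint, sub_zero,
    intervalIntegral.integral_const_mul] at hle
  exact hle

/-- Item WTI. -/
theorem prfWTI : WTI := by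
  intro f a b hab hf ha hb
  have hba : 0 < b - a := sub_pos.2 hab
  have hW : 0 < Real.pi / (b - a) := div_pos Real.pi_pos hba
  have ht : Tendsto (fun w : ℝ => w ^ 2 * ∫ x in a..b, f x ^ 2) (𝓝[<] (Real.pi / (b - a)))
      (𝓝 ((Real.pi / (b - a)) ^ 2 * ∫ x in a..b, f x ^ 2)) := by
    apply tendsto_nhdsWithin_of_tendsto_nhds
    exact ((continuous_id.pow 2).mul continuous_const).tendsto _
  refine le_of_tendsto ht ?_
  filter_upwards [Ioo_mem_nhdsLT hW] with w hw
  exact WTI_sub f a b w hab hf ha hb hw.1 hw.2

end Pool.Agent.Work.MP_d5b3be_an.BN
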