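import Pool.Agent.Work.MP_d5b3be_an.BN.Asm
import Pool.Agent.Work.MP_d5b3be_an.BN.Stmts4
import Pool.Agent.Work.MP_d5b3be_an.BN.ANG
import Pool.Agent.Work.MP_d5b3be_an.BN.BLZ
import Pool.Agent.Work.MP_d5b3be_an.BN.BMP
import Pool.Agent.Work.MP_d5b3be_an.BN.BXC
import Pool.Agent.Work.MP_d5b3be_an.BN.BXE
import Pool.Agent.Work.MP_d5b3be_an.BN.BXF
import Pool.Agent.Work.MP_d5b3be_an.BN.BXI
import Pool.Agent.Work.MP_d5b3be_an.BN.BXV
import Pool.Agent.Work.MP_d5b3be_an.BN.CLB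
import Pool.Agent.Work.MP_d5b3be_an.BN.CLT
import Pool.Agent.Work.MP_d5b3be_an.BN.CNT
import Pool.Agent.Work.MP_d5b3be_an.BN.CPT
import Pool.Agent.Work.MP_d5b3be_an.BN.CRI
import Pool.Agent.Work.MP_d5b3be_an.BN.CVR
import Pool.Agent.Work.MP_d5b3be_an.BN.CYD
import Pool.Agent.Work.MP_d5b3be_an.BN.CYI
import Pool.Agent.Work.MP_d5b3be_an.BN.DIS
import Pool.Agent.Work.MP_d5b3be_an.BN.DSP
import Pool.Agent.Work.MP_d5b3be_an.BN.EG2
import Pool.Agent.Work.MP_d5b3be_an.BN.ELL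
import Pool.Agent.Work.MP_d5b3be_an.BN.ENE
import Pool.Agent.Work.MP_d5b3be_an.BN.EUL
import Pool.Agent.Work.MP_d5b3be_an.BN.EXI
import Pool.Agent.Work.MP_d5b3be_an.BN.EZL
import Pool.Agent.Work.MP_d5b3be_an.BN.FU3
import Pool.Agent.Work.MP_d5b3be_an.BN.GNA
import Pool.Agent.Work.MP_d5b3be_an.BN.GNB
import Pool.Agent.Work.MP_d5b3be_an.BN.GNC
import Pool.Agent.Work.MP_d5b3be_an.BN.GNI
import Pool.Agent.Work.MP_d5b3be_an.BN.HCE
import Pool.Agent.Work.MP_d5b3be_an.BN.HCL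
import Pool.Agent.Work.MP_d5b3be_an.BN.HCW
import Pool.Agent.Work.MP_d5b3be_an.BN.HOL
import Pool.Agent.Work.MP_d5b3be_an.BN.HS6
import Pool.Agent.Work.MP_d5b3be_an.BN.INE
import Pool.Agent.Work.MP_d5b3be_an.BN.INF
import Pool.Agent.Work.MP_d5b3be_an.BN.I_CON
import Pool.Agent.Work.MP_d5b3be_an.BN.L6C
import Pool.Agent.Work.MP_d5b3be_an.BN.LCM
import Pool.Agent.Work.MP_d5b3be_an.BN.LCV
import Pool.Agent.Work.MP_d5b3be_an.BN.LOW
import Pool.Agent.Work.MP_d5b3be_an.BN.LWI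
import Pool.Agent.Work.MP_d5b3be_an.BN.NB1
import Pool.Agent.Work.MP_d5b3be_an.BN.NB2
import Pool.Agent.Work.MP_d5b3be_an.BN.NB3
import Pool.Agent.Work.MP_d5b3be_an.BN.NSY
import Pool.Agent.Work.MP_d5b3be_an.BN.NT1
import Pool.Agent.Work.MP_d5b3be_an.BN.NU1
import Pool.Agent.Work.MP_d5b3be_an.BN.NU2
import Pool.Agent.Work.MP_d5b3be_an.BN.NU3
import Pool.Agent.Work.MP_d5b3be_an.BN.NZT
import Pool.Agent.Work.MP_d5b3be_an.BN.PRI
import Pool.Agent.Work.MP_d5b3be_an.BN.PRL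
import Pool.Agent.Work.MP_d5b3be_an.BN.PRM
import Pool.Agent.Work.MP_d5b3be_an.BN.PZL
import Pool.Agent.Work.MP_d5b3be_an.BN.RIM
import Pool.Agent.Work.MP_d5b3be_an.BN.RLS
import Pool.Agent.Work.MP_d5b3be_an.BN.RNC
import Pool.Agent.Work.MP_d5b3be_an.BN.ROG
import Pool.Agent.Work.MP_d5b3be_an.BN.ROS
import Pool.Agent.Work.MP_d5b3be_an.BN.ROT
import Pool.Agent.Work.MP_d5b3be_an.BN.SEC
import Pool.Agent.Work.MP_d5b3be_an.BN.SEL
import Pool.Agent.Work.MP_d5b3be_an.BN.SL3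
import Pool.Agent.Work.MP_d5b3be_an.BN.SOB
import Pool.Agent.Work.MP_d5b3be_an.BN.SYM
import Pool.Agent.Work.MP_d5b3be_an.BN.TFC
import Pool.Agent.Work.MP_d5b3be_an.BN.TRO
import Pool.Agent.Work.MP_d5b3be_an.BN.UNI
import Pool.Agent.Work.MP_d5b3be_an.BN.VN1
import Pool.Agent.Work.MP_d5b3be_an.BN.VN2
import Pool.Agent.Work.MP_d5b3be_an.BN.WAP
import Pool.Agent.Work.MP_d5b3be_an.BN.WCP
import Pool.Agent.Work.MP_d5b3be_an.BN.WTI
import Pool.Agent.Work.MP_d5b3be_an.BN.ZBD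

/-!
# Block BN: all items
-/

set_option autoImplicit false

namespace Pool.Agent.Work.MP_d5b3be_an.BN

theorem all_BLZ : BLZ := prfBLZ
theorem all_BMP : BMP := prfBMP
theorem all_BXC : BXC := prfBXC
theorem all_BXE : BXE := prfBXE
theorem all_BXF : BXF := prfBXF
theorem all_CLT : CLT := prfCLT
theorem all_CNT : CNT := prfCNT
theorem all_CVR : CVR := prfCVR
theorem all_CYD : CYD := prfCYD
theorem all_DSP : DSP := prfDSP
theorem all_ELL : ELL := prfELL
theorem all_FU3 : FU3 := prfFU3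
theorem all_GNA : GNA := prfGNA all_CYD
theorem all_GNC : GNC := prfGNC all_CYD
theorem all_HCL : HCL := prfHCL
theorem all_HCW : HCW := prfHCW
theorem all_HOL : HOL := prfHOL
theorem all_HS6 : HS6 := prfHS6
theorem all_INF : INF := prfINF
theorem all_CON : CON := prfCON
theorem all_L6C : L6C := prfL6C
theorem all_LCV : LCV := prfLCV
theorem all_LWI : LWI := prfLWI
theorem all_NB1 : NB1 := prfNB1 all_BXC
theorem all_NB2 : NB2 := prfNB2 all_BXC
theorem all_NT1 : NT1 := prfNT1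
theorem all_NU1 : NU1 := prfNU1
theorem all_NU2 : NU2 := prfNU2
theorem all_NU3 : NU3 := prfNU3
theorem all_NZT : NZT := prfNZT
theorem all_RIM : RIM := prfRIM
theorem all_RLS : RLS := prfRLS
theorem all_RNC : RNC := prfRNC all_BXC
theorem all_ROG : ROG := prfROG
theorem all_ROT : ROT := prfROT
theorem all_SEC : SEC := prfSEC
theorem all_SEL : SEL := prfSEL
theorem all_TRO : TRO := prfTRO all_ROT
theorem all_UNI : UNI := prfUNI
theorem all_WCP : WCP := prfWCP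
theorem all_WTI : WTI := prfWTI
theorem all_ZBD : ZBD := prfZBD
theorem all_CYI : CYI := prfCYI all_FU3
theorem all_DIS : DIS := prfDIS all_ROT
theorem all_EG2 : EG2 := prfEG2 all_FU3 all_WTI
theorem all_EZL : EZL := prfEZL all_FU3 all_WTI
theorem all_GNB : GNB := prfGNB all_ROT all_CYD all_ZBD
theorem all_GNI : GNI := prfGNI all_CYI all_LWI all_GNA all_GNB all_GNC
theorem all_HCE : HCE := prfHCE all_HS6 all_LCV all_L6C
theorem all_LCM : LCM := prfLCM all_ROT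
theorem all_NB3 : NB3 := prfNB3 all_RNC all_NT1
theorem all_NSY : NSY := prfNSY all_ROT
theorem all_PRI : PRI := prfPRI all_ROT all_ROG
theorem all_PRM : PRM := prfPRM all_ROT all_TRO
theorem all_PZL : PZL := prfPZL all_EZL
theorem all_ROS : ROS := prfROS all_ROT all_ROG all_TRO
theorem all_SL3 : SL3 := prfSL3 all_NB1 all_NB2 all_NB3
theorem all_SOB : SOB := prfSOB all_GNI
theorem all_SYM : SYM := prfSYM all_SOB all_CLT all_HS6 all_LCV all_L6C all_PRM all_PRI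
theorem all_WAP : WAP := prfWAP all_WTI
theorem all_ANG : ANG := prfANG all_ROT all_CYD all_CYI all_WAP
theorem all_BXI : BXI := prfBXI all_BXF all_CYD all_CYI
theorem all_BXV : BXV := prfBXV all_CYI
theorem all_CLB : CLB := prfCLB all_FU3 all_WTI all_ANG
theorem all_CPT : CPT := prfCPT all_RLS all_WCP all_LCV all_HCW all_HCL all_HCE all_DSP all_BLZ all_CON
theorem all_ENE : ENE := prfENE all_SOB all_CLT all_HS6 all_LCV all_L6C
theorem all_EUL : EUL := prfEUL all_HCL all_HCE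
theorem all_EXI : EXI := prfEXI all_INF all_CPT all_EUL all_HCL
theorem all_PRL : PRL := prfPRL all_ROT all_ROG all_PRM all_UNI
theorem all_TFC : TFC := prfTFC all_BMP all_BXF all_BXI all_BXV all_HOL
theorem all_VN1 : VN1 := prfVN1 all_ANG
theorem all_VN2 : VN2 := prfVN2 all_ANG all_EZL
theorem all_CRI : CRI := prfCRI all_CLT all_SOB all_TFC all_EXI all_SYM all_NSY
theorem all_LOW : LOW := prfLOW all_SOB all_VN1 all_CLT all_HCE all_ENE
theorem all_INE : INE := prfINE all_ROT all_LCM all_PRL all_LOW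

end Pool.Agent.Work.MP_d5b3be_an.BN
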