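import Pool.Agent.Work.MP_d5b3be_an.BN.Stmts2

/-!
# Block BN: assembly of the two parts
-/

set_option autoImplicit false

namespace Pool.Agent.Work.MP_d5b3be_an.BN

open MeasureTheory Filter Set
open scoped ENNReal Topology ContDiff

/-- at least `X` infinite families of solutions, solutions of different families are not related by
a rotation about the axis and a sign -/
def Fam (Ω : Set E3) (lam X : ℝ) : Prop :=
  ∃ (N : ℕ) (U : Fin N → ℕ → E3 → ℝ), X ≤ N ∧ (∀ i j, IsSol Ω lam (U i j)) ∧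
    (∀ i j j', j ≠ j' → ¬ (U i j =ᵐ[volume] U i j')) ∧
    ∀ i i', i ≠ i' → ∀ (j j' : ℕ) (t : ℝ),
      ¬ (U i j =ᵐ[volume] fun x => U i' j' (rot t x)) ∧
      ¬ (U i j =ᵐ[volume] fun x => -U i' j' (rot t x))

/-- moving rotations to the other side -/
theorem Asm_move (h1 : ROT) (u v : E3 → ℝ) (a b t : ℝ)
    (h : (fun x => u (rot a x)) =ᵐ[volume] fun x => v (rot b (rot t x))) :
    u =ᵐ[volume] fun x => v (rot (b + t - a) x) := by
  have hq : Measure.QuasiMeasurePreserving (rot (-a)) volume volume :=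
    (h1.2.2.2.2.2.2.1 (-a)).quasiMeasurePreserving
  have h2 := hq.ae h
  filter_upwards [h2] with x hx
  rw [h1.2.1, h1.2.1, h1.2.1] at hx
  rw [show a + -a = 0 by ring, h1.1] at hx
  rw [hx]
  congr 2

theorem Asm_move' (h1 : ROT) (u v : E3 → ℝ) (a b t : ℝ)
    (h : (fun x => u (rot a x)) =ᵐ[volume] fun x => -v (rot b (rot t x))) :
    u =ᵐ[volume] fun x => -v (rot (b + t - a) x) :=
  Asm_move h1 u (fun x => -v x) a b t h

/-- the relation is symmetric -/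
theorem Asm_symm (h1 : ROT) (u v : E3 → ℝ) (t : ℝ) (h : u =ᵐ[volume] fun x => v (rot t x)) :
    v =ᵐ[volume] fun x => u (rot (-t) x) := by
  have hq : Measure.QuasiMeasurePreserving (rot (-t)) volume volume :=
    (h1.2.2.2.2.2.2.1 (-t)).quasiMeasurePreserving
  have h2 := hq.ae h
  filter_upwards [h2] with x hx
  rw [h1.2.1, show t + -t = 0 by ring, h1.1] at hx
  rw [hx]

/-- counting, explicit -/
theorem Asm_cnt (R η lam : ℝ) (h0 : 0 < η) (hR : η ≤ R) (hl : 10 ^ 18 / η ^ 2 ≤ lam) :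
    0 < lam ∧ ∃ a b : ℕ, a ≤ b ∧ 1 / 10 ^ 9 * R * Real.sqrt lam ≤ (b : ℝ) - a ∧
      ∀ n : ℕ, a ≤ n → n < b → 10 ^ 4 * R ≤ n * η ∧ 1 ≤ n ∧ lam < ((n : ℝ) / R) ^ 2 ∧
        (1 - 1 / 10 ^ 8) * (n : ℝ) ^ 2 ≤ lam * R ^ 2 := by
  have hR0 : 0 < R := lt_of_lt_of_le h0 hR
  have hlam : 0 < lam := lt_of_lt_of_le (by positivity) hl
  have hs : 10 ^ 9 / η ≤ Real.sqrt lam := by
    apply Real.le_sqrt_of_sq_le
    rw [div_pow]
    calc (10 ^ 9) ^ 2 / η ^ 2 = 10 ^ 18 / η ^ 2 := by norm_num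
      _ ≤ lam := hl
  set s := Real.sqrt lam with hsd
  have hs0 : 0 < s := Real.sqrt_pos.2 hlam
  have hss : s ^ 2 = lam := Real.sq_sqrt hlam.le
  have hηs : 10 ^ 9 ≤ s * η := by
    rw [div_le_iff₀ h0] at hs
    exact hs
  set X := R * s with hX
  have hX9 : 10 ^ 9 ≤ X := by
    rw [hX]
    nlinarith
  have hX0 : 0 < X := by positivity
  refine ⟨hlam, ⌊X⌋₊ + 1, ⌊(1 + 4 / 10 ^ 9) * X⌋₊ + 1, ?_, ?_, ?_⟩
  · have : ⌊X⌋₊ ≤ ⌊(1 + 4 / 10 ^ 9) * X⌋₊ := Nat.floor_le_floor (by nlinarith)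
    omega
  · push_cast
    have e1 : (⌊X⌋₊ : ℝ) ≤ X := Nat.floor_le hX0.le
    have e2 : (1 + 4 / 10 ^ 9) * X < ⌊(1 + 4 / 10 ^ 9) * X⌋₊ + 1 := Nat.lt_floor_add_one _
    have e3 : 1 / 10 ^ 9 * R * s = 1 / 10 ^ 9 * X := by rw [hX]; ring
    rw [e3]
    nlinarith
  · intro n hn1 hn2
    have e1 : X < n := by
      have : ⌊X⌋₊ < n := by omega
      exact (Nat.floor_lt hX0.le).1 this
    have e2 : (n : ℝ) ≤ (1 + 4 / 10 ^ 9) * X := by
      have : n ≤ ⌊(1 + 4 / 10 ^ 9) * X⌋₊ := by omega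
      exact (Nat.le_floor_iff (by positivity)).1 this
    have hn0 : (0 : ℝ) < n := lt_trans hX0 e1
    refine ⟨?_, ?_, ?_, ?_⟩
    · have : R * s * η ≤ n * η := mul_le_mul_of_nonneg_right e1.le h0.le
      nlinarith
    · have : 0 < n := by exact_mod_cast hn0
      omega
    · rw [div_pow, lt_div_iff₀ (by positivity), ← hss]
      have : X ^ 2 < (n : ℝ) ^ 2 := by
        apply pow_lt_pow_left₀ e1 hX0.le (by norm_num)
      calc s ^ 2 * R ^ 2 = X ^ 2 := by rw [hX]; ring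
        _ < _ := this
    · have h3 : (n : ℝ) ^ 2 ≤ ((1 + 4 / 10 ^ 9) * X) ^ 2 := pow_le_pow_left₀ hn0.le e2 2
      have h4 : lam * R ^ 2 = X ^ 2 := by rw [hX, ← hss]; ring
      rw [h4]
      have h5 : (1 - 1 / 10 ^ 8 : ℝ) * ((1 + 4 / 10 ^ 9) * X) ^ 2 ≤ X ^ 2 := by
        have : (1 - 1 / 10 ^ 8 : ℝ) * (1 + 4 / 10 ^ 9) ^ 2 ≤ 1 := by norm_num
        calc (1 - 1 / 10 ^ 8 : ℝ) * ((1 + 4 / 10 ^ 9) * X) ^ 2
            = ((1 - 1 / 10 ^ 8 : ℝ) * (1 + 4 / 10 ^ 9) ^ 2) * X ^ 2 := by ring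
          _ ≤ 1 * X ^ 2 := mul_le_mul_of_nonneg_right this (sq_nonneg _)
          _ = X ^ 2 := one_mul _
      have h6 : (1 - 1 / 10 ^ 8 : ℝ) * (n : ℝ) ^ 2 ≤ (1 - 1 / 10 ^ 8 : ℝ) * ((1 + 4 / 10 ^ 9) * X) ^ 2 :=
        mul_le_mul_of_nonneg_left h3 (by norm_num)
      linarith

/-- the ring theorem: explicit thresholds -/
theorem Asm_ring (h1 : ROT) (h2 : CRI) (h3 : VN1) (h4 : NT1) (h5 : ROS) (h6 : DIS) (h7 : INE)
    (Ω : Set E3) (R ρ1 z1 η lam : ℝ) (hb : Bornology.IsBounded Ω) (hr : RI Ω)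
    (hΩ : ∀ x ∈ Ω, x 0 ^ 2 + x 1 ^ 2 ≤ R ^ 2) (hη : 0 < η) (hη1 : η < ρ1)
    (hρ : (1 - 1 / 10 ^ 8) * R ≤ ρ1 - η) (hρR : ρ1 ≤ R) (hbox : boxS ρ1 z1 η η ⊆ Ω)
    (hl : 10 ^ 18 / η ^ 2 ≤ lam) : Fam Ω lam (1 / 10 ^ 9 * R * Real.sqrt lam) := by
  have hηR : η ≤ R := (hη1.trans_le hρR).le
  have hR0 : 0 < R := lt_of_lt_of_le hη hηR
  obtain ⟨hlam, a, b, hab, hcount, hn⟩ := Asm_cnt R η lam hη hηR hl
  have key : ∀ n : ℕ, a ≤ n → n < b →
      ∃ u, IsSol Ω lam u ∧ 64 * N6 u ^ 2 < (n : ℝ) ^ 2 ∧ Anti n u := by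
    intro n hn1 hn2
    obtain ⟨e1, e2, e3, e4⟩ := hn n hn1 hn2
    have hn0 : (0 : ℝ) < n := by exact_mod_cast e2
    have hδ : 10 ^ 4 * R / n ≤ η := by
      rw [div_le_iff₀ hn0]
      linarith
    refine h2 Ω n (((n : ℝ) / R) ^ 2) lam ρ1 z1 (10 ^ 4 * R / n) (10 ^ 4 * R / n) hb hr e2 hlam e3
      (fun φ hφ => h3 Ω n φ R e2 hR0 hΩ hφ) (h4 n R lam η ρ1 hR0 e2 hη hη1 hρ hρR e4 e1) ?_
    refine Subset.trans ?_ hbox
    rintro x ⟨hx1, hx2⟩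
    exact ⟨hx1.trans hδ, hx2.trans hδ⟩
  choose! u hu using key
  have hNa : ∀ i : Fin (b - a), a ≤ a + (i : ℕ) ∧ a + (i : ℕ) < b := fun i =>
    ⟨by omega, by have := i.isLt; omega⟩
  refine ⟨b - a, fun i j x => u (a + i) (rot (Real.pi / ((a + i : ℕ) * 2 ^ j)) x), ?_, ?_, ?_, ?_⟩
  · rw [Nat.cast_sub hab]
    exact hcount
  · intro i j
    exact h5 Ω lam _ _ hr (hu _ (hNa i).1 (hNa i).2).1
  · intro i j j' hjj
    have h := hu _ (hNa i).1 (hNa i).2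
    exact h6 (a + i) _ ((hn _ (hNa i).1 (hNa i).2).2.1) h.1.1 h.2.2 j j' hjj
  · -- the families are not related
    have main : ∀ i i' : Fin (b - a), i < i' → ∀ t : ℝ,
        ¬ (u (a + i) =ᵐ[volume] fun x => u (a + i') (rot t x)) ∧
        ¬ (u (a + i) =ᵐ[volume] fun x => -u (a + i') (rot t x)) := by
      intro i i' hii t
      have hi := hu _ (hNa i).1 (hNa i).2
      have hi' := hu _ (hNa i').1 (hNa i').2
      have hni := hn _ (hNa i).1 (hNa i).2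
      refine h7 Ω (a + i) (a + i') lam R t _ _ hr hni.2.1 (by have : (i : ℕ) < i' := hii; omega) hR0
        hΩ hlam ?_ hi.1 hi.2.1 hi.2.2 hi'.2.2
      have := hni.2.2.1
      rw [div_pow, lt_div_iff₀ (by positivity)] at this
      exact this.le
    intro i i' hii j j' t
    rcases lt_or_gt_of_ne hii with hlt | hgt
    · constructor
      · intro h
        exact (main i i' hlt _).1 (Asm_move h1 _ _ _ _ _ h)
      · intro h
        exact (main i i' hlt _).2 (Asm_move' h1 _ _ _ _ _ h)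
    · constructor
      · intro h
        have h8 := Asm_symm h1 _ _ _ (Asm_move h1 _ _ _ _ _ h)
        exact (main i' i hgt _).1 h8
      · intro h
        have h8 := Asm_symm h1 _ (fun x => -u (a + i') x) _ (Asm_move' h1 _ _ _ _ _ h)
        have h9 : u (a + i') =ᵐ[volume] fun x => -u (a + i)
            (rot (-(Real.pi / ((a + i' : ℕ) * 2 ^ j') + t - Real.pi / ((a + i : ℕ) * 2 ^ j))) x) := by
          filter_upwards [h8] with x hx
          rw [← hx, neg_neg]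
        exact (main i' i hgt _).2 h9

/-- part (1): every body of revolution -/
theorem Asm_P1 (h1 : ROT) (h2 : CRI) (h3 : VN1) (h4 : NT1) (h5 : ROS) (h6 : DIS) (h7 : INE)
    (h8 : RIM) (Ω : Set E3) (ho : IsOpen Ω) (hne : Ω.Nonempty) (hb : Bornology.IsBounded Ω)
    (hr : RI Ω) :
    ∃ Λ c : ℝ, 0 < c ∧ ∀ lam : ℝ, Λ ≤ lam → Fam Ω lam (c * Real.sqrt lam) := by
  obtain ⟨R, hR, hΩ, hε⟩ := h8 Ω ho hne hb hr
  obtain ⟨ρ1, z1, η, hη, hη1, hρ, hρR, hbox⟩ := hε (1 / 10 ^ 8) (by norm_num) (by norm_num)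
  refine ⟨10 ^ 18 / η ^ 2, 1 / 10 ^ 9 * R, by positivity, fun lam hl => ?_⟩
  exact Asm_ring h1 h2 h3 h4 h5 h6 h7 Ω R ρ1 z1 η lam hb hr hΩ hη hη1 hρ hρR hbox hl

/-- part (2): all ellipsoids of revolution, uniformly -/
theorem Asm_P2 (h1 : ROT) (h2 : CRI) (h3 : VN1) (h4 : NT1) (h5 : ROS) (h6 : DIS) (h7 : INE)
    (h8 : ELL) (h9 : BXE) :
    ∃ C c : ℝ, 0 < C ∧ 0 < c ∧ ∀ R h lam : ℝ, 0 < R → 0 < h → C * (1 / R ^ 2 + 1 / h ^ 2) ≤ lam →
      Fam (ell R h) lam (c * R * Real.sqrt lam) := by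
  refine ⟨10 ^ 36, 1 / 10 ^ 9, by positivity, by positivity, fun R h lam hR hh hl => ?_⟩
  obtain ⟨e1, e2, e3⟩ := h8 R h hR hh
  set m := min R h with hm
  have hm0 : 0 < m := lt_min hR hh
  have hmR : m ≤ R := min_le_left _ _
  have hmh : m ≤ h := min_le_right _ _
  set η := m / 10 ^ 9 with hη
  have hη0 : 0 < η := by positivity
  have hηR : η ≤ R / 10 ^ 9 := by rw [hη]; gcongr
  have hηh : η ≤ h / 10 ^ 9 := by rw [hη]; gcongr
  set ρ1 := (1 - 5 / 10 ^ 9) * R with hρ1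
  have hbx : boxS ρ1 0 η η ⊆ ell R h := by
    refine h9 R h ρ1 η η hR hh hη0 ?_ hη0 ?_
    · rw [hρ1]; nlinarith
    · have a1 : (ρ1 + η) ^ 2 / R ^ 2 ≤ (1 - 4 / 10 ^ 9) ^ 2 := by
        rw [div_le_iff₀ (by positivity), ← mul_pow]
        apply pow_le_pow_left₀
        · rw [hρ1]; nlinarith
        · rw [hρ1]; nlinarith
      have a2 : η ^ 2 / h ^ 2 ≤ (1 / 10 ^ 9) ^ 2 := by
        rw [div_le_iff₀ (by positivity), ← mul_pow]
        apply pow_le_pow_left₀ hη0.le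
        linarith
      have a3 : ((1 - 4 / 10 ^ 9) ^ 2 + (1 / 10 ^ 9) ^ 2 : ℝ) < 1 := by norm_num
      linarith
  refine Asm_ring h1 h2 h3 h4 h5 h6 h7 (ell R h) R ρ1 0 η lam e3 e1 ?_ hη0 ?_ ?_ ?_ hbx ?_
  · intro x hx
    have h10 : (x 0 ^ 2 + x 1 ^ 2) / R ^ 2 + x 2 ^ 2 / h ^ 2 < 1 := hx
    have h11 : 0 ≤ x 2 ^ 2 / h ^ 2 := by positivity
    have h12 : (x 0 ^ 2 + x 1 ^ 2) / R ^ 2 < 1 := by linarith
    rw [div_lt_one (by positivity)] at h12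
    exact h12.le
  · rw [hρ1]; nlinarith
  · rw [hρ1]; nlinarith
  · rw [hρ1]; nlinarith
  · have h13 : 1 / m ^ 2 ≤ 1 / R ^ 2 + 1 / h ^ 2 := by
      rcases min_choice R h with h14 | h14
      · rw [hm, h14]
        have : 0 ≤ 1 / h ^ 2 := by positivity
        linarith
      · rw [hm, h14]
        have : 0 ≤ 1 / R ^ 2 := by positivity
        linarith
    have h15 : 10 ^ 18 / η ^ 2 = 10 ^ 36 * (1 / m ^ 2) := by
      rw [hη]
      field_simp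
    rw [h15]
    exact (mul_le_mul_of_nonneg_left h13 (by positivity)).trans hl

/-- part (3): flat bodies, (almost) the whole range -/
theorem Asm_P3 (h2 : CRI) (h3 : VN2) (h5 : ROS) (h6 : DIS) (h8 : ELL) (h9 : BXE) (h10 : SEL)
    (h11 : NU1) (h12 : NU2) (h13 : NU3) : PT2 := by
  refine ⟨1 / 10 ^ 60, by positivity, by norm_num, ?_⟩
  intro Ω R h lam ho hr hh hhR hin hout hl
  have hR : 0 < R := by
    by_contra hc
    push Not at hc
    have : 1 / 10 ^ 60 * R ≤ 0 := mul_nonpos_of_nonneg_of_nonpos (by positivity) hc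
    linarith
  have hlam : 0 < lam := by
    have : 0 < (1 - 1 / 10 ^ 60) * (Real.pi / (2 * h)) ^ 2 := by
      have h14 : 0 < Real.pi / (2 * h) := by positivity
      have h15 : (0 : ℝ) < 1 - 1 / 10 ^ 60 := by norm_num
      positivity
    linarith
  obtain ⟨n, hn, hlt, hle⟩ := h10 (1 / 10 ^ 60) R h lam (by positivity) (by norm_num) hh hhR hl
  have hle' : (1 - 4 / 10 ^ 60) * (Real.pi / (2 * h) + n / R) ^ 2 ≤ lam := by
    have : (1 - 4 / 10 ^ 60 : ℝ) = 1 - 4 * (1 / 10 ^ 60) := by ring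
    rw [this]
    exact hle
  have hbox : ∃ ρ0 δ η : ℝ, BC n lam ρ0 δ η ∧ (ρ0 + δ) ^ 2 / R ^ 2 + η ^ 2 / h ^ 2 < 1 := by
    rcases le_or_gt (10 ^ 10 * (n : ℝ)) (Real.pi / (2 * h) * R) with h14 | h14
    · exact h11 n R h lam hh hhR hn hle' h14
    · rcases le_or_gt (n : ℝ) (10 ^ 9 * (Real.pi / (2 * h) * R)) with h15 | h15
      · exact h12 n R h lam hh hhR hn hle' h14.le h15
      · exact h13 n R h lam hh hhR hn hle' h15.le
  obtain ⟨ρ0, δ, η, hBC, hsum⟩ := hbox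
  have hb : Bornology.IsBounded Ω :=
    (h8 ((1 + 1 / 10 ^ 60) * R) ((1 + 1 / 10 ^ 60) * h) (by positivity) (by positivity)).2.2.subset hout
  obtain ⟨u, hu1, hu2, hu3⟩ := h2 Ω n _ lam ρ0 0 δ η hb hr hn hlam hlt
    (fun φ hφ => h3 n φ ((1 + 1 / 10 ^ 60) * R) ((1 + 1 / 10 ^ 60) * h) hn (by positivity)
      (by positivity) ⟨⟨hφ.1.1, hφ.1.2.1, hφ.1.2.2.trans hout⟩, hφ.2⟩) hBC
    ((h9 R h ρ0 δ η hR hh hBC.1 hBC.2.1 hBC.2.2.1 hsum).trans hin)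
  refine ⟨fun j x => u (rot (Real.pi / (n * 2 ^ j)) x), fun j => h5 Ω lam _ u hr hu1, ?_⟩
  intro i j hij
  exact h6 n u hn hu1.1 hu3 i j hij

end Pool.Agent.Work.MP_d5b3be_an.BN
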