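import Pool.Agent.Work.MP_d5b3be_an.BN.Stmts4
import Pool.Agent.Work.MP_d5b3be_an.BN.EZL
import Pool.Agent.Work.MP_d5b3be_an.BN.VN2

/-!
# Block BN, item CLB: the lower bound of the class in a convex body of revolution
-/

set_option autoImplicit false

namespace Pool.Agent.Work.MP_d5b3be_an.BN

open MeasureTheory Filter Set
open scoped ENNReal Topology ContDiff

theorem CLB_line (hW : WTI) (f f' : ℝ → ℝ) (α β K : ℝ) (hab : α < β) (hf : ContDiff ℝ 1 f)
    (hd : ∀ c, HasDerivAt f (f' c) c) (h0 : ∀ c, ¬ (α < c ∧ c < β) → f c = 0)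
    (hK : K ≤ (Real.pi / (β - α)) ^ 2) :
    ∫⁻ c, ENNReal.ofReal (K * f c ^ 2) ≤ ∫⁻ c, ENNReal.ofReal (f' c ^ 2) := by
  have hw := hW f α β hab hf (h0 _ fun h => lt_irrefl _ h.1) (h0 _ fun h => lt_irrefl _ h.2)
  have hdf : deriv f = f' := funext fun c => (hd c).deriv
  set K' : ℝ := (Real.pi / (β - α)) ^ 2 with hK'
  rw [hdf, intervalIntegral.integral_of_le hab.le, intervalIntegral.integral_of_le hab.le] at hw
  have hfc : Continuous f := hf.continuous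
  have hfc' : Continuous f' := by
    rw [← hdf]
    exact hf.continuous_deriv le_rfl
  have hK0 : 0 ≤ K' := by rw [hK']; positivity
  have e1 : ∫⁻ c, ENNReal.ofReal (K' * f c ^ 2)
      = ∫⁻ c in Ioc α β, ENNReal.ofReal (K' * f c ^ 2) := by
    rw [← lintegral_indicator measurableSet_Ioc]
    refine lintegral_congr fun c => ?_
    by_cases hc : c ∈ Ioc α β
    · rw [indicator_of_mem hc]
    · rw [indicator_of_notMem hc]
      have : f c = 0 := by
        apply h0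
        intro h
        exact hc ⟨h.1, h.2.le⟩
      simp [this]
  have i1 : IntegrableOn (fun c => K' * f c ^ 2) (Ioc α β) :=
    ((continuous_const.mul (hfc.pow 2)).integrableOn_Icc (a := α) (b := β)).mono_set
      Ioc_subset_Icc_self
  have i2 : IntegrableOn (fun c => f' c ^ 2) (Ioc α β) :=
    ((hfc'.pow 2).integrableOn_Icc (a := α) (b := β)).mono_set Ioc_subset_Icc_self
  calc ∫⁻ c, ENNReal.ofReal (K * f c ^ 2)
      ≤ ∫⁻ c, ENNReal.ofReal (K' * f c ^ 2) := by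
        refine lintegral_mono fun c => ENNReal.ofReal_le_ofReal ?_
        exact mul_le_mul_of_nonneg_right hK (sq_nonneg _)
    _ = ENNReal.ofReal (∫ c in Ioc α β, K' * f c ^ 2) := by
        rw [e1, ofReal_integral_eq_lintegral_ofReal i1
          (Eventually.of_forall fun c => by positivity)]
    _ ≤ ENNReal.ofReal (∫ c in Ioc α β, f' c ^ 2) := by
        apply ENNReal.ofReal_le_ofReal
        rw [integral_const_mul]
        exact hw
    _ = ∫⁻ c in Ioc α β, ENNReal.ofReal (f' c ^ 2) := by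
        rw [ofReal_integral_eq_lintegral_ofReal i2
          (Eventually.of_forall fun c => by positivity)]
    _ ≤ ∫⁻ c, ENNReal.ofReal (f' c ^ 2) := setLIntegral_le_lintegral _ _

theorem CLB_vert (hF : FU3) (hW : WTI) (Ω : Set E3) (R a b : ℝ) (zm zp : ℝ → ℝ) (n : ℕ) (V : ℝ)
    (φ : E3 → ℝ) (hS : Sec Ω R a b zm zp)
    (hV : ∀ ρ, 0 < ρ → ρ < R → V ≤ (Real.pi / (zp ρ - zm ρ)) ^ 2 + ((n : ℝ) / ρ) ^ 2)
    (hφ : Test Ω φ) :
    ∫⁻ x : E3, ENNReal.ofReal ((V - (n : ℝ) ^ 2 / (x 0 ^ 2 + x 1 ^ 2)) * φ x ^ 2) ≤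
      ∫⁻ x, ENNReal.ofReal (pd 2 φ x ^ 2) := by
  obtain ⟨hs, _, hsub⟩ := hφ
  obtain ⟨hR, hab, hb1, hb2, _, hb4⟩ := hS
  have hc : Continuous φ := hs.continuous
  have m1 : Measurable fun x : E3 => ENNReal.ofReal
      ((V - (n : ℝ) ^ 2 / (x 0 ^ 2 + x 1 ^ 2)) * φ x ^ 2) := by
    have := hc.measurable
    fun_prop
  have m2 : Measurable fun x : E3 => ENNReal.ofReal (pd 2 φ x ^ 2) := by
    have := (EZL_pd_cont φ hs 2).measurable
    fun_prop
  rw [hF _ m1, hF _ m2]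
  have hne : ∀ᵐ s : ℝ, s ≠ 0 := by
    have : volume ({0} : Set ℝ) = 0 := measure_singleton 0
    exact compl_mem_ae_iff.mpr this
  apply lintegral_mono_ae
  filter_upwards [hne] with s hs0
  refine lintegral_mono fun t => ?_
  simp only [Matrix.cons_val_zero, Matrix.cons_val_one]
  have hp : 0 < s ^ 2 + t ^ 2 := by positivity
  set ρ : ℝ := Real.sqrt (s ^ 2 + t ^ 2) with hρ
  have hρ0 : 0 < ρ := Real.sqrt_pos.mpr hp
  have hρ2 : ρ ^ 2 = s ^ 2 + t ^ 2 := Real.sq_sqrt hp.le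
  have hrr : ∀ c : ℝ, rr ![s, t, c] = ρ := by
    intro c
    simp [rr, hρ]
  have hz : ∀ c : ℝ, (![s, t, c] : E3) ∉ Ω → φ ![s, t, c] = 0 := fun c hcc =>
    image_eq_zero_of_notMem_tsupport fun hmem => hcc (hsub hmem)
  rcases lt_or_ge ρ R with hρR | hρR
  · have hlen : 0 < zp ρ - zm ρ := by
      have h1 : 0 < 1 - ρ / R := by
        rw [sub_pos, div_lt_one hR]
        exact hρR
      have h2 : 0 < b - a := by linarith
      exact lt_of_lt_of_le (mul_pos h1 h2) (hb2 ρ hρ0 hρR).2.2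
    refine CLB_line hW (fun c => φ ![s, t, c]) (fun c => pd 2 φ ![s, t, c]) (zm ρ) (zp ρ) _
      (by linarith) (EZL_contDiff φ hs s t) (fun c => EZL_hasDerivAt φ hs s t c) ?_ ?_
    · intro c hcc
      apply hz
      intro hmem
      apply hcc
      have h3 := (hb4 ![s, t, c] (by rw [hrr]; exact hρ0) (by rw [hrr]; exact hρR)).mp hmem
      rw [hrr] at h3
      simpa using h3
    · have h4 := hV ρ hρ0 hρR
      rw [div_pow (n : ℝ) ρ 2, hρ2] at h4
      linarith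
  · have hzero : ∀ c : ℝ, φ ![s, t, c] = 0 := by
      intro c
      apply hz
      intro hmem
      have := (hb1 _ hmem).1
      rw [hrr] at this
      linarith
    simp [hzero]

/-- Item CLB. -/
theorem prfCLB (hF : FU3) (hW : WTI) (hANG : ANG) : CLB := by
  intro Ω R a b zm zp n V φ hS hn hV hφ
  obtain ⟨⟨h1, h2, h3⟩, -⟩ := id hφ
  rcases lt_or_ge V 0 with hV0 | hV0
  · have q1 : 0 ≤ Q2 φ := integral_nonneg fun x => sq_nonneg _
    have q2 : 0 ≤ DD (gr φ) := integral_nonneg fun x => Finset.sum_nonneg fun i _ => sq_nonneg _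
    exact le_trans (mul_nonpos_of_nonpos_of_nonneg hV0.le q1) q2
  apply VN2_fin φ h1 h2 _ hV0
  have k1 := hANG Ω n φ hn hφ
  have k2 := CLB_vert hF hW Ω R a b zm zp n V φ hS hV hφ.1
  have m1 : Measurable (fun x : E3 =>
      ENNReal.ofReal ((n : ℝ) ^ 2 / (x 0 ^ 2 + x 1 ^ 2) * φ x ^ 2)) := by
    have := h1.continuous.measurable
    fun_prop
  calc ∫⁻ x : E3, ENNReal.ofReal (V * φ x ^ 2)
      ≤ ∫⁻ x : E3, (ENNReal.ofReal ((n : ℝ) ^ 2 / (x 0 ^ 2 + x 1 ^ 2) * φ x ^ 2) +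
        ENNReal.ofReal ((V - (n : ℝ) ^ 2 / (x 0 ^ 2 + x 1 ^ 2)) * φ x ^ 2)) := by
        refine lintegral_mono fun x => ?_
        have e : V * φ x ^ 2 = (n : ℝ) ^ 2 / (x 0 ^ 2 + x 1 ^ 2) * φ x ^ 2 +
            (V - (n : ℝ) ^ 2 / (x 0 ^ 2 + x 1 ^ 2)) * φ x ^ 2 := by ring
        rw [e]
        exact ENNReal.ofReal_add_le
    _ = (∫⁻ x : E3, ENNReal.ofReal ((n : ℝ) ^ 2 / (x 0 ^ 2 + x 1 ^ 2) * φ x ^ 2)) +
        ∫⁻ x : E3, ENNReal.ofReal ((V - (n : ℝ) ^ 2 / (x 0 ^ 2 + x 1 ^ 2)) * φ x ^ 2) :=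
        lintegral_add_left m1 _
    _ ≤ (∫⁻ x : E3, ENNReal.ofReal ((n : ℝ) ^ 2 / (x 0 ^ 2 + x 1 ^ 2) * φ x ^ 2)) +
        ∫⁻ x, ENNReal.ofReal (pd 2 φ x ^ 2) := add_le_add le_rfl k2
    _ ≤ _ := k1

end Pool.Agent.Work.MP_d5b3be_an.BN
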