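import Mathlib

/-!
# The Brezis-Nirenberg problem in bodies of revolution: definitions

The domain is an open set `Ω` of `ℝ³ = (Fin 3 → ℝ)` (Lebesgue measure), `pd i` is the `i`-th partial
derivative of a smooth function. `H¹₀(Ω)` is the closure of the test functions: `HC (Test Ω) u g` says
that `u ∈ H¹₀(Ω)` with weak gradient `g = (g 0, g 1, g 2)`.
-/

set_option autoImplicit false

namespace Pool.Agent.Work.MP_d5b3be_an.BN

open MeasureTheory Filter Set
open scoped ENNReal Topology ContDiff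

/-- the space -/
abbrev E3 : Type := Fin 3 → ℝ

/-- the partial derivative with respect to the `i`-th variable -/
noncomputable def pd (i : Fin 3) (φ : E3 → ℝ) (x : E3) : ℝ := fderiv ℝ φ x (Pi.single i (1 : ℝ))

/-- the rotation by the angle `t` about the third axis -/
noncomputable def rot (t : ℝ) (x : E3) : E3 :=
  ![Real.cos t * x 0 - Real.sin t * x 1, Real.sin t * x 0 + Real.cos t * x 1, x 2]

/-- test functions: smooth functions with compact support in `Ω` -/
def Test (Ω : Set E3) (φ : E3 → ℝ) : Prop :=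
  ContDiff ℝ ((⊤ : ℕ∞) : WithTop ℕ∞) φ ∧ HasCompactSupport φ ∧ tsupport φ ⊆ Ω

/-- `(u, g)` is the limit in `L²` of the pairs `(φ, ∇φ)`, `φ` in the class `T` -/
def HC (T : (E3 → ℝ) → Prop) (u : E3 → ℝ) (g : Fin 3 → E3 → ℝ) : Prop :=
  MemLp u 2 volume ∧ (∀ i, MemLp (g i) 2 volume) ∧
    ∃ φ : ℕ → E3 → ℝ, (∀ k, T (φ k)) ∧
      Tendsto (fun k => eLpNorm (fun x => φ k x - u x) 2 volume) atTop (𝓝 0) ∧
      ∀ i, Tendsto (fun k => eLpNorm (fun x => pd i (φ k) x - g i x) 2 volume) atTop (𝓝 0)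

/-- `u` is a solution of the Brezis-Nirenberg problem: a nontrivial weak solution `u ∈ H¹₀(Ω)` of
`-Δu = u⁵ + lam u` (by Sobolev's inequality `u ∈ L⁶`; we record it to make the integrals meaningful) -/
def IsSol (Ω : Set E3) (lam : ℝ) (u : E3 → ℝ) : Prop :=
  ¬ (u =ᵐ[volume] fun _ => 0) ∧ MemLp u 6 volume ∧ ∃ g : Fin 3 → E3 → ℝ, HC (Test Ω) u g ∧
    ∀ φ : E3 → ℝ, Test Ω φ →
      ∫ x, ∑ i, g i x * pd i φ x = (∫ x, u x ^ 5 * φ x) + lam * ∫ x, u x * φ x

/-- the open ellipsoid of revolution with semiaxes `R, R, h` -/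
def ell (R h : ℝ) : Set E3 := {x | (x 0 ^ 2 + x 1 ^ 2) / R ^ 2 + x 2 ^ 2 / h ^ 2 < 1}

end Pool.Agent.Work.MP_d5b3be_an.BN
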