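import Pool.Agent.Work.MP_d5b3be_an.BN.Stmts2

/-!
# MP_d5b3be_an, block BN, item ELL: the open ellipsoid of revolution
-/

set_option autoImplicit false

namespace Pool.Agent.Work.MP_d5b3be_an.BN

open MeasureTheory Filter Set
open scoped ENNReal Topology ContDiff

theorem ELL_rot (R h t : ℝ) (x : E3) : rot t x ∈ ell R h ↔ x ∈ ell R h := by
  have h0 : rot t x 0 = Real.cos t * x 0 - Real.sin t * x 1 := rfl
  have h1 : rot t x 1 = Real.sin t * x 0 + Real.cos t * x 1 := rfl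
  have h2 : rot t x 2 = x 2 := rfl
  have h3 : rot t x 0 ^ 2 + rot t x 1 ^ 2 = x 0 ^ 2 + x 1 ^ 2 := by
    rw [h0, h1]
    have h4 := Real.sin_sq_add_cos_sq t
    linear_combination (x 0 ^ 2 + x 1 ^ 2) * h4
  show (rot t x 0 ^ 2 + rot t x 1 ^ 2) / R ^ 2 + rot t x 2 ^ 2 / h ^ 2 < 1 ↔
    (x 0 ^ 2 + x 1 ^ 2) / R ^ 2 + x 2 ^ 2 / h ^ 2 < 1
  rw [h3, h2]

theorem ELL_open (R h : ℝ) : IsOpen (ell R h) := by
  unfold ell
  refine isOpen_lt ?_ continuous_const
  fun_prop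

theorem ELL_bdd (R h : ℝ) (hR : 0 < R) (hh : 0 < h) : Bornology.IsBounded (ell R h) := by
  have hsub : ell R h ⊆ Metric.closedBall (0 : E3) (R + h) := by
    intro x hx
    have hx' : (x 0 ^ 2 + x 1 ^ 2) / R ^ 2 + x 2 ^ 2 / h ^ 2 < 1 := hx
    have hR2 : 0 < R ^ 2 := by positivity
    have hh2 : 0 < h ^ 2 := by positivity
    have a1 : 0 ≤ x 2 ^ 2 / h ^ 2 := by positivity
    have a2 : 0 ≤ (x 0 ^ 2 + x 1 ^ 2) / R ^ 2 := by positivity
    have b1 : x 0 ^ 2 + x 1 ^ 2 < R ^ 2 := by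
      have : (x 0 ^ 2 + x 1 ^ 2) / R ^ 2 < 1 := by linarith
      rwa [div_lt_one hR2] at this
    have b2 : x 2 ^ 2 < h ^ 2 := by
      have : x 2 ^ 2 / h ^ 2 < 1 := by linarith
      rwa [div_lt_one hh2] at this
    have c0 : |x 0| ≤ R := abs_le_of_sq_le_sq (by nlinarith [sq_nonneg (x 1)]) hR.le
    have c1 : |x 1| ≤ R := abs_le_of_sq_le_sq (by nlinarith [sq_nonneg (x 0)]) hR.le
    have c2 : |x 2| ≤ h := abs_le_of_sq_le_sq b2.le hh.le
    rw [mem_closedBall_zero_iff, pi_norm_le_iff_of_nonneg (by positivity)]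
    intro i
    rw [Real.norm_eq_abs]
    fin_cases i
    · show |x 0| ≤ R + h
      linarith
    · show |x 1| ≤ R + h
      linarith
    · show |x 2| ≤ R + h
      linarith
  exact Metric.isBounded_closedBall.subset hsub

theorem prfELL : ELL := by
  intro R h hR hh
  refine ⟨?_, ELL_open R h, ELL_bdd R h hR hh⟩
  intro t x
  exact (ELL_rot R h t x).mpr

end Pool.Agent.Work.MP_d5b3be_an.BN
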