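import Pool.Agent.Work.MP_d5b3be_an.BN.Stmts2

/-!
# Item HCL: the closure is linear
-/

set_option autoImplicit false

namespace Pool.Agent.Work.MP_d5b3be_an.BN

open MeasureTheory Filter Set
open scoped ENNReal Topology ContDiff

theorem HCL_cont (φ : E3 → ℝ) (hφ : ContDiff ℝ ((⊤ : ℕ∞) : WithTop ℕ∞) φ) (i : Fin 3) :
    Continuous (pd i φ) := by
  have h1 : Continuous (fderiv ℝ φ) := hφ.continuous_fderiv (by simp)
  exact h1.clm_apply continuous_const

theorem HCL_supp (φ : E3 → ℝ) (hc : HasCompactSupport φ) (i : Fin 3) :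
    HasCompactSupport (pd i φ) := by
  have h1 : HasCompactSupport (fderiv ℝ φ) := hc.fderiv ℝ
  refine h1.comp_left (g := fun L : E3 →L[ℝ] ℝ => L (Pi.single i (1 : ℝ))) ?_
  simp

theorem HCL_pd (φ ψ : E3 → ℝ) (a b : ℝ) (hφ : ContDiff ℝ ((⊤ : ℕ∞) : WithTop ℕ∞) φ)
    (hψ : ContDiff ℝ ((⊤ : ℕ∞) : WithTop ℕ∞) ψ) (i : Fin 3) (x : E3) :
    pd i (fun y => a * φ y + b * ψ y) x = a * pd i φ x + b * pd i ψ x := by
  have h1 : DifferentiableAt ℝ φ x := (hφ.differentiable (by simp)) x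
  have h2 : DifferentiableAt ℝ ψ x := (hψ.differentiable (by simp)) x
  unfold pd
  rw [fderiv_fun_add (h1.const_mul a) (h2.const_mul b), fderiv_const_mul h1, fderiv_const_mul h2]
  simp

theorem HCL_lin (f f' : ℕ → E3 → ℝ) (F F' : E3 → ℝ) (a b : ℝ)
    (h1 : ∀ k, AEStronglyMeasurable (f k) volume) (h1' : ∀ k, AEStronglyMeasurable (f' k) volume)
    (h2 : AEStronglyMeasurable F volume) (h2' : AEStronglyMeasurable F' volume)
    (h3 : Tendsto (fun k => eLpNorm (fun x => f k x - F x) 2 volume) atTop (𝓝 0))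
    (h3' : Tendsto (fun k => eLpNorm (fun x => f' k x - F' x) 2 volume) atTop (𝓝 0)) :
    Tendsto (fun k => eLpNorm (fun x => (a * f k x + b * f' k x) - (a * F x + b * F' x)) 2 volume)
      atTop (𝓝 0) := by
  have h4 : Tendsto (fun k => ‖a‖ₑ * eLpNorm (fun x => f k x - F x) 2 volume +
      ‖b‖ₑ * eLpNorm (fun x => f' k x - F' x) 2 volume) atTop (𝓝 0) := by
    have e1 := ENNReal.Tendsto.const_mul (a := ‖a‖ₑ) h3 (Or.inr enorm_ne_top)
    have e2 := ENNReal.Tendsto.const_mul (a := ‖b‖ₑ) h3' (Or.inr enorm_ne_top)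
    simpa using e1.add e2
  refine tendsto_of_tendsto_of_tendsto_of_le_of_le tendsto_const_nhds h4 (fun _ => zero_le)
    fun k => ?_
  have e1 : (fun x => (a * f k x + b * f' k x) - (a * F x + b * F' x)) =
      (fun x => a • (f k x - F x)) + fun x => b • (f' k x - F' x) := by
    funext x
    simp only [Pi.add_apply, smul_eq_mul]
    ring
  have m1 : AEStronglyMeasurable (fun x => f k x - F x) volume := (h1 k).sub h2
  have m2 : AEStronglyMeasurable (fun x => f' k x - F' x) volume := (h1' k).sub h2'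
  show eLpNorm (fun x => (a * f k x + b * f' k x) - (a * F x + b * F' x)) 2 volume ≤ _
  rw [e1]
  refine (eLpNorm_add_le (m1.const_smul a) (m2.const_smul b) (by norm_num)).trans ?_
  exact add_le_add (eLpNorm_const_smul_le (f := fun x => f k x - F x))
    (eLpNorm_const_smul_le (f := fun x => f' k x - F' x))

theorem HCL_zero (f : E3 → ℝ) :
    Tendsto (fun _ : ℕ => eLpNorm (fun x => f x - f x) 2 volume) atTop (𝓝 0) := by
  have e : (fun x => f x - f x) = fun _ => (0 : ℝ) := by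
    funext x
    ring
  have e0 : eLpNorm (fun x => f x - f x) 2 volume = 0 :=
    (congrArg (fun F : E3 → ℝ => eLpNorm F 2 volume) e).trans eLpNorm_zero'
  exact tendsto_const_nhds.congr fun _ => e0.symm

/-- item HCL -/
theorem prfHCL : HCL := by
  intro T hT
  obtain ⟨hT1, hT0, hT2⟩ := hT
  refine ⟨fun φ hφ => ?_, fun u v g f a b hu hv => ?_⟩
  · obtain ⟨hs, hc⟩ := hT1 φ hφ
    refine ⟨hs.continuous.memLp_of_hasCompactSupport hc, fun i =>
      (HCL_cont φ hs i).memLp_of_hasCompactSupport (HCL_supp φ hc i), fun _ => φ, fun _ => hφ,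
      ?_, fun i => ?_⟩
    · exact HCL_zero φ
    · exact HCL_zero (pd i φ)
  · obtain ⟨u1, u2, φ, u3, u4, u5⟩ := hu
    obtain ⟨v1, v2, ψ, v3, v4, v5⟩ := hv
    have cφ : ∀ k, ContDiff ℝ ((⊤ : ℕ∞) : WithTop ℕ∞) (φ k) := fun k => (hT1 _ (u3 k)).1
    have cψ : ∀ k, ContDiff ℝ ((⊤ : ℕ∞) : WithTop ℕ∞) (ψ k) := fun k => (hT1 _ (v3 k)).1
    refine ⟨(u1.const_mul a).add (v1.const_mul b), fun i =>
      ((u2 i).const_mul a).add ((v2 i).const_mul b), fun k x => a * φ k x + b * ψ k x,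
      fun k => hT2 _ _ a b (u3 k) (v3 k), ?_, fun i => ?_⟩
    · exact HCL_lin φ ψ u v a b (fun k => (cφ k).continuous.aestronglyMeasurable)
        (fun k => (cψ k).continuous.aestronglyMeasurable) u1.1 v1.1 u4 v4
    · have h := HCL_lin (fun k => pd i (φ k)) (fun k => pd i (ψ k)) (g i) (f i) a b
        (fun k => (HCL_cont _ (cφ k) i).aestronglyMeasurable)
        (fun k => (HCL_cont _ (cψ k) i).aestronglyMeasurable) (u2 i).1 (v2 i).1 (u5 i) (v5 i)
      refine h.congr fun k => ?_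
      have e : (fun x => (a * pd i (φ k) x + b * pd i (ψ k) x) - (a * g i x + b * f i x)) =
          fun x => pd i (fun y => a * φ k y + b * ψ k y) x - (a * g i x + b * f i x) := by
        funext x
        rw [HCL_pd _ _ a b (cφ k) (cψ k)]
      exact congrArg (fun F : E3 → ℝ => eLpNorm F 2 volume) e

end Pool.Agent.Work.MP_d5b3be_an.BN
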