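import Pool.Agent.Work.MP_d5b3be_an.BN.Stmts

/-!
# Item LWI of block BN: the Loomis-Whitney inequality
-/

set_option autoImplicit false

namespace Pool.Agent.Work.MP_d5b3be_an.BN

open MeasureTheory Filter Set
open scoped ENNReal Topology ContDiff

theorem LWI_half (x : ℝ≥0∞) : (x ^ (1 / 2 : ℝ)) ^ (2 : ℝ) = x := by
  rw [← ENNReal.rpow_mul]
  norm_num

/-- Cauchy-Schwarz -/
theorem LWI_cs {α : Type*} [MeasurableSpace α] (μ : Measure α) {f g : α → ℝ≥0∞} (hf : Measurable f)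
    (hg : Measurable g) : ∫⁻ a, f a ^ (1 / 2 : ℝ) * g a ^ (1 / 2 : ℝ) ∂μ ≤
      (∫⁻ a, f a ∂μ) ^ (1 / 2 : ℝ) * (∫⁻ a, g a ∂μ) ^ (1 / 2 : ℝ) := by
  have hpq : (2 : ℝ).HolderConjugate 2 := Real.HolderConjugate.two_two
  have h := ENNReal.lintegral_mul_le_Lp_mul_Lq μ hpq (hf.pow_const (1 / 2 : ℝ)).aemeasurable
    (hg.pow_const (1 / 2 : ℝ)).aemeasurable
  simp only [Pi.mul_apply, LWI_half] at h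
  exact h

theorem prfLWI : LWI := by
  intro μ ν ρ _ _ _ A B C hA hB hC
  have hA1 : ∀ z, Measurable fun t => A t z := fun z => hA.comp (measurable_id.prodMk measurable_const)
  have hB1 : ∀ z, Measurable fun r => B r z := fun z => hB.comp (measurable_id.prodMk measurable_const)
  have hC1 : ∀ t, Measurable fun r => C r t := fun t => hC.comp (measurable_id.prodMk measurable_const)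
  have ha : Measurable fun z => ∫⁻ t, A t z ∂ν := hA.lintegral_prod_left'
  have hb : Measurable fun z => ∫⁻ r, B r z ∂μ := hB.lintegral_prod_left'
  have hc : Measurable fun t => ∫⁻ r, C r t ∂μ := hC.lintegral_prod_left'
  have h1 : ∀ z t, ∫⁻ r, (A t z) ^ (1 / 2 : ℝ) * (B r z) ^ (1 / 2 : ℝ) * (C r t) ^ (1 / 2 : ℝ) ∂μ ≤
      (∫⁻ r, B r z ∂μ) ^ (1 / 2 : ℝ) * ((A t z) ^ (1 / 2 : ℝ) * (∫⁻ r, C r t ∂μ) ^ (1 / 2 : ℝ)) := by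
    intro z t
    simp only [mul_assoc]
    calc ∫⁻ r, (A t z) ^ (1 / 2 : ℝ) * ((B r z) ^ (1 / 2 : ℝ) * (C r t) ^ (1 / 2 : ℝ)) ∂μ
        = (A t z) ^ (1 / 2 : ℝ) * ∫⁻ r, (B r z) ^ (1 / 2 : ℝ) * (C r t) ^ (1 / 2 : ℝ) ∂μ :=
          lintegral_const_mul _ (((hB1 z).pow_const _).mul ((hC1 t).pow_const _))
      _ ≤ (A t z) ^ (1 / 2 : ℝ) * ((∫⁻ r, B r z ∂μ) ^ (1 / 2 : ℝ) * (∫⁻ r, C r t ∂μ) ^ (1 / 2 : ℝ)) :=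
          mul_le_mul' le_rfl (LWI_cs μ (hB1 z) (hC1 t))
      _ = _ := by ring
  have h2 : ∀ z, ∫⁻ t, ∫⁻ r, (A t z) ^ (1 / 2 : ℝ) * (B r z) ^ (1 / 2 : ℝ) * (C r t) ^ (1 / 2 : ℝ) ∂μ ∂ν ≤
      (∫⁻ t, ∫⁻ r, C r t ∂μ ∂ν) ^ (1 / 2 : ℝ) *
        ((∫⁻ t, A t z ∂ν) ^ (1 / 2 : ℝ) * (∫⁻ r, B r z ∂μ) ^ (1 / 2 : ℝ)) := by
    intro z
    calc ∫⁻ t, ∫⁻ r, (A t z) ^ (1 / 2 : ℝ) * (B r z) ^ (1 / 2 : ℝ) * (C r t) ^ (1 / 2 : ℝ) ∂μ ∂ν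
        ≤ ∫⁻ t, (∫⁻ r, B r z ∂μ) ^ (1 / 2 : ℝ) *
            ((A t z) ^ (1 / 2 : ℝ) * (∫⁻ r, C r t ∂μ) ^ (1 / 2 : ℝ)) ∂ν := lintegral_mono (h1 z)
      _ = (∫⁻ r, B r z ∂μ) ^ (1 / 2 : ℝ) *
            ∫⁻ t, (A t z) ^ (1 / 2 : ℝ) * (∫⁻ r, C r t ∂μ) ^ (1 / 2 : ℝ) ∂ν :=
          lintegral_const_mul _ (((hA1 z).pow_const _).mul (hc.pow_const _))
      _ ≤ (∫⁻ r, B r z ∂μ) ^ (1 / 2 : ℝ) *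
            ((∫⁻ t, A t z ∂ν) ^ (1 / 2 : ℝ) * (∫⁻ t, ∫⁻ r, C r t ∂μ ∂ν) ^ (1 / 2 : ℝ)) :=
          mul_le_mul' le_rfl (LWI_cs ν (hA1 z) hc)
      _ = _ := by ring
  calc ∫⁻ z, ∫⁻ t, ∫⁻ r, (A t z) ^ (1 / 2 : ℝ) * (B r z) ^ (1 / 2 : ℝ) * (C r t) ^ (1 / 2 : ℝ) ∂μ ∂ν ∂ρ
      ≤ ∫⁻ z, (∫⁻ t, ∫⁻ r, C r t ∂μ ∂ν) ^ (1 / 2 : ℝ) *
          ((∫⁻ t, A t z ∂ν) ^ (1 / 2 : ℝ) * (∫⁻ r, B r z ∂μ) ^ (1 / 2 : ℝ)) ∂ρ := lintegral_mono h2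
    _ = (∫⁻ t, ∫⁻ r, C r t ∂μ ∂ν) ^ (1 / 2 : ℝ) *
          ∫⁻ z, (∫⁻ t, A t z ∂ν) ^ (1 / 2 : ℝ) * (∫⁻ r, B r z ∂μ) ^ (1 / 2 : ℝ) ∂ρ :=
        lintegral_const_mul _ ((ha.pow_const _).mul (hb.pow_const _))
    _ ≤ (∫⁻ t, ∫⁻ r, C r t ∂μ ∂ν) ^ (1 / 2 : ℝ) *
          ((∫⁻ z, ∫⁻ t, A t z ∂ν ∂ρ) ^ (1 / 2 : ℝ) * (∫⁻ z, ∫⁻ r, B r z ∂μ ∂ρ) ^ (1 / 2 : ℝ)) :=
        mul_le_mul' le_rfl (LWI_cs ρ ha hb)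
    _ = _ := by ring

end Pool.Agent.Work.MP_d5b3be_an.BN
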