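import Pool.Agent.Work.MP_d5b3be_an.BN.Stmts2

/-!
# Block BN, item PRL: antisymmetric functions of `H¹₀(Ω)` are in the symmetric class
-/

set_option autoImplicit false

namespace Pool.Agent.Work.MP_d5b3be_an.BN

open MeasureTheory Filter Set
open scoped ENNReal Topology ContDiff

theorem PRL_comb {ι : Type} (s : Finset ι) (c : ι → ℝ) (T : ι → E3 → E3)
    (hT : ∀ i, MeasurePreserving (T i) volume volume) (f : ι → ℕ → E3 → ℝ) (h : ι → E3 → ℝ)
    (hf : ∀ i n, AEStronglyMeasurable (f i n) volume)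
    (hh : ∀ i, AEStronglyMeasurable (h i) volume) (hc : ∀ i, Cv 2 (f i) (h i)) :
    Cv 2 (fun n x => ∑ i ∈ s, c i * f i n (T i x)) (fun x => ∑ i ∈ s, c i * h i (T i x)) := by
  unfold Cv at hc ⊢
  have hm : ∀ i n, AEStronglyMeasurable (fun x => f i n x - h i x) volume :=
    fun i n => (hf i n).sub (hh i)
  have hm2 : ∀ i n, AEStronglyMeasurable (fun x => f i n (T i x) - h i (T i x)) volume :=
    fun i n => (hm i n).comp_measurePreserving (hT i)
  have hle : ∀ n, eLpNorm (fun x => (∑ i ∈ s, c i * f i n (T i x)) -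
      ∑ i ∈ s, c i * h i (T i x)) 2 volume ≤
      ∑ i ∈ s, ‖c i‖ₑ * eLpNorm (fun x => f i n x - h i x) 2 volume := by
    intro n
    have h1 : (fun x => (∑ i ∈ s, c i * f i n (T i x)) - ∑ i ∈ s, c i * h i (T i x)) =
        ∑ i ∈ s, (fun x => c i * (f i n (T i x) - h i (T i x))) := by
      funext x
      rw [Finset.sum_apply, ← Finset.sum_sub_distrib]
      apply Finset.sum_congr rfl
      intro i _
      ring
    rw [h1]
    refine le_trans (eLpNorm_sum_le (fun i _ => ?_) (by norm_num)) ?_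
    · exact (hm2 i n).const_mul (c i)
    · apply Finset.sum_le_sum
      intro i _
      have h2 : (fun x => c i * (f i n (T i x) - h i (T i x))) =
          c i • (fun x => f i n (T i x) - h i (T i x)) := rfl
      rw [h2, eLpNorm_const_smul]
      apply le_of_eq
      congr 1
      have h3 : (fun x => f i n (T i x) - h i (T i x)) = (fun x => f i n x - h i x) ∘ T i := rfl
      rw [h3]
      exact eLpNorm_comp_measurePreserving (hm i n) (hT i)
  have hlim : Tendsto (fun n => ∑ i ∈ s, ‖c i‖ₑ * eLpNorm (fun x => f i n x - h i x) 2 volume)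
      atTop (𝓝 (∑ i ∈ s, ‖c i‖ₑ * 0)) := by
    apply tendsto_finset_sum
    intro i _
    exact ENNReal.Tendsto.const_mul (hc i) (Or.inr (by simp))
  simp only [mul_zero, Finset.sum_const_zero] at hlim
  exact tendsto_of_tendsto_of_tendsto_of_le_of_le tendsto_const_nhds hlim
    (fun n => by simp) hle

theorem PRL_anti (hROT : ROT) (L : ℕ) (u : E3 → ℝ) (hA : Anti L u) :
    ∀ k : ℕ, (fun x => u (rot (k * (Real.pi / L)) x)) =ᵐ[volume] fun x => (-1 : ℝ) ^ k * u x := by
  obtain ⟨r0, radd, -, -, -, -, rmp, -, -⟩ := hROT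
  intro k
  induction k with
  | zero =>
    filter_upwards with x
    simp [r0]
  | succ k ih =>
    have h1 := (rmp (k * (Real.pi / L))).quasiMeasurePreserving.ae_eq_comp hA
    filter_upwards [ih, h1] with x hx hx1
    have h2 : rot ((k + 1 : ℕ) * (Real.pi / L)) x =
        rot (Real.pi / L) (rot (k * (Real.pi / L)) x) := by
      rw [radd]
      congr 1
      push_cast
      ring
    simp only [Function.comp] at hx1
    rw [h2, hx1, hx, pow_succ]
    ring

theorem PRL_pd (hROT : ROT) (hROG : ROG) (L : ℕ) (φ : E3 → ℝ)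
    (hφ : ContDiff ℝ ((⊤ : ℕ∞) : WithTop ℕ∞) φ) (i : Fin 3) (x : E3) :
    pd i (Pn L φ) x = ∑ q ∈ Finset.range (2 * L) ×ˢ (Finset.univ : Finset (Fin 3)),
      ((1 / (2 * L : ℝ)) * (-1 : ℝ) ^ q.1 * Rm (q.1 * (Real.pi / L)) q.2 i) *
        pd q.2 φ (rot (q.1 * (Real.pi / L)) x) := by
  obtain ⟨-, -, -, -, -, rcd, -, -, -⟩ := hROT
  have hd : ∀ k : ℕ, HasFDerivAt (fun y => φ (rot (k * (Real.pi / L)) y))
      (fderiv ℝ (fun y => φ (rot (k * (Real.pi / L)) y)) x) x := by
    intro k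
    have h1 : ContDiff ℝ ((⊤ : ℕ∞) : WithTop ℕ∞) (fun y => φ (rot (k * (Real.pi / L)) y)) :=
      hφ.comp (rcd _)
    exact (h1.differentiable (by simp) x).hasFDerivAt
  have h2 : HasFDerivAt (Pn L φ) ((1 / (2 * L : ℝ)) • ∑ k ∈ Finset.range (2 * L),
      ((-1 : ℝ) ^ k) • fderiv ℝ (fun y => φ (rot (k * (Real.pi / L)) y)) x) x := by
    have h3 : HasFDerivAt (fun y => ∑ k ∈ Finset.range (2 * L),
        (-1 : ℝ) ^ k * φ (rot (k * (Real.pi / L)) y)) (∑ k ∈ Finset.range (2 * L),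
      ((-1 : ℝ) ^ k) • fderiv ℝ (fun y => φ (rot (k * (Real.pi / L)) y)) x) x := by
      apply HasFDerivAt.fun_sum
      intro k _
      exact (hd k).const_mul _
    exact h3.const_mul _
  unfold pd
  rw [h2.fderiv, Finset.sum_product]
  simp only [_root_.smul_apply, _root_.sum_apply, smul_eq_mul]
  rw [Finset.mul_sum]
  apply Finset.sum_congr rfl
  intro k _
  have h4 := (hROG (k * (Real.pi / L)) φ φ hφ hφ x).1 i
  unfold pd at h4
  rw [h4, Finset.mul_sum, Finset.mul_sum]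
  apply Finset.sum_congr rfl
  intro j _
  ring

theorem prfPRL (hROT : ROT) (hROG : ROG) (hPRM : PRM) (hUNI : UNI) : PRL := by
  intro Ω L u g hRI hL hHC hA
  obtain ⟨hu, hg, φ, hφ, hφu, hφg⟩ := hHC
  obtain ⟨r0, radd, r2p, rsq, rmt, rcd, rmp, rme, rcyl⟩ := id hROT
  have hL0 : (2 * (L : ℝ)) ≠ 0 := by
    have : (1 : ℝ) ≤ L := by exact_mod_cast hL
    positivity
  have hcont : ∀ n, Continuous (φ n) := fun n => (hφ n).1.continuous
  have hcontd : ∀ n i, Continuous (pd i (φ n)) := by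
    intro n i
    have h1 : Continuous (fderiv ℝ (φ n)) := (hφ n).1.continuous_fderiv (by simp)
    exact h1.clm_apply continuous_const
  -- the gradient of the limit
  obtain ⟨g', hg'⟩ : ∃ g' : Fin 3 → E3 → ℝ, g' = fun i x =>
      ∑ q ∈ Finset.range (2 * L) ×ˢ (Finset.univ : Finset (Fin 3)),
      ((1 / (2 * L : ℝ)) * (-1 : ℝ) ^ q.1 * Rm (q.1 * (Real.pi / L)) q.2 i) *
        g q.2 (rot (q.1 * (Real.pi / L)) x) := ⟨_, rfl⟩
  have hg'm : ∀ i, MemLp (g' i) 2 volume := by
    intro i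
    rw [hg']
    apply memLp_finsetSum
    intro q _
    exact ((hg q.2).comp_measurePreserving (rmp _)).const_mul _
  have hψg : ∀ i, Cv 2 (fun n => pd i (Pn L (φ n))) (g' i) := by
    intro i
    have h1 := PRL_comb (Finset.range (2 * L) ×ˢ (Finset.univ : Finset (Fin 3)))
      (fun q => (1 / (2 * L : ℝ)) * (-1 : ℝ) ^ q.1 * Rm (q.1 * (Real.pi / L)) q.2 i)
      (fun q => rot (q.1 * (Real.pi / L))) (fun q => rmp _)
      (fun q n => pd q.2 (φ n)) (fun q => g q.2)
      (fun q n => (hcontd n q.2).aestronglyMeasurable) (fun q => (hg q.2).1)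
      (fun q => hφg q.2)
    have h2 : (fun n => pd i (Pn L (φ n))) = fun n x =>
        ∑ q ∈ Finset.range (2 * L) ×ˢ (Finset.univ : Finset (Fin 3)),
        ((1 / (2 * L : ℝ)) * (-1 : ℝ) ^ q.1 * Rm (q.1 * (Real.pi / L)) q.2 i) *
          pd q.2 (φ n) (rot (q.1 * (Real.pi / L)) x) := by
      funext n x
      exact PRL_pd hROT hROG L (φ n) (hφ n).1 i x
    rw [h2, hg']
    exact h1
  -- the function itself
  have hψu : Cv 2 (fun n => Pn L (φ n)) u := by
    have h1 := PRL_comb (Finset.range (2 * L))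
      (fun k => (1 / (2 * L : ℝ)) * (-1 : ℝ) ^ k)
      (fun k => rot (k * (Real.pi / L))) (fun k => rmp _)
      (fun _ n => φ n) (fun _ => u)
      (fun _ n => (hcont n).aestronglyMeasurable) (fun _ => hu.1)
      (fun _ => hφu)
    have h3 : (fun x => ∑ k ∈ Finset.range (2 * L), ((1 / (2 * L : ℝ)) * (-1 : ℝ) ^ k) *
        u (rot (k * (Real.pi / L)) x)) =ᵐ[volume] u := by
      have h4 : ∀ᵐ x ∂(volume : Measure E3), ∀ k : ℕ,
          u (rot (k * (Real.pi / L)) x) = (-1 : ℝ) ^ k * u x :=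
        ae_all_iff.2 fun k => PRL_anti hROT L u hA k
      filter_upwards [h4] with x hx
      have h5 : ∀ k ∈ Finset.range (2 * L), ((1 / (2 * L : ℝ)) * (-1 : ℝ) ^ k) *
          u (rot (k * (Real.pi / L)) x) = (1 / (2 * L : ℝ)) * u x := by
        intro k _
        rw [hx k]
        have h6 : (-1 : ℝ) ^ k * (-1 : ℝ) ^ k = 1 := by
          rw [← mul_pow]; norm_num
        calc (1 / (2 * L : ℝ)) * (-1 : ℝ) ^ k * ((-1 : ℝ) ^ k * u x)
            = (1 / (2 * L : ℝ)) * ((-1 : ℝ) ^ k * (-1 : ℝ) ^ k) * u x := by ring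
          _ = _ := by rw [h6, mul_one]
      rw [Finset.sum_congr rfl h5, Finset.sum_const, Finset.card_range, nsmul_eq_mul]
      push_cast
      field_simp
    unfold Cv at h1 ⊢
    refine Tendsto.congr ?_ h1
    intro n
    apply eLpNorm_congr_ae
    filter_upwards [h3] with x hx
    rw [hx]
    congr 1
    unfold Pn
    rw [Finset.mul_sum]
    apply Finset.sum_congr rfl
    intro k _
    ring
  have hT : ∀ n, TestN Ω L (Pn L (φ n)) := fun n => hPRM Ω L (φ n) hRI hL (hφ n)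
  have hHC' : HC (Test Ω) u g' :=
    ⟨hu, hg'm, fun n => Pn L (φ n), fun n => (hT n).1, hψu, hψg⟩
  have huni := hUNI Ω u g g' ⟨hu, hg, φ, hφ, hφu, hφg⟩ hHC'
  refine ⟨hu, hg, fun n => Pn L (φ n), hT, hψu, ?_⟩
  intro i
  refine Tendsto.congr ?_ (hψg i)
  intro n
  apply eLpNorm_congr_ae
  filter_upwards [huni i] with x hx
  rw [hx]

end Pool.Agent.Work.MP_d5b3be_an.BN
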