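import Pool.Agent.Work.MP_d5b3be_an.BN.Defs

/-!
# Block BN: infinitely many Brezis-Nirenberg solutions in bodies of revolution (statements)

THEOREM. (1) `Ω ⊂ ℝ³` bounded, open, nonempty, invariant under the rotations about an axis: for all large
`lam` the Brezis-Nirenberg problem has infinitely many solutions, in at least `c sqrt(lam)` infinite
families which are not related by rotations about the axis and sign. (2) For `Ω` between the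
ellipsoids `ell R h` and `ell ((1+κ)R) ((1+κ)h)`, `h ≤ κ R`: infinitely many solutions for EVERY
`lam ≥ (1-κ)(π/2h)²`.

PLAN. `TestN Ω n`: test functions with `φ(rot(π/n) x) = -φ(x)`. (S) `n² ∫φ⁶ ≤ 64 (∫|∇φ|²)³` (SOB),
(V) `V ∫φ² ≤ ∫|∇φ|²` (VN1, VN2), (B) a test function with `64 (∫|∇φ|² - lam ∫φ²)³ < n² ∫φ⁶` (TFC). Then
(EXI) minimizing sequences converge and give a solution in the class, which is a solution (SYM); its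
rotations by `π/(n 2^j)` are different (DIS), the solutions of different `n` are not related (INE).

`pd i`: partial derivatives. `HC T u g`: `(u, g)` is the `L²` limit of the pairs `(φ, ∇φ)`, `φ ∈ T`.
Points of `ℝ³` in cylindrical coordinates: `cyl r t z = (r cos t, r sin t, z)`.
Every item may assume the items it quotes, as hypotheses (`theorem prfWAP (h : WTI) : WAP`). Please
put the name of your item in the names of all auxiliary lemmas (they are all in the same namespace).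
Useful library (all on `Fin d → ℝ`, `L²` functions, weak gradients `WP`, Rellich, closedness, squared
norms `nsq`): `Pool/Agent/Work/MP_2cde6c_an/{Defs,Nash,Rellich,Form}.lean`.
-/

set_option autoImplicit false

namespace Pool.Agent.Work.MP_d5b3be_an.BN

open MeasureTheory Filter Set
open scoped ENNReal Topology ContDiff

/-! ## Definitions -/

/-- test functions which change sign under the rotation by `π/n` -/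
def TestN (Ω : Set E3) (n : ℕ) (φ : E3 → ℝ) : Prop :=
  Test Ω φ ∧ ∀ x, φ (rot (Real.pi / n) x) = -φ x

/-- cylindrical coordinates -/
noncomputable def cyl (r t z : ℝ) : E3 := ![r * Real.cos t, r * Real.sin t, z]

/-- `∫ u⁶` -/
noncomputable def N6 (u : E3 → ℝ) : ℝ := ∫ x, u x ^ 6

/-- `∫ u²` -/
noncomputable def Q2 (u : E3 → ℝ) : ℝ := ∫ x, u x ^ 2

/-- `∫ |g|²` -/
noncomputable def DD (g : Fin 3 → E3 → ℝ) : ℝ := ∫ x, ∑ i, g i x ^ 2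

/-- the gradient of a smooth function -/
noncomputable def gr (φ : E3 → ℝ) : Fin 3 → E3 → ℝ := fun i => pd i φ

/-- the set is invariant under the rotations about the axis -/
def RI (Ω : Set E3) : Prop := ∀ (t : ℝ) (x : E3), x ∈ Ω → rot t x ∈ Ω

/-- `4 |φ|³ |∇φ|` -/
noncomputable def KK (φ : E3 → ℝ) (x : E3) : ℝ≥0∞ :=
  ENNReal.ofReal (4 * |φ x| ^ 3 * Real.sqrt (∑ i, pd i φ x ^ 2))

/-- the matrix of `rot t`: `rot t x j = ∑ i, Rm t j i * x i` -/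
noncomputable def Rm (t : ℝ) : Fin 3 → Fin 3 → ℝ :=
  ![![Real.cos t, -Real.sin t, 0], ![Real.sin t, Real.cos t, 0], ![0, 0, 1]]

/-- weak convergence in `L²` -/
def Wk (f : ℕ → E3 → ℝ) (g : E3 → ℝ) : Prop :=
  ∀ h : E3 → ℝ, MemLp h 2 volume → Tendsto (fun k => ∫ x, f k x * h x) atTop (𝓝 (∫ x, g x * h x))

/-- a linear class of smooth functions with compact support -/
def Cl (T : (E3 → ℝ) → Prop) : Prop :=
  (∀ φ, T φ → ContDiff ℝ ((⊤ : ℕ∞) : WithTop ℕ∞) φ ∧ HasCompactSupport φ) ∧ T (fun _ => 0) ∧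
    ∀ (φ ψ : E3 → ℝ) (a b : ℝ), T φ → T ψ → T (fun x => a * φ x + b * ψ x)

/-- the symmetrization of a function for the class `TestN Ω n` -/
noncomputable def Pn (n : ℕ) (φ : E3 → ℝ) (x : E3) : ℝ :=
  (1 / (2 * n : ℝ)) * ∑ k ∈ Finset.range (2 * n), (-1 : ℝ) ^ k * φ (rot (k * (Real.pi / n)) x)

/-- the test function of the box `|ρ - ρ0| ≤ δ`, `|z - z0| ≤ η`: in cylindrical coordinates
`ζ((r - ρ0)/δ) ζ((z - z0)/η) sin(n t)` -/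
noncomputable def bxf (n : ℕ) (ζ : ℝ → ℝ) (ρ0 z0 δ η : ℝ) (x : E3) : ℝ :=
  ζ ((Real.sqrt (x 0 ^ 2 + x 1 ^ 2) - ρ0) / δ) * ζ ((x 2 - z0) / η) *
    ((((x 0 : ℂ) + (x 1 : ℂ) * Complex.I) ^ n).im / Real.sqrt (x 0 ^ 2 + x 1 ^ 2) ^ n)

/-- the closed box in the meridian half plane, as a subset of `ℝ³` -/
def boxS (ρ0 z0 δ η : ℝ) : Set E3 := {x | |Real.sqrt (x 0 ^ 2 + x 1 ^ 2) - ρ0| ≤ δ ∧ |x 2 - z0| ≤ η}

/-- a bump on `(-1, 1)` -/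
def Bmp (ζ : ℝ → ℝ) : Prop :=
  ContDiff ℝ ((⊤ : ℕ∞) : WithTop ℕ∞) ζ ∧ tsupport ζ ⊆ Ioo (-1) 1 ∧ (∀ x, ζ (-x) = ζ x)

/-- the energy of the box test function for the angular frequency `n` -/
noncomputable def Eb (n : ℕ) (ρ0 δ η : ℝ) : ℝ :=
  (Real.pi / (2 * δ)) ^ 2 + (Real.pi / (2 * η)) ^ 2 + (n : ℝ) ^ 2 / (ρ0 - δ) ^ 2

/-- the box condition -/
def BC (n : ℕ) (lam ρ0 δ η : ℝ) : Prop :=
  0 < δ ∧ δ < ρ0 ∧ 0 < η ∧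
    4096 * Real.pi ^ 2 * (Eb n ρ0 δ η - lam) ^ 3 * (ρ0 * δ * η) ^ 2 < (n : ℝ) ^ 2

/-- `u` changes sign under the rotation by `π/n` -/
def Anti (n : ℕ) (u : E3 → ℝ) : Prop := (fun x => u (rot (Real.pi / n) x)) =ᵐ[volume] fun x => -u x

/-! ## Part A: one variable, rotations, coordinates -/

/-- WTI (EASY-MEDIUM): Wirtinger's inequality. For `0 < w < π/(b - a)`, `c = (a+b)/2`,
`T(x) = tan(w (x - c))` is smooth on `[a, b]` (`|w (x - c)| < π/2`), `T' = w (1 + T²)`, and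
`f'² - w² f² = (f' + w T f)² - (w T f²)'`. Integrate: the boundary terms vanish, so
`∫ f'² ≥ w² ∫ f²`. Let `w → π/(b - a)` (`le_of_forall_lt`-type argument, `ge_of_tendsto`). -/
def WTI : Prop :=
  ∀ (f : ℝ → ℝ) (a b : ℝ), a < b → ContDiff ℝ 1 f → f a = 0 → f b = 0 →
    (Real.pi / (b - a)) ^ 2 * ∫ x in a..b, f x ^ 2 ≤ ∫ x in a..b, deriv f x ^ 2

/-- WAP (EASY-MEDIUM, from WTI): `f(t + π/n) = -f(t)`. There is `t₀ ∈ [0, π/n]` with `f(t₀) = 0`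
(`f(π/n) = -f(0)`, intermediate value theorem); then `f(t₀ + k π/n) = 0` for all `k`. WTI on
`[t₀ + kπ/n, t₀ + (k+1)π/n]`, `k < 2n`, has the constant `n²`; sum (`intervalIntegral.sum_integral_adjacent_intervals`):
the inequality on `[t₀, t₀ + 2π]`. `f²` and `f'²` have the period `2π`
(`Function.Periodic.intervalIntegral_add_eq`). -/
def WAP : Prop :=
  ∀ (f : ℝ → ℝ) (n : ℕ), 1 ≤ n → ContDiff ℝ 1 f → (∀ t, f (t + Real.pi / n) = -f t) →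
    (n : ℝ) ^ 2 * ∫ t in (-Real.pi)..Real.pi, f t ^ 2 ≤ ∫ t in (-Real.pi)..Real.pi, deriv f t ^ 2

/-- ZBD (EASY-MEDIUM): the sup bound. `F = f⁴`, `|F'| = 4 |f|³ |f'|` has the period `π/n`. Given `t`,
`f` has a zero `t₀ ∈ [t - π/n, t]` (`f(t) = -f(t - π/n)`), and `f(t₀ + π/n) = 0`. So
`F(t) ≤ ∫_{t₀}^t |F'|` and `F(t) ≤ ∫_t^{t₀+π/n} |F'|`; add: `2 F(t) ≤ ∫_{t₀}^{t₀+π/n} |F'|`, which is
`(1/(2n)) ∫_{-π}^π |F'|` (periodicity, `2n` periods). -/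
def ZBD : Prop :=
  ∀ (f : ℝ → ℝ) (n : ℕ), 1 ≤ n → ContDiff ℝ 1 f → (∀ t, f (t + Real.pi / n) = -f t) →
    ∀ t, 4 * (n : ℝ) * f t ^ 4 ≤ ∫ s in (-Real.pi)..Real.pi, 4 * |f s| ^ 3 * |deriv f s|

/-- ROT (EASY-MEDIUM): the rotations. Angle addition; `rot t` is linear with determinant one
(`Real.map_linearMap_volume_pi_eq_smul_volume_pi` or `LinearMap.toMatrix'`), a homeomorphism with
inverse `rot (-t)`. -/
def ROT : Prop :=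
  (∀ x, rot 0 x = x) ∧ (∀ s t x, rot s (rot t x) = rot (s + t) x) ∧
    (∀ x, rot (2 * Real.pi) x = x) ∧
    (∀ t x, rot t x 0 ^ 2 + rot t x 1 ^ 2 = x 0 ^ 2 + x 1 ^ 2 ∧ rot t x 2 = x 2) ∧
    (∀ t x j, rot t x j = ∑ i, Rm t j i * x i) ∧
    (∀ t, ContDiff ℝ ((⊤ : ℕ∞) : WithTop ℕ∞) (rot t)) ∧
    (∀ t, MeasurePreserving (rot t) volume volume) ∧ (∀ t, MeasurableEmbedding (rot t)) ∧
    ∀ s r t z, rot s (cyl r t z) = cyl r (t + s) z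

/-- ROG (EASY-MEDIUM, from ROT): the gradient of `φ ∘ rot t` (chain rule; `rot t` is its own
derivative as a linear map); the matrix `Rm t` is orthogonal. -/
def ROG : Prop :=
  ∀ (t : ℝ) (φ ψ : E3 → ℝ), ContDiff ℝ ((⊤ : ℕ∞) : WithTop ℕ∞) φ →
    ContDiff ℝ ((⊤ : ℕ∞) : WithTop ℕ∞) ψ → ∀ x,
    (∀ i, pd i (fun y => φ (rot t y)) x = ∑ j, Rm t j i * pd j φ (rot t x)) ∧
    ∑ i, pd i (fun y => φ (rot t y)) x * pd i (fun y => ψ (rot t y)) x =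
      ∑ i, pd i φ (rot t x) * pd i ψ (rot t x)

/-- TRO (EASY, from ROT): the classes are invariant under rotations (`rot t` is a homeomorphism with
inverse `rot (-t)`; rotations commute). -/
def TRO : Prop :=
  ∀ (Ω : Set E3) (n : ℕ) (t : ℝ) (φ : E3 → ℝ), RI Ω →
    (Test Ω φ → Test Ω (fun x => φ (rot t x))) ∧
    (TestN Ω n φ → TestN Ω n (fun x => φ (rot t x)))

/-- FU3 (EASY): Tonelli in `ℝ³` (`MeasureTheory.volume_preserving_piFinSuccAbove`,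
`volume_preserving_finTwoArrow`, `lintegral_prod`). -/
def FU3 : Prop :=
  ∀ f : E3 → ℝ≥0∞, Measurable f → ∫⁻ x, f x = ∫⁻ a : ℝ, ∫⁻ b : ℝ, ∫⁻ c : ℝ, f ![a, b, c]

/-- CYI (EASY-MEDIUM, from FU3): cylindrical coordinates. FU3, Tonelli, and
`lintegral_comp_polarCoord_symm` for fixed `z`. -/
def CYI : Prop :=
  ∀ f : E3 → ℝ≥0∞, Measurable f →
    ∫⁻ x, f x = ∫⁻ z : ℝ, ∫⁻ t in Ioo (-Real.pi) Real.pi, ∫⁻ r in Ioi (0 : ℝ),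
      ENNReal.ofReal r * f (cyl r t z)

/-- CYD (EASY-MEDIUM): derivatives in cylindrical coordinates (chain rule; the three curves are
affine or trigonometric), and smoothness in each variable. -/
def CYD : Prop :=
  ∀ φ : E3 → ℝ, ContDiff ℝ ((⊤ : ℕ∞) : WithTop ℕ∞) φ → ∀ r t z : ℝ,
    HasDerivAt (fun s => φ (cyl s t z))
      (Real.cos t * pd 0 φ (cyl r t z) + Real.sin t * pd 1 φ (cyl r t z)) r ∧
    HasDerivAt (fun s => φ (cyl r s z))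
      (r * (-Real.sin t * pd 0 φ (cyl r t z) + Real.cos t * pd 1 φ (cyl r t z))) t ∧
    HasDerivAt (fun s => φ (cyl r t s)) (pd 2 φ (cyl r t z)) z ∧
    ContDiff ℝ ((⊤ : ℕ∞) : WithTop ℕ∞) (fun s => φ (cyl s t z)) ∧
    ContDiff ℝ ((⊤ : ℕ∞) : WithTop ℕ∞) (fun s => φ (cyl r s z)) ∧
    ContDiff ℝ ((⊤ : ℕ∞) : WithTop ℕ∞) (fun s => φ (cyl r t s))

/-! ## Part B: the Sobolev inequality of the class -/

/-- LWI (EASY-MEDIUM): Loomis-Whitney by three Cauchy-Schwarz inequalities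
(`ENNReal.lintegral_mul_le_Lp_mul_Lq` with `p = q = 2`): in `r` for fixed `t, z`:
`∫ B^(1/2) C^(1/2) ≤ b(z)^(1/2) c(t)^(1/2)`, `b(z) = ∫ B(r,z) dr`, `c(t) = ∫ C(r,t) dr`; then in `t`; then in
`z`. -/
def LWI : Prop :=
  ∀ (μ ν ρ : Measure ℝ) [SFinite μ] [SFinite ν] [SFinite ρ] (A B C : ℝ → ℝ → ℝ≥0∞),
    Measurable (Function.uncurry A) → Measurable (Function.uncurry B) →
    Measurable (Function.uncurry C) →
    ∫⁻ z, ∫⁻ t, ∫⁻ r, (A t z) ^ (1 / 2 : ℝ) * (B r z) ^ (1 / 2 : ℝ) * (C r t) ^ (1 / 2 : ℝ) ∂μ ∂ν ∂ρ ≤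
      (∫⁻ z, ∫⁻ t, A t z ∂ν ∂ρ) ^ (1 / 2 : ℝ) * (∫⁻ z, ∫⁻ r, B r z ∂μ ∂ρ) ^ (1 / 2 : ℝ) *
        (∫⁻ t, ∫⁻ r, C r t ∂μ ∂ν) ^ (1 / 2 : ℝ)

/-- GNA (EASY-MEDIUM, from CYD): the radial bound. `g(s) = φ(cyl s t z)⁴` is `C¹` and vanishes for
large `s`; `r g(r) = -r ∫_r^∞ g' ≤ ∫_r^∞ s |g'(s)| ds`, and `|g'| ≤ 4 |φ|³ |∇φ|`
(`|cos t a + sin t b| ≤ sqrt(a² + b²)`). -/
def GNA : Prop :=
  ∀ φ : E3 → ℝ, ContDiff ℝ ((⊤ : ℕ∞) : WithTop ℕ∞) φ → HasCompactSupport φ → ∀ r t z : ℝ, 0 < r →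
    ENNReal.ofReal (r * φ (cyl r t z) ^ 4) ≤
      ∫⁻ s in Ioi (0 : ℝ), ENNReal.ofReal s * KK φ (cyl s t z)

/-- GNB (EASY-MEDIUM, from ROT, CYD, ZBD): the angular bound: ZBD for `f(t) = φ(cyl r t z)`
(`φ(cyl r (t + π/n) z) = φ(rot(π/n)(cyl r t z)) = -φ(cyl r t z)`), `|f'| ≤ r |∇φ|`. -/
def GNB : Prop :=
  ∀ (Ω : Set E3) (n : ℕ) (φ : E3 → ℝ), 1 ≤ n → TestN Ω n φ → ∀ r t z : ℝ, 0 < r →
    4 * (n : ℝ≥0∞) * ENNReal.ofReal (φ (cyl r t z) ^ 4) ≤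
      ∫⁻ s in Ioo (-Real.pi) Real.pi, ENNReal.ofReal r * KK φ (cyl r s z)

/-- GNC (EASY-MEDIUM, from CYD): the vertical bound: `g(s) = φ(cyl r t s)⁴` has compact support, so
`2 g(z) ≤ ∫ |g'|`, `|g'| ≤ 4 |φ|³ |∇φ|`. -/
def GNC : Prop :=
  ∀ φ : E3 → ℝ, ContDiff ℝ ((⊤ : ℕ∞) : WithTop ℕ∞) φ → HasCompactSupport φ → ∀ r t z : ℝ,
    2 * ENNReal.ofReal (φ (cyl r t z) ^ 4) ≤ ∫⁻ s : ℝ, KK φ (cyl r t s)

/-- GNI (MEDIUM, from CYI, LWI, GNA, GNB, GNC): for `r > 0`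
`r φ⁶ = (r φ⁴)^(1/2) (φ⁴)^(1/2) (r φ⁴)^(1/2) ≤ A^(1/2) B^(1/2) C^(1/2)` with
`A(t,z) = ∫_{s>0} s KK(cyl s t z)` (GNA), `B(r,z) = (1/4n) ∫_{|s|<π} r KK(cyl r s z)` (GNB),
`C(r,t) = (1/2) ∫ r KK(cyl r t s) ds` (GNC). By CYI and Tonelli, with `K = ∫ KK φ`:
`∫∫ A = K`, `∫∫ B = K/(4n)`, `∫∫ C = K/2`. LWI (measures restricted to `r > 0`, `|t| < π`):
`∫ φ⁶ ≤ (K³/(8n))^(1/2)`. `KK φ` and `φ` are continuous, so everything is measurable. -/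
def GNI : Prop :=
  ∀ (Ω : Set E3) (n : ℕ) (φ : E3 → ℝ), 1 ≤ n → TestN Ω n φ →
    8 * (n : ℝ≥0∞) * (∫⁻ x, ENNReal.ofReal (φ x ^ 6)) ^ 2 ≤ (∫⁻ x, KK φ x) ^ 3

/-- SOB (EASY-MEDIUM, from GNI): Cauchy-Schwarz `K² ≤ 16 N D`, `N = ∫ φ⁶`, `D = ∫ |∇φ|²`
(`4|φ|³|∇φ|`), so `64 n² N⁴ ≤ K⁶ ≤ 4096 N³ D³`; `N` is finite; if `N > 0` divide by `64 N³`. Convert to
real integrals (continuous functions with compact support). -/
def SOB : Prop :=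
  ∀ (Ω : Set E3) (n : ℕ) (φ : E3 → ℝ), 1 ≤ n → TestN Ω n φ →
    (n : ℝ) ^ 2 * N6 φ ≤ 64 * DD (gr φ) ^ 3

/-! ## Part C: lower bounds of the energy -/

/-- ANG (MEDIUM, from ROT, CYD, CYI, WAP): angular part. By CYI and Tonelli (integrate over `t` first)
it is enough to have for `r > 0`, `z`: `(n²/r²) ∫ φ(cyl r t z)² dt ≤ ∫ (pd 0 φ² + pd 1 φ²)(cyl r t z) dt`:
WAP for `f(t) = φ(cyl r t z)`, `f'² = r² (-sin t pd 0 φ + cos t pd 1 φ)² ≤ r² (pd 0 φ² + pd 1 φ²)`. Add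
`∫ pd 2 φ²` on both sides. -/
def ANG : Prop :=
  ∀ (Ω : Set E3) (n : ℕ) (φ : E3 → ℝ), 1 ≤ n → TestN Ω n φ →
    (∫⁻ x : E3, ENNReal.ofReal ((n : ℝ) ^ 2 / (x 0 ^ 2 + x 1 ^ 2) * φ x ^ 2)) +
      ∫⁻ x, ENNReal.ofReal (pd 2 φ x ^ 2) ≤ ∫⁻ x, ENNReal.ofReal (∑ i, pd i φ x ^ 2)

/-- EZL (MEDIUM, from FU3, WTI): vertical part in the ellipsoid. FU3: for fixed `a, b` with
`s = (a² + b²)/R² < 1` the function `c ↦ φ(a, b, c)` vanishes for `|c| ≥ H = h sqrt(1 - s)`, so WTI on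
`[-H, H]` gives the constant `(π/2H)² = (π/2h)²/(1 - s)`. If `s ≥ 1` then `φ(a, b, ·) = 0`. -/
def EZL : Prop :=
  ∀ (R h : ℝ) (φ : E3 → ℝ), 0 < R → 0 < h → Test (ell R h) φ →
    ∫⁻ x : E3, ENNReal.ofReal
      ((Real.pi / (2 * h)) ^ 2 / (1 - (x 0 ^ 2 + x 1 ^ 2) / R ^ 2) * φ x ^ 2) ≤
      ∫⁻ x, ENNReal.ofReal (pd 2 φ x ^ 2)

/-- VN1 (EASY-MEDIUM, from ANG): on the support of `φ` `n²/(x₀² + x₁²) ≥ n²/R²` (`x₀² + x₁² > 0` almost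
everywhere). -/
def VN1 : Prop :=
  ∀ (Ω : Set E3) (n : ℕ) (φ : E3 → ℝ) (R : ℝ), 1 ≤ n → 0 < R →
    (∀ x ∈ Ω, x 0 ^ 2 + x 1 ^ 2 ≤ R ^ 2) → TestN Ω n φ → ((n : ℝ) / R) ^ 2 * Q2 φ ≤ DD (gr φ)

/-- VN2 (EASY-MEDIUM, from ANG, EZL): with `s = (x₀² + x₁²)/R² ∈ (0, 1)` on the support (almost
everywhere), `a = π/2h`, `b = n/R`: `a²/(1 - s) + b²/s ≥ (a + b)²` (multiply by `(1 - s) + s = 1`). -/
def VN2 : Prop :=
  ∀ (n : ℕ) (φ : E3 → ℝ) (R h : ℝ), 1 ≤ n → 0 < R → 0 < h → TestN (ell R h) n φ →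
    (Real.pi / (2 * h) + n / R) ^ 2 * Q2 φ ≤ DD (gr φ)

/-- PZL (EASY, from EZL): the first eigenvalue of the ellipsoid is at least `(π/2h)²`
(`1/(1 - s) ≥ 1`). -/
def PZL : Prop :=
  ∀ (R h : ℝ) (φ : E3 → ℝ), 0 < R → 0 < h → Test (ell R h) φ →
    (Real.pi / (2 * h)) ^ 2 * Q2 φ ≤ DD (gr φ)

/-! ## Part D: the test function -/

/-- BMP (MEDIUM): nearly optimal bumps. `S = Real.smoothTransition`, `c(x) = cos(π x/2)`,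
`χ_d(y) = y S(y/d - 1)` (smooth, `0` for `y ≤ d`, `y` for `y ≥ 2d`), `ζ_d(x) = χ_d(c(x))` for `|x| < 2`, `0`
otherwise: smooth, even, zero near `1 ≤ |x| ≤ 3`. As `d → 0`: `ζ_d → c` and `ζ_d' → c'` pointwise on
`(-1, 1)`, `|ζ_d| ≤ 1`, `|ζ_d'| ≤ (1 + 2M) π/2` with `M = sup |S'|` (`|y/d| ≤ 2` where `S'(y/d - 1) ≠ 0`). By
dominated convergence `∫ ζ_d² → ∫_{-1}^1 c² = 1`, `∫ ζ_d'² → ∫_{-1}^1 c'² = (π/2)²`. -/
def BMP : Prop :=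
  ∀ ε : ℝ, 0 < ε → ∃ ζ : ℝ → ℝ, Bmp ζ ∧ 0 < ∫ x, ζ x ^ 2 ∧
    ∫ x, deriv ζ x ^ 2 ≤ ((Real.pi / 2) ^ 2 + ε) * ∫ x, ζ x ^ 2

/-- BXF (MEDIUM, from ROT): the box function is in the class. On the open set `x₀² + x₁² > 0` all
factors are smooth; if `sqrt(x₀² + x₁²) < ρ0 - δ` or near the complement of the closed box the
function is `0` in a neighbourhood (`tsupport ζ ⊆ (-1, 1)`). The support is in the closed box, which is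
compact. `Im((x₀ + i x₁)^n)` changes sign under `rot(π/n)` (the point `x₀ + i x₁` is multiplied by
`exp(iπ/n)`), the other factors are invariant. Formula: `Im((r e^{it})^n) = r^n sin(n t)`. -/
def BXF : Prop :=
  ∀ (Ω : Set E3) (n : ℕ) (ζ : ℝ → ℝ) (ρ0 z0 δ η : ℝ), 1 ≤ n → Bmp ζ → 0 < δ → δ < ρ0 → 0 < η →
    boxS ρ0 z0 δ η ⊆ Ω → TestN Ω n (bxf n ζ ρ0 z0 δ η) ∧
      (∀ x, x ∉ boxS ρ0 z0 δ η → bxf n ζ ρ0 z0 δ η x = 0) ∧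
      ∀ r t z : ℝ, 0 < r → bxf n ζ ρ0 z0 δ η (cyl r t z) =
        ζ ((r - ρ0) / δ) * ζ ((z - z0) / η) * Real.sin (n * t)

/-- BXI (MEDIUM, from BXF, CYD, CYI): its integrals. In cylindrical coordinates
`|∇φ|² = (∂_r φ)² + (∂_t φ)²/r² + (∂_z φ)²` (CYD), `φ = ζ((r-ρ0)/δ) ζ((z-z0)/η) sin(nt)`. `∫ sin²(nt) = ∫ cos²(nt) = π`
over `(-π, π)`. `∫ ζ((r-ρ0)/δ)² r dr = ρ0 δ I`, `I = ∫ ζ²` (substitution; the odd part vanishes), the same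
for `ζ'²` (`ζ'` is odd); `∫ ζ((r-ρ0)/δ)²/r dr ≤ (ρ0-δ)^(-2) ρ0 δ I`. -/
def BXI : Prop :=
  ∀ (n : ℕ) (ζ : ℝ → ℝ) (ρ0 z0 δ η : ℝ), 1 ≤ n → Bmp ζ → 0 < δ → δ < ρ0 → 0 < η →
    Q2 (bxf n ζ ρ0 z0 δ η) = Real.pi * ρ0 * δ * η * (∫ x, ζ x ^ 2) ^ 2 ∧
    DD (gr (bxf n ζ ρ0 z0 δ η)) ≤ Real.pi * ρ0 * δ * η *
      ((∫ x, ζ x ^ 2) * (∫ x, deriv ζ x ^ 2) / δ ^ 2 + (∫ x, ζ x ^ 2) * (∫ x, deriv ζ x ^ 2) / η ^ 2 +
        (n : ℝ) ^ 2 / (ρ0 - δ) ^ 2 * (∫ x, ζ x ^ 2) ^ 2)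

/-- BXV (EASY, from CYI): the volume of the box (CYI for the indicator function). -/
def BXV : Prop :=
  ∀ ρ0 z0 δ η : ℝ, 0 < δ → δ < ρ0 → 0 < η → MeasurableSet (boxS ρ0 z0 δ η) ∧
    volume (boxS ρ0 z0 δ η) ≤ ENNReal.ofReal (8 * Real.pi * ρ0 * δ * η)

/-- HOL (EASY): Hölder's inequality `∫ φ² 1_S ≤ (∫ φ⁶)^(1/3) |S|^(2/3)`. -/
def HOL : Prop :=
  ∀ (φ : E3 → ℝ) (S : Set E3) (v : ℝ), Continuous φ → HasCompactSupport φ → MeasurableSet S →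
    (∀ x, x ∉ S → φ x = 0) → 0 ≤ v → volume S ≤ ENNReal.ofReal v → Q2 φ ^ 3 ≤ v ^ 2 * N6 φ

/-- TFC (EASY-MEDIUM, from BMP, BXF, BXI, BXV, HOL): the test function. For `ε > 0` take `ζ` from BMP,
`φ = bxf`: `DD ≤ (Eb + ε (δ^(-2) + η^(-2))) Q2` (BXI), `Q2³ ≤ (8π ρ0 δ η)² N6` (HOL, BXV), `Q2 > 0`, so
`N6 > 0`. With `X = Eb + ε(..) - lam`: if `X ≤ 0` the left side is `≤ 0`; otherwise
`64 X³ Q2³ ≤ 4096 π² X³ (ρ0 δ η)² N6 < n² N6` for small `ε` (continuity). -/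
def TFC : Prop :=
  ∀ (Ω : Set E3) (n : ℕ) (lam ρ0 z0 δ η : ℝ), 1 ≤ n → BC n lam ρ0 δ η → boxS ρ0 z0 δ η ⊆ Ω →
    ∃ φ, TestN Ω n φ ∧ 0 < N6 φ ∧ 64 * (DD (gr φ) - lam * Q2 φ) ^ 3 < (n : ℝ) ^ 2 * N6 φ

end Pool.Agent.Work.MP_d5b3be_an.BN
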