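import Pool.Agent.Work.MP_d5b3be_an.BN.Stmts

/-!
# Block BN, part 2: functional analysis, symmetry, numbers, assembly (statements)

See the header of `Stmts.lean`. Library for `L²` functions on `Fin d → ℝ`, weak gradients
`WP u g` (`MP_2cde6c_an.WP`: for `d = 3` its `fderiv ℝ φ x (Pi.single i 1)` is our `pd i φ x`),
`WP.of_TF` (`Structure.lean`), `WP.of_tendsto`, `WP.sub`, `WP.grad_zero` (`Defs.lean`), `rellich`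
(`Rellich.lean`), the Hilbert space `HS d` (`Form.lean`).
-/

set_option autoImplicit false

namespace Pool.Agent.Work.MP_d5b3be_an.BN

open MeasureTheory Filter Set
open scoped ENNReal Topology ContDiff

/-! ## Definitions -/

/-- the quadratic form `∫|g|² - lam ∫u²` -/
noncomputable def af (lam : ℝ) (u : E3 → ℝ) (g : Fin 3 → E3 → ℝ) : ℝ := DD g - lam * Q2 u

/-- the hypotheses of the existence theorem: a linear class with the Sobolev inequality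
`ν ∫φ⁶ ≤ 64 (∫|∇φ|²)³` and the lower bound `V ∫φ² ≤ ∫|∇φ|²`, `0 < lam < V` -/
def Hy (T : (E3 → ℝ) → Prop) (ν V lam : ℝ) : Prop :=
  Cl T ∧ 0 < ν ∧ (∀ φ, T φ → ν * N6 φ ≤ 64 * DD (gr φ) ^ 3) ∧ 0 < lam ∧ lam < V ∧
    ∀ φ, T φ → V * Q2 φ ≤ DD (gr φ)

/-- the weak equation for the test functions of the class `T` -/
def Eqn (T : (E3 → ℝ) → Prop) (lam : ℝ) (u : E3 → ℝ) (g : Fin 3 → E3 → ℝ) : Prop :=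
  ∀ φ : E3 → ℝ, T φ →
    ∫ x, ∑ i, g i x * pd i φ x = (∫ x, u x ^ 5 * φ x) + lam * ∫ x, u x * φ x

/-- `f k → g` in `L^p` -/
def Cv (p : ℝ≥0∞) (f : ℕ → E3 → ℝ) (g : E3 → ℝ) : Prop :=
  Tendsto (fun k => eLpNorm (fun x => f k x - g x) p volume) atTop (𝓝 0)

/-! ## Part F: functional analysis -/

/-- CLT (EASY): the classes are linear. -/
def CLT : Prop := ∀ Ω : Set E3, Cl (Test Ω) ∧ ∀ n : ℕ, Cl (TestN Ω n)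

/-- WCP (MEDIUM): weak sequential compactness of bounded sets of `L²`. `L² = Lp ℝ 2 volume` is a separable
Hilbert space: `WeakDual.isSeqCompact_closedBall` (or `toDual`, sequential Banach-Alaoglu) and the
Riesz representation give a weakly convergent subsequence; do it for the three components one after
the other (or in the product of three copies). -/
def WCP : Prop :=
  ∀ (f : ℕ → Fin 3 → E3 → ℝ) (C : ℝ), (∀ k i, MemLp (f k i) 2 volume) →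
    (∀ k i, ∫ x, f k i x ^ 2 ≤ C) → ∃ σ : ℕ → ℕ, StrictMono σ ∧ ∃ g : Fin 3 → E3 → ℝ,
      (∀ i, MemLp (g i) 2 volume) ∧ ∀ i, Wk (fun k => f (σ k) i) (g i)

/-- RLS (EASY-MEDIUM): Rellich, from `MP_2cde6c_an.rellich` (`ι = Fin 1`, `S = Ω`, `WP.of_TF`, `nsq`). -/
def RLS : Prop :=
  ∀ (Ω : Set E3) (φ : ℕ → E3 → ℝ) (C : ℝ), Bornology.IsBounded Ω → (∀ k, Test Ω (φ k)) →
    (∀ k, Q2 (φ k) ≤ C ∧ DD (gr (φ k)) ≤ C) → ∃ σ : ℕ → ℕ, StrictMono σ ∧ ∃ u : E3 → ℝ,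
      MemLp u 2 volume ∧ Cv 2 (fun k => φ (σ k)) u

/-- HCW (MEDIUM): weak limits stay in the closure. In the Hilbert space
`X = PiLp 2 (fun _ : Fin 4 => Lp ℝ 2 volume)` let `M` be the submodule of the classes of
`(φ, pd 0 φ, pd 1 φ, pd 2 φ)`, `T φ` (a submodule because `T` is linear and `pd i` is linear on smooth
functions), `K` its topological closure. A vector orthogonal to `K` is orthogonal to all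
`(φ_k, ∇φ_k)`, so (weak convergence) to `(u, g)`; so `(u, g) ∈ Kᗮᗮ = K`
(`Submodule.orthogonal_orthogonal_eq_closure`). So `(u, g)` is the limit of a sequence in `M`
(`mem_closure_iff_seq_limit`). -/
def HCW : Prop :=
  ∀ (T : (E3 → ℝ) → Prop) (φ : ℕ → E3 → ℝ) (u : E3 → ℝ) (g : Fin 3 → E3 → ℝ), Cl T →
    (∀ k, T (φ k)) → MemLp u 2 volume → (∀ i, MemLp (g i) 2 volume) → Wk φ u →
    (∀ i, Wk (fun k => pd i (φ k)) (g i)) → HC T u g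

/-- LCV (EASY-MEDIUM): strong convergence in `L²`: norms and products (Cauchy-Schwarz). -/
def LCV : Prop :=
  ∀ (f : ℕ → E3 → ℝ) (g : E3 → ℝ), (∀ k, MemLp (f k) 2 volume) → MemLp g 2 volume → Cv 2 f g →
    Tendsto (fun k => ∫ x, f k x ^ 2) atTop (𝓝 (∫ x, g x ^ 2)) ∧ Wk f g

/-- L6C (MEDIUM): strong convergence in `L⁶`. `|f⁶ - g⁶| ≤ 6 |f - g| (|f| + |g|)⁵` and
`|f⁵ - g⁵| |h| ≤ 5 |f - g| (|f| + |g|)⁴ |h|`, `|h⁵ f - h⁵ g| = |h|⁵ |f - g|`, Hölder (`‖f_k‖_6` is bounded); for example through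
`MemLp.mul`-type lemmas and `eLpNorm_le_..`, or `L⁶ → L¹`, `f ↦ f⁶`, via
`ENNReal.lintegral_mul_le_Lp_mul_Lq` with exponents `6` and `6/5`. -/
def L6C : Prop :=
  ∀ (f : ℕ → E3 → ℝ) (g : E3 → ℝ), (∀ k, MemLp (f k) 6 volume) → MemLp g 6 volume → Cv 6 f g →
    Tendsto (fun k => ∫ x, f k x ^ 6) atTop (𝓝 (∫ x, g x ^ 6)) ∧
    ∀ h : E3 → ℝ, MemLp h 6 volume →
      Tendsto (fun k => ∫ x, f k x ^ 5 * h x) atTop (𝓝 (∫ x, g x ^ 5 * h x)) ∧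
      Tendsto (fun k => ∫ x, h x ^ 5 * f k x) atTop (𝓝 (∫ x, h x ^ 5 * g x))

/-- HS6 (MEDIUM): convergence of the pairs gives convergence in `L⁶`. By the inequality for
`φ_k - φ_l ∈ T` the sequence is Cauchy in `L⁶` (`DD(gr(φ_k - φ_l)) → 0`), so it converges in `L⁶` to some `u'`
(`Lp ℝ 6 volume` is complete); a subsequence converges almost everywhere, also to `u`, so
`u = u'`. -/
def HS6 : Prop :=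
  ∀ (T : (E3 → ℝ) → Prop) (c : ℝ) (u : E3 → ℝ) (g : Fin 3 → E3 → ℝ) (φ : ℕ → E3 → ℝ), Cl T →
    0 < c → (∀ φ, T φ → c * N6 φ ≤ DD (gr φ) ^ 3) → MemLp u 2 volume →
    (∀ i, MemLp (g i) 2 volume) → (∀ k, T (φ k)) → Cv 2 φ u →
    (∀ i, Cv 2 (fun k => pd i (φ k)) (g i)) → MemLp u 6 volume ∧ Cv 6 φ u

/-- HCL (EASY): the closure is linear (and contains the class). -/
def HCL : Prop :=
  ∀ T : (E3 → ℝ) → Prop, Cl T → (∀ φ, T φ → HC T φ (gr φ)) ∧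
    ∀ (u v : E3 → ℝ) (g f : Fin 3 → E3 → ℝ) (a b : ℝ), HC T u g → HC T v f →
      HC T (fun x => a * u x + b * v x) (fun i x => a * g i x + b * f i x)

/-- HCE (EASY-MEDIUM, from HS6, LCV, L6C): the inequalities extend to the closure (limits of both
sides: `N6 φ_k → N6 u`, `Q2 φ_k → Q2 u`, `DD (gr φ_k) → DD g`). -/
def HCE : Prop :=
  ∀ (T : (E3 → ℝ) → Prop) (c : ℝ) (u : E3 → ℝ) (g : Fin 3 → E3 → ℝ), Cl T → 0 < c →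
    (∀ φ, T φ → c * N6 φ ≤ DD (gr φ) ^ 3) → HC T u g →
    MemLp u 6 volume ∧ c * N6 u ≤ DD g ^ 3 ∧
    (∀ V : ℝ, (∀ φ, T φ → V * Q2 φ ≤ DD (gr φ)) → V * Q2 u ≤ DD g) ∧
    ∀ m lam : ℝ, (∀ φ, T φ → m * N6 φ ≤ af lam φ (gr φ) ^ 3) → m * N6 u ≤ af lam u g ^ 3

/-- BLZ (MEDIUM): Brezis-Lieb for the exponent six. `|(a+b)⁶ - a⁶ - b⁶| ≤ 62 (|a|⁵ |b| + |a| |b|⁵)` (every
mixed term is bounded by one of the two extreme ones). So it is enough that `∫ |u|⁵ |v_k| → 0` and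
`∫ |u| |v_k|⁵ → 0`. Let `w = u` where `|u| ≤ M`, `0` elsewhere, `r = u - w`, `∫ r⁶` small for large `M` (dominated
convergence); `|u|⁵ = |w|⁵ + |r|⁵`. By Hölder `∫ |r|⁵ |v| ≤ (∫ r⁶)^(5/6) (∫ v⁶)^(1/6)`,
`∫ |r| |v|⁵ ≤ (∫ r⁶)^(1/6) (∫ v⁶)^(5/6)`; `∫ |w|⁵ |v| ≤ M⁴ (∫ u²)^(1/2) (∫ v²)^(1/2) → 0`;
`∫ |w| |v|⁵ ≤ M ∫ |v|⁵ ≤ M (∫ v²)^(1/4) (∫ v⁶)^(3/4) → 0`. -/
def BLZ : Prop :=
  ∀ (u : E3 → ℝ) (v : ℕ → E3 → ℝ) (C : ℝ), MemLp u 2 volume → MemLp u 6 volume →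
    (∀ k, MemLp (v k) 2 volume) → (∀ k, MemLp (v k) 6 volume) → (∀ k, ∫ x, v k x ^ 6 ≤ C) →
    Tendsto (fun k => ∫ x, v k x ^ 2) atTop (𝓝 0) →
    Tendsto (fun k => (∫ x, (u x + v k x) ^ 6) - ∫ x, v k x ^ 6) atTop (𝓝 (∫ x, u x ^ 6))

/-- DSP (EASY): `∑_i ∫ f_i² - (f_i - g_i)² = ∑_i (2 ∫ f_i g_i - ∫ g_i²) → ∑_i ∫ g_i²`. -/
def DSP : Prop :=
  ∀ (f : ℕ → Fin 3 → E3 → ℝ) (g : Fin 3 → E3 → ℝ), (∀ k i, MemLp (f k i) 2 volume) →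
    (∀ i, MemLp (g i) 2 volume) → (∀ i, Wk (fun k => f k i) (g i)) →
    Tendsto (fun k => DD (f k) - DD (fun i x => f k i x - g i x)) atTop (𝓝 (DD g))

/-- CON (EASY): strict concavity of the cube root. `x = a/m`, `y = d/m`, `x + y = 1`, `τ ≤ x³ ≤ x`,
`1 - τ ≤ 64 d³/ν = c y³`, `c = 64 m³/ν < 1`. If `y > 0` then `1 ≤ x³ + c y³ < x + y = 1`, a contradiction; so
`d = 0`, `a = m`, `1 - τ ≤ 0`. -/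
def CON : Prop :=
  ∀ m d a τ ν : ℝ, 0 < m → 0 ≤ d → 0 ≤ a → τ ≤ 1 → m = a + d → m ^ 3 * τ ≤ a ^ 3 →
    ν * (1 - τ) ≤ 64 * d ^ 3 → 64 * m ^ 3 < ν → τ = 1 ∧ a = m

/-- INF (EASY-MEDIUM): the infimum `m` of `af lam φ (gr φ)` over `T φ`, `N6 φ = 1`. The set is not empty (scale
the given function: `φ ↦ c φ` has `N6 ↦ c⁶ N6`, `af ↦ c² af`) and `64 m³ < ν`. Lower bound:
`af ≥ (1 - lam/V) DD ≥ (1 - lam/V) (ν/64)^(1/3) > 0` (`ν ≤ 64 DD³`). Scaling gives `m³ N6 φ ≤ af³` if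
`N6 φ > 0`; if `N6 φ = 0` it says `0 ≤ af³`. Minimizing sequence: `exists_seq_tendsto_sInf`. -/
def INF : Prop :=
  ∀ (T : (E3 → ℝ) → Prop) (ν V lam : ℝ), Hy T ν V lam →
    (∃ φ, T φ ∧ 0 < N6 φ ∧ 64 * af lam φ (gr φ) ^ 3 < ν * N6 φ) →
    ∃ m : ℝ, 0 < m ∧ 64 * m ^ 3 < ν ∧ (∀ φ, T φ → m ^ 3 * N6 φ ≤ af lam φ (gr φ) ^ 3) ∧
      ∃ φ : ℕ → E3 → ℝ, (∀ k, T (φ k) ∧ N6 (φ k) = 1) ∧
        Tendsto (fun k => af lam (φ k) (gr (φ k))) atTop (𝓝 m)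

/-- CPT (MEDIUM, from RLS, WCP, LCV, HCW, HCL, HCE, DSP, BLZ, CON): the limit of a minimizing sequence.
`(1 - lam/V) DD(gr φ_k) ≤ af_k`, so `DD` and `Q2 ≤ DD/V` are bounded. Subsequence: `φ_k → u` in `L²` (RLS),
`pd i φ_k → g_i` weakly (WCP); `(u, g) ∈ HC T` (LCV, HCW); `v_k = φ_k - u`, `(v_k, gr φ_k - g) ∈ HC T` (HCL).
HCE (`c = ν/64`) for both: `u, v_k ∈ L⁶`, `ν N6 v_k ≤ 64 DD(gr φ_k - g)³` bounded. `Q2 φ_k → Q2 u`, `Q2 v_k → 0`,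
`DD(gr φ_k) - DD(gr φ_k - g) → DD g` (DSP), `1 - N6 v_k → N6 u =: τ` (BLZ). So
`d_k = DD(gr φ_k - g) → d = m - a`, `a = af lam u g`, and in the limit `ν (1 - τ) ≤ 64 d³`, `m³ τ ≤ a³` (HCE),
`a ≥ (1 - lam/V) DD g ≥ 0`, `τ ≤ 1`. CON. -/
def CPT : Prop :=
  ∀ (Ω : Set E3) (T : (E3 → ℝ) → Prop) (ν V lam m : ℝ) (φ : ℕ → E3 → ℝ), Bornology.IsBounded Ω →
    (∀ φ, T φ → Test Ω φ) → Hy T ν V lam → 0 < m → 64 * m ^ 3 < ν →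
    (∀ φ, T φ → m ^ 3 * N6 φ ≤ af lam φ (gr φ) ^ 3) → (∀ k, T (φ k) ∧ N6 (φ k) = 1) →
    Tendsto (fun k => af lam (φ k) (gr (φ k))) atTop (𝓝 m) →
    ∃ (u : E3 → ℝ) (g : Fin 3 → E3 → ℝ), HC T u g ∧ MemLp u 6 volume ∧ N6 u = 1 ∧ af lam u g = m

/-- EUL (EASY-MEDIUM, from HCL, HCE): the Euler-Lagrange equation. For `w ∈ T` the pair
`(u + t w, g + t gr w)` is in `HC T`, so `f(t) = af(u + t w)³ - m³ N6(u + t w) ≥ 0 = f(0)` (HCE).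
`af(u + t w) = m + 2 t A + t² af(w)`, `A = ∫ ∑ g_i pd i w - lam ∫ u w`, and
`N6(u + t w) = 1 + 6 t ∫ u⁵ w + t² (..)` (a polynomial in `t`; all integrals are finite as `u, w ∈ L⁶`). So
`f'(0) = 6 m² A - 6 m³ ∫ u⁵ w = 0`. -/
def EUL : Prop :=
  ∀ (T : (E3 → ℝ) → Prop) (ν V lam m : ℝ) (u : E3 → ℝ) (g : Fin 3 → E3 → ℝ), Hy T ν V lam →
    0 < m → (∀ φ, T φ → m ^ 3 * N6 φ ≤ af lam φ (gr φ) ^ 3) → HC T u g → MemLp u 6 volume →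
    N6 u = 1 → af lam u g = m → ∀ w, T w →
    (∫ x, ∑ i, g i x * pd i w x) - lam * (∫ x, u x * w x) = m * ∫ x, u x ^ 5 * w x

/-- EXI (EASY-MEDIUM, from INF, CPT, EUL, HCL): existence. `U = m^(1/4) u`, `G = m^(1/4) g`:
`U⁵ = m^(5/4) u⁵`; `N6 U = m^(3/2)`, so `64 (N6 U)² = 64 m³ < ν`. -/
def EXI : Prop :=
  ∀ (Ω : Set E3) (T : (E3 → ℝ) → Prop) (ν V lam : ℝ), Bornology.IsBounded Ω →
    (∀ φ, T φ → Test Ω φ) → Hy T ν V lam →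
    (∃ φ, T φ ∧ 0 < N6 φ ∧ 64 * af lam φ (gr φ) ^ 3 < ν * N6 φ) →
    ∃ (u : E3 → ℝ) (g : Fin 3 → E3 → ℝ), HC T u g ∧ MemLp u 6 volume ∧
      ¬ (u =ᵐ[volume] fun _ => 0) ∧ 64 * N6 u ^ 2 < ν ∧ Eqn T lam u g

/-! ## Part G: symmetry -/

/-- PRM (EASY-MEDIUM, from ROT, TRO): the symmetrization is in the class:
`Pn φ (rot(π/n) x) = (1/2n) ∑ (-1)^k φ(rot((k+1)π/n) x) = -Pn φ (x)` (the term `k + 1 = 2n` is `φ(rot(2π) x) = φ(x)`). -/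
def PRM : Prop :=
  ∀ (Ω : Set E3) (n : ℕ) (φ : E3 → ℝ), RI Ω → 1 ≤ n → Test Ω φ → TestN Ω n (Pn n φ)

/-- PRI (EASY-MEDIUM, from ROT, ROG): for `ψ` in the class
`∫ ψ(x) φ(rot(kπ/n) x) dx = ∫ ψ(rot(-kπ/n) y) φ(y) dy = (-1)^k ∫ ψ φ`; the same for `ψ⁵` and (ROG) for the
gradients (`ψ = (-1)^k ψ ∘ rot(kπ/n)` identically). -/
def PRI : Prop :=
  ∀ (Ω : Set E3) (n : ℕ) (φ ψ : E3 → ℝ), RI Ω → 1 ≤ n → Test Ω φ → TestN Ω n ψ →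
    (∫ x, ∑ i, pd i ψ x * pd i (Pn n φ) x = ∫ x, ∑ i, pd i ψ x * pd i φ x) ∧
    (∫ x, ψ x * Pn n φ x = ∫ x, ψ x * φ x) ∧ ∫ x, ψ x ^ 5 * Pn n φ x = ∫ x, ψ x ^ 5 * φ x

/-- SYM (EASY-MEDIUM, from SOB, CLT, HS6, LCV, L6C, PRM, PRI): symmetric criticality. `ψ_k → u` in the
class (also in `L⁶`, HS6 and SOB). For `φ ∈ Test Ω`, `w = Pn n φ`: both sides for `φ` are limits of the
expressions for `ψ_k`, which by PRI are equal to those with `w`; so the equation for `w` gives the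
equation for `φ`. -/
def SYM : Prop :=
  ∀ (Ω : Set E3) (n : ℕ) (lam : ℝ) (u : E3 → ℝ) (g : Fin 3 → E3 → ℝ), RI Ω → 1 ≤ n →
    HC (TestN Ω n) u g → MemLp u 6 volume → Eqn (TestN Ω n) lam u g → Eqn (Test Ω) lam u g

/-- NSY (EASY, from ROT): limits of functions of the class change sign under the rotation. -/
def NSY : Prop :=
  ∀ (Ω : Set E3) (n : ℕ) (u : E3 → ℝ) (g : Fin 3 → E3 → ℝ), HC (TestN Ω n) u g → Anti n u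

/-- ROS (MEDIUM, from ROT, ROG, TRO): rotated solutions are solutions. The weak gradient of
`u ∘ rot t` is `x ↦ ∑_j Rm t j i * g_j(rot t x)` (approximate by `φ_k ∘ rot t`, ROG). In the equation put
`φ = ψ ∘ rot t`, `ψ = φ ∘ rot(-t) ∈ Test Ω`; `∑_i (Rm t j i)(Rm t k i) = δ_jk`; change variables. -/
def ROS : Prop :=
  ∀ (Ω : Set E3) (lam t : ℝ) (u : E3 → ℝ), RI Ω → IsSol Ω lam u →
    IsSol Ω lam (fun x => u (rot t x))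

/-- DIS (EASY-MEDIUM, from ROT): the rotated functions are different. Suppose
`u ∘ rot a = u ∘ rot b` almost everywhere, `a = π/(n 2^i)`, `b = π/(n 2^j)`, `i < j`. Then
`u ∘ rot(a - b) = u`, so `u ∘ rot(2^j (a - b)) = u`, and `2^j (a - b) = (2^(j-i) - 1) π/n` is an odd multiple of
`π/n`, so by `Anti` it is also `-u`: `u = 0`. -/
def DIS : Prop :=
  ∀ (n : ℕ) (u : E3 → ℝ), 1 ≤ n → ¬ (u =ᵐ[volume] fun _ => 0) → Anti n u → ∀ i j : ℕ, i ≠ j →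
    ¬ ((fun x => u (rot (Real.pi / (n * 2 ^ i)) x)) =ᵐ[volume]
      fun x => u (rot (Real.pi / (n * 2 ^ j)) x))

/-- LCM (EASY-MEDIUM, from ROT): two signs. `γ = gcd(n, m)`, `n = γ n'`, `m = γ m'`, `L = γ n' m' = n m'`:
`π/n = m' π/L`, `π/m = n' π/L`. Bezout `a m' + b n' = 1` (integers): `u ∘ rot(π/L) = (-1)^(a+b) u`. If `a + b` is even
then `u ∘ rot(π/L) = u`, so `u ∘ rot(π/n) = u = -u`, `u = 0`. So `a + b` is odd and `Anti L u`. `m' > n' ≥ 1`;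
`m' = 2` would give `n' = 1`, `m = 2n = L`, `u ∘ rot(π/n) = (-1)² u = u`, again `u = 0`. So `m' ≥ 3`,
`L ≥ 3n`. -/
def LCM : Prop :=
  ∀ (n m : ℕ) (u : E3 → ℝ), 1 ≤ n → n < m → ¬ (u =ᵐ[volume] fun _ => 0) → Anti n u → Anti m u →
    ∃ L : ℕ, 3 * n ≤ L ∧ Anti L u

/-- UNI (EASY-MEDIUM): the weak gradient is unique. `HC (Test Ω) u g` gives `MP_2cde6c_an.WP u g`
(`WP.of_TF`, `WP.of_tendsto`); then `WP.sub` and `WP.grad_zero` on the whole space. -/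
def UNI : Prop :=
  ∀ (Ω : Set E3) (u : E3 → ℝ) (g g' : Fin 3 → E3 → ℝ), HC (Test Ω) u g → HC (Test Ω) u g' →
    ∀ i, g i =ᵐ[volume] g' i

/-- PRL (MEDIUM, from ROT, ROG, PRM, UNI): `u ∈ H¹₀(Ω)` with `Anti L u` is in the class of `L`: `φ_k → u`,
`ψ_k = Pn L φ_k ∈ TestN Ω L`. `u ∘ rot(kπ/L) = (-1)^k u`, so `ψ_k → u` in `L²`; `pd i ψ_k` converges in `L²` to
`g'_i = (1/2L) ∑_k (-1)^k ∑_j Rm(kπ/L) j i * g_j ∘ rot(kπ/L)`. So `HC (TestN Ω L) u g'`; by UNI `g' = g`. -/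
def PRL : Prop :=
  ∀ (Ω : Set E3) (L : ℕ) (u : E3 → ℝ) (g : Fin 3 → E3 → ℝ), RI Ω → 1 ≤ L → HC (Test Ω) u g →
    Anti L u → HC (TestN Ω L) u g

/-- ENE (EASY-MEDIUM, from SOB, CLT, HS6, LCV, L6C): the equation for `φ_k → u` (`φ_k` in the class `TestN Ω n`,
convergence also in `L⁶`): `∫ ∑ g_i pd i φ_k → DD g`, `∫ u⁵ φ_k → N6 u`, `∫ u φ_k → Q2 u`. -/
def ENE : Prop :=
  ∀ (Ω : Set E3) (n : ℕ) (lam : ℝ) (u : E3 → ℝ) (g : Fin 3 → E3 → ℝ), 1 ≤ n →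
    HC (TestN Ω n) u g → MemLp u 6 volume → Eqn (Test Ω) lam u g → DD g - lam * Q2 u = N6 u

/-- LOW (EASY-MEDIUM, from SOB, VN1, CLT, HCE, ENE): lower bound. `D = DD g`, `N = N6 u > 0`:
`lam Q2 ≤ lam R²/L² D ≤ D/9` (VN1, HCE), so `N = D - lam Q2 ≥ (8/9) D` (ENE); `L² N ≤ 64 D³` (SOB, HCE), so
`729 · 64 N³ ≥ 512 · 64 D³ ≥ 512 L² N`. -/
def LOW : Prop :=
  ∀ (Ω : Set E3) (L : ℕ) (lam R : ℝ) (u : E3 → ℝ) (g : Fin 3 → E3 → ℝ), 1 ≤ L → 0 < R →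
    (∀ x ∈ Ω, x 0 ^ 2 + x 1 ^ 2 ≤ R ^ 2) → 0 < lam → 9 * lam * R ^ 2 ≤ (L : ℝ) ^ 2 →
    HC (TestN Ω L) u g → MemLp u 6 volume → ¬ (u =ᵐ[volume] fun _ => 0) → Eqn (Test Ω) lam u g →
    512 * (L : ℝ) ^ 2 ≤ 46656 * N6 u ^ 2

/-- INE (EASY-MEDIUM, from ROT, LCM, PRL, LOW): solutions of different classes are not related. If
`u = ± v ∘ rot t` then `Anti m u` (rotations commute). LCM: `L ≥ 3n`, `Anti L u`. PRL: `u` is in the class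
of `L`; `9 lam R² ≤ 9 n² ≤ L²`; LOW: `4608 n² ≤ 512 L² ≤ 46656 (N6 u)² < 729 n²`, a contradiction. -/
def INE : Prop :=
  ∀ (Ω : Set E3) (n m : ℕ) (lam R t : ℝ) (u v : E3 → ℝ), RI Ω → 1 ≤ n → n < m → 0 < R →
    (∀ x ∈ Ω, x 0 ^ 2 + x 1 ^ 2 ≤ R ^ 2) → 0 < lam → lam * R ^ 2 ≤ (n : ℝ) ^ 2 →
    IsSol Ω lam u → 64 * N6 u ^ 2 < (n : ℝ) ^ 2 → Anti n u → Anti m v →
    ¬ (u =ᵐ[volume] fun x => v (rot t x)) ∧ ¬ (u =ᵐ[volume] fun x => -v (rot t x))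

/-! ## Part N: numbers and domains -/

/-- ELL (EASY): the ellipsoid. -/
def ELL : Prop :=
  ∀ R h : ℝ, 0 < R → 0 < h → RI (ell R h) ∧ IsOpen (ell R h) ∧ Bornology.IsBounded (ell R h)

/-- BXE (EASY): boxes in the ellipsoid. -/
def BXE : Prop :=
  ∀ R h ρ0 δ η : ℝ, 0 < R → 0 < h → 0 < δ → δ < ρ0 → 0 < η →
    (ρ0 + δ) ^ 2 / R ^ 2 + η ^ 2 / h ^ 2 < 1 → boxS ρ0 0 δ η ⊆ ell R h

/-- RIM (EASY-MEDIUM): `R = sup ρ`, `ρ(x) = sqrt(x₀² + x₁²)`, over `Ω`; `R > 0` because `Ω` is open and not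
empty. Take `p ∈ Ω` with `ρ(p) > (1 - ε/2) R`; by the rotations the point `(ρ(p), 0, p₂)` is in `Ω`, a
small cube around it too, and by the rotations the box `boxS ρ(p) p₂ η η`. (`0 < ε < 1`.) -/
def RIM : Prop :=
  ∀ Ω : Set E3, IsOpen Ω → Ω.Nonempty → Bornology.IsBounded Ω → RI Ω → ∃ R : ℝ, 0 < R ∧
    (∀ x ∈ Ω, x 0 ^ 2 + x 1 ^ 2 ≤ R ^ 2) ∧ ∀ ε : ℝ, 0 < ε → ε < 1 → ∃ ρ1 z1 η : ℝ, 0 < η ∧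
      η < ρ1 ∧ (1 - ε) * R ≤ ρ1 - η ∧ ρ1 ≤ R ∧ boxS ρ1 z1 η η ⊆ Ω

/-- NT1 (EASY): numbers for (1). `δ = 10⁴ R/n ≤ η`: `(π/2δ)² · 2 ≤ 4.94·10⁻⁸ n²/R²`, `ρ1 - δ ≥ (1 - 10⁻⁸) R`, so
`n²/(ρ1-δ)² ≤ (1 + 2.1·10⁻⁸) n²/R²`; `Eb - lam ≤ 8.1·10⁻⁸ n²/R²`; `(ρ1 δ²)² ≤ 10¹⁶ R⁶/n⁴`; the left side of the
box condition is `≤ 0.22 n²`. -/
def NT1 : Prop :=
  ∀ (n : ℕ) (R lam η ρ1 : ℝ), 0 < R → 1 ≤ n → 0 < η → η < ρ1 →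
    (1 - 1 / 10 ^ 8) * R ≤ ρ1 - η → ρ1 ≤ R → (1 - 1 / 10 ^ 8) * (n : ℝ) ^ 2 ≤ lam * R ^ 2 →
    10 ^ 4 * R ≤ n * η → BC n lam ρ1 (10 ^ 4 * R / n) (10 ^ 4 * R / n)

/-- CNT (EASY-MEDIUM): counting. `a = ⌊R√lam⌋ + 1`, `b = ⌊(1 + 4·10⁻⁹) R√lam⌋ + 1`, `c = 10⁻⁹ R`; for
`a ≤ n < b`: `R√lam < n ≤ (1 + 4·10⁻⁹) R√lam`, `(1 - 10⁻⁸)(1 + 4·10⁻⁹)² ≤ 1`. -/
def CNT : Prop :=
  ∀ R N0 : ℝ, 0 < R → ∃ Λ c : ℝ, 0 < c ∧ ∀ lam : ℝ, Λ ≤ lam → 0 < lam ∧ ∃ a b : ℕ, a ≤ b ∧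
    c * Real.sqrt lam ≤ (b : ℝ) - a ∧ ∀ n : ℕ, a ≤ n → n < b →
      N0 ≤ n ∧ 1 ≤ n ∧ lam < ((n : ℝ) / R) ^ 2 ∧ (1 - 1 / 10 ^ 8) * (n : ℝ) ^ 2 ≤ lam * R ^ 2

/-- SEL (EASY-MEDIUM): the choice of `n` for (2): the least `n ≥ 1` with `lam < V_n`,
`V_n = (π/(2(1+κ)h) + n/((1+κ)R))² = (1+κ)⁻² W²`, `W = a + n/R`, `a = π/(2h)`. `1/R ≤ κ/h ≤ 0.64 κ a`. If
`n ≥ 2` then `lam ≥ V_(n-1) = (1+κ)⁻² (W - 1/R)² ≥ (1 - 2κ)(1 - 1.28κ) W²`; if `n = 1` then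
`lam ≥ (1-κ) a² ≥ (1-κ)(1 - 1.28κ) W²` (`W ≤ a (1 + 0.64κ)`). -/
def SEL : Prop :=
  ∀ κ R h lam : ℝ, 0 < κ → κ ≤ 1 / 100 → 0 < h → h ≤ κ * R →
    (1 - κ) * (Real.pi / (2 * h)) ^ 2 ≤ lam → ∃ n : ℕ, 1 ≤ n ∧
      lam < (Real.pi / (2 * ((1 + κ) * h)) + n / ((1 + κ) * R)) ^ 2 ∧
      (1 - 4 * κ) * (Real.pi / (2 * h) + n / R) ^ 2 ≤ lam

/-- NU1 (EASY-MEDIUM): small `n`. `a = π/(2h)`. `ρ0 = 10⁵ n h`, `δ = 10⁵ h/2`, `η = (1 - 3·10⁻¹⁰) h`.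
`(ρ0+δ)²/R² ≤ 2.25·10¹⁰ n² h²/R² ≤ 5.56·10⁻¹⁰` as `n/R ≤ a/10¹⁰`. `(π/2δ)² = 4·10⁻¹⁰ a²`,
`n²/(ρ0-δ)² ≤ 4/(10¹⁰ h²) ≤ 1.63·10⁻¹⁰ a²`, `(π/2η)² ≤ (1 + 6.1·10⁻¹⁰) a²`, `lam ≥ (1 - 4·10⁻⁶⁰) a²`: so
`Eb - lam ≤ 1.2·10⁻⁹ a²`; `(ρ0 δ η)² ≤ 10²⁰ n² h⁶/4`, `a⁶ h⁶ = (π/2)⁶ ≤ 15.1`: left side `≤ 0.03 n²`. -/
def NU1 : Prop :=
  ∀ (n : ℕ) (R h lam : ℝ), 0 < h → h ≤ 1 / 10 ^ 60 * R → 1 ≤ n →
    (1 - 4 / 10 ^ 60) * (Real.pi / (2 * h) + n / R) ^ 2 ≤ lam →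
    10 ^ 10 * (n : ℝ) ≤ Real.pi / (2 * h) * R →
    ∃ ρ0 δ η : ℝ, BC n lam ρ0 δ η ∧ (ρ0 + δ) ^ 2 / R ^ 2 + η ^ 2 / h ^ 2 < 1

/-- NU2 (MEDIUM): intermediate `n`. `a = π/(2h)`, `b = n/R`, `t = b/(a+b)` (the minimum of
`a²/(1-t) + b²/t` is `(a+b)²`), `10⁻¹⁰ ≤ b/a ≤ 10⁹`, so `t ≥ 5·10⁻¹¹`, `1 - t ≥ 5·10⁻¹⁰`. `δ = 10⁷ h`,
`ρ0 = R sqrt t`, `η = h sqrt(1 - t - 4δ/R)`; `δ/R ≤ 10⁻⁵³`. `(ρ0+δ)²/R² ≤ t + 3δ/R`. `(π/2η)² = a²/(1-t-4δ/R) ≤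
(1 + 10⁻⁴⁰) a²/(1-t)`, `n²/(ρ0-δ)² ≤ (1 + 10⁻⁴⁰) b²/t`, `(π/2δ)² = 10⁻¹⁴ a²`; so
`Eb - lam ≤ 10⁻¹⁴ a² + 2·10⁻⁴⁰ (a+b)² ≤ 1.1·10⁻¹⁴ a²`. `(ρ0 δ η)² ≤ 10¹⁴ R² h⁴`, `a⁶ R² h⁴ = (π/2)⁴ (aR)²`,
`aR ≤ 10¹⁰ n`: left side `≤ 0.01 n²`. -/
def NU2 : Prop :=
  ∀ (n : ℕ) (R h lam : ℝ), 0 < h → h ≤ 1 / 10 ^ 60 * R → 1 ≤ n →
    (1 - 4 / 10 ^ 60) * (Real.pi / (2 * h) + n / R) ^ 2 ≤ lam →
    Real.pi / (2 * h) * R ≤ 10 ^ 10 * n → (n : ℝ) ≤ 10 ^ 9 * (Real.pi / (2 * h) * R) →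
    ∃ ρ0 δ η : ℝ, BC n lam ρ0 δ η ∧ (ρ0 + δ) ^ 2 / R ^ 2 + η ^ 2 / h ^ 2 < 1

/-- NU3 (EASY-MEDIUM): large `n`. `a = π/(2h)`. `ρ0 = (1 - 5·10⁻⁹) R`, `δ = η = 10⁴ R/n`. `n ≥ 10⁹ a R`, so
`δ/h ≤ 10⁻⁵/(π/2)`, `δ/R = 10⁴/n ≤ 10⁻⁶⁰`; `(ρ0+δ)²/R² + δ²/h² ≤ 1 - 10⁻⁸ + 5·10⁻¹¹ < 1`. `(π/2δ)² · 2 ≤
4.94·10⁻⁸ n²/R²`, `n²/(ρ0-δ)² ≤ (1 + 1.3·10⁻⁸) n²/R²`, `lam ≥ (1 - 4·10⁻⁶⁰) n²/R²`:
`Eb - lam ≤ 6.3·10⁻⁸ n²/R²`; `(ρ0 δ²)² ≤ 10¹⁶ R⁶/n⁴`: left side `≤ 0.11 n²`. -/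
def NU3 : Prop :=
  ∀ (n : ℕ) (R h lam : ℝ), 0 < h → h ≤ 1 / 10 ^ 60 * R → 1 ≤ n →
    (1 - 4 / 10 ^ 60) * (Real.pi / (2 * h) + n / R) ^ 2 ≤ lam →
    10 ^ 9 * (Real.pi / (2 * h) * R) ≤ n →
    ∃ ρ0 δ η : ℝ, BC n lam ρ0 δ η ∧ (ρ0 + δ) ^ 2 / R ^ 2 + η ^ 2 / h ^ 2 < 1

/-! ## Part Z: assembly -/

/-- CRI (EASY, from CLT, SOB, TFC, EXI, SYM, NSY): the criterion. `T = TestN Ω n`, `ν = n²`. (`HC (TestN Ω n)`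
implies `HC (Test Ω)`.) -/
def CRI : Prop :=
  ∀ (Ω : Set E3) (n : ℕ) (V lam ρ0 z0 δ η : ℝ), Bornology.IsBounded Ω → RI Ω → 1 ≤ n →
    0 < lam → lam < V → (∀ φ, TestN Ω n φ → V * Q2 φ ≤ DD (gr φ)) → BC n lam ρ0 δ η →
    boxS ρ0 z0 δ η ⊆ Ω →
    ∃ u, IsSol Ω lam u ∧ 64 * N6 u ^ 2 < (n : ℝ) ^ 2 ∧ Anti n u

/-- PT1 (EASY-MEDIUM, from ROT, CRI, VN1, RIM, NT1, CNT, ROS, DIS, INE): part (1). RIM with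
`ε = 10⁻⁸`; CNT with `N0 = 10⁴ R/η`; for `a ≤ n < b` NT1 and VN1 (`V = (n/R)²`) give the hypotheses of CRI
(`boxS ρ1 z1 δ δ ⊆ boxS ρ1 z1 η η`): `u_n`. `N = b - a`, `U i j = u_(a+i) ∘ rot(π/((a+i) 2^j))`. Different `j`: DIS.
Different `i`: INE (for the smaller of the two numbers; `U = ± U' ∘ rot t` means
`u_n = ± u_m ∘ rot t'`). -/
def PT1 : Prop :=
  ∀ Ω : Set E3, IsOpen Ω → Ω.Nonempty → Bornology.IsBounded Ω → RI Ω → ∃ Λ c : ℝ, 0 < c ∧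
    ∀ lam : ℝ, Λ ≤ lam → ∃ (N : ℕ) (U : Fin N → ℕ → E3 → ℝ), c * Real.sqrt lam ≤ N ∧
      (∀ i j, IsSol Ω lam (U i j)) ∧
      (∀ i j j', j ≠ j' → ¬ (U i j =ᵐ[volume] U i j')) ∧
      ∀ i i', i ≠ i' → ∀ (j j' : ℕ) (t : ℝ),
        ¬ (U i j =ᵐ[volume] fun x => U i' j' (rot t x)) ∧
        ¬ (U i j =ᵐ[volume] fun x => -U i' j' (rot t x))

/-- PT2 (EASY-MEDIUM, from CRI, VN2, ELL, BXE, SEL, NU1, NU2, NU3, ROS, DIS): part (2), `κ = 10⁻⁶⁰`. SEL gives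
`n`; one of NU1, NU2, NU3 gives the box in `ell R h ⊆ Ω` (BXE); VN2 for `ell ((1+κ)R) ((1+κ)h) ⊇ Ω` gives
`V`; CRI, ROS, DIS. -/
def PT2 : Prop :=
  ∃ κ : ℝ, 0 < κ ∧ κ < 1 ∧ ∀ (Ω : Set E3) (R h lam : ℝ), IsOpen Ω → RI Ω → 0 < h → h ≤ κ * R →
    ell R h ⊆ Ω → Ω ⊆ ell ((1 + κ) * R) ((1 + κ) * h) →
    (1 - κ) * (Real.pi / (2 * h)) ^ 2 ≤ lam →
    ∃ U : ℕ → E3 → ℝ, (∀ j, IsSol Ω lam (U j)) ∧ ∀ i j, i ≠ j → ¬ (U i =ᵐ[volume] U j)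

end Pool.Agent.Work.MP_d5b3be_an.BN
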