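import Pool.Agent.Work.MP_d5b3be_an.BN.Stmts2

/-!
# Block BN, part 3: convex bodies of revolution (statements)

THEOREM. There are absolute constants `C, c > 0` such that for every bounded open CONVEX body of
revolution `Ω` and every `lam ≥ C lam1 Ω` (`lam1` the first Dirichlet eigenvalue) there are infinitely
many solutions, in at least `c sqrt(lam/lam1)` families. (From the ring theorem `Asm_ring`.)
-/

set_option autoImplicit false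

namespace Pool.Agent.Work.MP_d5b3be_an.BN

open MeasureTheory Filter Set
open scoped ENNReal Topology ContDiff

/-- the first Dirichlet eigenvalue -/
noncomputable def lam1 (Ω : Set E3) : ℝ :=
  sInf {q | ∃ φ : E3 → ℝ, Test Ω φ ∧ 0 < ∫ x, φ x ^ 2 ∧
    q = (∫ x, ∑ i, pd i φ x ^ 2) / ∫ x, φ x ^ 2}

/-- NZT (EASY): a nonzero test function: a smooth bump function (`ContDiffBump` on `Fin 3 → ℝ`, or
`exists_contDiff_tsupport_subset`). -/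
def NZT : Prop :=
  ∀ Ω : Set E3, IsOpen Ω → Ω.Nonempty → ∃ φ : E3 → ℝ, Test Ω φ ∧ 0 < ∫ x, φ x ^ 2

/-- EG2 (EASY-MEDIUM, from FU3, WTI): the eigenvalue of a subset of a cylinder. WTI in the direction of
`x₂` on `[a, b]` (every point of the support has `a ≤ x₂ ≤ b`, and `φ` vanishes for `x₂ = a` and `x₂ = b`
because it is continuous and zero outside) gives `(π/(b-a))² ∫ φ² ≤ ∫ (pd 2 φ)²`; in the direction of
`x₀` on `[-R, R]` `(π/2R)² ∫ φ² ≤ ∫ (pd 0 φ)²` (use WTI on the slightly larger intervals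
`[-R-ε, R+ε]`, `[a-ε, b+ε]`, `ε → 0`, if the boundary points make trouble). Add. -/
def EG2 : Prop :=
  ∀ (Ω : Set E3) (R a b : ℝ) (φ : E3 → ℝ), 0 < R → a < b →
    (∀ x ∈ Ω, x 0 ^ 2 + x 1 ^ 2 ≤ R ^ 2 ∧ a ≤ x 2 ∧ x 2 ≤ b) → Test Ω φ →
    ((Real.pi / (2 * R)) ^ 2 + (Real.pi / (b - a)) ^ 2) * (∫ x, φ x ^ 2) ≤ ∫ x, ∑ i, pd i φ x ^ 2

/-- CVR (MEDIUM): the ring of a convex body. `ρ(x) = sqrt(x₀² + x₁²)`. `R = sup ρ`, `a = inf x₂`, `b = sup x₂` over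
`Ω` (`R > 0`, `a < b`: `Ω` is open and not empty), `H = b - a`. Take `p ∈ Ω` with `ρ(p) > (1 - 10⁻¹⁰) R` and
`q, q' ∈ Ω` with `q₂ > b - H/100`, `q'₂ < a + H/100`. By the rotation by `π` and convexity the axis points
`(0, 0, q₂)`, `(0, 0, q'₂)` are in `Ω`, and by convexity and the rotations every point with
`ρ = s ρ(p)`, `s p₂ + (1-s) q'₂ ≤ x₂ ≤ s p₂ + (1-s) q₂`, `0 ≤ s ≤ 1` is in `Ω`. Put
`ρ1 = (1 - 5·10⁻⁹) R`, `η = 4·10⁻¹⁰ min R H`, `S = (ρ1 + η)/ρ(p)`, `m = (q₂ + q'₂)/2`, `z1 = S p₂ + (1-S) m`. For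
`|ρ - ρ1| ≤ η`, `|x₂ - z1| ≤ η`: `s = ρ/ρ(p) ∈ [S - 3η/R, S]`, `1 - S ≥ 4·10⁻⁹`,
`|x₂ - (s p₂ + (1-s) m)| ≤ η + (3η/R) H ≤ 1.6·10⁻⁹ H ≤ (1-s)(q₂ - q'₂)/2` (as `min R H · H/R ≤ H`,
`q₂ - q'₂ ≥ 0.98 H`). -/
def CVR : Prop :=
  ∀ Ω : Set E3, IsOpen Ω → Ω.Nonempty → Bornology.IsBounded Ω → Convex ℝ Ω → RI Ω →
    ∃ R a b ρ1 z1 : ℝ, 0 < R ∧ a < b ∧
      (∀ x ∈ Ω, x 0 ^ 2 + x 1 ^ 2 ≤ R ^ 2 ∧ a ≤ x 2 ∧ x 2 ≤ b) ∧
      4 / 10 ^ 10 * min R (b - a) < ρ1 ∧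
      (1 - 1 / 10 ^ 8) * R ≤ ρ1 - 4 / 10 ^ 10 * min R (b - a) ∧ ρ1 ≤ R ∧
      boxS ρ1 z1 (4 / 10 ^ 10 * min R (b - a)) (4 / 10 ^ 10 * min R (b - a)) ⊆ Ω

end Pool.Agent.Work.MP_d5b3be_an.BN
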