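import Pool.Agent.Work.MP_d5b3be_an.BN.Stmts

/-!
# Block BN, item ZBD: the sup bound
-/

set_option autoImplicit false

namespace Pool.Agent.Work.MP_d5b3be_an.BN

open MeasureTheory Filter Set
open scoped ENNReal Topology ContDiff

/-- a zero in each interval of length `P` -/
theorem ZBD_zero (f : ℝ → ℝ) (P : ℝ) (hP : 0 < P) (hf : Continuous f)
    (hper : ∀ t, f (t + P) = -f t) (t : ℝ) : ∃ t₀ ∈ Icc (t - P) t, f t₀ = 0 := by
  have h1 : f t = -f (t - P) := by
    have := hper (t - P)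
    rwa [sub_add_cancel] at this
  have hle : t - P ≤ t := by linarith
  rcases le_total (f t) 0 with h | h
  · have h2 : (0 : ℝ) ∈ Icc (f t) (f (t - P)) := ⟨h, by linarith⟩
    obtain ⟨s, hs, hs0⟩ := intermediate_value_Icc' hle hf.continuousOn h2
    exact ⟨s, hs, hs0⟩
  · have h2 : (0 : ℝ) ∈ Icc (f (t - P)) (f t) := ⟨by linarith, h⟩
    obtain ⟨s, hs, hs0⟩ := intermediate_value_Icc hle hf.continuousOn h2
    exact ⟨s, hs, hs0⟩

/-- Item ZBD -/
theorem prfZBD : ZBD := by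
  intro f n hn hf hper t
  obtain ⟨P, hP⟩ : ∃ P : ℝ, P = Real.pi / n := ⟨_, rfl⟩
  rw [← hP] at hper
  have hn0 : (0 : ℝ) < n := by exact_mod_cast hn
  have hPpos : 0 < P := by
    rw [hP]
    exact div_pos Real.pi_pos hn0
  have hdf : Differentiable ℝ f := hf.differentiable one_ne_zero
  have hcd : Continuous (deriv f) := hf.continuous_deriv le_rfl
  have hcf : Continuous f := hf.continuous
  obtain ⟨G, hG⟩ : ∃ G : ℝ → ℝ, G = fun s => 4 * |f s| ^ 3 * |deriv f s| := ⟨_, rfl⟩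
  have hGc : Continuous G := by
    rw [hG]
    exact (continuous_const.mul (hcf.abs.pow 3)).mul hcd.abs
  have hGi : ∀ a b : ℝ, IntervalIntegrable G volume a b := fun a b => hGc.intervalIntegrable a b
  have hderiv : ∀ s, deriv f (s + P) = -deriv f s := by
    intro s
    have h1 : (fun x => f (x + P)) = fun x => -f x := funext hper
    have h2 : deriv (fun x => f (x + P)) s = deriv (fun x => -f x) s := by rw [h1]
    rw [deriv_comp_add_const] at h2
    rw [h2]
    exact (hdf s).hasDerivAt.neg.deriv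
  have hGper : Function.Periodic G P := by
    intro s
    rw [hG]
    show 4 * |f (s + P)| ^ 3 * |deriv f (s + P)| = 4 * |f s| ^ 3 * |deriv f s|
    rw [hper, hderiv, abs_neg, abs_neg]
  have hF : ∀ s, HasDerivAt (fun x => f x ^ 4) (4 * f s ^ 3 * deriv f s) s := by
    intro s
    have h1 : HasDerivAt (fun x => f x ^ 4) (((4 : ℕ) : ℝ) * f s ^ (4 - 1) * deriv f s) s :=
      (hdf s).hasDerivAt.fun_pow 4
    have h2 : ((4 : ℕ) : ℝ) * f s ^ (4 - 1) * deriv f s = 4 * f s ^ 3 * deriv f s := by norm_num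
    rwa [h2] at h1
  have hFc : Continuous fun s => 4 * f s ^ 3 * deriv f s :=
    (continuous_const.mul (hcf.pow 3)).mul hcd
  have habs : ∀ s, |4 * f s ^ 3 * deriv f s| = G s := by
    intro s
    rw [hG]
    show |4 * f s ^ 3 * deriv f s| = 4 * |f s| ^ 3 * |deriv f s|
    rw [abs_mul, abs_mul, abs_pow]
    norm_num
  have hint : ∀ a b : ℝ, a ≤ b → |f b ^ 4 - f a ^ 4| ≤ ∫ s in a..b, G s := by
    intro a b hab
    have h1 : ∫ s in a..b, 4 * f s ^ 3 * deriv f s = f b ^ 4 - f a ^ 4 :=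
      intervalIntegral.integral_eq_sub_of_hasDerivAt (fun s _ => hF s) (hFc.intervalIntegrable a b)
    rw [← h1]
    refine (intervalIntegral.abs_integral_le_integral_abs hab).trans (le_of_eq ?_)
    exact intervalIntegral.integral_congr fun s _ => habs s
  obtain ⟨t₀, ht, h0⟩ := ZBD_zero f P hPpos hcf hper t
  have h0' : f (t₀ + P) = 0 := by rw [hper, h0, neg_zero]
  have h1 := hint t₀ t ht.2
  have h2 := hint t (t₀ + P) (by linarith [ht.1])
  rw [h0] at h1
  rw [h0'] at h2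
  have h3 : (0 : ℝ) ≤ f t ^ 4 := by positivity
  have h4 : |f t ^ 4 - 0 ^ 4| = f t ^ 4 := by
    rw [zero_pow (by norm_num), sub_zero, abs_of_nonneg h3]
  have h5 : |(0 : ℝ) ^ 4 - f t ^ 4| = f t ^ 4 := by
    rw [zero_pow (by norm_num), zero_sub, abs_neg, abs_of_nonneg h3]
  rw [h4] at h1
  rw [h5] at h2
  have h6 : (∫ s in t₀..t, G s) + ∫ s in t..(t₀ + P), G s = ∫ s in t₀..(t₀ + P), G s :=
    intervalIntegral.integral_add_adjacent_intervals (hGi _ _) (hGi _ _)
  have h7 : ∫ s in t₀..(t₀ + P), G s = ∫ s in (-Real.pi)..(-Real.pi + P), G s :=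
    hGper.intervalIntegral_add_eq t₀ (-Real.pi)
  have h8 : ∫ s in (-Real.pi)..(-Real.pi + ((2 * n : ℕ) : ℤ) • P), G s =
      ((2 * n : ℕ) : ℤ) • ∫ s in (-Real.pi)..(-Real.pi + P), G s :=
    hGper.intervalIntegral_add_zsmul_eq ((2 * n : ℕ) : ℤ) (-Real.pi) hGi
  have h9 : -Real.pi + ((2 * n : ℕ) : ℤ) • P = Real.pi := by
    rw [zsmul_eq_mul, hP]
    push_cast
    field_simp
    ring
  rw [h9, zsmul_eq_mul] at h8
  push_cast at h8
  have h10 : ∫ s in (-Real.pi)..Real.pi, 4 * |f s| ^ 3 * |deriv f s| =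
      ∫ s in (-Real.pi)..Real.pi, G s := by rw [hG]
  rw [h10, h8, ← h7, ← h6]
  nlinarith

end Pool.Agent.Work.MP_d5b3be_an.BN
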